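import Pool.Agent.Lib.MP_d48993_lc.AE.Interfaces

/-!
# Rigid systems (MP_d48993): texts (finding 4168)

A text is a list of numbers (moves): junk, `N m` (the open level is closed as a null level
with counter `m`), `C s n` (it is closed as a value level with the string `s`; the stage `n` is
announced), `R k p` (the level `k` is reopened with the payment `p`).
-/

set_option autoImplicit false

namespace Pool.Agent.Lib.MP_d48993_lc.Txt

open MP_8c048d_lc (pre join RecF)

/-! ## Moves -/

/-- The string `s` and the string `ρ` of a number (every number is the code of a fact). -/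
def dec (a : ℕ) : List ℕ × List ℕ := Denumerable.ofNat (List ℕ × List ℕ) a

/-- The kind of a number: `1` null move, `2` value move, `3` reopening, `4` content bit, all others
are junk. The label `0` is reserved for the moves. -/
def kd (a : ℕ) : ℕ :=
  if (dec a).1.length = 3 ∧ (dec a).1[0]? = some 0 then ((dec a).1[1]?).getD 0 else 0

/-- The number of a move. -/
def ar (a : ℕ) : ℕ := ((dec a).1[2]?).getD 0

/-- The string of a move. -/
def sg (a : ℕ) : List ℕ := (dec a).2

/-- The code of a move. -/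
def mm (k n : ℕ) (s : List ℕ) : ℕ := Encodable.encode (([0, k, n], s) : List ℕ × List ℕ)

/-- The code of a content bit. -/
def mj (a : ℕ) : ℕ := mm 4 a []

/-- The code of a null move. -/
def mN (m : ℕ) : ℕ := mm 1 m []

/-- The code of a value move. -/
def mC (s : List ℕ) (n : ℕ) : ℕ := mm 2 n s

/-- The code of a reopening. -/
def mR (k : ℕ) (p : List ℕ) : ℕ := mm 3 k p

/-- The content bit of a move. -/
def bit (a : ℕ) : Option ℕ := if kd a = 4 ∧ ar a < 2 then some (ar a) else none

/-- The content of a text. -/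
def cont (w : List ℕ) : List ℕ := w.filterMap bit

/-- `a` is a reopening of the level `k`. -/
def IsR (a k : ℕ) : Prop := kd a = 3 ∧ ar a = k

instance (a k : ℕ) : Decidable (IsR a k) := by unfold IsR; infer_instance

/-- `a` is not a move. -/
def Junk (a : ℕ) : Prop := kd a ≠ 1 ∧ kd a ≠ 2 ∧ kd a ≠ 3

theorem dec_mm (k n : ℕ) (s : List ℕ) : dec (mm k n s) = ([0, k, n], s) :=
  Denumerable.ofNat_encode _

theorem kd_mm (k n : ℕ) (s : List ℕ) : kd (mm k n s) = k := by
  unfold kd; rw [dec_mm]; simp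

theorem ar_mm (k n : ℕ) (s : List ℕ) : ar (mm k n s) = n := by
  unfold ar; rw [dec_mm]; simp

theorem sg_mm (k n : ℕ) (s : List ℕ) : sg (mm k n s) = s := by
  unfold sg; rw [dec_mm]

/-- Moves are determined by their parts. -/
theorem mm_kd {a : ℕ} (h : kd a ≠ 0) : mm (kd a) (ar a) (sg a) = a := by
  have h1 : (dec a).1.length = 3 ∧ (dec a).1[0]? = some 0 := by
    by_contra h1
    exact h (if_neg h1)
  have h2 : kd a = ((dec a).1[1]?).getD 0 := if_pos h1
  have h3 : Encodable.encode (dec a) = a := Denumerable.encode_ofNat _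
  conv_rhs => rw [← h3]
  unfold mm sg ar
  rw [h2]
  obtain ⟨h4, h5⟩ := h1
  generalize hd : dec a = d at *
  obtain ⟨l, r⟩ := d
  match l, h4 with
  | [x, y, z], _ => simp at h5; subst h5; rfl

/-- A fact whose label is not `0` is junk. -/
theorem kd_fact {s ρ : List ℕ} (h : s.head? ≠ some 0) : kd (Encodable.encode (s, ρ)) = 0 := by
  unfold kd
  rw [show dec (Encodable.encode (s, ρ)) = (s, ρ) from Denumerable.ofNat_encode _]
  refine if_neg ?_
  rintro ⟨_, h2⟩
  apply h
  rw [← h2]
  cases s <;> rfl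

theorem junk_fact {s ρ : List ℕ} (h : s.head? ≠ some 0) : Junk (Encodable.encode (s, ρ)) := by
  unfold Junk
  rw [kd_fact h]
  exact ⟨by decide, by decide, by decide⟩

/-- A move is a fact with the label `0` only. -/
theorem head_of_kd {a : ℕ} (h : kd a ≠ 0) {s ρ : List ℕ} (hf : a = Encodable.encode (s, ρ)) :
    s.head? = some 0 := by
  subst hf
  by_contra h1
  exact h (kd_fact h1)

/-! ## States -/

/-- A closed level: the string (if it is a value level), the stage or the counter, the place after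
the closing move, the last payment (if it was reopened). -/
abbrev Lv : Type := Option (List ℕ) × ℕ × ℕ × Option (List ℕ)

/-- A state: the number of moves, the closed levels, the last payment of the open level. -/
abbrev Sta : Type := ℕ × List Lv × Option (List ℕ)

/-- The last payment of the level `k`. -/
def chn (σ : Sta) (k : ℕ) : Option (List ℕ) := ((σ.2.1[k]?).map (fun l => l.2.2.2)).getD σ.2.2

/-- The order of the counters (codes of pairs, lexicographic). -/
def ltN (m m' : ℕ) : Bool :=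
  decide (m.unpair.1 < m'.unpair.1) || (decide (m.unpair.1 = m'.unpair.1) &&
    decide (m.unpair.2 < m'.unpair.2))

/-- The counter `m` may be used: the last level is a value level or has a bigger counter. -/
def okN (L : List Lv) (m : ℕ) : Bool :=
  (L.getLast?.map (fun l => l.1.isSome || ltN m l.2.1)).getD true

/-- The payment `p` may follow the payment `r`. -/
def okR (T : List ℕ → Bool) (r : Option (List ℕ)) (p : List ℕ) : Bool :=
  (r.map (fun q => decide (q.length < p.length) && decide (q = p.take q.length) && T p)).getD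
    (decide (p = []))

/-- One move. -/
def stp (T : List ℕ → Bool) (σ : Sta) (a : ℕ) : Option Sta :=
  if kd a = 1 then
    (if okN σ.2.1 (ar a) then some (σ.1 + 1, σ.2.1 ++ [(none, ar a, σ.1 + 1, σ.2.2)], none)
      else none)
  else if kd a = 2 then
    some (σ.1 + 1, σ.2.1 ++ [(some (sg a), ar a, σ.1 + 1, σ.2.2)], none)
  else if kd a = 3 then
    (if ar a ≤ σ.2.1.length ∧ okR T (chn σ (ar a)) (sg a) = true then
      some (σ.1 + 1, σ.2.1.take (ar a), some (sg a)) else none)
  else some (σ.1 + 1, σ.2.1, σ.2.2)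

/-- The moves `w`, from the state `o`. -/
def runF (T : List ℕ → Bool) (o : Option Sta) (w : List ℕ) : Option Sta :=
  w.foldl (fun o a => o.bind (fun σ => stp T σ a)) o

/-- The state of a text. -/
def run (T : List ℕ → Bool) (w : List ℕ) : Option Sta := runF T (some (0, [], none)) w

/-- Legal texts. -/
def Leg (T : List ℕ → Bool) (w : List ℕ) : Prop := (run T w).isSome = true

instance (T : List ℕ → Bool) (w : List ℕ) : Decidable (Leg T w) := by unfold Leg; infer_instance

/-- The closed levels of a text. -/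
def st (T : List ℕ → Bool) (w : List ℕ) : List Lv := ((run T w).map (fun σ => σ.2.1)).getD []

/-- The number of closed levels (= the index of the open level). -/
def ht (T : List ℕ → Bool) (w : List ℕ) : ℕ := (st T w).length

/-- The strings of the value levels. -/
def valsL (L : List Lv) : List (List ℕ) := L.filterMap (fun l => l.1)

/-- The places of the value levels. -/
def posL (L : List Lv) : List ℕ := L.filterMap (fun l => l.1.map (fun _ => l.2.2.1))

/-- The strings of the value levels of a text. -/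
def vals (T : List ℕ → Bool) (w : List ℕ) : List (List ℕ) := valsL (st T w)

/-- `w'` is a legal continuation of `w` which reopens only levels `≥ k`. -/
structure Le (T : List ℕ → Bool) (k : ℕ) (w w' : List ℕ) : Prop where
  px : w <+: w'
  leg : Leg T w'
  re : ∀ a ∈ w'.drop w.length, ∀ i, IsR a i → k ≤ i

/-! ## Basic facts -/

variable {T : List ℕ → Bool}

theorem runF_none (w : List ℕ) : runF T none w = none := by
  induction w with
  | nil => rfl
  | cons a w ih => simpa [runF] using ih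

theorem runF_append (o : Option Sta) (w v : List ℕ) :
    runF T o (w ++ v) = runF T (runF T o w) v := by
  simp [runF, List.foldl_append]

theorem runF_cons (o : Option Sta) (a : ℕ) (w : List ℕ) :
    runF T o (a :: w) = runF T (o.bind fun σ => stp T σ a) w := rfl

theorem run_append (w v : List ℕ) : run T (w ++ v) = runF T (run T w) v := runF_append _ _ _

theorem run_nil : run T [] = some (0, [], none) := rfl

theorem run_snoc (w : List ℕ) (a : ℕ) : run T (w ++ [a]) = (run T w).bind fun σ => stp T σ a := by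
  rw [run_append, runF_cons]; rfl

theorem Leg.nil : Leg T [] := rfl

theorem leg_iff {w : List ℕ} : Leg T w ↔ ∃ σ, run T w = some σ := Option.isSome_iff_exists

theorem Leg.of_append {w v : List ℕ} (h : Leg T (w ++ v)) : Leg T w := by
  rw [leg_iff] at h ⊢
  obtain ⟨σ, h⟩ := h
  rw [run_append] at h
  cases h1 : run T w with
  | none => rw [h1, runF_none] at h; cases h
  | some τ => exact ⟨τ, rfl⟩

theorem Leg.pfx {w w' : List ℕ} (h : Leg T w') (hp : w <+: w') : Leg T w := by
  obtain ⟨v, rfl⟩ := hp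
  exact h.of_append

theorem st_eq {w : List ℕ} {σ : Sta} (h : run T w = some σ) : st T w = σ.2.1 := by
  simp [st, h]

/-- The three kinds of a proper step. -/
theorem stp_cases {σ τ : Sta} {a : ℕ} (h : stp T σ a = some τ) :
    (kd a = 1 ∧ okN σ.2.1 (ar a) = true ∧
      τ = (σ.1 + 1, σ.2.1 ++ [(none, ar a, σ.1 + 1, σ.2.2)], none)) ∨
    (kd a = 2 ∧
      τ = (σ.1 + 1, σ.2.1 ++ [(some (sg a), ar a, σ.1 + 1, σ.2.2)], none)) ∨
    (kd a = 3 ∧ ar a ≤ σ.2.1.length ∧ okR T (chn σ (ar a)) (sg a) = true ∧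
      τ = (σ.1 + 1, σ.2.1.take (ar a), some (sg a))) ∨
    (kd a ≠ 1 ∧ kd a ≠ 2 ∧ kd a ≠ 3 ∧ τ = (σ.1 + 1, σ.2.1, σ.2.2)) := by
  unfold stp at h
  split_ifs at h with h1 h2 h3 h4 h5
  · exact Or.inl ⟨h1, h2, (Option.some.inj h).symm⟩
  · exact Or.inr (Or.inl ⟨h3, (Option.some.inj h).symm⟩)
  · exact Or.inr (Or.inr (Or.inl ⟨h4, h5.1, h5.2, (Option.some.inj h).symm⟩))
  · exact Or.inr (Or.inr (Or.inr ⟨h1, h3, h4, (Option.some.inj h).symm⟩))

theorem stp_one {σ τ : Sta} {a : ℕ} (h : stp T σ a = some τ) : τ.1 = σ.1 + 1 := by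
  rcases stp_cases h with ⟨_, _, rfl⟩ | ⟨_, rfl⟩ | ⟨_, _, _, rfl⟩ | ⟨_, _, _, rfl⟩ <;> rfl

/-- A step which reopens only levels `≥ k` does not change the levels below `k`. -/
theorem stp_take {σ τ : Sta} {a k m : ℕ} (h : stp T σ a = some τ) (hk : ∀ i, IsR a i → k ≤ i)
    (hm : m ≤ k) (hm' : m ≤ σ.2.1.length) :
    m ≤ τ.2.1.length ∧ τ.2.1.take m = σ.2.1.take m := by
  rcases stp_cases h with ⟨_, _, rfl⟩ | ⟨_, rfl⟩ | ⟨h1, h2, _, rfl⟩ | ⟨_, _, _, rfl⟩
  · refine ⟨by simp; omega, ?_⟩
    show (σ.2.1 ++ _).take m = _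
    rw [List.take_append_of_le_length hm']
  · refine ⟨by simp; omega, ?_⟩
    show (σ.2.1 ++ _).take m = _
    rw [List.take_append_of_le_length hm']
  · have h3 := hk _ ⟨h1, rfl⟩
    refine ⟨by simp; omega, ?_⟩
    show (σ.2.1.take _).take m = _
    rw [List.take_take, min_eq_left (hm.trans h3)]
  · exact ⟨hm', rfl⟩

theorem runF_take {v : List ℕ} : ∀ {σ τ : Sta}, runF T (some σ) v = some τ → ∀ {k m : ℕ},
    (∀ a ∈ v, ∀ i, IsR a i → k ≤ i) → m ≤ k → m ≤ σ.2.1.length →
    m ≤ τ.2.1.length ∧ τ.2.1.take m = σ.2.1.take m := by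
  induction v with
  | nil =>
    intro σ τ h k m _ _ hm'
    obtain rfl := Option.some.inj h
    exact ⟨hm', rfl⟩
  | cons a v ih =>
    intro σ τ h k m hk hm hm'
    rw [runF_cons] at h
    cases h1 : stp T σ a with
    | none =>
      have h2 : ((some σ : Option Sta).bind fun σ => stp T σ a) = none := h1
      rw [h2, runF_none] at h; cases h
    | some ρ =>
      have h2 : ((some σ : Option Sta).bind fun σ => stp T σ a) = some ρ := h1
      rw [h2] at h
      obtain ⟨h3, h4⟩ := stp_take h1 (hk a (by simp)) hm hm'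
      obtain ⟨h5, h6⟩ := ih h (fun b hb => hk b (by simp [hb])) hm h3
      exact ⟨h5, h6.trans h4⟩

theorem runF_one {v : List ℕ} : ∀ {σ τ : Sta}, runF T (some σ) v = some τ →
    τ.1 = σ.1 + v.length := by
  induction v with
  | nil => intro σ τ h; obtain rfl := Option.some.inj h; rfl
  | cons a v ih =>
    intro σ τ h
    rw [runF_cons] at h
    cases h1 : stp T σ a with
    | none =>
      have h2 : ((some σ : Option Sta).bind fun σ => stp T σ a) = none := h1
      rw [h2, runF_none] at h; cases h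
    | some ρ =>
      have h2 : ((some σ : Option Sta).bind fun σ => stp T σ a) = some ρ := h1
      rw [h2] at h
      rw [ih h, stp_one h1, List.length_cons]
      omega

theorem run_one {w : List ℕ} {σ : Sta} (h : run T w = some σ) : σ.1 = w.length := by
  simpa using runF_one h

/-! ## The order -/

theorem Le.rfl' {k : ℕ} {w : List ℕ} (h : Leg T w) : Le T k w w :=
  ⟨List.prefix_rfl, h, by simp⟩

theorem Le.trans {k : ℕ} {w w' w'' : List ℕ} (h : Le T k w w') (h' : Le T k w' w'') :
    Le T k w w'' := by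
  refine ⟨h.px.trans h'.px, h'.leg, ?_⟩
  obtain ⟨u, rfl⟩ := h.px
  obtain ⟨v, rfl⟩ := h'.px
  intro a ha i hi
  rw [List.append_assoc, List.drop_left] at ha
  rcases List.mem_append.1 ha with h1 | h1
  · exact h.re a (by rw [List.drop_left]; exact h1) i hi
  · exact h'.re a (by rw [List.drop_left]; exact h1) i hi

theorem Le.mono {k k' : ℕ} {w w' : List ℕ} (h : Le T k' w w') (hk : k ≤ k') : Le T k w w' :=
  ⟨h.px, h.leg, fun a ha i hi => hk.trans (h.re a ha i hi)⟩

theorem Le.leg_left {k : ℕ} {w w' : List ℕ} (h : Le T k w w') : Leg T w := h.leg.pfx h.px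

/-- The levels below `k` are not changed. -/
theorem Le.take {k m : ℕ} {w w' : List ℕ} (h : Le T k w w') (hm : m ≤ k) (hm' : m ≤ ht T w) :
    m ≤ ht T w' ∧ (st T w').take m = (st T w).take m := by
  obtain ⟨σ, hσ⟩ := leg_iff.1 h.leg_left
  obtain ⟨τ, hτ⟩ := leg_iff.1 h.leg
  obtain ⟨v, rfl⟩ := h.px
  have h1 := hτ
  rw [run_append, hσ] at h1
  unfold ht at hm' ⊢
  rw [st_eq hσ] at hm' ⊢
  rw [st_eq hτ]
  exact runF_take h1 (fun a ha i hi => h.re a (by rw [List.drop_left]; exact ha) i hi) hm hm'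

/-- If only levels `≥ ht w` are reopened then the closed levels stay. -/
theorem Le.st_prefix {k : ℕ} {w w' : List ℕ} (h : Le T k w w') (hk : ht T w ≤ k) :
    st T w <+: st T w' := by
  obtain ⟨h1, h2⟩ := h.take hk le_rfl
  have h3 : (st T w).take (ht T w) = st T w := List.take_length
  rw [h3] at h2
  rw [← h2]
  exact List.take_prefix _ _

theorem Le.of_prefix {k : ℕ} {w w' w'' : List ℕ} (h : Le T k w w'') (h1 : w <+: w')
    (h2 : w' <+: w'') : Le T k w w' := by
  refine ⟨h1, h.leg.pfx h2, fun a ha i hi => h.re a ?_ i hi⟩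
  obtain ⟨u, rfl⟩ := h1
  obtain ⟨v, rfl⟩ := h2
  rw [List.drop_left] at ha
  rw [List.append_assoc, List.drop_left]
  exact List.mem_append_left _ ha

theorem Le.right {k : ℕ} {w w' w'' : List ℕ} (h : Le T k w w'') (h1 : w <+: w')
    (h2 : w' <+: w'') : Le T k w' w'' := by
  refine ⟨h2, h.leg, fun a ha i hi => h.re a ?_ i hi⟩
  obtain ⟨u, rfl⟩ := h1
  obtain ⟨v, rfl⟩ := h2
  rw [List.drop_left] at ha
  rw [List.append_assoc, List.drop_left]
  exact List.mem_append_right _ ha

/-! ## Computing with single moves -/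

theorem kd_mN (m : ℕ) : kd (mN m) = 1 := kd_mm _ _ _
theorem kd_mj (a : ℕ) : kd (mj a) = 4 := kd_mm _ _ _
theorem kd_mC (s : List ℕ) (n : ℕ) : kd (mC s n) = 2 := kd_mm _ _ _
theorem kd_mR (k : ℕ) (p : List ℕ) : kd (mR k p) = 3 := kd_mm _ _ _
theorem ar_mN (m : ℕ) : ar (mN m) = m := ar_mm _ _ _
theorem ar_mj (m : ℕ) : ar (mj m) = m := ar_mm _ _ _
theorem ar_mC (s : List ℕ) (n : ℕ) : ar (mC s n) = n := ar_mm _ _ _
theorem ar_mR (k : ℕ) (p : List ℕ) : ar (mR k p) = k := ar_mm _ _ _
theorem sg_mC (s : List ℕ) (n : ℕ) : sg (mC s n) = s := sg_mm _ _ _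
theorem sg_mR (k : ℕ) (p : List ℕ) : sg (mR k p) = p := sg_mm _ _ _

theorem junk_mj (b : ℕ) : Junk (mj b) := by
  unfold Junk; rw [kd_mj]; exact ⟨by decide, by decide, by decide⟩

theorem Junk.not_isR {a i : ℕ} (h : Junk a) : ¬ IsR a i := fun h' => h.2.2 h'.1

theorem mC_kd {a : ℕ} (h : kd a = 2) : mC (sg a) (ar a) = a := by
  have := mm_kd (a := a) (by rw [h]; decide)
  rwa [h] at this

theorem mR_kd {a : ℕ} (h : kd a = 3) : mR (ar a) (sg a) = a := by
  have := mm_kd (a := a) (by rw [h]; decide)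
  rwa [h] at this

theorem isR_mR {k i : ℕ} {p : List ℕ} : IsR (mR k p) i ↔ i = k := by
  unfold IsR
  rw [ar_mR, kd_mR]
  simp [eq_comm]

theorem not_isR_mN {m i : ℕ} : ¬ IsR (mN m) i := by
  unfold IsR; rw [kd_mN]; simp

theorem not_isR_mj {m i : ℕ} : ¬ IsR (mj m) i := by
  unfold IsR; rw [kd_mj]; simp

theorem not_isR_mC {s : List ℕ} {m i : ℕ} : ¬ IsR (mC s m) i := by
  unfold IsR; rw [kd_mC]; simp

theorem stp_mC (σ : Sta) (s : List ℕ) (n : ℕ) :
    stp T σ (mC s n) = some (σ.1 + 1, σ.2.1 ++ [(some s, n, σ.1 + 1, σ.2.2)], none) := by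
  simp [stp, kd_mC, sg_mC, ar_mC]

theorem stp_junk (σ : Sta) {a : ℕ} (ha : Junk a) : stp T σ a = some (σ.1 + 1, σ.2.1, σ.2.2) := by
  simp [stp, ha.1, ha.2.1, ha.2.2]

theorem stp_mN (σ : Sta) (m : ℕ) (h : okN σ.2.1 m = true) :
    stp T σ (mN m) = some (σ.1 + 1, σ.2.1 ++ [(none, m, σ.1 + 1, σ.2.2)], none) := by
  simp [stp, kd_mN, ar_mN, h]

theorem stp_mR (σ : Sta) (k : ℕ) (p : List ℕ) (h : k ≤ σ.2.1.length)
    (h' : okR T (chn σ k) p = true) :
    stp T σ (mR k p) = some (σ.1 + 1, σ.2.1.take k, some p) := by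
  simp [stp, kd_mR, ar_mR, sg_mR, h, h']

/-- A value move is always legal. -/
theorem leg_mC {w : List ℕ} (h : Leg T w) (s : List ℕ) (n : ℕ) : Leg T (w ++ [mC s n]) ∧
    ∃ σ, run T w = some σ ∧
      run T (w ++ [mC s n]) = some (w.length + 1, σ.2.1 ++ [(some s, n, w.length + 1, σ.2.2)], none) := by
  obtain ⟨σ, hσ⟩ := leg_iff.1 h
  have h1 : run T (w ++ [mC s n]) = some (σ.1 + 1, σ.2.1 ++ [(some s, n, σ.1 + 1, σ.2.2)], none) := by
    rw [run_snoc, hσ]; exact stp_mC σ s n
  rw [run_one hσ] at h1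
  exact ⟨leg_iff.2 ⟨_, h1⟩, σ, hσ, h1⟩

theorem leg_jk {w : List ℕ} (h : Leg T w) {a : ℕ} (ha : Junk a) : Leg T (w ++ [a]) ∧
    st T (w ++ [a]) = st T w := by
  obtain ⟨σ, hσ⟩ := leg_iff.1 h
  have h1 : run T (w ++ [a]) = some (σ.1 + 1, σ.2.1, σ.2.2) := by
    rw [run_snoc, hσ]; exact stp_junk σ ha
  exact ⟨leg_iff.2 ⟨_, h1⟩, by rw [st_eq h1, st_eq hσ]⟩

theorem leg_junk {w : List ℕ} (h : Leg T w) (l : List ℕ) (hl : ∀ a ∈ l, Junk a) :
    Leg T (w ++ l) ∧ st T (w ++ l) = st T w := by
  induction l using List.reverseRecOn with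
  | nil => simpa using h
  | append_singleton l a ih =>
    rw [← List.append_assoc]
    obtain ⟨h3, h4⟩ := ih (fun b hb => hl b (by simp [hb]))
    obtain ⟨h1, h2⟩ := leg_jk h3 (hl a (by simp))
    exact ⟨h1, h2.trans h4⟩

theorem le_junk {w : List ℕ} (h : Leg T w) (l : List ℕ) (hl : ∀ a ∈ l, Junk a) (k : ℕ) :
    Le T k w (w ++ l) := by
  refine ⟨List.prefix_append _ _, (leg_junk h l hl).1, ?_⟩
  intro a ha i hi
  rw [List.drop_left] at ha
  exact ((hl a ha).not_isR hi).elim

theorem le_mC {w : List ℕ} (h : Leg T w) (s : List ℕ) (n k : ℕ) : Le T k w (w ++ [mC s n]) := by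
  refine ⟨List.prefix_append _ _, (leg_mC h s n).1, ?_⟩
  intro a ha i hi
  rw [List.drop_left] at ha
  obtain rfl := List.mem_singleton.1 ha
  exact (not_isR_mC hi).elim

theorem st_mC {w : List ℕ} (h : Leg T w) (s : List ℕ) (n : ℕ) :
    ∃ q, st T (w ++ [mC s n]) = st T w ++ [(some s, n, w.length + 1, q)] := by
  obtain ⟨_, σ, h1, h2⟩ := leg_mC h s n
  exact ⟨σ.2.2, by rw [st_eq h2, st_eq h1]⟩

/-! ## The open level -/

/-- The payment of the open level. -/
def opn (T : List ℕ → Bool) (w : List ℕ) : Option (List ℕ) := (run T w).bind fun σ => σ.2.2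

theorem opn_mC {w : List ℕ} (h : Leg T w) (s : List ℕ) (n : ℕ) : opn T (w ++ [mC s n]) = none := by
  obtain ⟨_, σ, h1, h2⟩ := leg_mC h s n
  simp [opn, h2]

theorem opn_junk {w : List ℕ} (h : Leg T w) (l : List ℕ) (hl : ∀ a ∈ l, Junk a) :
    opn T (w ++ l) = opn T w := by
  induction l using List.reverseRecOn with
  | nil => simp
  | append_singleton l a ih =>
    have hl' : ∀ a ∈ l, Junk a := fun b hb => hl b (by simp [hb])
    rw [← List.append_assoc]
    obtain ⟨σ, hσ⟩ := leg_iff.1 (leg_junk h l hl').1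
    rw [← ih hl']
    unfold opn
    rw [run_snoc, hσ]
    show ((stp T σ a).bind fun σ => σ.2.2) = σ.2.2
    rw [stp_junk σ (hl a (by simp))]
    rfl

/-- The state keeps the chain of the level `k` if only levels `> k` are reopened. -/
theorem runF_chn {v : List ℕ} : ∀ {σ τ : Sta}, runF T (some σ) v = some τ → ∀ {k : ℕ},
    (∀ a ∈ v, ∀ i, IsR a i → k + 1 ≤ i) → k ≤ σ.2.1.length →
    k ≤ τ.2.1.length ∧ chn τ k = chn σ k := by
  induction v with
  | nil =>
    intro σ τ h k _ hk
    obtain rfl := Option.some.inj h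
    exact ⟨hk, rfl⟩
  | cons a v ih =>
    intro σ τ h k hv hk
    rw [runF_cons] at h
    cases h1 : stp T σ a with
    | none =>
      have h2 : ((some σ : Option Sta).bind fun σ => stp T σ a) = none := h1
      rw [h2, runF_none] at h; cases h
    | some ρ =>
      have h2 : ((some σ : Option Sta).bind fun σ => stp T σ a) = some ρ := h1
      rw [h2] at h
      have h3 : k ≤ ρ.2.1.length ∧ chn ρ k = chn σ k := by
        have key : ∀ x : Lv, x.2.2.2 = σ.2.2 → ∀ q, k ≤ (σ.2.1 ++ [x]).length ∧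
            chn (q, σ.2.1 ++ [x], none) k = chn σ k := by
          intro x hx q
          refine ⟨by simp; omega, ?_⟩
          unfold chn
          rcases lt_or_eq_of_le hk with h4 | h4
          · rw [show ((q, σ.2.1 ++ [x], (none : Option (List ℕ))) : Sta).2.1 = σ.2.1 ++ [x] from rfl,
              List.getElem?_append_left h4]
            have h5 : σ.2.1[k]? = some (σ.2.1[k]) := List.getElem?_eq_getElem h4
            rw [h5]; rfl
          · rw [show ((q, σ.2.1 ++ [x], (none : Option (List ℕ))) : Sta).2.1 = σ.2.1 ++ [x] from rfl,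
              h4, List.getElem?_append_right le_rfl]
            have h5 : σ.2.1[σ.2.1.length]? = none := List.getElem?_eq_none le_rfl
            rw [h5]
            simp [hx]
        rcases stp_cases h1 with ⟨_, _, rfl⟩ | ⟨_, rfl⟩ | ⟨h4, h5, _, rfl⟩ | ⟨_, _, _, rfl⟩
        · exact key _ rfl _
        · exact key _ rfl _
        · have h6 := hv a (by simp) _ ⟨h4, rfl⟩
          have h7 : k < (σ.2.1.take (ar a)).length := by simp; omega
          refine ⟨h7.le, ?_⟩
          unfold chn
          show ((σ.2.1.take (ar a))[k]?.map _).getD _ = _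
          rw [List.getElem?_take, if_pos (by omega : k < ar a)]
          have h5 : σ.2.1[k]? = some (σ.2.1[k]'(by omega)) := List.getElem?_eq_getElem (by omega)
          rw [h5]; rfl
        · exact ⟨hk, rfl⟩
      obtain ⟨h4, h5⟩ := ih h (fun b hb => hv b (by simp [hb])) h3.1
      exact ⟨h4, h5.trans h3.2⟩

theorem chn_opn {w : List ℕ} {σ : Sta} (h : run T w = some σ) : chn σ (ht T w) = opn T w := by
  unfold chn ht opn
  rw [st_eq h, h]
  simp

/-- Reopening the level `ht w` after a text which reopens only higher levels. -/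
theorem reopen {w w' : List ℕ} {q : List ℕ} (h : Le T (ht T w + 1) w w')
    (hq : okR T (opn T w) q = true) :
    Le T (ht T w) w (w' ++ [mR (ht T w) q]) ∧
      st T (w' ++ [mR (ht T w) q]) = st T w ∧ opn T (w' ++ [mR (ht T w) q]) = some q ∧
      ∀ m, okN (st T w) m = true → Le T (ht T w) w (w' ++ [mR (ht T w) q, mN m]) ∧
        (∃ l, st T (w' ++ [mR (ht T w) q, mN m]) = st T w ++ [(none, m, l, some q)]) ∧
        opn T (w' ++ [mR (ht T w) q, mN m]) = none := by
  obtain ⟨σ, hσ⟩ := leg_iff.1 h.leg_left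
  obtain ⟨τ, hτ⟩ := leg_iff.1 h.leg
  have hst := h.take (m := ht T w) (by omega) le_rfl
  have h3 : (st T w).take (ht T w) = st T w := List.take_length
  rw [h3] at hst
  have hs1 : ht T w ≤ τ.2.1.length := by
    have := hst.1
    unfold ht at this
    rwa [st_eq hτ] at this
  have hs2 : τ.2.1.take (ht T w) = st T w := by
    have := hst.2
    rwa [st_eq hτ] at this
  have hch : chn τ (ht T w) = opn T w := by
    obtain ⟨v, rfl⟩ := h.px
    have h1 := hτ
    rw [run_append, hσ] at h1
    have h2 := runF_chn h1 (k := ht T w)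
      (fun a ha i hi => h.re a (by rw [List.drop_left]; exact ha) i hi)
      (by unfold ht; rw [st_eq hσ])
    rw [h2.2, chn_opn hσ]
  have hr : run T (w' ++ [mR (ht T w) q]) = some (w'.length + 1, st T w, some q) := by
    rw [run_snoc, hτ]
    show stp T τ (mR (ht T w) q) = _
    rw [stp_mR τ _ q hs1 (by rw [hch]; exact hq), run_one hτ, hs2]
  have hle : Le T (ht T w) w (w' ++ [mR (ht T w) q]) := by
    refine ⟨h.px.trans (List.prefix_append _ _), leg_iff.2 ⟨_, hr⟩, ?_⟩
    intro a ha i hi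
    obtain ⟨v, rfl⟩ := h.px
    rw [List.append_assoc, List.drop_left] at ha
    rcases List.mem_append.1 ha with h1 | h1
    · have := h.re a (by rw [List.drop_left]; exact h1) i hi
      omega
    · obtain rfl := List.mem_singleton.1 h1
      exact (isR_mR.1 hi).ge
  refine ⟨hle, st_eq hr, by simp [opn, hr], ?_⟩
  intro m hm
  have hr2 : run T (w' ++ [mR (ht T w) q, mN m]) =
      some (w'.length + 2, st T w ++ [(none, m, w'.length + 2, some q)], none) := by
    have : w' ++ [mR (ht T w) q, mN m] = (w' ++ [mR (ht T w) q]) ++ [mN m] := by simp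
    rw [this, run_snoc, hr]
    show stp T _ (mN m) = _
    rw [stp_mN _ m hm]
  refine ⟨⟨h.px.trans (List.prefix_append _ _), leg_iff.2 ⟨_, hr2⟩, ?_⟩, ⟨_, st_eq hr2⟩, by
    simp [opn, hr2]⟩
  intro a ha i hi
  have : w' ++ [mR (ht T w) q, mN m] = (w' ++ [mR (ht T w) q]) ++ [mN m] := by simp
  rw [this] at ha
  obtain ⟨v, hv⟩ := hle.px
  rw [← hv, List.append_assoc, List.drop_left] at ha
  rcases List.mem_append.1 ha with h1 | h1
  · exact hle.re a (by rw [← hv, List.drop_left]; exact h1) i hi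
  · obtain rfl := List.mem_singleton.1 h1
    exact (not_isR_mN hi).elim

/-- A level can be closed at once as a null level. -/
theorem close_null {w : List ℕ} (h : Leg T w) {m : ℕ} (hm : okN (st T w) m = true) (k : ℕ) :
    Le T k w (w ++ [mN m]) ∧ (∃ l, st T (w ++ [mN m]) = st T w ++ [(none, m, l, opn T w)]) ∧
      opn T (w ++ [mN m]) = none := by
  obtain ⟨σ, hσ⟩ := leg_iff.1 h
  have h1 : run T (w ++ [mN m]) = some (σ.1 + 1, σ.2.1 ++ [(none, m, σ.1 + 1, σ.2.2)], none) := by
    rw [run_snoc, hσ]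
    exact stp_mN σ m (by rw [← st_eq hσ]; exact hm)
  refine ⟨⟨List.prefix_append _ _, leg_iff.2 ⟨_, h1⟩, ?_⟩, ⟨σ.1 + 1, ?_⟩, by simp [opn, h1]⟩
  · intro a ha i hi
    rw [List.drop_left] at ha
    obtain rfl := List.mem_singleton.1 ha
    exact (not_isR_mN hi).elim
  · rw [st_eq h1, st_eq hσ]
    simp [opn, hσ]

theorem okR_none {q : List ℕ} : okR T none q = true ↔ q = [] := by simp [okR]

theorem okR_some {p q : List ℕ} :
    okR T (some p) q = true ↔ p.length < q.length ∧ p <+: q ∧ T q = true := by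
  unfold okR
  simp only [Option.map_some, Option.getD_some, Bool.and_eq_true, decide_eq_true_eq]
  rw [List.prefix_iff_eq_take, and_assoc]

/-! ## Bases: the text ends with a payment of the open level -/

/-- The last move of `w` is a payment `p` of the level `k`. -/
def EndsR (w : List ℕ) (k : ℕ) (p : List ℕ) : Prop := ∃ v, w = v ++ [mR k p]

theorem EndsR.ht {w : List ℕ} {k : ℕ} {p : List ℕ} (h : EndsR w k p) (hw : Leg T w) :
    ht T w = k ∧ opn T w = some p := by
  obtain ⟨v, rfl⟩ := h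
  obtain ⟨σ, hσ⟩ := leg_iff.1 hw
  obtain ⟨τ, hτ⟩ := leg_iff.1 hw.of_append
  have h1 := hσ
  rw [run_snoc, hτ] at h1
  have h2 : stp T τ (mR k p) = some σ := h1
  rcases stp_cases h2 with ⟨h3, _⟩ | ⟨h3, _⟩ | ⟨_, h4, _, rfl⟩ | ⟨_, _, h3, _⟩
  · rw [kd_mR] at h3; cases h3
  · rw [kd_mR] at h3; cases h3
  · rw [ar_mR] at h4 hσ
    rw [sg_mR] at hσ
    refine ⟨?_, by simp [opn, hσ]⟩
    unfold Txt.ht
    rw [st_eq hσ]
    simpa using h4
  · rw [kd_mR] at h3; exact (h3 rfl).elim

/-- The next payment of a base. -/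
theorem EndsR.pay {w w' : List ℕ} {k : ℕ} {p q : List ℕ} (h : EndsR w k p)
    (hw : Le T (k + 1) w w') (hpq : p <+: q) (hlt : p.length < q.length) (hq : T q = true) :
    Le T k w (w' ++ [mR k q]) ∧ EndsR (w' ++ [mR k q]) k q := by
  obtain ⟨h1, h2⟩ := h.ht hw.leg_left
  refine ⟨?_, _, rfl⟩
  have h3 := reopen (T := T) (w := w) (w' := w') (q := q) (by rw [h1]; exact hw)
    (by rw [h2, okR_some]; exact ⟨hlt, hpq, hq⟩)
  rw [h1] at h3
  exact h3.1

end Pool.Agent.Lib.MP_d48993_lc.Txt
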