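import Pool.Agent.Lib.MP_d48993_lc.AE.Rig.Conv
import Pool.Agent.Lib.MP_d48993_lc.AE.Ind2.Dfs
import Pool.Agent.Lib.MP_d48993_lc.AE.Bound.Interfaces
import Pool.Agent.Lib.MP_d48993_lc.Pi2
import Pool.Agent.Lib.MP_d48993_lc.Ops

/-!
# Rigid systems (MP_d48993): the class theorem (finding 4168, T1.5)
-/

set_option autoImplicit false

namespace Pool.Agent.Lib.MP_d48993_lc.Txt

open MP_8c048d_lc (pre join RecF Cop)

/-! ## Stops -/

/-- The stops of a string. -/
def stops (ρ : List ℕ → ℕ) (t : List ℕ) : List ℕ :=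
  (List.range t.length).foldl
    (fun l a => if l.length + 1 ≤ ρ (t.take (a + 1)) then l ++ [a + 1] else l) []

section stops

variable {ρ : List ℕ → ℕ}

theorem stops_nil : stops ρ [] = [] := rfl

theorem foldl_congr_mem {α β : Type} {f g : α → β → α} {l : List β} {x : α}
    (h : ∀ b ∈ l, ∀ a, f a b = g a b) : l.foldl f x = l.foldl g x := by
  induction l generalizing x with
  | nil => rfl
  | cons b l ih =>
    rw [List.foldl_cons, List.foldl_cons, h b (by simp)]
    exact ih fun c hc => h c (by simp [hc])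

theorem stops_snoc (t : List ℕ) (x : ℕ) : stops ρ (t ++ [x]) =
    if (stops ρ t).length + 1 ≤ ρ (t ++ [x]) then stops ρ t ++ [t.length + 1] else stops ρ t := by
  have h1 : (List.range t.length).foldl (fun l a =>
      if l.length + 1 ≤ ρ ((t ++ [x]).take (a + 1)) then l ++ [a + 1] else l) [] = stops ρ t := by
    refine foldl_congr_mem fun a ha l => ?_
    rw [List.mem_range] at ha
    rw [List.take_append_of_le_length (by omega)]
  unfold stops
  rw [List.length_append, List.length_singleton, List.range_succ, List.foldl_append, h1]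
  simp only [List.foldl_cons, List.foldl_nil]
  rw [List.take_of_length_le (by simp)]
  rfl

theorem stops_prefix {s t : List ℕ} (h : s <+: t) : stops ρ s <+: stops ρ t := by
  obtain ⟨u, rfl⟩ := h
  induction u using List.reverseRecOn with
  | nil => simp
  | append_singleton u x ih =>
    rw [← List.append_assoc, stops_snoc]
    split_ifs
    · exact ih.trans (List.prefix_append _ _)
    · exact ih

theorem stops_len (t : List ℕ) : (stops ρ t).length ≤ t.length := by
  induction t using List.reverseRecOn with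
  | nil => simp [stops_nil]
  | append_singleton t x ih =>
    rw [stops_snoc]
    split_ifs
    · simpa using ih
    · rw [List.length_append, List.length_singleton]; omega

/-- The `j`-th stop. -/
theorem stops_get (t : List ℕ) (j a : ℕ) (h : (stops ρ t)[j]? = some a) :
    j < a ∧ a ≤ t.length ∧ stops ρ (t.take a) = (stops ρ t).take (j + 1) ∧
      j + 1 ≤ ρ (t.take a) := by
  induction t using List.reverseRecOn with
  | nil => simp [stops_nil] at h
  | append_singleton t x ih =>
    by_cases h1 : (stops ρ t).length + 1 ≤ ρ (t ++ [x])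
    · have h2 : stops ρ (t ++ [x]) = stops ρ t ++ [t.length + 1] := by
        rw [stops_snoc, if_pos h1]
      rw [h2] at h ⊢
      by_cases h3 : j < (stops ρ t).length
      · rw [List.getElem?_append_left h3] at h
        obtain ⟨h4, h5, h6, h7⟩ := ih h
        rw [List.take_append_of_le_length h5, List.take_append_of_le_length (by omega)]
        exact ⟨h4, by simp; omega, h6, h7⟩
      · have h4 : j = (stops ρ t).length := by
          have := (List.getElem?_eq_some_iff.1 h).1
          rw [List.length_append, List.length_singleton] at this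
          omega
        subst h4
        rw [List.getElem?_append_right le_rfl, Nat.sub_self] at h
        obtain rfl : t.length + 1 = a := by simpa using h
        have h5 := stops_len (ρ := ρ) t
        rw [List.take_of_length_le (by simp), List.take_of_length_le (by simp)]
        exact ⟨by omega, by simp, h2, h1⟩
    · have h2 : stops ρ (t ++ [x]) = stops ρ t := by rw [stops_snoc, if_neg h1]
      rw [h2] at h ⊢
      obtain ⟨h4, h5, h6, h7⟩ := ih h
      rw [List.take_append_of_le_length h5]
      exact ⟨h4, by simp; omega, h6, h7⟩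

theorem comp_stops (hρ : Computable ρ) : Computable (stops ρ) := by
  have h1 : Computable₂ (fun (q : List ℕ × List ℕ) (a : ℕ) =>
      (q.1, if q.2.length + 1 ≤ ρ (q.1.take (a + 1)) then q.2 ++ [a + 1] else q.2)) := by
    have e1 : Computable (fun p : (List ℕ × List ℕ) × ℕ => ρ (p.1.1.take (p.2 + 1))) :=
      hρ.comp (Primrec.list_take.comp (Primrec.succ.comp Primrec.snd)
        (Primrec.fst.comp Primrec.fst)).to_comp
    have e2 : Computable (fun p : (List ℕ × List ℕ) × ℕ =>
        decide (p.1.2.length + 1 ≤ ρ (p.1.1.take (p.2 + 1)))) :=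
      (Primrec.nat_le.decide).to_comp.comp
        (Primrec.succ.comp (Primrec.list_length.comp (Primrec.snd.comp Primrec.fst))).to_comp e1
    have e3 : Computable (fun p : (List ℕ × List ℕ) × ℕ => p.1.2 ++ [p.2 + 1]) :=
      (Primrec.list_append.comp (Primrec.snd.comp Primrec.fst)
        (Primrec.list_cons.comp (Primrec.succ.comp Primrec.snd) (Primrec.const []))).to_comp
    have e4 : Computable (fun p : (List ℕ × List ℕ) × ℕ => p.1.2) :=
      Computable.snd.comp Computable.fst
    have e6 : Computable (fun p : (List ℕ × List ℕ) × ℕ => p.1.1) :=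
      Computable.fst.comp Computable.fst
    have e5 : Computable (fun p : (List ℕ × List ℕ) × ℕ =>
        if p.1.2.length + 1 ≤ ρ (p.1.1.take (p.2 + 1)) then p.1.2 ++ [p.2 + 1] else p.1.2) :=
      (Computable.cond e2 e3 e4).of_eq fun p => by
        by_cases h : p.1.2.length + 1 ≤ ρ (p.1.1.take (p.2 + 1)) <;> simp [h]
    exact (Computable.pair e6 e5).to₂
  have h2 : Computable (fun t : List ℕ => (List.range t.length).foldl
      (fun (q : List ℕ × List ℕ) (a : ℕ) =>
      (q.1, if q.2.length + 1 ≤ ρ (q.1.take (a + 1)) then q.2 ++ [a + 1] else q.2)) (t, [])) :=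
    comp_foldl h1 (Computable.pair Computable.id (Computable.const []))
      (Primrec.list_range.comp Primrec.list_length).to_comp
  refine (Computable.snd.comp h2).of_eq fun t => ?_
  have key : ∀ (l : List ℕ) (x : List ℕ), l.foldl (fun (q : List ℕ × List ℕ) (a : ℕ) =>
      (q.1, if q.2.length + 1 ≤ ρ (q.1.take (a + 1)) then q.2 ++ [a + 1] else q.2)) (t, x) =
      (t, l.foldl (fun l a => if l.length + 1 ≤ ρ (t.take (a + 1)) then l ++ [a + 1] else l) x) := by
    intro l
    induction l with
    | nil => intro x; rfl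
    | cons b l ih => intro x; rw [List.foldl_cons, List.foldl_cons, ih]
  rw [key]
  rfl

end stops

/-! ## The relation -/

/-- The last string of a list. -/
def lst (l : List (List ℕ)) : List ℕ := l.getLast?.getD []

/-- The initial segment `m` shows `n` texts of the functional `g`. -/
def QR (T : List ℕ → Bool) (ρ : List ℕ → ℕ) (g : ℕ × List ℕ → Option (List ℕ)) (n : ℕ)
    (m : List ℕ) : Prop :=
  Leg T m ∧ vals T m = (stops ρ (lst (vals T m))).map (fun a => (lst (vals T m)).take a) ∧
    n ≤ (stops ρ (lst (vals T m))).length ∧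
      ∀ j < n, ∃ x, g (j, lst (vals T m)) = some x ∧ x <+: m

theorem cop_QR {T : List ℕ → Bool} (hT : Computable T) {ρ : List ℕ → ℕ} (hρ : Computable ρ)
    {g : ℕ × List ℕ → Option (List ℕ)} (hg : Computable g) :
    Cop (fun (p : ℕ × ℕ) Y => QR T ρ g p.1 (pre Y p.2)) := by
  have hl : Computable (fun m : List ℕ => lst (vals T m)) :=
    ((Primrec.option_getD.comp (prim_getLast (α := List ℕ)) (Primrec.const [])).to_comp).comp
      (comp_vals hT)
  have h0 : ComputablePred (fun p : ℕ × List ℕ => QR T ρ g p.1 p.2) := by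
    have e1 : Cop (fun (p : ℕ × List ℕ) (_ : ℕ → ℕ) => Leg T p.2) :=
      (Cop.of_computable (cp_leg hT)).comp (f := fun p : ℕ × List ℕ => p.2) Computable.snd
    have e2 : Computable (fun p : ℕ × List ℕ =>
        (stops ρ (lst (vals T p.2))).map (fun a => (lst (vals T p.2)).take a)) := by
      have e3 : Primrec (fun q : List ℕ × List ℕ => q.1.map (fun a => q.2.take a)) :=
        Primrec.list_map Primrec.fst (Primrec.list_take.comp Primrec.snd
          (Primrec.snd.comp Primrec.fst)).to₂
      exact e3.to_comp.comp (Computable.pair ((comp_stops hρ).comp (hl.comp Computable.snd))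
        (hl.comp Computable.snd))
    have e4 : Cop (fun (p : ℕ × List ℕ) (_ : ℕ → ℕ) => vals T p.2 =
        (stops ρ (lst (vals T p.2))).map (fun a => (lst (vals T p.2)).take a)) :=
      Cop.eq ((comp_vals hT).comp Computable.snd) e2
    have e5 : Cop (fun (p : ℕ × List ℕ) (_ : ℕ → ℕ) =>
        ¬ (stops ρ (lst (vals T p.2))).length < p.1) :=
      (Cop.lt (Computable.list_length.comp ((comp_stops hρ).comp (hl.comp Computable.snd)))
        Computable.fst).not
    have e6 : Cop (fun (q : (ℕ × List ℕ) × ℕ) (_ : ℕ → ℕ) =>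
        ∃ x, g (q.2, lst (vals T q.1.2)) = some x ∧ x <+: q.1.2) := by
      refine Cop.optEx (f := fun q : (ℕ × List ℕ) × ℕ => g (q.2, lst (vals T q.1.2)))
        (hg.comp (Computable.snd.pair (hl.comp (Computable.snd.comp Computable.fst))))
        (P := fun (q : (ℕ × List ℕ) × ℕ) x _ => x <+: q.1.2) ?_
      exact Cop.isPre Computable.snd (Computable.snd.comp (Computable.fst.comp Computable.fst))
    have e7 := Cop.ball (P := fun (p : ℕ × List ℕ) (j : ℕ) (_ : ℕ → ℕ) =>
      ∃ x, g (j, lst (vals T p.2)) = some x ∧ x <+: p.2) e6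
      (f := fun p : ℕ × List ℕ => p.1) Computable.fst
    refine Cop.toCP ((e1.and (e4.and (e5.and e7))).congr fun p _ => ?_)
    unfold QR
    rw [not_lt]
  have h1 : RecF (fun (p : ℕ × ℕ) Y => (p.1, pre Y p.2)) :=
    (RecF.of_computable Computable.fst).pair
      (RecF.pre.comp₁ (f := fun p : ℕ × ℕ => p.2) Computable.snd)
  exact Cop.of_recF h1 h0

/-! ## The class theorem -/

/-- The texts `w u` shown by the real `V`: the data of the class theorem. `e` is the real with the
certificate `ρ`, `a u` is its `u`-th stop, `g` computes `w u` from `e`. -/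
structure Shown (T : List ℕ → Bool) (ρ : List ℕ → ℕ) (e : ℕ → ℕ) (a : ℕ → ℕ) (w : ℕ → List ℕ)
    (g : ℕ × List ℕ → Option (List ℕ)) (V : ℕ → ℕ) : Prop where
  comp : Computable ρ
  mono : ∀ s t, s <+: t → ρ s ≤ ρ t
  crt : Ind2.Crt ρ e
  sta : ∀ u, (stops ρ (pre e (a u))).length = u ∧
    (0 < u → (stops ρ (pre e (a u))).getLast? = some (a u))
  leg : ∀ u, Leg T (w u)
  vls : ∀ u, vals T (w u) = (stops ρ (pre e (a u))).map (pre e)
  px : ∀ u, w u <+: w (u + 1)
  len : ∀ n, ∃ u, n ≤ (w u).length
  V : ∀ u, w u = pre V (w u).length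
  gc : Computable g
  gm : ∀ j s t x, s <+: t → g (j, s) = some x → g (j, t) = some x
  gw : ∀ u, ∃ k, g (u, pre e k) = some (w u)

section main

variable {T : List ℕ → Bool} {ρ : List ℕ → ℕ} {e : ℕ → ℕ} {a : ℕ → ℕ} {w : ℕ → List ℕ}
  {g : ℕ × List ℕ → Option (List ℕ)} {V : ℕ → ℕ}

theorem Shown.pxs (h : Shown T ρ e a w g V) {u v : ℕ} (hu : u ≤ v) : w u <+: w v := by
  induction v, hu using Nat.le_induction with
  | base => exact List.prefix_rfl
  | succ v _ ih => exact ih.trans (h.px v)

theorem Shown.le_a (h : Shown T ρ e a w g V) (u : ℕ) : u ≤ a u := by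
  have h1 := stops_len (ρ := ρ) (pre e (a u))
  rw [(h.sta u).1, MP_8c048d_lc.length_pre] at h1
  exact h1

/-- The last string of `w u`. -/
theorem Shown.lst_eq (h : Shown T ρ e a w g V) {u : ℕ} (hu : 0 < u) :
    lst (vals T (w u)) = pre e (a u) := by
  unfold Txt.lst
  rw [h.vls, List.getLast?_map, (h.sta u).2 hu]
  rfl

/-- `V` is in the class. -/
theorem Shown.mem (h : Shown T ρ e a w g V) (n : ℕ) : ∃ p, QR T ρ g n (pre V p) := by
  -- a common bound for the functional
  have h1 : ∀ n, ∃ K, ∀ j < n, g (j, pre e K) = some (w j) := by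
    intro n
    induction n with
    | zero => exact ⟨0, fun j hj => absurd hj (Nat.not_lt_zero j)⟩
    | succ n ih =>
      obtain ⟨K, hK⟩ := ih
      obtain ⟨k, hk⟩ := h.gw n
      refine ⟨max K k, fun j hj => ?_⟩
      rcases Nat.lt_or_ge j n with h2 | h2
      · exact h.gm _ _ _ _ (pre_prefix e (le_max_left _ _)) (hK j h2)
      · obtain rfl : j = n := by omega
        exact h.gm _ _ _ _ (pre_prefix e (le_max_right _ _)) hk
  obtain ⟨K, hK⟩ := h1 n
  set U := max (n + 1) K with hU
  have hU0 : 0 < U := by omega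
  refine ⟨(w U).length, ?_⟩
  rw [← h.V U]
  unfold QR
  rw [h.lst_eq hU0]
  refine ⟨h.leg U, ?_, ?_, ?_⟩
  · rw [h.vls]
    refine List.map_congr_left fun b hb => ?_
    obtain ⟨i, hi⟩ := List.mem_iff_getElem?.1 hb
    have h2 := (stops_get _ _ _ hi).2.1
    rw [MP_8c048d_lc.length_pre] at h2
    rw [MP_8c048d_lc.pre_take, min_eq_left h2]
  · rw [(h.sta U).1]; omega
  · intro j hj
    refine ⟨w j, ?_, h.pxs (by omega)⟩
    refine h.gm _ _ _ _ (pre_prefix e ?_) (hK j hj)
    have := h.le_a U
    omega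

/-- Every member of the class is `V` or computes a path of the header. -/
theorem Shown.sing (h : Shown T ρ e a w g V) (hT : ∀ s t, s <+: t → T t = true → T s = true)
    (hT0 : T [] = true) {Y : ℕ → ℕ} (hY : ∀ n, ∃ p, QR T ρ g n (pre Y p)) :
    Y = V ∨ ∃ f, Red f Y ∧ ∀ n, T (pre f n) = true := by
  classical
  -- the height bounds
  have hht : ∀ m, (vals T m).length ≤ ht T m := by
    intro m
    unfold vals valsL ht
    exact List.length_filterMap_le _ _
  have hst : ∀ n m, QR T ρ g n m → n ≤ (vals T m).length := by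
    intro n m hq
    rw [hq.2.1, List.length_map]
    exact hq.2.2.1
  have hlen' : ∀ m : List ℕ, Leg T m → ht T m ≤ m.length := by
    intro m hm
    induction m using List.reverseRecOn with
    | nil => exact Nat.zero_le _
    | append_singleton m b ih =>
      obtain ⟨σ, hσ⟩ := leg_iff.1 hm.of_append
      obtain ⟨τ, hτ⟩ := leg_iff.1 hm
      have h3 := ih hm.of_append
      have h5 := hτ
      rw [run_snoc, hσ] at h5
      have h5 : stp T σ b = some τ := h5
      unfold ht at h3 ⊢
      rw [st_eq hσ] at h3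
      rw [st_eq hτ]
      rcases stp_cases h5 with ⟨_, _, rfl⟩ | ⟨_, rfl⟩ | ⟨_, _, _, rfl⟩ | ⟨_, _, _, rfl⟩
      · simp; omega
      · simp; omega
      · simp; omega
      · simp; omega
  have hbig : ∀ n p, QR T ρ g n (pre Y p) → n ≤ p := by
    intro n p hq
    have h1 := hst n _ hq
    have h2 := hht (pre Y p)
    have h3 := hlen' _ hq.1
    rw [MP_8c048d_lc.length_pre] at h3
    omega
  have hleg : LegI T Y := by
    intro p
    obtain ⟨p', hp'⟩ := hY p
    exact hp'.1.pfx (pre_prefix Y (hbig p p' hp'))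
  by_cases hR : ∃ k, ∀ N, ∃ p, N ≤ p ∧ IsR (Y p) k
  · obtain ⟨k, hk⟩ := hR
    exact Or.inr (path_of_reopen hT hT0 hleg hk)
  left
  push Not at hR
  obtain ⟨-, hc⟩ := conv hleg hR fun n => by
    obtain ⟨p, hp⟩ := hY n
    exact ⟨p, (hst n _ hp).trans (hht _)⟩
  -- the strings
  choose P hP using hY
  let s : ℕ → List ℕ := fun i => lst (vals T (pre Y (P i)))
  -- for large `i` the first strings are fixed
  have hσ : ∀ j, ∃ σ I, (stops ρ σ).length = j + 1 ∧ j + 1 ≤ ρ σ ∧ j < σ.length ∧
      ∀ i, I ≤ i → σ <+: s i := by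
    intro j
    obtain ⟨K, N, hKN⟩ := hc (j + 1)
    obtain ⟨h1, h2⟩ := hKN N le_rfl
    obtain ⟨σ, hσ⟩ : ∃ σ, (valsL ((st T (pre Y N)).take K))[j]? = some σ :=
      ⟨_, List.getElem?_eq_getElem (by omega)⟩
    -- large `i`
    have h3 : ∀ i, N ≤ P i → ∃ b, (stops ρ (s i))[j]? = some b ∧ σ = (s i).take b := by
      intro i hi
      obtain ⟨h4, h5⟩ := hKN (P i) hi
      have h6 : (vals T (pre Y (P i)))[j]? = some σ := by
        unfold vals
        rw [← List.take_append_drop K (st T (pre Y (P i)))]
        unfold valsL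
        rw [List.filterMap_append, List.getElem?_append_left (by
          unfold valsL at h4; omega), h5]
        exact hσ
      rw [(hP i).2.1, List.getElem?_map] at h6
      cases h7 : (stops ρ (s i))[j]? with
      | none =>
        have h8 : (stops ρ (lst (vals T (pre Y (P i)))))[j]? = none := h7
        rw [h8] at h6; cases h6
      | some b =>
        have h8 : (stops ρ (lst (vals T (pre Y (P i)))))[j]? = some b := h7
        rw [h8] at h6
        exact ⟨b, rfl, (Option.some.inj h6).symm⟩
    have h4 : ∀ i, N ≤ i → N ≤ P i := fun i hi => hi.trans (hbig _ _ (hP i))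
    obtain ⟨b, h5, h6⟩ := h3 N (h4 N le_rfl)
    obtain ⟨h7, h8, h9, h10⟩ := stops_get _ _ _ h5
    refine ⟨σ, N, ?_, ?_, ?_, fun i hi => ?_⟩
    · rw [h6, h9, List.length_take]
      have := (List.getElem?_eq_some_iff.1 h5).1
      omega
    · rw [h6]; exact h10
    · rw [h6, List.length_take]; omega
    · obtain ⟨b', _, h11⟩ := h3 i (h4 i hi)
      rw [h11]
      exact List.take_prefix _ _
  choose σ I hσ1 hσ2 hσ3 hσ4 using hσ
  -- the limit of the strings is `e`
  have hcomp : ∀ j j', σ j <+: σ j' ∨ σ j' <+: σ j := fun j j' =>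
    List.prefix_or_prefix_of_prefix (hσ4 j _ (le_max_left (I j) (I j')))
      (hσ4 j' _ (le_max_right (I j) (I j')))
  let X : ℕ → ℕ := fun n => ((σ n)[n]?).getD 0
  have hX : ∀ j, σ j = pre X (σ j).length := by
    intro j
    apply List.ext_getElem?
    intro m
    rw [MP_8c048d_lc.pre_getElem?]
    split_ifs with hm
    · have h1 : (σ m)[m]? = some (X m) := by
        simp only [X]
        rw [List.getElem?_eq_getElem (hσ3 m)]
        rfl
      rcases hcomp j m with h2 | h2
      · obtain ⟨u, hu⟩ := h2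
        rw [← hu, List.getElem?_append_left hm] at h1
        exact h1
      · obtain ⟨u, hu⟩ := h2
        rw [← hu, List.getElem?_append_left (hσ3 m)]
        exact h1
    · exact List.getElem?_eq_none (by omega)
  have hXe : X = e := by
    refine (h.crt X).1 fun i => ⟨(σ i).length, ?_⟩
    rw [← hX i]
    exact (Nat.le_succ i).trans (hσ2 i)
  have hse : ∀ k, ∃ I', ∀ i, I' ≤ i → pre e k <+: s i := by
    intro k
    refine ⟨I k, fun i hi => ?_⟩
    have h1 := hσ4 k i hi
    rw [hX k, hXe] at h1
    exact (pre_prefix e (hσ3 k).le).trans h1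
  -- the texts
  have hw : ∀ u, w u = pre Y (w u).length := by
    intro u
    obtain ⟨k, hk⟩ := h.gw u
    obtain ⟨I', hI'⟩ := hse k
    obtain ⟨x, h1, h2⟩ := (hP (max I' (u + 1))).2.2.2 u (by omega)
    have h3 := h.gm _ _ _ _ (hI' _ (le_max_left I' (u + 1))) hk
    obtain rfl : w u = x := Option.some.inj (h3.symm.trans h1)
    have h4 := List.prefix_iff_eq_take.1 h2
    have h5 := h2.length_le
    rw [MP_8c048d_lc.length_pre] at h5
    rw [MP_8c048d_lc.pre_take, min_eq_left h5] at h4
    exact h4
  funext n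
  obtain ⟨u, hu⟩ := h.len (n + 1)
  have h1 : (pre Y (w u).length)[n]? = (pre V (w u).length)[n]? := by rw [← hw u, ← h.V u]
  rw [MP_8c048d_lc.pre_getElem?, MP_8c048d_lc.pre_getElem?, if_pos (by omega),
    if_pos (by omega)] at h1
  exact Option.some.inj h1

end main

open Bound (IsC)

/-- The paths of the header. -/
def PathsT (T : List ℕ → Bool) : Set (ℕ → ℕ) := {f | ∀ n, T (pre f n) = true}

/-- **The class theorem.** -/
theorem cls {B : Set (ℕ → ℕ)} {T : List ℕ → Bool} {ρ : List ℕ → ℕ} {e : ℕ → ℕ} {a : ℕ → ℕ}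
    {w : ℕ → List ℕ} {g : ℕ × List ℕ → Option (List ℕ)} {V : ℕ → ℕ} (h : Shown T ρ e a w g V)
    (hTc : Computable T) (hT : ∀ s t, s <+: t → T t = true → T s = true) (hT0 : T [] = true)
    {K : Set (ℕ → ℕ)} (hK : IsC B K) (hTK : PathsT T ⊆ K) : IsC B ({Y | Red V Y} ∪ K) := by
  obtain ⟨d, hd, hd1⟩ := cop_QR hTc h.comp h.gc
  obtain ⟨S, hS, hS1⟩ := pi2 redMu joinS d hd
  obtain ⟨S', hS', rfl⟩ := hK
  obtain ⟨R, hR, hR1⟩ := (ops joinS S S' hS hS').1
  refine ⟨R, hR, ?_⟩
  rw [hR1, hS1]
  have hq : ∀ F : ℕ → ℕ, F ∈ {F : ℕ → ℕ | ∀ n, ∃ m, d (n, m) F = true} ↔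
      ∀ n, ∃ p, QR T ρ g n (pre F p) := by
    intro F
    refine forall_congr' fun n => exists_congr fun m => ?_
    exact (hd1 (n, m) F).symm
  ext Y
  constructor
  · rintro (hY | hY | hY)
    · exact Or.inl (Or.inl ⟨V, (hq V).2 h.mem, hY⟩)
    · exact Or.inl (Or.inr hY)
    · exact Or.inr hY
  · rintro ((⟨F, hF, hFY⟩ | hY) | hY)
    · rcases h.sing hT hT0 ((hq F).1 hF) with rfl | ⟨f, h1, h2⟩
      · exact Or.inl hFY
      · right
        rcases hTK (show f ∈ PathsT T from h2) with ⟨G, hG, hG1⟩ | ⟨G, hG, hG1⟩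
        · exact Or.inl ⟨G, hG, hG1.trans (h1.trans hFY)⟩
        · exact Or.inr ⟨G, hG, hG1.trans (h1.trans hFY)⟩
    · exact Or.inr (Or.inl hY)
    · exact Or.inr (Or.inr hY)

end Pool.Agent.Lib.MP_d48993_lc.Txt
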