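import Pool.Agent.Lib.MP_d48993_lc.AE.Gr.Stm2
import Pool.Agent.Lib.MP_d48993_lc.AE.Rig.Tcls
import Pool.Agent.Lib.MP_d48993_lc.AE.Real.Obj
import Pool.Agent.Lib.MP_d48993_lc.AE.Rig.Eo

/-!
# Part A (assembly): statements of the modules
-/

set_option autoImplicit false

namespace Pool.Agent.Lib.MP_d48993_lc.Asm

open MP_8c048d_lc (pre join RecF Cop)
open Gr (Par BB Gph Lim4 Eff Ps Tx)
open Ars (Ar Jr)
open Ind2 (Sg)
open Tup (TruE)
open Bound (IsC)

/-- The parameters of the construction for the class `B`: labels `Nat.pair e i + 1` (copy `i` of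
the tree number `e`), headers with a part for `B` and a part for an arbitrary class. -/
structure ParB (B : Set (ℕ → ℕ)) (P : Par) : Prop where
  ok : P.Ok
  bb : BB P = B
  lab : ∀ U, IsC B U → ∃ e, U = Up {f | ∀ k, P.Tr (Nat.pair e 0 + 1) (pre f k)}
  labC : ∀ e, IsC B (Up {f | ∀ k, P.Tr (Nat.pair e 0 + 1) (pre f k)} ∪ Up B)
  copy : ∀ e i σ, P.Tr (Nat.pair e i + 1) σ ↔ P.Tr (Nat.pair e 0 + 1) σ
  hdr : ∀ U, IsC B U → ∃ h, U = Up (Txt.PathsT (P.Hd h))
  hdt : ∀ h s t, s <+: t → P.Hd h t = true → P.Hd h s = true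
  hd0 : ∀ h, P.Hd h [] = true
  hdb : ∀ h σ, P.TB σ → P.Hd h (0 :: σ) = true

/-- Module PARB (from ENUM, TREES, EMB, TREEC): parameters exist. `P.Hd h` is `[]`, `0 :: σ` for
`TB σ`, `1 :: σ` for `Tr h σ` (an enumeration of all computable trees); the labels are binary. -/
def ParBStatement : Prop :=
  ∀ B : Set (ℕ → ℕ), ClosedC B → B.Nonempty → Bin B → (fun _ : ℕ => 0) ∉ Up B →
    ∀ p q : ℕ, 0 < p → ∃ P : Par, P.p = p ∧ P.q = q ∧ ParB B P

/-! ## Definability -/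

/-- Module ARPS (from Eff, DECV, DECC of NODE, BLK, the calculus `Ars`): the forcing conditions are
arithmetical. -/
def ArPsStatement : Prop :=
  ∀ (P : Par), P.Ok → ∀ G : Gph, Lim4 P G → Eff P G →
    Ar (fun (x : ℕ × List ℕ) (_ : ℕ → ℕ) => x.1 < P.p ∧ Ps P G x.1 x.2)

/-- Module LS (from ARPS): the truths about a pattern are recursive in a jump of the known reals,
whose number does not depend on the reals. -/
def LsStatement : Prop :=
  ∀ (P : Par), P.Ok → ∀ G : Gph, Lim4 P G → Eff P G → ∃ r, ∀ (a H : ℕ), a < 2 ^ P.p → H < 2 ^ P.q →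
    ∀ (V : ℕ → ℕ → ℕ) (F : ℕ → ℕ), (∀ c, Tx P (fun s => a.testBit s) H c = true → Red (V c) F) →
      Sg (Jr r F) (fun z : ℕ => TruE P (Ps P G) (fun s => a.testBit s) H V z) ∧
      Sg (Jr r F) (fun z : ℕ => ¬ TruE P (Ps P G) (fun s => a.testBit s) H V z)

/-! ## Numbers of the objects -/

/-- Numbers of the points (`< p`) and of the shares (`< q`). -/
structure Nmb (Ω : Type) [PartialOrder Ω] (p q : ℕ) where
  pt : ℕ → Ω
  pn : Ω → ℕ
  ptn : ∀ s < p, pn (pt s) = s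
  pnt : ∀ x, pt (pn x) = x
  pnl : ∀ x, pn x < p
  sh : ℕ → Set Ω × Ω
  sn : Set Ω × Ω → ℕ
  shs : ∀ j < q, Real.IsSh (sh j)
  shn : ∀ j < q, sn (sh j) = j
  snt : ∀ j, Real.IsSh j → sh (sn j) = j ∧ sn j < q

variable {Ω : Type} [PartialOrder Ω] {p q : ℕ}

/-- The object `o` knows the object `i` (columns: points `s < p`, shares `p + j`). -/
def Kw (U : Ω → Set Ω) (la : Set Ω → Ω) (nm : Nmb Ω p q) (o i : ℕ) : Prop :=
  if o < p then
    (if i < p then i = o ∨ nm.pt o ∉ U (nm.pt i)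
      else ∃ r ∈ lowerBounds (nm.sh (i - p)).1, nm.pt o ∉ U r)
  else p ≤ i ∧ (i = o ∨
    ((nm.sh (o - p)).2 = la (nm.sh (o - p)).1 ∧ (nm.sh (i - p)).1 = (nm.sh (o - p)).1))

open Classical in
/-- The list of the objects known to `o`. -/
noncomputable def KKl (U : Ω → Set Ω) (la : Set Ω → Ω) (nm : Nmb Ω p q) (o : ℕ) : List ℕ :=
  (List.range (p + q)).filter (fun i => decide (Kw U la nm o i))

/-- What part T uses about the knowledge: `KK o` is the list of the columns known to `o`,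
`gp o` the number of the group of a share, `la o` says that the share is the last one. -/
structure Know (p q : ℕ) (KK : ℕ → List ℕ) (gp : ℕ → ℕ) (la : ℕ → Bool) : Prop where
  lt : ∀ o < p + q, ∀ i ∈ KK o, i < p + q
  self : ∀ o < p + q, o ∈ KK o
  trans : ∀ o i k, o < p + q → i ∈ KK o → k ∈ KK i → k ∈ KK o
  anti : ∀ o i, o < p + q → i ∈ KK o → o ∈ KK i → i = o
  shl : ∀ o, p ≤ o → o < p + q → la o = true →
    ∀ i, i ∈ KK o ↔ p ≤ i ∧ i < p + q ∧ gp i = gp o
  shn : ∀ o, p ≤ o → o < p + q → la o = false → ∀ i, i ∈ KK o ↔ i = o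
  grp : ∀ o < p, ∀ i ∈ KK o, p ≤ i → ∀ k, p ≤ k → k < p + q → gp k = gp i → k ∈ KK o
  last : ∀ i, p ≤ i → i < p + q → ∃ l, p ≤ l ∧ l < p + q ∧ gp l = gp i ∧ la l = true ∧
    ∀ l', p ≤ l' → l' < p + q → gp l' = gp i → la l' = true → l' = l

open Classical in
/-- The last share, as a property of columns. -/
noncomputable def laC (la : Set Ω → Ω) (nm : Nmb Ω p q) (o : ℕ) : Bool :=
  decide ((nm.sh (o - p)).2 = la (nm.sh (o - p)).1)

/-- Module NUM: numbers and knowledge of the objects of a finite UC frame; `la R` is a maximal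
lower bound of `R` if `R` is good. -/
def NumStatement : Prop :=
  ∀ (Ω : Type) [Finite Ω] [Nonempty Ω] [PartialOrder Ω] (U : Ω → Set Ω), Bound.UCF Ω U →
    ∃ (p q : ℕ) (nm : Nmb Ω p q) (la : Set Ω → Ω) (gp : ℕ → ℕ), 0 < p ∧
      (∀ R, Bound.Good R → Maximal (· ∈ lowerBounds R) (la R)) ∧
      (∀ i k, p ≤ i → i < p + q → p ≤ k → k < p + q →
        (gp i = gp k ↔ (nm.sh (i - p)).1 = (nm.sh (k - p)).1)) ∧
      Know p q (KKl U la nm) gp (laC la nm)

end Pool.Agent.Lib.MP_d48993_lc.Asm
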