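import Pool.Agent.Lib.MP_d48993_lc.AE.Rig.Sys
import Pool.Agent.Lib.MP_d48993_lc.AE.Real.Glue

/-!
# Assembly: the interface OBJ from the statements about systems
-/

set_option autoImplicit false

namespace Pool.Agent.Lib.MP_d48993_lc.Asm

open MP_8c048d_lc (pre join RecF Cop)
open Gr (Par BB AA Gph Lim4 Eff Ps Tx Mem)
open Txt (PathsT)
open Bound (IsC Good UCF RealisedU)
open Real (Kn EE FF IsSh Le Cl Full PM Pat Xc Obj)

theorem up_single (F : ℕ → ℕ) : Up {F} = {Y | Red F Y} := by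
  ext Y
  constructor
  · rintro ⟨f, h1, h2⟩
    obtain rfl : f = F := h1
    exact h2
  · intro h
    exact ⟨F, rfl, h⟩

/-- The interface OBJ. -/
theorem obj_of (hSys : SysStatement) (hGnr : GnrStatement) (hXjn : XjnStatement)
    (hSbas : SbasStatement) (hShit : ShitStatement) (hSlist : SlistStatement)
    (hSrem : SremStatement) (hSrsh : SrshStatement) (hSnul : SnulStatement)
    (hSnb : SnbStatement) (hSkill : SkillStatement) (hSful : SfulStatement)
    (hCls : Gr.ClsStatement) (B : Set (ℕ → ℕ)) (hB : ClosedC B) (hne : B.Nonempty)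
    (hbin : Bin B) (hz : (fun _ : ℕ => 0) ∉ Up B) (Ω : Type) [Finite Ω] [Nonempty Ω]
    [PartialOrder Ω] (U : Ω → Set Ω) (hU : UCF Ω U) :
    ∃ A M O V Y X la, Obj B U A M O V Y X la := by
  obtain ⟨r1, h1⟩ := hSbas
  obtain ⟨r2, h2⟩ := hShit
  obtain ⟨r3, h3⟩ := hSlist
  obtain ⟨r4, h4⟩ := hSrem
  obtain ⟨r5, h5⟩ := hSrsh
  obtain ⟨r6, h6⟩ := hSnul
  obtain ⟨r7, h7⟩ := hSkill
  obtain ⟨r8, h8⟩ := hSful
  obtain ⟨D, rfl, hD, hr⟩ := hSys (fun P G => r1 P G + r2 P G + r3 P G + r4 P G + r5 P G + r6 P G +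
    r7 P G + r8 P G) B hB hne hbin hz Ω U hU
  have k1 := h1 B Ω D hD (by omega)
  have k2 := h2 B Ω D hD (by omega)
  have k3 := h3 B Ω D hD (by omega)
  have k4 := h4 B Ω D hD (by omega)
  have k5 := h5 B Ω D hD (by omega)
  have k6 := h6 B Ω D hD (by omega)
  have k7 := h7 B Ω D hD (by omega)
  have k8 := h8 B Ω D hD (by omega)
  obtain ⟨g1, g2, g3, g4, g5, g6⟩ := hGnr
  have hbb : BB D.P = B := hD.par.bb
  obtain ⟨O, hO, ⟨f2, -⟩, f3, f4, ⟨f5, f5'⟩, f6, f7⟩ := g6 D.P hD.par.ok D.G hD.lim _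
    (g1 _ _ _ _ k2 (g1 _ _ _ _ k3 (g1 _ _ _ _ k4 (g1 _ _ _ _ k5 (g1 _ _ _ _ k6 k7)))))
  have hnb : D.FNb B O := hSnb B Ω D hD O f4 f5' f6
  have hpn : ∀ s, D.nm.pn s < D.N := fun s => (D.nm.pnl s).trans_le (Nat.le_add_right _ _)
  have hsn : ∀ R m, IsSh (R, m) → D.P.p + D.nm.sn (R, m) < D.N := fun R m h =>
    Nat.add_lt_add_left (D.nm.snt (R, m) h).2 _
  have hclsA : ∀ s, IsC B (D.Ac s) := by
    intro s
    have := (hCls D.P hD.par.ok D.G hD.lim (D.nm.pn s) (D.nm.pnl s)).1 hD.eff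
    rwa [hbb] at this
  have hmr : ∀ R, D.MR R = MM B D.Ac D.Ysh R := fun R => by
    unfold Sys.MR
    rw [hbb]
  have hFF : ∀ R m, FF D.MR D.Ysh R m = FF (MM B D.Ac D.Ysh) D.Ysh R m := fun R m => by
    unfold FF
    rw [hmr]
  have hclsF : ∀ R m, IsSh (R, m) → IsC B (FF (MM B D.Ac D.Ysh) D.Ysh R m) := by
    intro R
    induction R using WellFoundedLT.induction with
    | ind R ih =>
      intro m hm
      have h9 : IsC B (MM B D.Ac D.Ysh R) := mm_isC hB hclsA fun R' m' hR' hm' => ih R' hR' m' hm'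
      have h10 := (k1 _ (hsn R m hm)).2.2.2.2.2.2.2.2.2.2 (D.MR R) (by rw [hmr]; exact h9) (by
        rw [hD.hds R m hm]
        exact fun f hf => ⟨f, hf, Red.rfl⟩)
      rw [hmr] at h10
      unfold FF
      rw [up_single]
      exact h10
  obtain ⟨x1, x2, x3, x4⟩ := hXjn Ω D hD.par.ok.pos O
  refine ⟨D.Ac, D.MR, fun s => O (D.nm.pn s), D.Vp, D.Ysh, D.XO O, D.la, ?_⟩
  refine
    { clsA := hclsA
      clsW := fun s => ?_
      clsF := fun R m hm => ?_
      meq := fun R _ => ?_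
      full := k8.1
      nc := k8.2
      oA := fun s => ?_
      xo := x1
      xv := x2
      xy := x3
      xl := x4
      hit := f2
      rem := f4
      rsh := f5
      list := f3
      kill := f7 hnb }
  · have h10 := (k1 _ (hpn s)).2.2.2.2.2.2.2.2.2.2 (D.Ac s) (hclsA s) (by
      show _ ⊆ AA D.P D.G (D.nm.pn s)
      rw [hD.hdp _ (D.nm.pnl s)]
      exact fun f hf => ⟨f, hf, Red.rfl⟩)
    rw [up_single]
    exact h10
  · rw [hFF]
    exact hclsF R m hm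
  · have h9 : FF D.MR D.Ysh = FF (MM B D.Ac D.Ysh) D.Ysh := funext fun R => funext fun m => hFF R m
    rw [h9, hmr]
    exact mm_eq R
  · exact Or.inl ⟨_, hO _ (D.nm.pnl s), Red.rfl⟩

/-- If every nonempty finite UC frame has its objects, then the `∀∃`-theory of the Cantor lattice
is decidable. -/
theorem decidable_of (hO : ∀ B : Set (ℕ → ℕ), ClosedC B → B.Nonempty → Bin B →
      (fun _ : ℕ => 0) ∉ Up B → ∀ (P : Type) [Finite P] [Nonempty P] [PartialOrder P]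
        (U : P → Set P), UCF P U → ∃ A M O V Y X la, Obj B U A M O V Y X la) :
    ∃ f : ℕ × ℕ → Bool, Computable f ∧
      ∀ n φ, f (n, QF.code φ) = true ↔ AETrue PwCantor n φ := by
  obtain ⟨⟨B, up, h1, h2, h3, h4, h5⟩, -⟩ := AE.frame AE.top
  refine Bound.mainf'.1 B up h1 h5 (Bound.ucr h1 h2 fun P _ _ U hU => ?_)
  rcases isEmpty_or_nonempty P with hE | hE
  · exact ⟨fun x => isEmptyElim x, fun _ => none, fun W _ k => isEmptyElim k, ⟨_, h5, rfl⟩,
      fun k => isEmptyElim k, fun W W' _ _ k => isEmptyElim k⟩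
  · obtain ⟨A, M, O, V, Y, X, la, h⟩ := hO B h1.closed h2 h3 h5 P U hU
    exact Real.lt3_realised h1 h5 hU (Real.lt3_of_obj hU h1 h)

end Pool.Agent.Lib.MP_d48993_lc.Asm
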