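import Pool.Agent.Lib.MP_d48993_lc.AE.Rig.TxtC
import Pool.Agent.Lib.MP_d48993_lc.Red

/-!
# Rigid systems (MP_d48993): infinite texts (finding 4168, T1.3)
-/

set_option autoImplicit false

namespace Pool.Agent.Lib.MP_d48993_lc.Txt

open MP_8c048d_lc (pre join RecF Cop)

variable {T : List ℕ → Bool}

/-! ## Initial segments -/

theorem pre_prefix (F : ℕ → ℕ) {k k' : ℕ} (h : k ≤ k') : pre F k <+: pre F k' := by
  have := MP_8c048d_lc.pre_take F k' k
  rw [min_eq_left h] at this
  rw [← this]
  exact List.take_prefix _ _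

theorem mem_drop_pre {F : ℕ → ℕ} {k k' a : ℕ} (h : a ∈ (pre F k').drop (pre F k).length) :
    ∃ i, k ≤ i ∧ i < k' ∧ a = F i := by
  rw [MP_8c048d_lc.length_pre] at h
  obtain ⟨j, hj, h1⟩ := List.mem_iff_getElem.1 h
  rw [List.length_drop, MP_8c048d_lc.length_pre] at hj
  refine ⟨k + j, by omega, by omega, ?_⟩
  rw [← h1, List.getElem_drop]
  simp [MP_8c048d_lc.pre]

/-! ## Counters -/

/-- Consecutive null levels have decreasing counters. -/
def ChL (L : List Lv) : Prop := ∀ i l l', L[i]? = some l → L[i + 1]? = some l' → l.1 = none →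
  l'.1 = none → ltN l'.2.1 l.2.1 = true

theorem ChL.nil : ChL [] := by intro i l l' h; simp at h

theorem ChL.take {L : List Lv} (h : ChL L) (k : ℕ) : ChL (L.take k) := by
  intro i l l' h1 h2 h3 h4
  rw [List.getElem?_take] at h1 h2
  split_ifs at h1 h2 with h5 h6
  exact h i l l' h1 h2 h3 h4

theorem ChL.snoc {L : List Lv} (h : ChL L) {x : Lv}
    (hx : x.1 = none → ∀ l, L.getLast? = some l → l.1 = none → ltN x.2.1 l.2.1 = true) :
    ChL (L ++ [x]) := by
  intro i l l' h1 h2 h3 h4
  by_cases h5 : i + 1 < L.length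
  · rw [List.getElem?_append_left (by omega)] at h1
    rw [List.getElem?_append_left h5] at h2
    exact h i l l' h1 h2 h3 h4
  · by_cases h6 : i + 1 = L.length
    · rw [List.getElem?_append_right (by omega), h6, Nat.sub_self] at h2
      obtain rfl : x = l' := by simpa using h2
      rw [List.getElem?_append_left (by omega)] at h1
      refine hx h4 l ?_ h3
      rw [List.getLast?_eq_getElem?, ← h6]
      simpa using h1
    · rw [List.getElem?_append_right (by omega)] at h2
      have : (i + 1 - L.length) ≠ 0 := by omega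
      obtain ⟨j, hj⟩ := Nat.exists_eq_succ_of_ne_zero this
      rw [hj] at h2
      simp at h2

theorem chL_runF {w : List ℕ} : ∀ {σ τ : Sta}, runF T (some σ) w = some τ → ChL σ.2.1 →
    ChL τ.2.1 := by
  induction w with
  | nil => intro σ τ h h'; obtain rfl := Option.some.inj h; exact h'
  | cons a w ih =>
    intro σ τ h h'
    rw [runF_cons] at h
    cases h1 : stp T σ a with
    | none =>
      have h2 : ((some σ : Option Sta).bind fun σ => stp T σ a) = none := h1
      rw [h2, runF_none] at h; cases h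
    | some ρ =>
      have h2 : ((some σ : Option Sta).bind fun σ => stp T σ a) = some ρ := h1
      rw [h2] at h
      refine ih h ?_
      rcases stp_cases h1 with ⟨_, h3, rfl⟩ | ⟨_, rfl⟩ | ⟨_, _, _, rfl⟩ | ⟨_, _, _, rfl⟩
      · refine h'.snoc fun _ l hl hl' => ?_
        unfold okN at h3
        rw [hl] at h3
        simpa [hl'] using h3
      · exact h'.snoc fun h4 => by cases h4
      · exact h'.take _
      · exact h'

theorem chL_st {w : List ℕ} (h : Leg T w) : ChL (st T w) := by
  obtain ⟨σ, hσ⟩ := leg_iff.1 h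
  rw [st_eq hσ]
  exact chL_runF hσ ChL.nil

theorem ltN_iff {m m' : ℕ} : ltN m m' = true ↔
    Prod.Lex (· < ·) (· < ·) m.unpair m'.unpair := by
  rw [Prod.lex_iff]
  simp [ltN]

/-- There is no infinite sequence of decreasing counters. -/
theorem no_desc (c : ℕ → ℕ) (h : ∀ n, ltN (c (n + 1)) (c n) = true) : False := by
  have hwf : WellFounded (fun m m' : ℕ => ltN m m' = true) := by
    have h1 : WellFounded (Prod.Lex (· < ·) (· < ·) : ℕ × ℕ → ℕ × ℕ → Prop) :=
      WellFounded.prod_lex Nat.lt_wfRel.wf Nat.lt_wfRel.wf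
    refine Subrelation.wf (r := InvImage (Prod.Lex (· < ·) (· < ·)) Nat.unpair) ?_
      (InvImage.wf _ h1)
    intro m m' hm
    exact ltN_iff.1 hm
  obtain ⟨m, ⟨n, rfl⟩, h1⟩ := hwf.has_min (Set.range c) ⟨_, 0, rfl⟩
  exact h1 _ ⟨n + 1, rfl⟩ (h n)

/-! ## A level which is reopened infinitely often -/

/-- All initial segments are legal. -/
def LegI (T : List ℕ → Bool) (Y : ℕ → ℕ) : Prop := ∀ p, Leg T (pre Y p)

/-- `Le` between initial segments. -/
theorem LegI.le {Y : ℕ → ℕ} (h : LegI T Y) {k p p' : ℕ} (hp : p ≤ p')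
    (hk : ∀ i, p ≤ i → i < p' → ∀ j, IsR (Y i) j → k ≤ j) : Le T k (pre Y p) (pre Y p') := by
  refine ⟨pre_prefix Y hp, h p', fun a ha i hi => ?_⟩
  obtain ⟨j, h1, h2, rfl⟩ := mem_drop_pre ha
  exact hk j h1 h2 i hi

/-- One step at a level which exists. -/
theorem stp_chn {σ τ : Sta} {a k : ℕ} (h : stp T σ a = some τ) (hk : ∀ i, IsR a i → k ≤ i)
    (hk' : k ≤ σ.2.1.length) : k ≤ τ.2.1.length ∧
      ((IsR a k ∧ okR T (chn σ k) (sg a) = true ∧ chn τ k = some (sg a)) ∨
        (¬ IsR a k ∧ chn τ k = chn σ k)) := by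
  by_cases h1 : IsR a k
  · refine ⟨(stp_take h hk le_rfl hk').1, Or.inl ⟨h1, ?_⟩⟩
    rcases stp_cases h with ⟨h2, _⟩ | ⟨h2, _⟩ | ⟨_, h3, h4, rfl⟩ | ⟨_, _, h2, _⟩
    · rw [h1.1] at h2; cases h2
    · rw [h1.1] at h2; cases h2
    · rw [h1.2] at h4
      refine ⟨h4, ?_⟩
      unfold chn
      rw [h1.2] at h3 ⊢
      show ((σ.2.1.take k)[k]?.map _).getD _ = _
      rw [List.getElem?_eq_none (by simp)]
      rfl
    · exact (h2 h1.1).elim
  · have h2 : runF T (some σ) [a] = some τ := by
      rw [runF_cons]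
      show runF T (stp T σ a) [] = _
      rw [h]; rfl
    obtain ⟨h3, h4⟩ := runF_chn h2 (k := k) (fun b hb i hi => by
      obtain rfl := List.mem_singleton.1 hb
      have := hk i hi
      rcases Nat.lt_or_ge k i with h5 | h5
      · exact h5
      · exact (h1 ((by omega : i = k) ▸ hi)).elim) hk'
    exact ⟨h3, Or.inr ⟨h1, h4⟩⟩

theorem run_pre_succ {Y : ℕ → ℕ} (h : LegI T Y) (p : ℕ) : ∃ σ τ, run T (pre Y p) = some σ ∧
    run T (pre Y (p + 1)) = some τ ∧ stp T σ (Y p) = some τ := by
  obtain ⟨σ, hσ⟩ := leg_iff.1 (h p)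
  obtain ⟨τ, hτ⟩ := leg_iff.1 (h (p + 1))
  refine ⟨σ, τ, hσ, hτ, ?_⟩
  rw [MP_8c048d_lc.pre_succ, run_snoc, hσ] at hτ
  exact hτ

/-- A legal text in which a level is reopened infinitely often computes a path of the header. -/
theorem path_of_reopen (hT : ∀ s t, s <+: t → T t = true → T s = true) (hT0 : T [] = true)
    {Y : ℕ → ℕ} (h : LegI T Y) {k : ℕ} (hk : ∀ N, ∃ p, N ≤ p ∧ IsR (Y p) k) :
    ∃ f, Red f Y ∧ ∀ n, T (pre f n) = true := by
  classical
  -- the least level
  have hex : ∃ k, ∀ N, ∃ p, N ≤ p ∧ IsR (Y p) k := ⟨k, hk⟩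
  obtain ⟨hk1, hk2⟩ : (∀ N, ∃ p, N ≤ p ∧ IsR (Y p) (Nat.find hex)) ∧
      ∀ k' < Nat.find hex, ¬ ∀ N, ∃ p, N ≤ p ∧ IsR (Y p) k' :=
    ⟨Nat.find_spec hex, fun k' hk' => Nat.find_min hex hk'⟩
  generalize Nat.find hex = K at hk1 hk2
  -- no lower level after N0
  have hN : ∀ K' ≤ K, ∃ N, ∀ p, N ≤ p → ∀ j, IsR (Y p) j → K' ≤ j := by
    intro K'
    induction K' with
    | zero => exact fun _ => ⟨0, fun _ _ _ _ => Nat.zero_le _⟩
    | succ K' ih =>
      intro hK'
      obtain ⟨N, hN⟩ := ih (by omega)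
      have h1 := hk2 K' (by omega)
      push Not at h1
      obtain ⟨N', hN'⟩ := h1
      refine ⟨max N N', fun p hp j hj => ?_⟩
      have h2 := hN p ((le_max_left _ _).trans hp) j hj
      rcases Nat.lt_or_ge K' j with h3 | h3
      · exact h3
      · exact (hN' p ((le_max_right _ _).trans hp) ((by omega : j = K') ▸ hj)).elim
  obtain ⟨N, hN⟩ := hN K le_rfl
  obtain ⟨p0, hp0, hr0⟩ := hk1 N
  -- the chain of the level
  have hch : ∀ p, p0 + 1 ≤ p → ∃ σ, run T (pre Y p) = some σ ∧ K ≤ σ.2.1.length ∧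
      ∃ i, p0 ≤ i ∧ i < p ∧ IsR (Y i) K ∧ chn σ K = some (sg (Y i)) ∧ (T (sg (Y i)) = true) ∧
        ∀ j, p0 ≤ j → j < p → IsR (Y j) K → sg (Y j) <+: sg (Y i) := by
    intro p hp
    induction p, hp using Nat.le_induction with
    | base =>
      obtain ⟨σ, τ, h1, h2, h3⟩ := run_pre_succ h p0
      have h4 : K ≤ σ.2.1.length := by
        rcases stp_cases h3 with ⟨h5, _⟩ | ⟨h5, _⟩ | ⟨_, h6, _, _⟩ | ⟨_, _, h5, _⟩
        · rw [hr0.1] at h5; cases h5
        · rw [hr0.1] at h5; cases h5
        · rwa [hr0.2] at h6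
        · exact (h5 hr0.1).elim
      obtain ⟨h5, h6⟩ := stp_chn h3 (hN p0 hp0) h4
      rcases h6 with ⟨_, h6, h7⟩ | ⟨h6, _⟩
      · refine ⟨τ, h2, h5, p0, le_rfl, Nat.lt_succ_self _, hr0, h7, ?_, fun j h8 h9 _ => ?_⟩
        · cases h8 : chn σ K with
          | none => rw [h8, okR_none] at h6; rw [h6]; exact hT0
          | some q => rw [h8, okR_some] at h6; exact h6.2.2
        · obtain rfl : j = p0 := by omega
          exact List.prefix_rfl
      · exact (h6 hr0).elim
    | succ p hp ih =>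
      obtain ⟨σ, h1, h2, i, h3, h4, h5, h6, h7, h8⟩ := ih
      obtain ⟨σ', τ, h9, h10, h11⟩ := run_pre_succ h p
      obtain rfl : σ' = σ := Option.some.inj (h9.symm.trans h1)
      obtain ⟨h12, h13⟩ := stp_chn h11 (hN p (by omega)) h2
      rcases h13 with ⟨h13, h14, h15⟩ | ⟨h13, h14⟩
      · rw [h6, okR_some] at h14
        refine ⟨τ, h10, h12, p, by omega, Nat.lt_succ_self _, h13, h15, h14.2.2,
          fun j h16 h17 h18 => ?_⟩
        rcases Nat.lt_or_ge j p with h19 | h19
        · exact (h8 j h16 h19 h18).trans h14.2.1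
        · obtain rfl : j = p := by omega
          exact List.prefix_rfl
      · refine ⟨τ, h10, h12, i, h3, by omega, h5, h14.trans h6, h7, fun j h16 h17 h18 => ?_⟩
        rcases Nat.lt_or_ge j p with h19 | h19
        · exact h8 j h16 h19 h18
        · obtain rfl : j = p := by omega
          exact (h13 h18).elim
  -- payments are comparable and in the tree
  have hcmp : ∀ i j, p0 ≤ i → p0 ≤ j → IsR (Y i) K → IsR (Y j) K →
      ∃ l, p0 ≤ l ∧ IsR (Y l) K ∧ T (sg (Y l)) = true ∧ sg (Y i) <+: sg (Y l) ∧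
        sg (Y j) <+: sg (Y l) := by
    intro i j h1 h2 h3 h4
    obtain ⟨_, _, _, l, h5, h6, h7, _, h8, h9⟩ := hch (max i j + 1) (by omega)
    exact ⟨l, h5, h7, h8, h9 i h1 (by omega) h3, h9 j h2 (by omega) h4⟩
  -- growth
  have hgrow : ∀ n, ∃ i, p0 ≤ i ∧ IsR (Y i) K ∧ n ≤ (sg (Y i)).length := by
    intro n
    induction n with
    | zero => exact ⟨p0, le_rfl, hr0, Nat.zero_le _⟩
    | succ n ih =>
      obtain ⟨i, h1, h2, h3⟩ := ih
      obtain ⟨j, h4, h5⟩ := hk1 (i + 1)
      obtain ⟨σ, h6, h7, l, h8, h9, h10, h11, h12, h13⟩ := hch j (by omega)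
      obtain ⟨σ', τ, h14, _, h15⟩ := run_pre_succ h j
      obtain rfl : σ' = σ := Option.some.inj (h14.symm.trans h6)
      obtain ⟨_, h16⟩ := stp_chn h15 (hN j (by omega)) h7
      rcases h16 with ⟨_, h17, _⟩ | ⟨h17, _⟩
      · rw [h11, okR_some] at h17
        have h18 := (h13 i h1 (by omega) h2).length_le
        exact ⟨j, by omega, h5, by omega⟩
      · exact (h17 h5).elim
  -- the path
  have hval : ∀ n : ℕ, ∃ v, ∃ i, p0 ≤ i ∧ IsR (Y i) K ∧ (sg (Y i))[n]? = some v := by
    intro n
    obtain ⟨i, h1, h2, h3⟩ := hgrow (n + 1)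
    exact ⟨_, i, h1, h2, List.getElem?_eq_getElem (by omega)⟩
  choose f hf using hval
  have huniq : ∀ n v i : ℕ, p0 ≤ i → IsR (Y i) K → (sg (Y i))[n]? = some v → v = f n := by
    intro n v i h1 h2 h3
    obtain ⟨j, h4, h5, h6⟩ := hf n
    obtain ⟨l, _, _, _, h7, h8⟩ := hcmp i j h1 h4 h2 h5
    have h9 : (sg (Y l))[n]? = some v := by
      obtain ⟨u, hu⟩ := h7
      rw [← hu, List.getElem?_append_left (List.getElem?_eq_some_iff.1 h3).1]
      exact h3
    have h10 : (sg (Y l))[n]? = some (f n) := by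
      obtain ⟨u, hu⟩ := h8
      rw [← hu, List.getElem?_append_left (List.getElem?_eq_some_iff.1 h6).1]
      exact h6
    exact Option.some.inj (h9.symm.trans h10)
  refine ⟨f, ?_, fun n => ?_⟩
  · -- computation
    let q : ℕ × List ℕ → Option ℕ := fun p =>
      (p.2.getLast?).bind fun a => if kd a = 3 ∧ ar a = K ∧ p0 < p.2.length then
        (sg a)[p.1]? else none
    have hq : Computable q := by
      have h1 : Primrec (fun p : (ℕ × List ℕ) × ℕ =>
          if kd p.2 = 3 ∧ ar p.2 = K ∧ p0 < p.1.2.length then (sg p.2)[p.1.1]? else none) := by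
        refine Primrec.ite ?_ ?_ (Primrec.const none)
        · exact (Primrec.eq.comp (prim_kd.comp Primrec.snd) (Primrec.const 3)).and
            ((Primrec.eq.comp (prim_ar.comp Primrec.snd) (Primrec.const K)).and
              (Primrec.nat_lt.comp (Primrec.const p0)
                (Primrec.list_length.comp (Primrec.snd.comp Primrec.fst))))
        · exact Primrec.list_getElem?.comp (prim_sg.comp Primrec.snd)
            (Primrec.fst.comp Primrec.fst)
      exact Computable.option_bind ((prim_getLast (α := ℕ)).comp Primrec.snd).to_comp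
        h1.to_comp.to₂
    refine red_core hq ?_ ?_
    · intro n k b hb
      simp only [q] at hb
      cases k with
      | zero => simp [MP_8c048d_lc.pre] at hb
      | succ k =>
        rw [MP_8c048d_lc.pre_succ, List.getLast?_concat] at hb
        simp only [Option.bind_some] at hb
        split_ifs at hb with h1
        have h2 : p0 < k + 1 := by simpa [MP_8c048d_lc.length_pre] using h1.2.2
        exact huniq n b k (by omega) ⟨h1.1, h1.2.1⟩ hb
    · intro n
      obtain ⟨i, h1, h2, h3⟩ := hf n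
      refine ⟨i + 1, f n, ?_⟩
      simp only [q]
      rw [MP_8c048d_lc.pre_succ, List.getLast?_concat]
      simp only [Option.bind_some]
      rw [if_pos]
      · exact h3
      · refine ⟨h2.1, h2.2, ?_⟩
        simp [MP_8c048d_lc.length_pre]
        omega
  · obtain ⟨i, h1, h2, h3⟩ := hgrow n
    obtain ⟨l, h4, h5, h6, h7, _⟩ := hcmp i i h1 h1 h2 h2
    refine hT _ (sg (Y l)) ?_ h6
    have h8 := h7.length_le
    have h9 : pre f n = (sg (Y l)).take n := by
      apply List.ext_getElem?
      intro m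
      rw [MP_8c048d_lc.pre_getElem?, List.getElem?_take]
      split_ifs with h10
      · have h11 : (sg (Y l))[m]? = some ((sg (Y l))[m]'(by omega)) :=
          List.getElem?_eq_getElem (by omega)
        rw [h11, huniq m _ l h4 h5 h11]
      · rfl
    rw [h9]
    exact List.take_prefix _ _

/-! ## Convergence of the levels -/

/-- If every level is reopened finitely often and the height is unbounded then the levels
converge, and infinitely many of them are value levels. -/
theorem conv {Y : ℕ → ℕ} (h : LegI T Y) (h1 : ∀ k, ∃ N, ∀ p, N ≤ p → ¬ IsR (Y p) k)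
    (h2 : ∀ n, ∃ p, n ≤ ht T (pre Y p)) :
    (∀ K, ∃ N, ∀ p, N ≤ p → K ≤ ht T (pre Y p) ∧
      (st T (pre Y p)).take K = (st T (pre Y N)).take K) ∧
    ∀ n, ∃ K N, ∀ p, N ≤ p → n ≤ (valsL ((st T (pre Y p)).take K)).length ∧
      (st T (pre Y p)).take K = (st T (pre Y N)).take K := by
  classical
  -- no low levels
  have hlow : ∀ K, ∃ N, ∀ p, N ≤ p → ∀ j, IsR (Y p) j → K ≤ j := by
    intro K
    induction K with
    | zero => exact ⟨0, fun _ _ _ _ => Nat.zero_le _⟩
    | succ K ih =>
      obtain ⟨N, hN⟩ := ih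
      obtain ⟨N', hN'⟩ := h1 K
      refine ⟨max N N', fun p hp j hj => ?_⟩
      have h3 := hN p ((le_max_left _ _).trans hp) j hj
      rcases Nat.lt_or_ge K j with h4 | h4
      · exact h4
      · exact (hN' p ((le_max_right _ _).trans hp) ((by omega : j = K) ▸ hj)).elim
  -- the height is at most the length
  have hlen : ∀ p, ht T (pre Y p) ≤ p := by
    intro p
    induction p with
    | zero => exact Nat.zero_le _
    | succ p ih =>
      obtain ⟨σ, τ, h3, h4, h5⟩ := run_pre_succ h p
      unfold ht at ih ⊢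
      rw [st_eq h3] at ih
      rw [st_eq h4]
      rcases stp_cases h5 with ⟨_, _, rfl⟩ | ⟨_, rfl⟩ | ⟨_, _, _, rfl⟩ | ⟨_, _, _, rfl⟩
      · simp; omega
      · simp; omega
      · simp; omega
      · simp; omega
  have hA : ∀ K, ∃ N, ∀ p, N ≤ p → K ≤ ht T (pre Y p) ∧
      (st T (pre Y p)).take K = (st T (pre Y N)).take K := by
    intro K
    obtain ⟨N, hN⟩ := hlow K
    obtain ⟨p1, hp1⟩ := h2 (max K N)
    have h3 : N ≤ p1 := (le_max_right K N).trans (hp1.trans (hlen p1))
    refine ⟨p1, fun p hp => ?_⟩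
    exact (h.le hp fun i hi _ j hj => hN i (h3.trans hi) j hj).take le_rfl
      ((le_max_left K N).trans hp1)
  refine ⟨hA, ?_⟩
  -- the limit levels
  choose N hN using hA
  let lim : ℕ → Lv := fun k => ((st T (pre Y (N (k + 1))))[k]?).getD (none, 0, 0, none)
  have hlim : ∀ k p, N (k + 1) ≤ p → (st T (pre Y p))[k]? = some (lim k) := by
    intro k p hp
    have h3 := hN (k + 1) p hp
    have h4 := hN (k + 1) _ le_rfl
    have h5 : (st T (pre Y (N (k + 1))))[k]? = some (lim k) := by
      have : k < (st T (pre Y (N (k + 1)))).length := h4.1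
      simp only [lim]
      rw [List.getElem?_eq_getElem this]
      rfl
    have h6 : ((st T (pre Y p)).take (k + 1))[k]? = (st T (pre Y p))[k]? := by
      rw [List.getElem?_take, if_pos (Nat.lt_succ_self k)]
    have h7 : ((st T (pre Y (N (k + 1)))).take (k + 1))[k]? = (st T (pre Y (N (k + 1))))[k]? := by
      rw [List.getElem?_take, if_pos (Nat.lt_succ_self k)]
    rw [← h6, h3.2, h7, h5]
  -- value levels
  have hval : ∀ K, ∃ k, K ≤ k ∧ (lim k).1.isSome = true := by
    intro K
    by_contra h3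
    push Not at h3
    have h4 : ∀ k, K ≤ k → (lim k).1 = none := by
      intro k hk
      have := h3 k hk
      cases h5 : (lim k).1 with
      | none => rfl
      | some _ => rw [h5] at this; exact (this rfl).elim
    refine no_desc (fun n => (lim (K + n)).2.1) fun n => ?_
    have h5 := chL_st (h (max (N (K + n + 1)) (N (K + n + 1 + 1))))
    exact h5 (K + n) _ _ (hlim _ _ (le_max_left _ _)) (hlim _ _ (le_max_right _ _))
      (h4 _ (by omega)) (h4 _ (by omega))
  intro n
  -- counting
  have hcount : ∀ n, ∃ K, ∀ p, N K ≤ p → n ≤ (valsL ((st T (pre Y p)).take K)).length := by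
    intro n
    induction n with
    | zero => exact ⟨0, fun _ _ => Nat.zero_le _⟩
    | succ n ih =>
      obtain ⟨K, hK⟩ := ih
      obtain ⟨k, hk1, hk2⟩ := hval K
      refine ⟨k + 1, fun p hp => ?_⟩
      -- compare with a large place
      have h3 : (st T (pre Y p)).take (k + 1) =
          (st T (pre Y (max (N K) (N (k + 1))))).take (k + 1) := by
        rw [(hN (k + 1) p hp).2, (hN (k + 1) _ (le_max_right (N K) (N (k + 1)))).2]
      rw [h3]
      set p' := max (N K) (N (k + 1)) with hp'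
      have h4 := hK p' (le_max_left _ _)
      have h5 := hlim k p' (le_max_right _ _)
      have h6 : (st T (pre Y p')).take (k + 1) =
          (st T (pre Y p')).take k ++ [lim k] := by
        rw [List.take_succ, h5]; rfl
      have h7 : ((st T (pre Y p')).take K) <+: (st T (pre Y p')).take k := by
        rw [show (st T (pre Y p')).take K = ((st T (pre Y p')).take k).take K by
          rw [List.take_take, min_eq_left hk1]]
        exact List.take_prefix _ _
      obtain ⟨u, hu⟩ := h7
      rw [h6, ← hu]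
      unfold valsL at h4 ⊢
      rw [List.filterMap_append, List.filterMap_append, List.length_append, List.length_append]
      obtain ⟨x, hx⟩ := Option.isSome_iff_exists.1 hk2
      have h8 : ([lim k].filterMap (fun l => l.1)).length = 1 := by
        simp [List.filterMap, hx]
      rw [h8]
      omega
  obtain ⟨K, hK⟩ := hcount n
  exact ⟨K, N K, fun p hp => ⟨hK p hp, (hN K p hp).2⟩⟩

end Pool.Agent.Lib.MP_d48993_lc.Txt
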