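import Pool.Agent.Lib.MP_d48993_lc.AE.Rig.Sys
import Pool.Agent.Lib.MP_d48993_lc.AE.Gr.RegM

/-!
# Module GNR (helper22): calculus of generic tuples
-/

set_option autoImplicit false

namespace Pool.Agent.Lib.MP_d48993_lc.Asm

open MP_8c048d_lc (pre pre_take)
open Gr (Par Gph Lim4 Ps Mem RL)
open Node (o endd)
open Tup (Dcd)

/-- Countably many properties. -/
theorem gnr_all (P : Par) (G : Gph) (ι : Type) [Countable ι] (Φ : ι → (ℕ → ℕ → ℕ) → Prop)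
    (h : ∀ i, Gnr P G (Φ i)) : Gnr P G (fun O => ∀ i, Φ i O) := by
  classical
  obtain ⟨e, he⟩ : ∃ e : ℕ → Option ι, ∀ i, ∃ n, e n = some i := by
    obtain ⟨f, hf⟩ := Countable.exists_injective_nat ι
    refine ⟨fun n => if h : ∃ i, f i = n then some h.choose else none, fun i => ⟨f i, ?_⟩⟩
    have h : ∃ j, f j = f i := ⟨i, rfl⟩
    simp only
    rw [dif_pos h]
    exact congrArg some (hf h.choose_spec)
  choose I D hI using h
  refine ⟨fun n => (e n.unpair.1).elim [] (fun i => I i n.unpair.2),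
    fun n => (e n.unpair.1).elim (fun _ => True) (fun i => D i n.unpair.2),
    fun O h1 h2 i => hI i O h1 fun j => ?_⟩
  obtain ⟨n, hn⟩ := he i
  have h3 := h2 (Nat.pair n j)
  simp only [Nat.unpair_pair, hn, Option.elim_some] at h3
  exact h3

theorem gnr_mono (P : Par) (G : Gph) (Φ Ψ : (ℕ → ℕ → ℕ) → Prop) (h : Gnr P G Φ)
    (h' : ∀ O, Φ O → Ψ O) : Gnr P G Ψ := by
  obtain ⟨I, D, h1⟩ := h
  exact ⟨I, D, fun O h2 h3 => h' O (h1 O h2 h3)⟩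

theorem gnr_and (P : Par) (G : Gph) (Φ Ψ : (ℕ → ℕ → ℕ) → Prop) (h : Gnr P G Φ)
    (h' : Gnr P G Ψ) : Gnr P G (fun O => Φ O ∧ Ψ O) := by
  refine gnr_mono P G _ _ (gnr_all P G Bool (fun b => cond b Φ Ψ) fun b => ?_)
    fun O h1 => ⟨h1 true, h1 false⟩
  cases b
  · exact h'
  · exact h

theorem gnr_dcd (P : Par) (G : Gph) (I : List ℕ) (D : List (List ℕ) → Prop) :
    Gnr P G (fun O => Dcd P.p (Ps P G) I O D) :=
  ⟨fun _ => I, fun _ => D, fun _ _ h => h 0⟩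

theorem gnr_len (P : Par) (G : Gph) :
    Gnr P G (fun O => ∀ l < P.p, ∀ n, ∃ k ≥ n, Ps P G l (pre (O l) k)) :=
  ⟨fun _ => [], fun _ _ => True, fun _ h _ => h⟩

/-- There are proper extensions of conditions. -/
theorem ps_ext {P : Par} (hP : P.Ok) {G : Gph} (hG : Lim4 P G) {s : ℕ} (hs : s < P.p)
    {σ : List ℕ} (h : Ps P G s σ) : ∃ τ, Ps P G s τ ∧ σ <+: τ ∧ σ ≠ τ := by
  obtain ⟨h1, n, h2, h3⟩ := h
  have h4 : (endd o σ).1 < G.u (Gr.lst P.p n + 1) s := by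
    rw [h3]
    exact hG.u_lt hs _
  have h5 : Gr.blk P.p (Gr.lst P.p n) = n := Gr.blk_lst P.p h2
  obtain ⟨σ', q1, q2, q3, -⟩ := (Gr.regM P hP G hG s hs).2.2.1 σ σ (Gr.lst P.p n) h1
    (List.prefix_refl _) h3 h4 (n + 1) (by omega)
  refine ⟨σ', ⟨q2, n + 1, by omega, q3⟩, q1, fun h6 => ?_⟩
  rw [← h6, h3] at q3
  have h7 : Gr.lst P.p n = Gr.lst P.p (n + 1) := (hG.rts hs).inj q3
  have h8 : Gr.blk P.p (Gr.lst P.p (n + 1)) = n + 1 := Gr.blk_lst P.p (by omega)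
  rw [← h7, h5] at h8
  omega

/-- Module GNR. -/
theorem gnr_proof : GnrStatement := by
  refine ⟨gnr_and, gnr_mono, gnr_all, gnr_dcd, gnr_len, fun P hP G hG Φ hΦ => ?_⟩
  obtain ⟨I, D, h1⟩ := hΦ
  obtain ⟨O, h2, h3⟩ := Tup.exists_gen (c := P.p) (RG := Ps P G) ℕ I D
    (fun l hl => (Gr.regM P hP G hG l hl).2.2.2) (fun l hl σ hσ => ps_ext hP hG hl hσ)
  refine ⟨O, fun s hs k => ?_, h1 O h2 h3⟩
  obtain ⟨m, hm, h4⟩ := h2 s hs k
  refine (Gr.regM P hP G hG s hs).1 _ _ h4.1 ?_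
  rw [← min_eq_left hm, ← pre_take]
  exact List.take_prefix _ _

end Pool.Agent.Lib.MP_d48993_lc.Asm
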