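import Pool.Agent.Lib.MP_d48993_lc.AE.Rig.Sys
import Pool.Agent.Lib.MP_d48993_lc.AE.Rig.Hit

/-!
# Assembly, module HITC: truths are inherited by all reals of the right kind
-/

set_option autoImplicit false

namespace Pool.Agent.Lib.MP_d48993_lc.Asm

theorem hitc_proof : HitcStatement := by
  intro P hP G hG J H V hF z hz W hW hV hA
  obtain ⟨i, μ, hT⟩ := hz
  exact Tup.hit_tru hP hG hF (hP.trt z) hT hW (fun c _ hc => hV c hc) hA

end Pool.Agent.Lib.MP_d48993_lc.Asm
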