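import Pool.Agent.Lib.MP_d48993_lc.AE.Rig.SysI

/-!
# Module KLV: levels and ranks of the objects
-/

set_option autoImplicit false

namespace Pool.Agent.Lib.MP_d48993_lc.Asm

theorem klv_proof : KlvStatement := by
  intro p q r M KK gp gr la hK hgr
  classical
  obtain ⟨c, hc⟩ : ∃ c : ℕ → ℕ, c = fun o => (KK o).toFinset.card := ⟨_, rfl⟩
  have hlt : ∀ o < p + q, ∀ i ∈ KK o, i ≠ o → c i < c o := by
    intro o ho i hi hne
    rw [hc]
    apply Finset.card_lt_card
    rw [Finset.ssubset_iff_of_subset (fun k hk => by
      rw [List.mem_toFinset] at hk ⊢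
      exact hK.trans o i k ho hi hk)]
    refine ⟨o, List.mem_toFinset.2 (hK.self o ho), fun h => ?_⟩
    exact hne (hK.anti o i ho hi (List.mem_toFinset.1 h))
  have hle : ∀ o < p + q, c o ≤ p + q := by
    intro o ho
    rw [hc]
    calc (KK o).toFinset.card ≤ (Finset.range (p + q)).card := Finset.card_le_card fun k hk => by
          rw [List.mem_toFinset] at hk
          exact Finset.mem_range.2 (hK.lt o ho k hk)
      _ = p + q := Finset.card_range _
  have hpos : ∀ o < p + q, 1 ≤ c o := by
    intro o ho
    rw [hc]
    exact Finset.card_pos.2 ⟨o, List.mem_toFinset.2 (hK.self o ho)⟩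
  refine ⟨2 * r + r * (p + q), fun o => if o < p then r + r * c o else r,
    fun o => if o < p then M + 1 + c o else gr o, ?_, ?_, ?_, ?_⟩
  · intro o ho
    have h1 := Nat.mul_le_mul_left r (hle o ho)
    constructor
    · show r ≤ if o < p then r + r * c o else r
      split_ifs <;> omega
    · show (if o < p then r + r * c o else r) + r ≤ _
      split_ifs <;> omega
  · intro o ho i hi hne
    show (if i < p then r + r * c i else r) + r ≤ if o < p then r + r * c o else r
    rw [if_pos ho]
    split_ifs with h
    · have h1 := Nat.mul_le_mul_left r (hlt o (by omega) i hi hne)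
      rw [Nat.succ_eq_add_one, Nat.mul_add, Nat.mul_one] at h1
      omega
    · have h1 := Nat.mul_le_mul_left r (hpos o (by omega))
      omega
  · intro o ho
    exact if_neg (by omega)
  · intro o ho i hi hne
    show (if i < p then M + 1 + c i else gr i) < if o < p then M + 1 + c o else gr o
    rw [if_pos ho]
    split_ifs with h
    · have h1 := hlt o (by omega) i hi hne
      omega
    · have h1 := hgr i (by omega) (hK.lt o (by omega) i hi)
      omega

end Pool.Agent.Lib.MP_d48993_lc.Asm
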