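import Pool.Agent.Lib.MP_d48993_lc.AE.Rig.SysI
import Pool.Agent.Lib.MP_d48993_lc.AE.Rem.Eng

/-!
# Module LLS: the list of a point is `Σ⁰₁` in a jump of the known reals
-/

set_option autoImplicit false

namespace Pool.Agent.Lib.MP_d48993_lc.Asm

open MP_8c048d_lc (pre join RecF Cop)
open Gr (Par BB AA Gph Lim4 Eff Ps Tx Mem)
open Ars (Ar Jr)
open Ind2 (Sg)
open Tup (TruE)
open Real (Pat)

/-- Finite unions. -/
theorem sgExLt {α : Type} [Primcodable α] {Z : ℕ → ℕ} {P : ℕ → α → Prop} (n : ℕ)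
    (h : ∀ l < n, Sg Z (P l)) : Sg Z (fun a => ∃ l < n, P l a) := by
  induction n with
  | zero => exact Rem.sgCongr (Rem.sgConst False) fun a => by simp
  | succ n ih =>
    refine Rem.sgCongr (Rem.sgOr (ih fun l hl => h l (Nat.lt_succ_of_lt hl))
      (h n (Nat.lt_succ_self n))) fun a => ?_
    constructor
    · rintro (⟨l, hl, h1⟩ | h1)
      · exact ⟨l, Nat.lt_succ_of_lt hl, h1⟩
      · exact ⟨n, Nat.lt_succ_self n, h1⟩
    · rintro ⟨l, hl, h1⟩
      rcases Nat.lt_succ_iff_lt_or_eq.1 hl with h2 | rfl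
      · exact Or.inl ⟨l, h2, h1⟩
      · exact Or.inr h1

theorem lls_proof (ls : LsStatement) : LlsStatement := by
  intro P hP G hG hE
  obtain ⟨r, hr⟩ := ls P hP G hG hE
  refine ⟨r, ?_⟩
  intro Ω _ U nm s V F hV
  -- the numbers of the patterns
  let S : ℕ → ℕ → Prop := fun a h => ∃ b J H, nm.pt s ∉ U b ∧ Pat U b J H ∧
    bitN (fun s => nm.pt s ∈ J) P.p = a ∧ bitN (fun j => nm.sh j ∈ H) P.q = h
  have h1 : Sg (Jr r F) (fun e : ℕ => ∃ a < 2 ^ P.p, ∃ h < 2 ^ P.q, S a h ∧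
      ¬ TruE P (Ps P G) (fun s => a.testBit s) h V (Nat.pair e 0 + 1)) := by
    refine sgExLt _ fun a ha => sgExLt _ fun h hh => ?_
    by_cases hS : S a h
    · have h2 : ∀ c, Tx P (fun s => a.testBit s) h c = true → Red (V c) F := by
        obtain ⟨b, J, H, h3, h4, rfl, rfl⟩ := hS
        exact hV b J H h3 h4
      have h3 := (hr a h ha hh V F h2).2
      have h4 : Computable (fun e : ℕ => Nat.pair e 0 + 1) :=
        Computable.succ.comp (Primrec₂.natPair.to_comp.comp Computable.id (Computable.const 0))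
      exact Rem.sgCongr (Rem.sgComp h3 h4) fun e => by simp [hS]
    · exact Rem.sgCongr (Rem.sgConst False) fun e => by simp [hS]
  refine Rem.sgCongr h1 fun e => ?_
  constructor
  · rintro ⟨a, -, h, -, ⟨b, J, H, h3, h4, rfl, rfl⟩, h5⟩
    exact ⟨b, J, H, h3, h4, h5⟩
  · rintro ⟨b, J, H, h3, h4, h5⟩
    exact ⟨_, bitN_lt _ _, _, bitN_lt _ _, ⟨b, J, H, h3, h4, rfl, rfl⟩, h5⟩

end Pool.Agent.Lib.MP_d48993_lc.Asm
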