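import Pool.Agent.Lib.MP_d48993_lc.AE.Rig.SysI

/-!
# Assembly, module MEMB: the leftmost path of the binary tree `P.TB` is arithmetical
-/

set_option autoImplicit false

namespace Pool.Agent.Lib.MP_d48993_lc.Asm

open MP_8c048d_lc (pre join RecF Cop)
open Gr (Par)
open Ars (Ar ArF)

namespace Memb

/-- `σ` has extensions of every length in the tree. -/
def Inf (T : List ℕ → Prop) (σ : List ℕ) : Prop := ∀ n : ℕ, ∃ τ : List ℕ, n ≤ τ.length ∧ σ <+: τ ∧ T τ

theorem inf_step {T : List ℕ → Prop} (hb : ∀ σ, T σ → ∀ b ∈ σ, b < 2)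
    {σ : List ℕ} (h : Inf T σ) (h0 : ¬ Inf T (σ ++ [0])) : Inf T (σ ++ [1]) := by
  classical
  unfold Inf at h0
  push Not at h0
  obtain ⟨n0, h0⟩ := h0
  intro n
  obtain ⟨τ, h1, ⟨ρ, h2⟩, h3⟩ := h (max (max n n0) (σ.length + 1))
  have hn : n ≤ τ.length := le_trans (le_trans (le_max_left _ _) (le_max_left _ _)) h1
  have hn0 : n0 ≤ τ.length := le_trans (le_trans (le_max_right _ _) (le_max_left _ _)) h1
  have hl : σ.length + 1 ≤ τ.length := le_trans (le_max_right _ _) h1
  cases ρ with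
  | nil =>
    rw [List.append_nil] at h2
    subst h2
    omega
  | cons b ρ =>
    have hb2 : b < 2 := by
      refine hb τ h3 b ?_
      rw [← h2]
      simp
    have hc : b = 0 ∨ b = 1 := by omega
    rcases hc with rfl | rfl
    · exfalso
      refine h0 τ hn0 ⟨ρ, ?_⟩ h3
      rw [List.append_assoc]
      exact h2
    · refine ⟨τ, hn, ⟨ρ, ?_⟩, h3⟩
      rw [List.append_assoc]
      exact h2

open Classical in
/-- The next bit. -/
noncomputable def bit (T : List ℕ → Prop) (σ : List ℕ) : ℕ := if Inf T (σ ++ [0]) then 0 else 1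

/-- The leftmost path. -/
noncomputable def L (T : List ℕ → Prop) : ℕ → List ℕ
  | 0 => []
  | n + 1 => L T n ++ [bit T (L T n)]

/-- The leftmost path as a real. -/
noncomputable def a (T : List ℕ → Prop) (n : ℕ) : ℕ := bit T (L T n)

theorem length_L (T : List ℕ → Prop) (n : ℕ) : (L T n).length = n := by
  induction n with
  | zero => rfl
  | succ n ih =>
    show (L T n ++ [bit T (L T n)]).length = n + 1
    rw [List.length_append, ih]
    rfl

theorem pre_a (T : List ℕ → Prop) (n : ℕ) : pre (a T) n = L T n := by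
  induction n with
  | zero => rfl
  | succ n ih =>
    show pre (a T) (n + 1) = L T n ++ [bit T (L T n)]
    rw [← ih]
    unfold pre
    rw [List.range_succ, List.map_append]
    rw [show bit T (List.map (a T) (List.range n)) = a T n by
      show _ = bit T (L T n)
      rw [← ih]
      rfl]
    rfl

theorem inf_L {T : List ℕ → Prop} (hb : ∀ σ, T σ → ∀ b ∈ σ, b < 2) (h : Inf T []) (n : ℕ) :
    Inf T (L T n) := by
  induction n with
  | zero => exact h
  | succ n ih =>
    show Inf T (L T n ++ [bit T (L T n)])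
    unfold bit
    split_ifs with h1
    · exact h1
    · exact inf_step hb ih h1

theorem ar_inf {T : List ℕ → Prop} (hT : ComputablePred T) :
    Ar (fun (σ : List ℕ) (_ : ℕ → ℕ) => Inf T σ) := by
  refine Ar.all (P := fun (σ : List ℕ) (n : ℕ) _ => ∃ τ : List ℕ, n ≤ τ.length ∧ σ <+: τ ∧ T τ) ?_
  refine Ar.ex (P := fun (p : List ℕ × ℕ) (τ : List ℕ) _ => p.2 ≤ τ.length ∧ p.1 <+: τ ∧ T τ) ?_
  refine Ar.and ?_ (Ar.and ?_ ?_)
  · exact Ar.le (ArF.ofC (f := fun p : (List ℕ × ℕ) × List ℕ => p.1.2)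
      (Computable.snd.comp Computable.fst)) (ArF.ofC (f := fun p : (List ℕ × ℕ) × List ℕ =>
        p.2.length) (Computable.list_length.comp Computable.snd))
  · refine (Ar.ex (P := fun (p : (List ℕ × ℕ) × List ℕ) (ρ : List ℕ) _ => p.1.1 ++ ρ = p.2)
      (Ar.eq (ArF.ofC (f := fun p : ((List ℕ × ℕ) × List ℕ) × List ℕ => p.1.1.1 ++ p.2) ?_)
        (ArF.ofC (f := fun p : ((List ℕ × ℕ) × List ℕ) × List ℕ => p.1.2) ?_))).congr
        fun p F => Iff.rfl
    · exact Computable.list_append.comp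
        (Computable.fst.comp (Computable.fst.comp Computable.fst)) Computable.snd
    · exact Computable.snd.comp Computable.fst
  · exact (Ar.ofCp hT).comp (f := fun p : (List ℕ × ℕ) × List ℕ => p.2) Computable.snd

theorem arf_bit {T : List ℕ → Prop} (hT : ComputablePred T) :
    ArF (fun (σ : List ℕ) (_ : ℕ → ℕ) => bit T σ) := by
  classical
  have h1 : Ar (fun (σ : List ℕ) (_ : ℕ → ℕ) => Inf T (σ ++ [0])) :=
    (ar_inf hT).comp (f := fun σ : List ℕ => σ ++ [0])
      (Computable.list_append.comp Computable.id (Computable.const [0]))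
  refine (ArF.ite (c := fun (σ : List ℕ) (_ : ℕ → ℕ) => Inf T (σ ++ [0])) h1
    (ArF.ofC (Computable.const 0)) (ArF.ofC (Computable.const 1))).congr fun σ F => ?_
  unfold bit
  split_ifs <;> rfl

theorem arf_a {T : List ℕ → Prop} (hT : ComputablePred T) :
    ArF (fun (n : ℕ) (_ : ℕ → ℕ) => a T n) := by
  have h1 : ArF (fun (p : Unit × ℕ) (_ : ℕ → ℕ) => L T p.2) := by
    refine ArF.rec' (f := fun (_ : Unit) (n : ℕ) (_ : ℕ → ℕ) => L T n)
      (g := fun (_ : Unit) (_ : ℕ → ℕ) => [])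
      (ArF.ofC (Computable.const []))
      (h := fun (p : Unit × ℕ × List ℕ) (_ : ℕ → ℕ) => p.2.2 ++ [bit T p.2.2])
      ?_ (fun _ _ => rfl) (fun _ _ _ => rfl)
    have h2 : ArF (fun (p : Unit × ℕ × List ℕ) (_ : ℕ → ℕ) => bit T p.2.2) :=
      (arf_bit hT).comp₁ (g := fun p : Unit × ℕ × List ℕ => p.2.2)
        (Computable.snd.comp Computable.snd)
    have h3 : ArF (fun (p : Unit × ℕ × List ℕ) (_ : ℕ → ℕ) => p.2.2) :=
      ArF.ofC (Computable.snd.comp Computable.snd)
    exact (h3.pair h2).comp (g := fun x : List ℕ × ℕ => x.1 ++ [x.2])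
      (Computable.list_append.comp Computable.fst
        (Computable.list_cons.comp Computable.snd (Computable.const [])))
  exact (arf_bit hT).bind (h1.comp₁ (g := fun n : ℕ => ((), n))
    ((Computable.const ()).pair Computable.id))

end Memb

theorem Memb_proof : MembStatement := by
  intro P hP
  obtain ⟨r, hr⟩ := (Memb.arf_a hP.tbc).redZ
  refine ⟨r, Memb.a P.TB, fun k => ?_, hr r le_rfl⟩
  have h0 : Memb.Inf P.TB [] := fun n =>
    ⟨pre P.h n, (by rw [MP_8c048d_lc.length_pre]), List.nil_prefix, hP.path n⟩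
  obtain ⟨τ, -, h2, h3⟩ := Memb.inf_L hP.tbb h0 k 0
  rw [Memb.pre_a]
  exact hP.tbt _ _ h2 h3

end Pool.Agent.Lib.MP_d48993_lc.Asm
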