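import Pool.Agent.Lib.MP_d48993_lc.AE.Rig.Mdet
import Pool.Agent.Lib.MP_d48993_lc.AE.Rig.Msgr

/-!
# Part T (MP_d48993), modules MPRES and MPRM (4170, T3.4): the object follows at infinitely many
stages of an infinite set
-/

set_option autoImplicit false

namespace Pool.Agent.Lib.MP_d48993_lc.Txt

open MP_8c048d_lc (pre join RecF Cop length_pre pre_take pre_getElem?)
open Ind2 Rem

namespace MPres

/-- The relation: the stage `b ≥ N` of `N'` is announced and the star agrees with the contents. -/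
def Dp (M : Mch) (N' : ℕ → Prop) (N : ℕ) (p : ℕ × St3 × List ℕ × ℕ × ℕ × List ℕ) : Prop :=
  (N ≤ p.2.2.2.1 ∧ N' p.2.2.2.1) ∧ ∃ r1 : St3,
    M.cat p.2.1 p.2.2.1.length p.2.2.2.2.2 = some r1 ∧
    (M.ann (r1, p.2.2.1, p.2.2.2.1)).stg = p.2.2.2.1 ∧
    (M.chk = true → cont (M.star (M.ann (r1, p.2.2.1, p.2.2.2.1))).txt <+: p.2.2.2.2.2)

theorem sg_Dp {Y : ℕ → ℕ} {M : Mch} (hM : MSg Y M) {N' : ℕ → Prop} (hN : Sg Y N') (N : ℕ) :
    Sg Y (Dp M N' N) := by
  have cb : Computable (fun p : ℕ × St3 × List ℕ × ℕ × ℕ × List ℕ => p.2.2.2.1) :=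
    Computable.fst.comp (Computable.snd.comp (Computable.snd.comp Computable.snd))
  have cs : Computable (fun p : ℕ × St3 × List ℕ × ℕ × ℕ × List ℕ => p.2.2.1) :=
    Computable.fst.comp (Computable.snd.comp Computable.snd)
  have cr : Computable (fun p : ℕ × St3 × List ℕ × ℕ × ℕ × List ℕ => p.2.1) :=
    Computable.fst.comp Computable.snd
  have cc : Computable (fun p : ℕ × St3 × List ℕ × ℕ × ℕ × List ℕ => p.2.2.2.2.2) :=
    Computable.snd.comp (Computable.snd.comp (Computable.snd.comp (Computable.snd.comp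
      Computable.snd)))
  have hle : ComputablePred (fun p : ℕ × ℕ => p.1 ≤ p.2) :=
    PrimrecPred.computablePred (PrimrecRel.comp Primrec.nat_le Primrec.fst Primrec.snd)
  have hA : SgF Y (fun q : (ℕ × St3 × List ℕ × ℕ × ℕ × List ℕ) × St3 =>
      M.ann (q.2, q.1.2.2.1, q.1.2.2.2.1)) :=
    hM.ann.comp₁ (g := fun q : (ℕ × St3 × List ℕ × ℕ × ℕ × List ℕ) × St3 =>
      (q.2, q.1.2.2.1, q.1.2.2.2.1)) (Computable.snd.pair ((cs.comp Computable.fst).pair
        (cb.comp Computable.fst)))
  refine sgAnd (sgAnd ?_ ?_) ?_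
  · exact sgComp (sgCp (Z := Y) hle) (f := fun p : ℕ × St3 × List ℕ × ℕ × ℕ × List ℕ =>
      (N, p.2.2.2.1)) ((Computable.const N).pair cb)
  · exact sgComp hN cb
  · refine sgEx (P := fun (p : ℕ × St3 × List ℕ × ℕ × ℕ × List ℕ) (r1 : St3) =>
      M.cat p.2.1 p.2.2.1.length p.2.2.2.2.2 = some r1 ∧
      (M.ann (r1, p.2.2.1, p.2.2.2.1)).stg = p.2.2.2.1 ∧
      (M.chk = true → cont (M.star (M.ann (r1, p.2.2.1, p.2.2.2.1))).txt <+: p.2.2.2.2.2))
      (sgAnd ?_ (sgAnd ?_ ?_))
    · have hcat : Computable (fun q : (ℕ × St3 × List ℕ × ℕ × ℕ × List ℕ) × St3 =>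
          M.cat q.1.2.1 q.1.2.2.1.length q.1.2.2.2.2.2) :=
        (Msgr.comp_cat M).comp (g := fun q : (ℕ × St3 × List ℕ × ℕ × ℕ × List ℕ) × St3 =>
          (q.1.2.1, q.1.2.2.1.length, q.1.2.2.2.2.2)) ((cr.comp Computable.fst).pair
            ((Computable.list_length.comp (cs.comp Computable.fst)).pair
              (cc.comp Computable.fst)))
      have hsome : Computable (fun q : (ℕ × St3 × List ℕ × ℕ × ℕ × List ℕ) × St3 => some q.2) :=
        Computable.option_some.comp Computable.snd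
      exact sgCp (MP_8c048d_lc.e3_cp_eq hcat hsome)
    · have hst : SgF Y (fun q : (ℕ × St3 × List ℕ × ℕ × ℕ × List ℕ) × St3 =>
          (M.ann (q.2, q.1.2.2.1, q.1.2.2.2.1)).stg) :=
        hA.comp (g := St3.stg) Computable.fst
      have hb : SgF Y (fun q : (ℕ × St3 × List ℕ × ℕ × ℕ × List ℕ) × St3 => q.1.2.2.2.1) :=
        SgF.ofC (cb.comp Computable.fst)
      exact SgF.eq hst hb
    · by_cases hc : M.chk = true
      · have h1 : SgF Y (fun q : (ℕ × St3 × List ℕ × ℕ × ℕ × List ℕ) × St3 =>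
            (M.star (M.ann (q.2, q.1.2.2.1, q.1.2.2.2.1)), q.1.2.2.2.2.2)) :=
          (hM.star.bind hA).pair (SgF.ofC (cc.comp Computable.fst))
        have h2 : ComputablePred (fun w : St3 × List ℕ =>
            cont w.1.txt = w.2.take (cont w.1.txt).length) := by
          have h3 : Computable (fun w : St3 × List ℕ => cont w.1.txt) :=
            (prim_cont.comp (Msgr.prim_txt.comp Primrec.fst)).to_comp
          exact MP_8c048d_lc.e3_cp_eq h3 (Primrec.list_take.to_comp.comp
            (Computable.list_length.comp h3) Computable.snd)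
        refine sgCongr (sgSubst (sgCp (Z := Y) h2) h1) fun q => ?_
        rw [← List.prefix_iff_eq_take]
        exact ⟨fun h _ => h, fun h => h hc⟩
      · exact sgCongr (sgConst True) fun q => ⟨fun _ h => (hc h).elim, fun _ => trivial⟩

theorem Dp_mono {M : Mch} {N' : ℕ → Prop} {N u : ℕ} {r : St3} {s : List ℕ} {b k : ℕ}
    {γ γ' : List ℕ} (h : γ <+: γ') (hD : Dp M N' N (u, r, s, b, k, γ)) :
    Dp M N' N (u, r, s, b, k, γ') := by
  obtain ⟨h1, r1, h2, h3, h4⟩ := hD
  exact ⟨h1, r1, M.det_cat_mono h h2, h3, fun hc => (h4 hc).trans h⟩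

theorem cont_lt (w : List ℕ) : ∀ c ∈ cont w, c < 2 := by
  intro c hc
  unfold cont at hc
  rw [List.mem_filterMap] at hc
  obtain ⟨a, -, ha⟩ := hc
  unfold bit at ha
  split_ifs at ha with h
  rw [← Option.some.inj ha]
  exact h.2

end MPres

open MPres in
/-- Module MPRES. -/
theorem mpres (hI : StMINV) : StMPRES := by
  intro T M Inv Anv hM ρ fo e cn _ _ _ hcn A R C Q S Z V hR Ys hpg hY N' hN hinf hfol N
  obtain ⟨i1, i2, i3, i4, i5, i6, i7⟩ := hI T M Inv Anv hM ρ fo e cn hcn A R C Q S Z V hR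
  obtain ⟨u, -, n, ⟨h1, h2⟩, r1, h3, h4, h5⟩ := hpg (Dp M N' N) (fun Y hy => sg_Dp (hY Y hy)
    (hN Y hy) N) (fun u r s b k γ γ' h hD => Dp_mono h hD) (by
      intro L
      obtain ⟨K, hK⟩ := hM.bdd (C L) (pre e (A L))
      obtain ⟨b, hb, hb'⟩ := hinf (max N K)
      obtain ⟨a1, a2⟩ := hM.ann (C L) (pre e (A L)) b (i1 L).2.1
      have a3 := hK b ((le_max_right _ _).trans hb)
      have a4 : Leg T (M.ann (C L, pre e (A L), b)).txt := by
        rw [a2]
        exact (leg_mC (hM.leg _ (i1 L).2.1) _ _).1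
      obtain ⟨-, a5, -, -⟩ := hM.star _ a1 a4
      have a6 : cont (C L).txt <+: cont (M.star (M.ann (C L, pre e (A L), b))).txt := by
        refine det_cont_pfx (List.IsPrefix.trans ?_ a5.px)
        rw [a2]
        exact List.prefix_append _ _
      by_cases hc : M.chk = true
      · rw [(i2 hc L).2.1] at a6
        refine ⟨L, le_rfl, b, 0, _, cont_lt _, ?_, (det_pre_pfx (le_max_left _ _)).trans a6,
          ⟨(le_max_left _ _).trans hb, hb'⟩, C L, ?_, a3, fun _ => List.prefix_rfl⟩
        · have : M.ln (R L) = (cont (R L).txt).length := if_pos hc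
          rw [this]
          exact (det_pre_pfx (le_max_right _ _)).trans a6
        · show M.cat (R L) (pre e (A L)).length _ = _
          rw [length_pre]
          exact det_cat_run hR L fun _ => (det_pre_pfx (le_max_left _ _)).trans a6
      · refine ⟨L, le_rfl, b, 0, pre cn (A L), ?_, ?_, List.prefix_rfl,
          ⟨(le_max_left _ _).trans hb, hb'⟩, C L, ?_, a3, fun h => (hc h).elim⟩
        · intro c h
          unfold pre at h
          rw [List.mem_map] at h
          obtain ⟨q, _, rfl⟩ := h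
          exact hcn q
        · have : M.ln (R L) = 0 := if_neg hc
          rw [this]
          exact List.nil_prefix
        · show M.cat (R L) (pre e (A L)).length _ = _
          rw [length_pre]
          exact det_cat_run hR L fun _ => List.prefix_rfl) 0
  dsimp only at h1 h2 h3 h4 h5
  rw [length_pre] at h3
  have e1 : r1 = C u := by
    obtain ⟨n', hn'⟩ := hR.cat u
    have j1 := M.det_cat_mono (det_pre_pfx (le_max_left n n')) h3
    have j2 := M.det_cat_mono (det_pre_pfx (le_max_right n n')) hn'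
    exact Option.some.inj (j1.symm.trans j2)
  rw [e1, ← hR.ann u] at h4 h5
  have e2 : S u = M.star (Q u) := by
    obtain ⟨n', hn'⟩ := hR.star u
    have j2 := M.det_agr_mono (det_pre_pfx (le_max_right n n')) hn'
    have j1 : M.agr (Q u) (M.star (Q u)) (pre cn (max n n')) = some (M.star (Q u)) := by
      unfold Mch.agr
      by_cases hc : M.chk = true
      · rw [if_pos hc, if_pos ((h5 hc).trans (det_pre_pfx (le_max_left n n')))]
      · rw [if_neg hc]
    exact Option.some.inj (j2.symm.trans j1)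
  exact ⟨_, h1, h2, u, h4, hfol _ (i1 u).2.2.1 (by rw [h4]; exact h2), e2⟩

/-- Module MPRM. -/
theorem mprm : StMPRM := by
  intro m F Ys N₀ hF hSg hinf
  have main : ∀ k ≤ m, ∀ N, ∃ n ≥ N, N₀ n ∧ ∀ j, m - k ≤ j → j < m → F j n := by
    intro k
    induction k with
    | zero =>
      intro _ N
      obtain ⟨n, h1, h2⟩ := hinf N
      exact ⟨n, h1, h2, fun j h3 h4 => by omega⟩
    | succ k ih =>
      intro hk N
      have ih' := ih (by omega)
      have hi : m - (k + 1) < m := by omega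
      obtain ⟨n, h1, ⟨h2, h3⟩, h4⟩ := hF (m - (k + 1)) hi
        (fun n => N₀ n ∧ ∀ l < m, m - k ≤ l → F l n) (fun n h => h.1) (fun Y hy => by
          obtain ⟨h5, h6⟩ := hSg (m - (k + 1)) hi Y hy
          refine sgAnd h5 (sgAllLt (P := fun l n => m - k ≤ l → F l n) m fun l hl => ?_)
          by_cases h7 : m - k ≤ l
          · exact sgCongr (h6 l (by omega) hl) fun n => ⟨fun h _ => h, fun h => h h7⟩
          · exact sgCongr (sgConst True) fun n => ⟨fun _ h => (h7 h).elim, fun _ => trivial⟩)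
        (fun N => by
          obtain ⟨n, h5, h6, h7⟩ := ih' N
          exact ⟨n, h5, h6, fun l hl hl' => h7 l hl' hl⟩) N
      refine ⟨n, h1, h2, fun j hj hj' => ?_⟩
      rcases Nat.lt_or_ge j (m - k) with h5 | h5
      · obtain rfl : j = m - (k + 1) := by omega
        exact h4
      · exact h3 j hj' h5
  intro N
  obtain ⟨n, h1, h2, h3⟩ := main m le_rfl N
  exact ⟨n, h1, h2, fun i hi => h3 i (by omega) hi⟩

end Pool.Agent.Lib.MP_d48993_lc.Txt
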