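import Pool.Agent.Lib.MP_d48993_lc.AE.Rig.AsmI
import Pool.Agent.Lib.MP_d48993_lc.Trees
import Pool.Agent.Lib.MP_d48993_lc.Enum
import Pool.Agent.Lib.MP_d48993_lc.H46.Emb
import Pool.Agent.Lib.MP_d48993_lc.Red
import Pool.Agent.Lib.MP_d48993_lc.Cls

/-!
# Module PARB: the parameters of the construction exist (helper49)
-/

set_option autoImplicit false

namespace Pool.Agent.Lib.MP_d48993_lc.Asm

open MP_8c048d_lc (pre join RecF Cop)
open Gr (Par BB)
open Pool.Agent.Lib.MP_d48993_lc.Bound (IsC)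

/-- Header function: `[]`, `0 :: σ` for `tb σ`, `1 :: σ` for `tr (h, σ)`. -/
def hdF (tb : List ℕ → Bool) (tr : ℕ × List ℕ → Bool) (h : ℕ) (σ : List ℕ) : Bool :=
  bif decide (σ.length = 0) then true
  else bif decide (σ.headI = 0) then tb σ.tail
  else bif decide (σ.headI = 1) then tr (h, σ.tail)
  else false

theorem hdF_nil (tb : List ℕ → Bool) (tr : ℕ × List ℕ → Bool) (h : ℕ) : hdF tb tr h [] = true := rfl

theorem hdF_zero (tb : List ℕ → Bool) (tr : ℕ × List ℕ → Bool) (h : ℕ) (σ : List ℕ) :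
    hdF tb tr h (0 :: σ) = tb σ := by
  unfold hdF
  simp

theorem hdF_one (tb : List ℕ → Bool) (tr : ℕ × List ℕ → Bool) (h : ℕ) (σ : List ℕ) :
    hdF tb tr h (1 :: σ) = tr (h, σ) := by
  unfold hdF
  simp

theorem hdF_other (tb : List ℕ → Bool) (tr : ℕ × List ℕ → Bool) (h a : ℕ) (σ : List ℕ)
    (h0 : a ≠ 0) (h1 : a ≠ 1) : hdF tb tr h (a :: σ) = false := by
  unfold hdF
  simp [h0, h1]

theorem hdF_comp {tb : List ℕ → Bool} {tr : ℕ × List ℕ → Bool} (hb : Computable tb)
    (hr : Computable tr) : Computable (fun x : ℕ × List ℕ => hdF tb tr x.1 x.2) := by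
  have e0 : Computable (fun x : ℕ × List ℕ => decide (x.2.length = 0)) :=
    (PrimrecRel.comp Primrec.eq (Primrec.list_length.comp Primrec.snd)
      (Primrec.const 0)).decide.to_comp
  have e1 : Computable (fun x : ℕ × List ℕ => decide (x.2.headI = 0)) :=
    (PrimrecRel.comp Primrec.eq (Primrec.list_headI.comp Primrec.snd)
      (Primrec.const 0)).decide.to_comp
  have e2 : Computable (fun x : ℕ × List ℕ => decide (x.2.headI = 1)) :=
    (PrimrecRel.comp Primrec.eq (Primrec.list_headI.comp Primrec.snd)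
      (Primrec.const 1)).decide.to_comp
  have e3 : Computable (fun x : ℕ × List ℕ => x.2.tail) :=
    (Primrec.list_tail.comp Primrec.snd).to_comp
  unfold hdF
  exact Computable.cond e0 (Computable.const true)
    (Computable.cond e1 (hb.comp e3)
      (Computable.cond e2 (hr.comp (Computable.pair Computable.fst e3)) (Computable.const false)))

/-! ### Shifts -/

theorem pre_cons (f : ℕ → ℕ) (k : ℕ) : pre f (k + 1) = f 0 :: pre (fun n => f (n + 1)) k := by
  unfold MP_8c048d_lc.pre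
  rw [List.range_succ_eq_map, List.map_cons, List.map_map]
  rfl

theorem red_shift (f : ℕ → ℕ) : Red (fun n => f (n + 1)) f := by
  have h : RecF (fun (n : ℕ) (F : ℕ → ℕ) => F (n + 1)) :=
    RecF.app (RecF.of_computable (f := fun n : ℕ => n + 1) Computable.succ)
  exact red1 _ h f

/-- `a` followed by `f`. -/
def cns (a : ℕ) (f : ℕ → ℕ) (n : ℕ) : ℕ := Nat.rec (motive := fun _ => ℕ) a (fun k _ => f k) n

theorem cns_zero (a : ℕ) (f : ℕ → ℕ) : cns a f 0 = a := rfl

theorem cns_succ (a : ℕ) (f : ℕ → ℕ) (n : ℕ) : cns a f (n + 1) = f n := rfl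

theorem red_cns (a : ℕ) (f : ℕ → ℕ) : Red (cns a f) f := by
  have hg : RecF (fun (_ : Unit) (_ : ℕ → ℕ) => a) := RecF.of_computable (Computable.const a)
  have hh : RecF (fun (p : Unit × ℕ × ℕ) (F : ℕ → ℕ) => F p.2.1) :=
    RecF.app (RecF.of_computable (f := fun p : Unit × ℕ × ℕ => p.2.1)
      (Computable.fst.comp Computable.snd))
  have h := (RecF.natRec hg hh).comp₁ (f := fun n : ℕ => ((), n))
    (Computable.pair (Computable.const ()) Computable.id)
  exact red1 _ h f

theorem up_red {S : Set (ℕ → ℕ)} {f W : ℕ → ℕ} (hf : f ∈ Up S) (h : Red f W) : W ∈ Up S := by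
  obtain ⟨g, hg, hgf⟩ := hf
  exact ⟨g, hg, hgf.trans h⟩

/-- The paths of a header. -/
theorem up_hdF {tb : List ℕ → Bool} {tr : ℕ × List ℕ → Bool} {h : ℕ} :
    Up (Txt.PathsT (hdF tb tr h)) = Up {f | ∀ k, tr (h, pre f k) = true} ∪
      Up {f | ∀ k, tb (pre f k) = true} := by
  ext W
  constructor
  · rintro ⟨f, hf, hfW⟩
    have hs : ∀ k, hdF tb tr h (f 0 :: pre (fun n => f (n + 1)) k) = true := fun k => by
      rw [← pre_cons]
      exact hf (k + 1)
    by_cases h0 : f 0 = 0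
    · right
      refine ⟨fun n => f (n + 1), fun k => ?_, (red_shift f).trans hfW⟩
      have := hs k
      rwa [h0, hdF_zero] at this
    · by_cases h1 : f 0 = 1
      · left
        refine ⟨fun n => f (n + 1), fun k => ?_, (red_shift f).trans hfW⟩
        have := hs k
        rwa [h1, hdF_one] at this
      · have := hs 0
        rw [hdF_other tb tr h (f 0) _ h0 h1] at this
        exact absurd this (by decide)
  · rintro (⟨f, hf, hfW⟩ | ⟨f, hf, hfW⟩)
    · refine ⟨cns 1 f, fun k => ?_, (red_cns 1 f).trans hfW⟩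
      cases k with
      | zero => rfl
      | succ k =>
        rw [pre_cons, cns_zero, hdF_one]
        exact hf k
    · refine ⟨cns 0 f, fun k => ?_, (red_cns 0 f).trans hfW⟩
      cases k with
      | zero => rfl
      | succ k =>
        rw [pre_cons, cns_zero, hdF_zero]
        exact hf k

/-- Module PARB. -/
theorem parb_proof : ParBStatement := by
  intro B hcl hne hbin hz p q hp
  obtain ⟨Φ, hΦ⟩ := enum
  obtain ⟨Tr0, hTr⟩ := trees
  obtain ⟨h, hh⟩ := hne
  obtain ⟨-, TB, ⟨hTBc, hTBt⟩, hTBb, rfl⟩ := (cls.2 B).2 ⟨⟨h, hh⟩, hcl, hbin⟩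
  have hTBc' := hTBc
  obtain ⟨dB, hdB⟩ := hTBc
  have hTrc := hTr.comp
  obtain ⟨dT, hdT⟩ := hTrc
  let tb : List ℕ → Bool := fun σ => decide (TB σ)
  let tr : ℕ × List ℕ → Bool := fun x => decide (Tr0 x.1 x.2)
  have hcT : ∀ e, IsCompTree (fun σ => Tr0 e σ ∧ ∀ b ∈ σ, b < 2) := by
    intro e
    refine ⟨?_, ?_⟩
    · have h1 : ComputablePred (fun σ : List ℕ => Tr0 e σ) :=
        comp_of_cop (Cop.of_computable hTr.comp |>.comp (f := fun σ : List ℕ => (e, σ))
          (Computable.pair (Computable.const e) Computable.id))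
      exact comp_of_cop ((Cop.of_computable h1).and (Cop.of_computable bin_comp))
    · rintro σ τ hστ ⟨h1, h2⟩
      exact ⟨hTr.tree e σ τ hστ h1, fun b hb => h2 b (hστ.subset hb)⟩
  refine ⟨⟨p, q, Φ, fun n σ => Tr0 (n - 1).unpair.1 σ ∧ ∀ b ∈ σ, b < 2, hdF tb tr, TB, h⟩, rfl, rfl, ?_⟩
  have hlab : ∀ e i, (Nat.pair e i + 1 - 1).unpair.1 = e := fun e i => by
    rw [Nat.add_sub_cancel, Nat.unpair_pair]
  refine ⟨⟨hp, hΦ, ?_, ?_, ?_, ?_, hTBc', fun σ τ h1 h2 => hTBt σ τ h1 h2, ?_, fun k => hh k, hz⟩,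
    rfl, ?_, ?_, ?_, ?_, ?_, ?_, ?_⟩
  · -- trc
    have c1 : Computable (fun x : ℕ × List ℕ => ((x.1 - 1).unpair.1, x.2)) := by
      refine Computable.pair ?_ Computable.snd
      exact (Primrec.fst.comp (Primrec.unpair.comp
        (Primrec.nat_sub.comp Primrec.fst (Primrec.const 1)))).to_comp
    have h1 : Cop (fun (x : ℕ × List ℕ) (_ : ℕ → ℕ) => Tr0 (x.1 - 1).unpair.1 x.2) :=
      (Cop.of_computable hTr.comp).comp (f := fun x : ℕ × List ℕ => ((x.1 - 1).unpair.1, x.2)) c1
    have h2 : Cop (fun (x : ℕ × List ℕ) (_ : ℕ → ℕ) => ∀ b ∈ x.2, b < 2) :=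
      (Cop.of_computable bin_comp).comp (f := fun x : ℕ × List ℕ => x.2) Computable.snd
    exact comp_of_cop (h1.and h2)
  · exact fun e σ τ h1 h2 => (hcT _).2 σ τ h1 h2
  · exact fun e σ h1 => h1.2
  · exact hdF_comp hdB hdT
  · exact fun σ h1 b hb => hTBb σ h1 b hb
  · -- lab
    rintro U ⟨S, hS, rfl⟩
    obtain ⟨Q, hQne, hQc, hQb, hQ⟩ := H46.emb red1 redMu cls S (paths TB) hS ⟨h, hh⟩ hcl hbin
    obtain ⟨e, he⟩ := hTr.all Q hQc
    refine ⟨e, ?_⟩
    rw [← hQ]
    congr 1
    ext f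
    show f ∈ Q ↔ ∀ k, Tr0 (Nat.pair e 0 + 1 - 1).unpair.1 (pre f k) ∧ ∀ b ∈ pre f k, b < 2
    rw [hlab]
    constructor
    · intro hf k
      refine ⟨?_, ?_⟩
      · rw [he] at hf
        exact hf k
      · intro b hb
        obtain ⟨i, -, rfl⟩ := List.mem_map.1 hb
        exact hQb f hf i
    · intro hf
      rw [he]
      exact fun k => (hf k).1
  · -- labC
    intro e
    exact ⟨_, closed_of_tree (hcT (Nat.pair e 0 + 1 - 1).unpair.1), rfl⟩
  · -- copy
    intro e i σ
    show (Tr0 (Nat.pair e i + 1 - 1).unpair.1 σ ∧ _) ↔ (Tr0 (Nat.pair e 0 + 1 - 1).unpair.1 σ ∧ _)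
    rw [hlab, hlab]
  · -- hdr
    rintro U ⟨S, hS, rfl⟩
    obtain ⟨e, he⟩ := hTr.all S hS
    refine ⟨e, ?_⟩
    show _ = Up (Txt.PathsT (hdF tb tr e))
    rw [up_hdF]
    congr 2
    · rw [he]
      ext f
      constructor
      · intro hf k
        exact @decide_eq_true _ (dT (e, pre f k)) (hf k)
      · intro hf k
        exact @of_decide_eq_true _ (dT (e, pre f k)) (hf k)
    · ext f
      constructor
      · intro hf k
        exact decide_eq_true (hf k)
      · intro hf k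
        exact of_decide_eq_true (hf k)
  · -- hdt
    intro e s t hst ht
    cases s with
    | nil => rfl
    | cons a s =>
      obtain ⟨r, rfl⟩ := hst
      have ht' : hdF tb tr e (a :: (s ++ r)) = true := ht
      show hdF tb tr e (a :: s) = true
      by_cases h0 : a = 0
      · subst h0
        rw [hdF_zero] at ht' ⊢
        exact decide_eq_true (hTBt s _ (List.prefix_append _ _) (of_decide_eq_true ht'))
      · by_cases h1 : a = 1
        · subst h1
          rw [hdF_one] at ht' ⊢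
          exact @decide_eq_true _ (dT (e, s)) (hTr.tree e s _ (List.prefix_append _ _)
            (@of_decide_eq_true _ (dT (e, s ++ r)) ht'))
        · rw [hdF_other tb tr e a _ h0 h1] at ht'
          exact absurd ht' (by decide)
  · exact fun e => rfl
  · intro e σ hσ
    show hdF tb tr e (0 :: σ) = true
    rw [hdF_zero]
    exact decide_eq_true hσ

end Pool.Agent.Lib.MP_d48993_lc.Asm
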