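import Pool.Agent.Lib.MP_d48993_lc.AE.Rig.Mach

/-!
# Part T (MP_d48993): the run of a machine is determined by initial segments (4169, T2.5)
-/

set_option autoImplicit false

namespace Pool.Agent.Lib.MP_d48993_lc.Txt

open MP_8c048d_lc (pre join RecF Cop length_pre pre_take pre_getElem?)

/-! ## Strings -/

theorem det_bts {γ γ' : List ℕ} (h : γ <+: γ') {i j : ℕ} (hj : j ≤ γ.length) :
    bts γ' i j = bts γ i j := by
  obtain ⟨v, rfl⟩ := h
  unfold bts
  rw [List.take_append_of_le_length hj]

theorem det_get {γ γ' : List ℕ} (h : γ <+: γ') {i : ℕ} (hi : i < γ.length) : γ'[i]? = γ[i]? := by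
  obtain ⟨v, rfl⟩ := h
  rw [List.getElem?_append_left hi]

theorem det_dis_iff {x γ : List ℕ} {i : ℕ} : dis x γ = some i ↔
    i < x.length ∧ i < γ.length ∧ x[i]? ≠ γ[i]? ∧ ∀ j < i, x[j]? = γ[j]? := by
  unfold dis
  rw [List.find?_range_eq_some]
  constructor
  · rintro ⟨h1, h2, h3⟩
    rw [List.mem_range, lt_min_iff] at h2
    refine ⟨h2.1, h2.2, by simpa using h1, fun j hj => ?_⟩
    simpa using h3 j hj
  · rintro ⟨h1, h2, h3, h4⟩
    refine ⟨by simpa using h3, by rw [List.mem_range, lt_min_iff]; exact ⟨h1, h2⟩, fun j hj => ?_⟩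
    simpa using h4 j hj

theorem det_dis_mono {x γ γ' : List ℕ} (h : γ <+: γ') {i : ℕ} (hi : dis x γ = some i) :
    dis x γ' = some i ∧ ¬ x <+: γ' := by
  obtain ⟨h1, h2, h3, h4⟩ := det_dis_iff.1 hi
  have h5 : x[i]? ≠ γ'[i]? := by rw [det_get h h2]; exact h3
  refine ⟨det_dis_iff.2 ⟨h1, h2.trans_le h.length_le, h5, fun j hj => ?_⟩, fun h6 => ?_⟩
  · rw [det_get h (hj.trans h2)]; exact h4 j hj
  · exact h5 (det_get h6 h1).symm

theorem det_cont_append (w v : List ℕ) : cont (w ++ v) = cont w ++ cont v := by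
  unfold cont; rw [List.filterMap_append]

theorem det_cont_pfx {w v : List ℕ} (h : w <+: v) : cont w <+: cont v := by
  obtain ⟨u, rfl⟩ := h
  rw [det_cont_append]
  exact List.prefix_append _ _

theorem det_bit_mj {b : ℕ} (h : b < 2) : bit (mj b) = some b := by
  unfold bit mj
  rw [kd_mm, ar_mm]
  exact if_pos ⟨rfl, h⟩

theorem det_cont_map {l : List ℕ} (h : ∀ b ∈ l, b < 2) : cont (l.map mj) = l := by
  unfold cont
  induction l with
  | nil => rfl
  | cons b l ih =>
    rw [List.map_cons, List.filterMap_cons, det_bit_mj (h b (by simp))]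
    simp only
    rw [ih fun c hc => h c (by simp [hc])]

theorem det_pre_pfx {F : ℕ → ℕ} {i j : ℕ} (h : i ≤ j) : pre F i <+: pre F j := by
  rw [List.prefix_iff_eq_take, length_pre, pre_take, min_eq_left h]

/-! ## Monotonicity -/

theorem Mch.det_cat_mono (M : Mch) {r z : St3} {a : ℕ} {γ γ' : List ℕ} (h : γ <+: γ')
    (hz : M.cat r a γ = some z) : M.cat r a γ' = some z := by
  unfold Mch.cat at hz ⊢
  by_cases h1 : M.chk = true
  · rw [if_pos h1] at hz ⊢
    by_cases h2 : a ≤ γ.length
    · rw [if_pos h2] at hz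
      rw [if_pos (h2.trans h.length_le), det_bts h h2]
      exact hz
    · rw [if_neg h2] at hz; cases hz
  · rw [if_neg h1] at hz ⊢; exact hz

theorem Mch.det_agr_mono (M : Mch) {r p z : St3} {γ γ' : List ℕ} (h : γ <+: γ')
    (hz : M.agr r p γ = some z) : M.agr r p γ' = some z := by
  unfold Mch.agr at hz ⊢
  by_cases h1 : M.chk = true
  · rw [if_pos h1] at hz ⊢
    by_cases h2 : cont p.txt <+: γ
    · rw [if_pos h2] at hz
      rw [if_pos (h2.trans h)]
      exact hz
    · rw [if_neg h2] at hz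
      rw [Option.map_eq_some_iff] at hz
      obtain ⟨i, hi, hz⟩ := hz
      obtain ⟨h3, h4⟩ := det_dis_mono h hi
      rw [if_neg h4, h3, Option.map_some]
      rw [det_bts (j := i + 1) h (det_dis_iff.1 hi).2.1, hz]
  · rw [if_neg h1] at hz ⊢; exact hz

theorem Mch.det_zf_mono (M : Mch) {u : ℕ} {r z : St3} {s : List ℕ} {b : ℕ} {γ γ' : List ℕ}
    (h : γ <+: γ') (hz : M.zf u r s b γ = some z) : M.zf u r s b γ' = some z := by
  unfold Mch.zf at hz ⊢
  rw [Option.bind_eq_some_iff] at hz
  obtain ⟨r1, h1, hz⟩ := hz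
  rw [Option.map_eq_some_iff] at hz
  obtain ⟨r3, h3, rfl⟩ := hz
  rw [M.det_cat_mono h h1, Option.bind_some, M.det_agr_mono h h3, Option.map_some]

theorem Mch.det_cyc_mono (M : Mch) {u : ℕ} {r z : St3} {s : List ℕ} {b k : ℕ} {γ γ' : List ℕ}
    (h : γ <+: γ') (hz : M.cyc u r s b k γ = some z) : M.cyc u r s b k γ' = some z := by
  unfold Mch.cyc at hz ⊢
  rw [Option.bind_eq_some_iff] at hz
  obtain ⟨r1, h1, hz⟩ := hz
  rw [M.det_zf_mono h h1, Option.bind_some, M.det_agr_mono h hz]

theorem Mch.det_run_mono (M : Mch) {ρ : List ℕ → ℕ} {fo : ℕ → ℕ} {s s' γ γ' : List ℕ}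
    (hs : s <+: s') (h : γ <+: γ') : ∀ (u : ℕ) (r : St3), M.run ρ fo s γ u = some r →
    M.run ρ fo s' γ' u = some r := by
  intro u
  induction u with
  | zero => intro r hr; exact hr
  | succ u ih =>
    intro r hr
    unfold Mch.run at hr ⊢
    rw [Option.bind_eq_some_iff] at hr
    obtain ⟨r0, h0, hr⟩ := hr
    rw [Option.bind_eq_some_iff] at hr
    obtain ⟨a, ha, hr⟩ := hr
    rw [Option.bind_eq_some_iff] at hr
    obtain ⟨y, hy, hr⟩ := hr
    have h1 : a < s.length := (List.getElem?_eq_some_iff.1 hy).1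
    have h2 : (stops ρ s')[u]? = some a := by
      rw [det_get (stops_prefix hs) (List.getElem?_eq_some_iff.1 ha).1]; exact ha
    have h3 : s'.take a = s.take a := by
      obtain ⟨v, rfl⟩ := hs
      rw [List.take_append_of_le_length h1.le]
    rw [ih r0 h0, Option.bind_some, h2, Option.bind_some, det_get hs h1, hy, Option.bind_some, h3]
    exact M.det_cyc_mono h hr

/-! ## Runs -/

section runs

variable {T : List ℕ → Bool} {M : Mch} {Inv Anv : St3 → Prop} {ρ : List ℕ → ℕ} {fo : ℕ → ℕ}
  {e cn : ℕ → ℕ} {A : ℕ → ℕ} {R C Q S Z : ℕ → St3} {V : ℕ → ℕ}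

theorem det_take_of_pre {F : ℕ → ℕ} {i : ℕ} {γ : List ℕ} (h : pre F i <+: γ) {j : ℕ}
    (hj : j ≤ i) : γ.take j = pre F j := by
  obtain ⟨v, rfl⟩ := h
  rw [List.take_append_of_le_length (by rw [length_pre]; exact hj), pre_take, min_eq_left hj]

theorem det_get_of_pre {F : ℕ → ℕ} {i : ℕ} {γ : List ℕ} (h : pre F i <+: γ) {j : ℕ}
    (hj : j < i) : γ[j]? = some (F j) := by
  rw [det_get h (by rw [length_pre]; exact hj), pre_getElem?, if_pos hj]

theorem det_cat_run (h : IsRun M ρ fo e cn A R C Q S Z V) (u : ℕ) {γ : List ℕ}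
    (hγ : M.chk = true → pre cn (A u) <+: γ) : M.cat (R u) (A u) γ = some (C u) := by
  obtain ⟨n, hn⟩ := h.cat u
  unfold Mch.cat at hn ⊢
  by_cases h1 : M.chk = true
  · rw [if_pos h1] at hn ⊢
    by_cases h2 : A u ≤ (pre cn n).length
    · rw [if_pos h2] at hn
      have h3 := hγ h1
      have h4 : A u ≤ γ.length := by simpa [length_pre] using h3.length_le
      rw [if_pos h4]
      rw [length_pre] at h2
      have h5 : bts γ (cont (R u).txt).length (A u) =
          bts (pre cn n) (cont (R u).txt).length (A u) := by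
        unfold bts
        rw [det_take_of_pre h3 le_rfl, pre_take, min_eq_left h2]
      rw [h5]; exact hn
    · rw [if_neg h2] at hn; cases hn
  · rw [if_neg h1] at hn ⊢; exact hn

theorem det_agr_run (hcn : ∀ p, cn p < 2) {r p z : St3} {n : ℕ}
    (hz : M.agr r p (pre cn n) = some z)
    (hc : M.chk = true → cont z.txt = pre cn (cont z.txt).length) {γ : List ℕ}
    (hγ : pre cn (M.ln z) <+: γ) : M.agr r p γ = some z := by
  unfold Mch.agr at hz ⊢
  by_cases h1 : M.chk = true
  · rw [if_pos h1] at hz ⊢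
    have h2 := hc h1
    have h3 : M.ln z = (cont z.txt).length := if_pos h1
    rw [h3] at hγ
    by_cases h4 : cont p.txt <+: pre cn n
    · rw [if_pos h4] at hz
      obtain rfl := Option.some.inj hz
      rw [if_pos (h2 ▸ hγ)]
    · rw [if_neg h4] at hz
      rw [Option.map_eq_some_iff] at hz
      obtain ⟨i, hi, hz⟩ := hz
      obtain ⟨h5, h6, h7, h8⟩ := det_dis_iff.1 hi
      rw [length_pre] at h6
      have h9 : i + 1 ≤ (cont z.txt).length := by
        rw [← hz]
        show _ ≤ (cont (r.txt ++ bts (pre cn n) (cont r.txt).length (i + 1))).length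
        rw [det_cont_append]
        unfold bts
        rw [det_cont_map]
        · rw [List.length_append, List.length_drop, pre_take, length_pre, min_eq_left h6]
          omega
        · intro b hb
          have h10 := List.mem_of_mem_take (List.mem_of_mem_drop hb)
          unfold pre at h10
          rw [List.mem_map] at h10
          obtain ⟨q, _, rfl⟩ := h10
          exact hcn q
      have h10 : ¬ cont p.txt <+: γ := by
        intro h11
        apply h7
        rw [← det_get h11 h5, det_get_of_pre hγ h9, pre_getElem?, if_pos h6]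
      have h11 : dis (cont p.txt) γ = some i := by
        refine det_dis_iff.2 ⟨h5, ?_, ?_, fun j hj => ?_⟩
        · have := hγ.length_le
          rw [length_pre] at this
          omega
        · rw [det_get_of_pre hγ h9]
          rw [pre_getElem?, if_pos h6] at h7
          exact h7
        · rw [h8 j hj, det_get_of_pre hγ (by omega), pre_getElem?, if_pos (by omega)]
      rw [if_neg h10, h11, Option.map_some]
      have h12 : bts γ (cont r.txt).length (i + 1) =
          bts (pre cn n) (cont r.txt).length (i + 1) := by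
        unfold bts
        rw [det_take_of_pre hγ h9, pre_take, min_eq_left h6]
      rw [h12, hz]
  · rw [if_neg h1] at hz ⊢; exact hz

end runs

theorem mdet (hI : StMINV) : StMDET := by
  intro T M Inv Anv hM ρ fo e cn hcn
  refine ⟨fun u r s b γ γ' z h hz => M.det_zf_mono h hz, fun r p γ γ' z h hz => M.det_agr_mono h hz, ?_⟩
  intro A R C Q S Z V h
  obtain ⟨i1, i2, i3, i4, i5, i6, i7⟩ := hI T M Inv Anv hM ρ fo e cn hcn A R C Q S Z V h
  have hlen : ∀ u, M.chk = true → A u ≤ (cont (Q u).txt).length := by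
    intro u h1
    obtain ⟨_, j2, j3, _, _⟩ := i2 h1 u
    rw [j3, j2, length_pre]
    exact le_max_left _ _
  have hQS : ∀ u, (cont (Q u).txt).length ≤ (cont (S u).txt).length := fun u =>
    (det_cont_pfx (i4 u).2.2.1.px).length_le
  have hZR : ∀ u, (cont (Z u).txt).length ≤ (cont (R (u + 1)).txt).length := fun u =>
    (det_cont_pfx (i4 u).2.2.2.2.2.2.2.px).length_le
  have hSZ : ∀ u, (cont (S u).txt).length ≤ (cont (Z u).txt).length := fun u =>
    (det_cont_pfx (i3 u).2.2).length_le
  have hRQ : ∀ u, (cont (R u).txt).length ≤ (cont (Q u).txt).length := fun u =>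
    (det_cont_pfx ((i3 u).1.trans ((i3 u).2.1 ▸ List.prefix_append _ _))).length_le
  have hzf : ∀ u γ, (M.chk = true → pre cn (max (A u) (M.ln (Z u))) <+: γ) →
      M.zf u (R u) (pre e (A u)) (eb (fo (e (A u)))) γ = some (Z u) := by
    intro u γ hγ
    have h1 : M.cat (R u) (A u) γ = some (C u) :=
      det_cat_run h u fun h1 => (det_pre_pfx (le_max_left _ _)).trans (hγ h1)
    have h2 : M.agr (Q u) (M.star (Q u)) γ = some (S u) := by
      obtain ⟨n, hn⟩ := h.star u
      by_cases h3 : M.chk = true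
      · refine det_agr_run hcn hn (fun h3 => (i2 h3 u).2.2.2.1) ?_
        refine (det_pre_pfx ?_).trans (hγ h3)
        refine le_trans ?_ (le_max_right _ _)
        unfold Mch.ln
        rw [if_pos h3, if_pos h3]
        exact hSZ u
      · unfold Mch.agr at hn ⊢
        rw [if_neg h3] at hn ⊢
        exact hn
    unfold Mch.zf
    rw [length_pre, h1, Option.bind_some, ← h.ann u, h2, Option.map_some, h.grow u]
  have hcom : ∀ u γ, pre cn (M.ln (R (u + 1))) <+: γ →
      M.agr (Z u) (M.com (Z u, ek (fo (e (A u))))) γ = some (R (u + 1)) := by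
    intro u γ hγ
    obtain ⟨n, hn⟩ := h.com u
    exact det_agr_run hcn hn (fun h3 => (i2 h3 (u + 1)).1) hγ
  have hln : ∀ u, M.ln (R u) ≤ M.ln (Z u) ∧ M.ln (Z u) ≤ M.ln (R (u + 1)) ∧
      (M.chk = true → A u ≤ M.ln (Z u)) := by
    intro u
    unfold Mch.ln
    by_cases h3 : M.chk = true
    · rw [if_pos h3, if_pos h3, if_pos h3]
      exact ⟨(hRQ u).trans ((hQS u).trans (hSZ u)), hZR u,
        fun _ => (hlen u h3).trans ((hQS u).trans (hSZ u))⟩
    · rw [if_neg h3, if_neg h3, if_neg h3]
      exact ⟨le_rfl, le_rfl, fun h4 => absurd h4 h3⟩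
  have hrun : ∀ u n γ, A u ≤ n → pre cn (M.ln (R u)) <+: γ →
      M.run ρ fo (pre e n) γ u = some (R u) := by
    intro u
    induction u with
    | zero => intro n γ _ _; rw [h.r0]; rfl
    | succ u ih =>
      intro n γ hn hγ
      have h1 : A u < n := (i7 u (u + 1) (Nat.lt_succ_self u)).trans_le hn
      obtain ⟨h2, h3, h4⟩ := hln u
      have h5 := ih n γ h1.le ((det_pre_pfx (h2.trans h3)).trans hγ)
      have h6 : (stops ρ (pre e n))[u]? = some (A u) := by
        have h7 := h.stop u
        rw [det_get (stops_prefix (det_pre_pfx h1.le)) (List.getElem?_eq_some_iff.1 h7).1]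
        exact h7
      unfold Mch.run
      rw [h5, Option.bind_some, h6, Option.bind_some, pre_getElem?, if_pos h1, Option.bind_some,
        pre_take, min_eq_left h1.le]
      unfold Mch.cyc
      rw [hzf u γ fun h7 => (det_pre_pfx (max_le ((h4 h7).trans h3) h3)).trans hγ, Option.bind_some]
      exact hcom u γ hγ
  refine ⟨hrun, ?_, ?_, fun u γ hγ => hzf u γ fun _ => hγ, ?_, ?_⟩
  · intro u n q r hr
    have h1 := M.det_run_mono (s' := pre e (max n (A u))) (γ' := pre cn (max q (M.ln (R u))))
      (det_pre_pfx (le_max_left _ _)) (det_pre_pfx (le_max_left _ _)) u r hr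
    rw [hrun u _ _ (le_max_right _ _) (det_pre_pfx (le_max_right _ _))] at h1
    exact (Option.some.inj h1).symm
  · intro u q z hz
    have h1 := M.det_zf_mono (γ' := pre cn (max q (max (A u) (M.ln (Z u)))))
      (det_pre_pfx (le_max_left _ _)) hz
    rw [hzf u _ fun _ => det_pre_pfx (le_max_right _ _)] at h1
    exact (Option.some.inj h1).symm
  · intro u q z hz
    obtain ⟨n, hn⟩ := h.star u
    have h1 := M.det_agr_mono (γ' := pre cn (max q n)) (det_pre_pfx (le_max_left _ _)) hz
    rw [M.det_agr_mono (γ' := pre cn (max q n)) (det_pre_pfx (le_max_right _ _)) hn] at h1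
    exact (Option.some.inj h1).symm
  · intro u q z hz
    obtain ⟨n, hn⟩ := h.com u
    have h1 := M.det_agr_mono (γ' := pre cn (max q n)) (det_pre_pfx (le_max_left _ _)) hz
    rw [M.det_agr_mono (γ' := pre cn (max q n)) (det_pre_pfx (le_max_right _ _)) hn] at h1
    exact (Option.some.inj h1).symm

end Pool.Agent.Lib.MP_d48993_lc.Txt
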