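import Pool.Agent.Lib.MP_d48993_lc.AE.Rig.Sys
import Pool.Agent.Lib.MP_d48993_lc.AE.Rig.Pg
import Pool.Agent.Lib.MP_d48993_lc.AE.Rig.Minv
import Pool.Agent.Lib.MP_d48993_lc.AE.Rig.Mdet
import Pool.Agent.Lib.MP_d48993_lc.AE.Rig.Msgr

/-!
# Module SGEN (helper19): the runs of the objects are generic
-/

set_option autoImplicit false

namespace Pool.Agent.Lib.MP_d48993_lc.Asm

open MP_8c048d_lc (pre join RecF Cop)
open Ind2 (Sg J Gen Crt Jn)
open Tup (Eps IndD)
open Txt (PGp ey StPG StPGL)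
open Denumerable (ofNat)
open Encodable (encode)

namespace SgenM

/-- A computable function of `F` is reducible to `F`. -/
theorem red_post {h : ℕ → ℕ} (hh : Computable h) (F : ℕ → ℕ) : Red (fun p => h (F p)) F := by
  have h1 : RecF (fun (p : ℕ) (F : ℕ → ℕ) => h (F p)) :=
    RecF.comp (g := h) hh (RecF.at Computable.id)
  exact red1 _ h1 F

/-- Functions of two reducible reals. -/
theorem red_two {h : ℕ → ℕ → ℕ} (hh : Computable₂ h) {f g Z : ℕ → ℕ} (hf : Red f Z)
    (hg : Red g Z) : Red (fun n => h (f n) (g n)) Z := by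
  have h1 : Red (Jn (fun l _ => if l = 0 then f else g) [0, 1] 0) Z := by
    refine Tup.Jn_red fun l hl => ?_
    simp only [List.mem_cons, List.not_mem_nil, or_false] at hl
    rcases hl with rfl | rfl
    · simpa using hf
    · simpa using hg
  have h2 : Computable (fun y : ℕ => h ((ofNat (List ℕ) y).getD 0 0)
      ((ofNat (List ℕ) y).getD 1 0)) := by
    refine hh.comp ?_ ?_
    · exact (Primrec.list_getD 0).to_comp.comp (Computable.ofNat (List ℕ)) (Computable.const 0)
    · exact (Primrec.list_getD 0).to_comp.comp (Computable.ofNat (List ℕ)) (Computable.const 1)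
  have h3 := (red_post h2 (Jn (fun l _ => if l = 0 then f else g) [0, 1] 0)).trans h1
  refine cast (congrArg (fun F => Red F Z) (funext fun n => ?_)) h3
  rw [Tup.Jn_apply, Denumerable.ofNat_encode]
  simp

/-- Sums of content bits. -/
theorem red_sum {L : List ℕ} {g : ℕ → ℕ → ℕ} {Z : ℕ → ℕ} (h : ∀ l ∈ L, Red (g l) Z) :
    Red (fun n => (L.map fun l => ey (g l n)).sum) Z := by
  have h1 : Red (Jn (fun l _ => g l) L 0) Z := Tup.Jn_red h
  have h2 : Computable (fun y : ℕ => ((ofNat (List ℕ) y).map ey).sum) := by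
    have h4 : Primrec (fun y : ℕ => (ofNat (List ℕ) y).foldr (fun b s => ey b + s) 0) := by
      refine Primrec.list_foldr (Primrec.ofNat (List ℕ)) (Primrec.const 0)
        (h := fun (_ : ℕ) (p : ℕ × ℕ) => ey p.1 + p.2) ?_
      exact Primrec.nat_add.comp (Txt.PG.prim_ey.comp (Primrec.fst.comp Primrec.snd))
        (Primrec.snd.comp Primrec.snd)
    refine (h4.of_eq fun y => ?_).to_comp
    induction (ofNat (List ℕ) y) with
    | nil => rfl
    | cons a l ih => rw [List.foldr_cons, ih, List.map_cons, List.sum_cons]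
  have h3 := (red_post h2 (Jn (fun l _ => g l) L 0)).trans h1
  refine cast (congrArg (fun F => Red F Z) (funext fun n => ?_)) h3
  rw [Tup.Jn_apply, Denumerable.ofNat_encode, List.map_map]
  rfl

/-- The sum over a list without one element. -/
theorem sum_erase' {L : List ℕ} (f : ℕ → ℕ) {m : ℕ} (hm : m ∈ L) :
    (L.map f).sum = ((L.erase m).map f).sum + f m := by
  have h1 := (List.perm_cons_erase hm).map f
  rw [h1.sum_eq, List.map_cons, List.sum_cons]
  omega

end SgenM

open SgenM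

/-- Module SGEN. -/
theorem sgen_of (hpg : StPG) (hpgl : StPGL) (hS : SbasStatement) : SgenStatement := by
  obtain ⟨rr, hS⟩ := hS
  refine ⟨rr, fun B Ω _ _ D hD hr o ho => ?_⟩
  obtain ⟨hM, hfo, hfe, hcn2, hMSg, -⟩ := hS B Ω D hD hr o ho
  obtain ⟨hga, hgm, -⟩ := hD.ga o ho
  obtain ⟨hkr1, hkr2⟩ := hD.kr o ho
  obtain ⟨gp, -, hknow⟩ := hD.know
  have hI : ∀ l ∈ D.KK o, l < D.N := fun l hl => hknow.lt o ho l hl
  have hk : D.kk o ≤ D.K := by omega
  have hrK : D.r ≤ D.K := by omega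
  obtain ⟨ε, hε⟩ := hD.ind.eps hI ho hk
  have hZY : ∀ l < D.N, Red (Ind2.Z D.r) (D.Y l) := fun l hl =>
    (Ind2.red_Z hrK).trans (hD.ind.ZY l hl)
  have haY : ∀ l < D.N, Red D.a (D.Y l) := fun l hl => hD.aZ.trans (hZY l hl)
  -- the digits of another object
  have hxY : ∀ l < D.N, ∀ l' < D.N, l' ≠ l → Red (D.x l') (D.Y l) := by
    intro l hl l' hl' hne
    have h1 : Red (D.x l') (D.X l' 0) := by
      have h2 := red_post hD.ind.f_comp (D.X l' 0)
      refine cast (congrArg (fun F => Red F (D.X l' 0)) (funext fun p => ?_)) h2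
      exact hD.ind.fx l' hl' 0 (Nat.zero_le _) p
    exact h1.trans (hD.ind.XY l hl l' hl' hne 0 (Nat.zero_le _))
  have hmts : ∀ m ∈ D.mts o, m < D.N ∧ m ≠ o := by
    intro m hm
    unfold Sys.mts at hm
    rw [List.mem_filter, decide_eq_true_eq] at hm
    exact ⟨hI m hm.1, hm.2⟩
  refine ⟨fun hl => ?_, fun hl m0 hm0 => ?_⟩
  · refine hpg _ _ _ _ hM _ _ _ _ hga hfo hgm _ _ _ _ _ _ _ (hD.run o ho) (D.x o) (D.Y o) ε
      (hD.ind.gen o ho) hε hfe (fun p => ?_) (hMSg _ (hZY o ho))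
    unfold Sys.cn
    rw [if_neg (by rw [hl]; simp)]
  · obtain ⟨hm1, hm2⟩ := hmts m0 hm0
    obtain ⟨ε0, hε0⟩ := hD.ind.eps hI hm1 hk
    have hnd : (D.mts o).Nodup := by
      unfold Sys.mts Sys.KK KKl
      exact (List.nodup_range.filter _).filter _
    have hcn : ∀ p, D.cn o p = (D.a p + ((D.mts o).map (fun i => ey (D.x i p))).sum) % 2 := by
      intro p
      unfold Sys.cn
      rw [if_pos hl]
    refine hpgl _ _ _ _ hM _ _ _ _ hga hfo hgm _ _ _ _ _ _ _ (hD.run o ho) (D.x o) (D.Y o) ε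
      (hD.ind.gen o ho) hε hfe ?_ (hMSg _ (hZY o ho)) (D.x m0) (D.Y m0)
      (fun p => D.a p + (((D.mts o).erase m0).map (fun i => ey (D.x i p))).sum) ε0
      (hD.ind.gen m0 hm1) hε0 ?_ (fun p => ?_) (hMSg _ (hZY m0 hm1))
    · have h1 : Red (fun p => (D.a p + ((D.mts o).map (fun i => ey (D.x i p))).sum) % 2)
          (D.Y o) := by
        refine red_two (h := fun a b => (a + b) % 2) ?_ (haY o ho) (red_sum fun l hl' => ?_)
        · exact (Primrec.nat_mod.comp (Primrec.nat_add.comp Primrec.fst Primrec.snd)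
            (Primrec.const 2)).to_comp
        · exact hxY o ho l (hmts l hl').1 (hmts l hl').2
      exact cast (congrArg (fun F => Red F (D.Y o)) (funext fun p => (hcn p).symm)) h1
    · refine red_two (h := fun a b => a + b) ?_ (haY m0 hm1) (red_sum fun l hl' => ?_)
      · exact (Primrec.nat_add.comp Primrec.fst Primrec.snd).to_comp
      · rw [List.Nodup.mem_erase_iff hnd] at hl'
        exact hxY m0 hm1 l (hmts l hl'.2).1 hl'.1
    · rw [hcn p, sum_erase' (fun i => ey (D.x i p)) hm0]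
      rw [Nat.add_assoc]

/-- Module SGEN, from SBAS. -/
theorem sgen_proof (hS : SbasStatement) : SgenStatement :=
  sgen_of (Txt.pg (Txt.mdet Txt.minv) (Txt.msgr (Txt.mdet Txt.minv)))
    (Txt.pgl (Txt.mdet Txt.minv) (Txt.msgr (Txt.mdet Txt.minv))) hS

end Pool.Agent.Lib.MP_d48993_lc.Asm
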