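import Pool.Agent.Lib.MP_d48993_lc.AE.Rig.Sys

/-!
# Assembly, module SHIT (helper61): HIT, and truths about patterns outside the class of `B`
-/

set_option autoImplicit false

namespace Pool.Agent.Lib.MP_d48993_lc.Asm

open MP_8c048d_lc (pre join RecF Cop)
open Gr (Par BB AA Gph Lim4 Eff Ps Tx Mem)
open Tup (TruE)
open Bound (IsC Good UCF)
open Real (Kn EE FF IsSh Le Cl Full PM Pat Xc)

namespace Shit

variable {Ω : Type} [PartialOrder Ω] {B : Set (ℕ → ℕ)} {D : Sys Ω}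

theorem jb_iff {J : Set Ω} {s : ℕ} (hs : s < D.P.p) : D.Jb J s = true ↔ D.nm.pt s ∈ J := by
  unfold Sys.Jb
  rw [testBit_bitN]
  exact ⟨fun h => h.2, fun h => ⟨hs, h⟩⟩

theorem hn_iff {H : Set (Set Ω × Ω)} {j : ℕ} :
    (D.Hn H).testBit j = true ↔ j < D.P.q ∧ D.nm.sh j ∈ H := by
  unfold Sys.Hn
  rw [testBit_bitN]

/-- The known columns of a pattern. -/
theorem tx_cases {J : Set Ω} {H : Set (Set Ω × Ω)} {c : ℕ}
    (h : Tx D.P (D.Jb J) (D.Hn H) c = true) :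
    (c < D.P.p ∧ D.nm.pt c ∈ J) ∨ ∃ j, c = D.P.p + j ∧ j < D.P.q ∧ D.nm.sh j ∈ H := by
  unfold Tx Gr.Prs at h
  rw [Bool.and_eq_true, Bool.or_eq_true, Bool.or_eq_true, Bool.and_eq_true, decide_eq_true_eq,
    decide_eq_true_eq, decide_eq_true_eq] at h
  obtain ⟨h1, h2⟩ := h
  rcases h1 with h1 | ⟨-, h1⟩
  · rcases h2 with h2 | h2
    · omega
    · exact Or.inl ⟨h1, (jb_iff h1).1 h2⟩
  · by_cases h3 : c < D.P.p
    · rcases h2 with h2 | h2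
      · omega
      · exact Or.inl ⟨h3, (jb_iff h3).1 h2⟩
    · obtain ⟨h4, h5⟩ := hn_iff.1 h1
      exact Or.inr ⟨c - D.P.p, by omega, h4, h5⟩

/-- `HITC` for the patterns of a system. -/
theorem hitc (hC : HitcStatement) (hD : D.Ok B) {J : Set Ω} {H : Set (Set Ω × Ω)}
    (hf : ∀ N, ∃ n ≥ N, 3 ≤ n ∧ (∀ s < D.P.p, Gr.JJ n s = D.Jb J s) ∧
      ∀ c, D.TX J H c → ∃ I : Gr.Itm, I.col = c ∧ Gr.Fol D.P D.G n I (D.V c))
    {e : ℕ} (he : D.TE J H e) {W : ℕ → ℕ} (hW : W ∉ Up B) (h1 : ∀ s ∈ J, Red (D.Vp s) W)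
    (h2 : ∀ s, s ∉ J → W ∈ D.Ac s) (h3 : ∀ R m, IsSh (R, m) → (R, m) ∈ H → Red (D.Ysh R m) W) :
    W ∈ D.yy e := by
  have h4 := hC D.P hD.par.ok D.G hD.lim (D.Jb J) (D.Hn H) D.V hf (Nat.pair e 0 + 1) he W
    (by rw [hD.par.bb]; exact hW) (fun c hc => ?_) (fun s hs hJ => ?_)
  · obtain ⟨g, h5, h6⟩ := h4
    exact ⟨g, h6, h5⟩
  · rcases tx_cases hc with ⟨h5, h6⟩ | ⟨j, rfl, h5, h6⟩
    · have h7 := h1 _ h6
      unfold Sys.Vp at h7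
      rwa [D.nm.ptn c h5] at h7
    · have h7 := h3 (D.nm.sh j).1 (D.nm.sh j).2 (D.nm.shs j h5) h6
      unfold Sys.Ysh at h7
      have h8 : D.nm.sn ((D.nm.sh j).1, (D.nm.sh j).2) = j := D.nm.shn j h5
      rwa [h8] at h7
  · have h5 : D.nm.pt s ∉ J := fun h6 => by
      rw [(jb_iff hs).2 h6] at hJ
      exact Bool.noConfusion hJ
    have h6 := h2 _ h5
    unfold Sys.Ac at h6
    rwa [D.nm.ptn s hs] at h6

end Shit

open Shit in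
/-- Module SHIT. -/
theorem shit_proof (hS : SpresStatement) (hC : HitcStatement) (hT : TrupStatement)
    (hG : GnrStatement) (hX : XjnStatement) (hR : Gr.RegStatement) : ShitStatement := by
  obtain ⟨rr, hS⟩ := hS
  refine ⟨rr, ?_⟩
  intro B Ω _ _ D hD hr
  have hf : ∀ J H, Cl D.U J → (∀ j ∈ H, IsSh j) → (∀ R, ¬ Full H R) →
      ∀ N, ∃ n ≥ N, 3 ≤ n ∧ (∀ s < D.P.p, Gr.JJ n s = D.Jb J s) ∧
        ∀ c, D.TX J H c → ∃ I : Gr.Itm, I.col = c ∧ Gr.Fol D.P D.G n I (D.V c) := by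
    intro J H h1 h2 h3 N
    obtain ⟨n, h4, h5, h6, h7⟩ := hS B Ω D hD hr J H h1 h2 h3 N
    exact ⟨n, h4, h5, h6, fun c hc => (h7 c hc).2⟩
  have hg := hG.1 D.P D.G _ _ (hT B Ω D hD) (hG.2.2.2.2.1 D.P D.G)
  refine hG.2.1 D.P D.G _ _ hg ?_
  rintro O ⟨hO1, hO2⟩
  have hpos : 0 < D.P.p := hD.par.ok.pos
  obtain ⟨x1, x2, x3, -⟩ := hX Ω D hpos O
  refine ⟨?_, ?_⟩
  · intro b J H hp W hW h1 h2 h3 y hy hXy
    obtain ⟨e, he⟩ := hD.par.lab y hy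
    have he' : y = D.yy e := he
    rw [he'] at hXy ⊢
    exact hitc hC hD (hf J H hp.cl (fun j hj => (hp.sh j hj).1) hp.nf) (hO1 J H e hXy) hW h1 h2
      (fun R m _ h4 => h3 R m h4)
  · intro J H h1 h2 h3 e he
    by_cases hB : D.XO O J H ∈ Up B
    · exact Or.inr hB
    · refine Or.inl (hitc hC hD (hf J H h1 h2 h3) he hB (fun s hs => x2 J H s hs)
        (fun s hs => ?_) (fun R m h4 h5 => x3 J H R m h4 h5))
      refine Or.inl ⟨O (D.nm.pn s), fun k => ?_, x1 J H s hs⟩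
      obtain ⟨k', hk, h4⟩ := hO2 (D.nm.pn s) (D.nm.pnl s) k
      have h5 := (hR D.P hD.par.ok D.G hD.lim (D.nm.pn s) (D.nm.pnl s)).1
      exact h5 _ _ h4.1 (Tup.pre_mono _ hk)

end Pool.Agent.Lib.MP_d48993_lc.Asm
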