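import Pool.Agent.Lib.MP_d48993_lc.AE.Rig.Pmach
import Pool.Agent.Lib.MP_d48993_lc.AE.Rig.Rec
import Pool.Agent.Lib.MP_d48993_lc.AE.Rig.AsmI

/-!
# Assembly: systems of objects, statements of the modules

A system `D : Sys Ω`: parameters, graphs, numbers, layers (`X`, `x`, `Y`), levels `kk`, headers
`hd`, lists `lam`, and the runs of all objects. `D.Ok B` says that everything is right. The fields
of the interface OBJ are the statements `FHit`, `FRem`, `FRsh`, `FList`, `FKill` about `D` and a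
generic tuple `O`. `Gnr P G Φ`: `Φ O` holds for all generic enough tuples `O`.
-/

set_option autoImplicit false

namespace Pool.Agent.Lib.MP_d48993_lc.Asm

open MP_8c048d_lc (pre join RecF Cop)
open Gr (Par BB AA Gph Lim4 Eff Ps Tx Mem)
open Ars (Ar Jr)
open Ind2 (Sg J Gen Crt Jn)
open Tup (TruE Tru XH kn Cn Lep Blw Dcd mk IndD)
open Txt (St3 Mch MOk MSg ptM shM PInv PAnv SInv SAnv IsRun FolN PGp ey PathsT)
open Bound (IsC Good UCF)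
open Real (Kn EE FF IsSh Le Cl Full PM Pat Xc)
open Denumerable (ofNat)

/-! ## Bits -/

open Classical in
/-- The number with the bits `i < n` such that `Q i`. -/
noncomputable def bitN (Q : ℕ → Prop) : ℕ → ℕ
  | 0 => 0
  | n + 1 => bitN Q n + if Q n then 2 ^ n else 0

theorem bitN_lt (Q : ℕ → Prop) (n : ℕ) : bitN Q n < 2 ^ n := by
  classical
  induction n with
  | zero => exact Nat.one_pos
  | succ n ih =>
    unfold bitN
    rw [pow_succ]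
    split_ifs <;> omega

theorem testBit_bitN (Q : ℕ → Prop) (n i : ℕ) : (bitN Q n).testBit i = true ↔ i < n ∧ Q i := by
  classical
  induction n with
  | zero => simp [bitN]
  | succ n ih =>
    have h1 := bitN_lt Q n
    unfold bitN
    split_ifs with h
    · rw [Nat.add_comm]
      rcases lt_trichotomy i n with h2 | rfl | h2
      · rw [Nat.testBit_two_pow_add_gt h2, ih]
        constructor
        · rintro ⟨-, h3⟩; exact ⟨by omega, h3⟩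
        · rintro ⟨-, h3⟩; exact ⟨h2, h3⟩
      · rw [Nat.testBit_two_pow_add_eq, Nat.testBit_lt_two_pow h1]
        simp [h]
      · have h3 : 2 ^ n + bitN Q n < 2 ^ i := by
          have h4 : 2 ^ (n + 1) ≤ 2 ^ i := Nat.pow_le_pow_right (by norm_num) h2
          rw [pow_succ] at h4
          omega
        rw [Nat.testBit_lt_two_pow h3]
        constructor
        · intro h4; simp at h4
        · rintro ⟨h4, -⟩; omega
    · rw [Nat.add_zero, ih]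
      constructor
      · rintro ⟨h2, h3⟩; exact ⟨by omega, h3⟩
      · rintro ⟨h2, h3⟩
        refine ⟨?_, h3⟩
        rcases Nat.lt_succ_iff_lt_or_eq.1 h2 with h4 | rfl
        · exact h4
        · exact (h h3).elim

/-! ## Systems -/

/-- The data of a system of objects. Columns: points `o < P.p`, shares `P.p + j`. -/
structure Sys (Ω : Type) [PartialOrder Ω] where
  U : Ω → Set Ω
  P : Par
  G : Gph
  nm : Nmb Ω P.p P.q
  la : Set Ω → Ω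
  /-- all layers have the levels `≤ K` -/
  K : ℕ
  /-- the number of jumps which are available -/
  r : ℕ
  X : ℕ → ℕ → ℕ → ℕ
  x : ℕ → ℕ → ℕ
  Y : ℕ → ℕ → ℕ
  ρ : ℕ → ℕ → List ℕ → ℕ
  f : ℕ → ℕ
  θ : ℕ → ℕ → List ℕ → (ℕ → ℕ) → ℕ
  /-- the level of an object -/
  kk : ℕ → ℕ
  /-- the certificate of `e o` -/
  ga : ℕ → List ℕ → ℕ
  /-- a member of `B` -/
  a : ℕ → ℕ
  /-- the number of the header -/
  hd : ℕ → ℕ
  lam : ℕ → ℕ × List ℕ → Bool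
  A : ℕ → ℕ → ℕ
  R : ℕ → ℕ → St3
  C : ℕ → ℕ → St3
  Q : ℕ → ℕ → St3
  S : ℕ → ℕ → St3
  Z : ℕ → ℕ → St3
  V : ℕ → ℕ → ℕ

namespace Sys

variable {Ω : Type} [PartialOrder Ω] (D : Sys Ω)

/-- The number of objects. -/
def N : ℕ := D.P.p + D.P.q

/-- The objects known to `o`. -/
noncomputable def KK (o : ℕ) : List ℕ := KKl D.U D.la D.nm o

/-- The real of the value strings of `o`. -/
noncomputable def e (o : ℕ) : ℕ → ℕ := Jn D.X (D.KK o) (D.kk o)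

/-- The entries of `x o`, read from `e o`. -/
noncomputable def fo (o : ℕ) : ℕ → ℕ :=
  fun y => D.f ((ofNat (List ℕ) y).getD ((D.KK o).idxOf o) 0)

/-- The object `o` is a last share. -/
noncomputable def lst (o : ℕ) : Bool := decide (D.P.p ≤ o) && laC D.la D.nm o

/-- The other shares of the group of the last share `o`. -/
noncomputable def mts (o : ℕ) : List ℕ := (D.KK o).filter (fun i => decide (i ≠ o))

/-- The contents. -/
noncomputable def cn (o n : ℕ) : ℕ :=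
  if D.lst o = true then (D.a n + ((D.mts o).map (fun i => ey (D.x i n))).sum) % 2
  else ey (D.x o n)

/-- The machine of the object `o`. -/
noncomputable def M (o : ℕ) : Mch :=
  if o < D.P.p then ptM D.P D.G o (D.hd o) (D.lam o) else shM D.P D.G (D.hd o) o

def Inv (o : ℕ) : St3 → Prop :=
  if o < D.P.p then PInv D.P D.G o (D.hd o) else SInv D.P (D.hd o)

def Anv (o : ℕ) : St3 → Prop :=
  if o < D.P.p then PAnv D.P D.G o (D.hd o) else SAnv D.P (D.hd o) o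

/-- The class of the point `s`. -/
def Ac (s : Ω) : Set (ℕ → ℕ) := AA D.P D.G (D.nm.pn s)

/-- The real of the point `s`. -/
def Vp (s : Ω) : ℕ → ℕ := D.V (D.nm.pn s)

/-- The real of the share `(R, m)`. -/
def Ysh (R : Set Ω) (m : Ω) : ℕ → ℕ := D.V (D.P.p + D.nm.sn (R, m))

/-- The payments for the shares of `R`. -/
def MR (R : Set Ω) : Set (ℕ → ℕ) := MM (BB D.P) D.Ac D.Ysh R

/-- The points of a pattern. -/
noncomputable def Jb (J : Set Ω) : ℕ → Bool := fun s => (bitN (fun s => D.nm.pt s ∈ J) D.P.p).testBit s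

/-- The shares of a pattern. -/
noncomputable def Hn (H : Set (Set Ω × Ω)) : ℕ := bitN (fun j => D.nm.sh j ∈ H) D.P.q

/-- The known columns of a pattern. -/
def TX (J : Set Ω) (H : Set (Set Ω × Ω)) (c : ℕ) : Prop := Tx D.P (D.Jb J) (D.Hn H) c = true

/-- The real of a pattern. -/
noncomputable def XO (O : ℕ → ℕ → ℕ) (J : Set Ω) (H : Set (Set Ω × Ω)) : ℕ → ℕ :=
  XH D.P (D.Jb J) (D.Hn H) D.V O

/-- Some condition forces that the pattern computes a path of the tree number `e`. -/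
def TE (J : Set Ω) (H : Set (Set Ω × Ω)) (e : ℕ) : Prop :=
  TruE D.P (Ps D.P D.G) (D.Jb J) (D.Hn H) D.V (Nat.pair e 0 + 1)

/-- The list of the point number `s`. -/
def LL (s e : ℕ) : Prop := ∃ b J H, D.nm.pt s ∉ D.U b ∧ Pat D.U b J H ∧ ¬ D.TE J H e

/-- The class of the tree number `e`. -/
def yy (e : ℕ) : Set (ℕ → ℕ) := Up {f | ∀ k, D.P.Tr (Nat.pair e 0 + 1) (pre f k)}

/-- The system is right. -/
structure Ok (B : Set (ℕ → ℕ)) : Prop where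
  ucf : UCF Ω D.U
  par : ParB B D.P
  lim : Lim4 D.P D.G
  eff : Eff D.P D.G
  lar : ∀ R, Good R → Maximal (· ∈ lowerBounds R) (D.la R)
  know : ∃ gp : ℕ → ℕ, (∀ i k, D.P.p ≤ i → i < D.P.p + D.P.q → D.P.p ≤ k → k < D.P.p + D.P.q →
      (gp i = gp k ↔ (D.nm.sh (i - D.P.p)).1 = (D.nm.sh (k - D.P.p)).1)) ∧
    Know D.P.p D.P.q D.KK gp (laC D.la D.nm)
  ind : IndD D.N D.K D.X D.x D.Y D.ρ D.f D.θ
  kr : ∀ o < D.N, D.r ≤ D.kk o ∧ D.kk o + D.r ≤ D.K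
  kl : ∀ o < D.P.p, ∀ i ∈ D.KK o, i ≠ o → D.kk i + D.r ≤ D.kk o
  ga : ∀ o < D.N, Computable (D.ga o) ∧ (∀ s t, s <+: t → D.ga o s ≤ D.ga o t) ∧
    Crt (D.ga o) (D.e o)
  aB : ∀ k, D.P.TB (pre D.a k)
  aZ : Red D.a (Ind2.Z D.r)
  hdp : ∀ s < D.P.p, AA D.P D.G s = Up (PathsT (D.P.Hd (D.hd s)))
  hds : ∀ R m, IsSh (R, m) → D.MR R = Up (PathsT (D.P.Hd (D.hd (D.P.p + D.nm.sn (R, m)))))
  lamc : ∀ s < D.P.p, Computable (D.lam s) ∧
    ∀ e' x y, x <+: y → D.lam s (e', x) = true → D.lam s (e', y) = true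
  lame : ∀ s < D.P.p, ∀ e', (∃ k, D.lam s (e', pre (D.e s) k) = true) ↔ D.LL s e'
  run : ∀ o < D.N, IsRun (D.M o) (D.ga o) (D.fo o) (D.e o) (D.cn o) (D.A o) (D.R o) (D.C o)
    (D.Q o) (D.S o) (D.Z o) (D.V o)

/-! ### Fields of the interface OBJ -/

variable (B : Set (ℕ → ℕ)) (O : ℕ → ℕ → ℕ)

def FHit : Prop := ∀ b J H, Pat D.U b J H → ∀ W, W ∉ Up B → (∀ s ∈ J, Red (D.Vp s) W) →
  (∀ s, s ∉ J → W ∈ D.Ac s) → (∀ R m, (R, m) ∈ H → Red (D.Ysh R m) W) → Le B (D.XO O J H) W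

def FRem : Prop := ∀ s J H, s ∉ J → Cl D.U J → Cl D.U (insert s J) → (∀ j ∈ H, IsSh j) →
  (∀ R, ¬ Full H R) → Le B (D.XO O (insert s J) H) (D.XO O J H)

def FRsh : Prop := ∀ R m J H, IsSh (R, m) → (R, m) ∉ H → Cl D.U J → (∀ j ∈ H, IsSh j) →
  (∀ R', ¬ Full (insert (R, m) H) R') → (m ≠ D.la R → (R, D.la R) ∉ H) →
  (∀ s ∈ J, ∀ r ∈ lowerBounds R, s ∈ D.U r) → D.XO O J H ∈ D.MR R →
  Le B (D.XO O J (insert (R, m) H)) (D.XO O J H)

/-- Self-payment: removal of a share, for the class of `B`. -/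
def FSelf : Prop := ∀ R m J H, IsSh (R, m) → (R, m) ∉ H → Cl D.U J → (∀ j ∈ H, IsSh j) →
  (∀ R', ¬ Full (insert (R, m) H) R') → (m ≠ D.la R → (R, D.la R) ∉ H) →
  (∀ s ∈ J, ∀ r ∈ lowerBounds R, s ∈ D.U r) → D.XO O J (insert (R, m) H) ∈ Up B →
  D.XO O J H ∈ Up B

/-- The pattern without known objects. -/
def FNul : Prop := D.XO O ∅ ∅ ∉ Up B

/-- No pattern is in the class of `B`. -/
def FNb : Prop := ∀ J H, Cl D.U J → (∀ j ∈ H, IsSh j) → (∀ R, ¬ Full H R) →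
  D.XO O J H ∉ Up B

def FList : Prop := ∀ s b J H y, s ∉ D.U b → Pat D.U b J H → IsC B y → D.XO O J H ∉ y →
  ∀ Z, Red (D.Vp s) Z → Z ∈ y → Z ∈ D.Ac s

def FKill : Prop := ∀ c s, c ≤ s → Xc (D.XO O) c ∈ D.Ac s → ∃ y b J H, s ∉ D.U b ∧
  Pat D.U b J H ∧ IsC B y ∧ D.XO O J H ∉ y ∧ Xc (D.XO O) c ∈ y

end Sys

/-! ## Generic tuples -/

/-- `Φ O` holds for all tuples `O` which are generic enough. -/
def Gnr (P : Par) (G : Gph) (Φ : (ℕ → ℕ → ℕ) → Prop) : Prop :=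
  ∃ (I : ℕ → List ℕ) (D : ℕ → List (List ℕ) → Prop), ∀ O : ℕ → ℕ → ℕ,
    (∀ l < P.p, ∀ n, ∃ k ≥ n, Ps P G l (pre (O l) k)) →
    (∀ i, Dcd P.p (Ps P G) (I i) O (D i)) → Φ O

/-- Module GNR (from `Tup.exists_gen`, REG): calculus of generic tuples. -/
def GnrStatement : Prop :=
  (∀ (P : Par) (G : Gph) (Φ Ψ : (ℕ → ℕ → ℕ) → Prop), Gnr P G Φ → Gnr P G Ψ →
    Gnr P G (fun O => Φ O ∧ Ψ O)) ∧
  (∀ (P : Par) (G : Gph) (Φ Ψ : (ℕ → ℕ → ℕ) → Prop), Gnr P G Φ → (∀ O, Φ O → Ψ O) →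
    Gnr P G Ψ) ∧
  (∀ (P : Par) (G : Gph) (ι : Type) [Countable ι] (Φ : ι → (ℕ → ℕ → ℕ) → Prop),
    (∀ i, Gnr P G (Φ i)) → Gnr P G (fun O => ∀ i, Φ i O)) ∧
  (∀ (P : Par) (G : Gph) (I : List ℕ) (D : List (List ℕ) → Prop),
    Gnr P G (fun O => Dcd P.p (Ps P G) I O D)) ∧
  (∀ (P : Par) (G : Gph), Gnr P G (fun O => ∀ l < P.p, ∀ n, ∃ k ≥ n, Ps P G l (pre (O l) k))) ∧
  ∀ (P : Par), P.Ok → ∀ G : Gph, Lim4 P G → ∀ Φ : (ℕ → ℕ → ℕ) → Prop, Gnr P G Φ →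
    ∃ O, (∀ s < P.p, O s ∈ Mem P G s) ∧ Φ O

/-! ## Statements -/

section Stm

/-- Module XJN: the real of a pattern is the join of its objects. -/
def XjnStatement : Prop :=
  ∀ (Ω : Type) [PartialOrder Ω] (D : Sys Ω), 0 < D.P.p → ∀ O : ℕ → ℕ → ℕ,
    (∀ J H s, s ∉ J → Red (O (D.nm.pn s)) (D.XO O J H)) ∧
    (∀ J H s, s ∈ J → Red (D.Vp s) (D.XO O J H)) ∧
    (∀ J H R m, IsSh (R, m) → (R, m) ∈ H → Red (D.Ysh R m) (D.XO O J H)) ∧
    ∀ J H Z, (∀ s, s ∉ J → Red (O (D.nm.pn s)) Z) → (∀ s ∈ J, Red (D.Vp s) Z) →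
      (∀ R m, IsSh (R, m) → (R, m) ∈ H → Red (D.Ysh R m) Z) → Red (D.XO O J H) Z

/-- Module PATK: combinatorics of the known columns. -/
def PatkStatement : Prop :=
  ∀ (B : Set (ℕ → ℕ)) (Ω : Type) [Finite Ω] [PartialOrder Ω] (D : Sys Ω), D.Ok B →
    ∀ J H, Cl D.U J → (∀ j ∈ H, IsSh j) →
    (∀ s < D.P.p, ∀ b, D.nm.pt s ∉ D.U b → Pat D.U b J H → ∀ c, D.TX J H c →
      c ∈ D.KK s ∧ c ≠ s) ∧
    (∀ s < D.P.p, D.nm.pt s ∉ J → ∀ c, D.TX J H c → s ∉ D.KK c) ∧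
    (∀ R m, IsSh (R, m) → (R, m) ∉ H → (m ≠ D.la R → (R, D.la R) ∉ H) →
      (∀ s ∈ J, ∀ r ∈ lowerBounds R, s ∈ D.U r) → ∀ c, D.TX J H c →
      D.P.p + D.nm.sn (R, m) ∉ D.KK c) ∧
    (∀ R, Good R → (R, D.la R) ∉ H → ¬ Full (insert (R, D.la R) H) R →
      (∀ s ∈ J, ∀ r ∈ lowerBounds R, s ∈ D.U r) →
      ∃ m0 ∈ D.mts (D.P.p + D.nm.sn (R, D.la R)), ∀ c, D.TX J H c → m0 ∉ D.KK c) ∧
    ((∀ R, ¬ Full H R) → ∃ L : List ℕ, L.Nodup ∧ (∀ c, c ∈ L ↔ D.TX J H c) ∧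
      ∀ i (hi : i < L.length), (∀ j (hj : j < L.length), i < j → L[i] ∉ D.KK L[j]) ∧
        (D.lst L[i] = true → ∃ m0 ∈ D.mts L[i], ∀ j (hj : j < L.length), i < j →
          m0 ∉ D.KK L[j]))

/-- Module SBAS (from PTM, STM, TARI, MSH, the facts about `IndD`): basic facts about the
objects. -/
def SbasStatement : Prop :=
  ∃ rr : Par → Gph → ℕ, ∀ (B : Set (ℕ → ℕ)) (Ω : Type) [Finite Ω] [PartialOrder Ω] (D : Sys Ω),
    D.Ok B → rr D.P D.G ≤ D.r → ∀ o < D.N,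
    MOk (D.P.Hd (D.hd o)) (D.M o) (D.Inv o) (D.Anv o) ∧ Computable (D.fo o) ∧
    (∀ n, D.fo o (D.e o n) = D.x o n) ∧ (∀ n, D.cn o n < 2) ∧
    (∀ Y, Red (Ind2.Z D.r) Y → MSg Y (D.M o)) ∧ Red (Ind2.Z D.r) (D.e o) ∧
    Red (D.cn o) (D.e o) ∧ Red (D.V o) (D.e o) ∧ Red (D.e o) (J (D.V o)) ∧
    (D.P.p ≤ o → Red (D.cn o) (D.V o)) ∧
    ∀ K' : Set (ℕ → ℕ), IsC B K' → PathsT (D.P.Hd (D.hd o)) ⊆ K' → IsC B ({Y | Red (D.V o) Y} ∪ K')

/-- Module SRED (from SBAS, `IndD`): jumps of the known reals. -/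
def SredStatement : Prop :=
  ∃ rr : Par → Gph → ℕ, ∀ (B : Set (ℕ → ℕ)) (Ω : Type) [Finite Ω] [PartialOrder Ω] (D : Sys Ω),
    D.Ok B → rr D.P D.G ≤ D.r → ∀ L : List ℕ, (∀ c ∈ L, c < D.N) →
    ∃ F, (∀ c ∈ L, Red (D.V c) F ∧ Red (D.e c) F) ∧
      (∀ o < D.N, (∀ c ∈ L, o ∉ D.KK c) → Red (Jr D.r F) (D.Y o)) ∧
      ∀ s < D.P.p, (∀ c ∈ L, c ∈ D.KK s ∧ c ≠ s) → Red (Jr D.r F) (D.e s)

/-- Module SGEN (from PG, PGL, SBAS, SRED, `IndD.eps`): the runs are generic. -/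
def SgenStatement : Prop :=
  ∃ rr : Par → Gph → ℕ, ∀ (B : Set (ℕ → ℕ)) (Ω : Type) [Finite Ω] [PartialOrder Ω] (D : Sys Ω),
    D.Ok B → rr D.P D.G ≤ D.r → ∀ o < D.N,
    (D.lst o = false → PGp (D.M o) (D.fo o) (D.e o) (D.cn o) (D.A o) (D.R o) [D.Y o]) ∧
    (D.lst o = true → ∀ m0 ∈ D.mts o,
      PGp (D.M o) (D.fo o) (D.e o) (D.cn o) (D.A o) (D.R o) [D.Y o, D.Y m0])

/-- Module SPRES (from MPRES, MPRM, SGEN, SRED, MSGR, PATK, TFUT): all known objects of a pattern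
follow in infinitely many blocks. -/
def SpresStatement : Prop :=
  ∃ rr : Par → Gph → ℕ, ∀ (B : Set (ℕ → ℕ)) (Ω : Type) [Finite Ω] [PartialOrder Ω] (D : Sys Ω),
    D.Ok B → rr D.P D.G ≤ D.r → ∀ J H, Cl D.U J → (∀ j ∈ H, IsSh j) → (∀ R, ¬ Full H R) →
    ∀ N, ∃ n ≥ N, 3 ≤ n ∧ (∀ s < D.P.p, Gr.JJ n s = D.Jb J s) ∧
      ∀ c, D.TX J H c → FolN (D.M c) (D.Q c) (D.S c) n ∧
        ∃ I : Gr.Itm, I.col = c ∧ Gr.Fol D.P D.G n I (D.V c)

/-- Module HITC (from HH): truths are inherited by all reals of the right kind. -/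
def HitcStatement : Prop :=
  ∀ P : Par, P.Ok → ∀ G : Gph, Lim4 P G → ∀ (J : ℕ → Bool) (H : ℕ) (V : ℕ → ℕ → ℕ),
    (∀ N, ∃ n ≥ N, 3 ≤ n ∧ (∀ s < P.p, Gr.JJ n s = J s) ∧
      ∀ c, Tx P J H c = true → ∃ I : Gr.Itm, I.col = c ∧ Gr.Fol P G n I (V c)) →
    ∀ z, TruE P (Ps P G) J H V z → ∀ W, W ∉ Up (BB P) → (∀ c, Tx P J H c = true → Red (V c) W) →
      (∀ s < P.p, J s = false → W ∈ AA P G s) → ∃ g, Red g W ∧ ∀ k, P.Tr z (pre g k)

/-- Module TRUP (from `Tup.tru_of_path`): a real of a pattern in a class gives a truth. -/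
def TrupStatement : Prop :=
  ∀ (B : Set (ℕ → ℕ)) (Ω : Type) [PartialOrder Ω] (D : Sys Ω), D.Ok B →
    Gnr D.P D.G (fun O => ∀ J H e, D.XO O J H ∈ D.yy e → D.TE J H e)

/-- Module TLAB: the labels of a point are copies of the trees of its list. -/
def TlabStatement : Prop :=
  ∀ (P : Par) (G : Gph) (s hd : ℕ) (lam : ℕ × List ℕ → Bool) (ρ : List ℕ → ℕ) (fo : ℕ → ℕ)
    (e cn : ℕ → ℕ) (A : ℕ → ℕ) (R C Q S Z : ℕ → St3) (V : ℕ → ℕ),
    IsRun (ptM P G s hd lam) ρ fo e cn A R C Q S Z V → ∀ u, ∀ z ∈ (Q u).E ++ (Z u).E,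
      1 ≤ z ∧ ∃ k, lam (Txt.tn z, pre e k) = true

/-- Module SHIT (from SPRES, HITC, TRUP). -/
def ShitStatement : Prop :=
  ∃ rr : Par → Gph → ℕ, ∀ (B : Set (ℕ → ℕ)) (Ω : Type) [Finite Ω] [PartialOrder Ω] (D : Sys Ω),
    D.Ok B → rr D.P D.G ≤ D.r → Gnr D.P D.G (fun O => D.FHit B O ∧
      -- truths about patterns which are not in the class of `B`
      ∀ J H, Cl D.U J → (∀ j ∈ H, IsSh j) → (∀ R, ¬ Full H R) → ∀ e, D.TE J H e →
        D.XO O J H ∈ D.yy e ∪ Up B)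

/-- Module SLIST (from SHIT, TLIST). -/
def SlistStatement : Prop :=
  ∃ rr : Par → Gph → ℕ, ∀ (B : Set (ℕ → ℕ)) (Ω : Type) [Finite Ω] [PartialOrder Ω] (D : Sys Ω),
    D.Ok B → rr D.P D.G ≤ D.r → Gnr D.P D.G (fun O => D.FList B O)

/-- Module SREM (from `Rem.procP`, MNE, TFUT, SGEN, SRED, TRUP). -/
def SremStatement : Prop :=
  ∃ rr : Par → Gph → ℕ, ∀ (B : Set (ℕ → ℕ)) (Ω : Type) [Finite Ω] [PartialOrder Ω] (D : Sys Ω),
    D.Ok B → rr D.P D.G ≤ D.r → Gnr D.P D.G (fun O => D.FRem B O)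

/-- Module SRSH (from `Rem.procs`, `Rem.kself`, MNE, SGEN, SRED, TRUP). -/
def SrshStatement : Prop :=
  ∃ rr : Par → Gph → ℕ, ∀ (B : Set (ℕ → ℕ)) (Ω : Type) [Finite Ω] [PartialOrder Ω] (D : Sys Ω),
    D.Ok B → rr D.P D.G ≤ D.r → Gnr D.P D.G (fun O => D.FRsh B O ∧ D.FSelf B O)

/-- Module SNUL (from KILLN). -/
def SnulStatement : Prop :=
  ∃ rr : Par → Gph → ℕ, ∀ (B : Set (ℕ → ℕ)) (Ω : Type) [Finite Ω] [PartialOrder Ω] (D : Sys Ω),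
    D.Ok B → rr D.P D.G ≤ D.r → Gnr D.P D.G (fun O => D.FNul B O)

/-- Module SNB (from SREM, SRSH, SNUL): combinatorics of the removal. -/
def SnbStatement : Prop :=
  ∀ (B : Set (ℕ → ℕ)) (Ω : Type) [Finite Ω] [PartialOrder Ω] (D : Sys Ω), D.Ok B →
    ∀ O, D.FRem B O → D.FSelf B O → D.FNul B O → D.FNb B O

/-- Module SKILL (from KILL, SPRES, TCHN, TRUP). -/
def SkillStatement : Prop :=
  ∃ rr : Par → Gph → ℕ, ∀ (B : Set (ℕ → ℕ)) (Ω : Type) [Finite Ω] [PartialOrder Ω] (D : Sys Ω),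
    D.Ok B → rr D.P D.G ≤ D.r → Gnr D.P D.G (fun O => D.FNb B O → D.FKill B O)

/-- Module SFUL (from SBAS): all shares of `R` together compute a member of `B`; `V s` is not
computable. -/
def SfulStatement : Prop :=
  ∃ rr : Par → Gph → ℕ, ∀ (B : Set (ℕ → ℕ)) (Ω : Type) [Finite Ω] [PartialOrder Ω] (D : Sys Ω),
    D.Ok B → rr D.P D.G ≤ D.r →
      (∀ R Z, Good R → (∀ m, Maximal (· ∈ lowerBounds R) m → Red (D.Ysh R m) Z) → Z ∈ Up B) ∧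
      ∀ s, ¬ Red (D.Vp s) (fun _ => 0)

/-- Module SYS: systems exist. -/
def SysStatement : Prop :=
  ∀ (rr : Par → Gph → ℕ) (B : Set (ℕ → ℕ)), ClosedC B → B.Nonempty → Bin B →
    (fun _ : ℕ => 0) ∉ Up B → ∀ (Ω : Type) [Finite Ω] [Nonempty Ω] [PartialOrder Ω]
      (U : Ω → Set Ω), UCF Ω U → ∃ D : Sys Ω, D.U = U ∧ D.Ok B ∧ rr D.P D.G ≤ D.r

end Stm

end Pool.Agent.Lib.MP_d48993_lc.Asm
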