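import Pool.Agent.Lib.MP_d48993_lc.AE.Kill.Killn
import Pool.Agent.Lib.MP_d48993_lc.AE.Rig.Sys

/-!
# Module SNUL: the pattern without known objects is not in the class of `B`
-/

set_option autoImplicit false

namespace Pool.Agent.Lib.MP_d48993_lc.Asm

open MP_8c048d_lc (pre join RecF Cop length_pre)
open Gr (Par BB AA Gph Lim4 Eff Ps Tx Mem RL DK S0)
open Tup (TruE Tru XH kn Cn Lep Blw Dcd mk IndD pre_mono)

/-- Long forcing conditions give all regular initial segments. -/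
theorem rl_of_ps (hRg : Gr.RegStatement) {P : Par} (hP : P.Ok) {G : Gph} (hL : Lim4 P G)
    {O : ℕ → ℕ → ℕ} {s : ℕ} (hs : s < P.p) (h : ∀ n, ∃ k ≥ n, Ps P G s (pre (O s) k)) (k : ℕ) :
    RL P G s (pre (O s) k) := by
  obtain ⟨k', hk', h1⟩ := h k
  exact (hRg P hP G hL s hs).1 _ _ h1.1 (pre_mono _ hk')

theorem bitN_false {Q : ℕ → Prop} (h : ∀ i, ¬ Q i) (n : ℕ) : bitN Q n = 0 := by
  induction n with
  | zero => rfl
  | succ n ih => unfold bitN; rw [ih, if_neg (h n)]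

theorem snul_proof (hBk : Gr.BlkStatement) (hRg : Gr.RegStatement) (hDn : Gr.DensStatement) :
    SnulStatement := by
  refine ⟨fun _ _ => 0, fun B Ω _ _ D hD _ => ?_⟩
  refine ⟨fun _ => kn D.P fun _ => false, fun N => DK D.P D.G (fun _ => false) (S0 D.P) N,
    fun O hO hdc => ?_⟩
  have hP := hD.par.ok
  have h1 := Gr.killn (V := D.V) hBk hRg hDn hP hD.lim
    (fun s hs k => rl_of_ps hRg hP hD.lim hs (hO s hs) k) hdc
  have h2 : D.Jb ∅ = fun _ => false := by
    funext s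
    unfold Sys.Jb
    rw [bitN_false (Q := fun s => D.nm.pt s ∈ (∅ : Set Ω)) (fun _ => Set.notMem_empty _)]
    exact Nat.zero_testBit s
  have h3 : D.Hn ∅ = 0 := bitN_false (Q := fun j => D.nm.sh j ∈ (∅ : Set (Set Ω × Ω)))
    (fun _ => Set.notMem_empty _) _
  unfold Sys.FNul Sys.XO
  rw [h2, h3, ← hD.par.bb]
  exact h1

end Pool.Agent.Lib.MP_d48993_lc.Asm
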