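import Pool.Agent.Lib.MP_d48993_lc.AE.Kill.Krun
import Pool.Agent.Lib.MP_d48993_lc.AE.Rig.Snul
import Pool.Agent.Lib.MP_d48993_lc.AE.Real.Glue

/-!
# Module SKILL: the field `kill` of the interface OBJ
-/

set_option autoImplicit false

namespace Pool.Agent.Lib.MP_d48993_lc.Asm

open MP_8c048d_lc (pre join RecF Cop)
open Gr (Par BB AA Gph Lim4 Eff Ps Tx Mem RL DK KS)
open Ars (Ar Jr)
open Ind2 (Sg J Gen Crt Jn)
open Tup (TruE Tru XH kn Cn Lep Blw Dcd mk IndD)
open Txt (St3 Mch MOk MSg ptM shM PInv PAnv SInv SAnv IsRun FolN PGp ey PathsT)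
open Bound (IsC Good UCF)
open Real (Kn EE FF IsSh Le Cl Full PM Pat Xc)

/-- What is known about a label of the point number `b`. -/
def QL {Ω : Type} [PartialOrder Ω] (D : Sys Ω) (b z : ℕ) : Prop :=
  1 ≤ z ∧ ∃ k, D.lam b (Txt.tn z, pre (D.e b) k) = true

theorem skill_proof (hRg : Gr.RegStatement) (hDn : Gr.DensStatement)
    (hGT : Gr.GTStatement) (hPTM : Txt.StPTM) (hMINV : Txt.StMINV) (hTF : Txt.StTFUTp)
    (hTC : Txt.StTCHN) (hGnr : GnrStatement) (hXjn : XjnStatement) (hTrup : TrupStatement)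
    (hTlab : TlabStatement) (hSbas : SbasStatement) (hSpres : SpresStatement) :
    SkillStatement := by
  obtain ⟨r1, h1⟩ := hSbas
  obtain ⟨r2, h2⟩ := hSpres
  refine ⟨fun P G => r1 P G + r2 P G, fun B Ω _ _ D hD hr => ?_⟩
  have hP := hD.par.ok
  have hL := hD.lim
  have hr' : r1 D.P D.G + r2 D.P D.G ≤ D.r := hr
  have k1 := h1 B Ω D hD (by omega)
  have k2 := h2 B Ω D hD (by omega)
  obtain ⟨g1, g2, g3, g4, g5, -⟩ := hGnr
  -- the sets
  have hG1 : Gnr D.P D.G (fun O => ∀ x : ℕ × ℕ × ℕ × ℕ,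
      Dcd D.P.p (Ps D.P D.G) (kn D.P fun s => x.1.testBit s) O
        (DK D.P D.G (fun s => x.1.testBit s)
          (KS D.P D.G (fun s => x.1.testBit s) x.2.1 D.V x.2.2.1 (QL D x.2.2.1)) x.2.2.2)) :=
    g3 _ _ _ _ fun x => g4 _ _ _ _
  refine g2 _ _ _ _ (g1 _ _ _ _ hG1 (g1 _ _ _ _ (g5 D.P D.G) (hTrup B Ω D hD))) ?_
  rintro O ⟨hdc, hO, htr⟩ hnb c s hcs hA
  have hcl : Cl D.U (Set.Ici c) := (Real.Glue.pat_self hD.ucf c).cl
  have hsh : ∀ j ∈ {j | Kn c j}, IsSh j := fun j hj => hj.1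
  have hnf : ∀ R, ¬ Full {j | Kn c j} R := Real.Glue.nonfull c
  have hb : D.nm.pn s < D.P.p := D.nm.pnl s
  have hX : Xc (D.XO O) c = XH D.P (D.Jb (Set.Ici c)) (D.Hn {j | Kn c j}) D.V O := rfl
  rcases hA with ⟨O', hO', hred⟩ | hA
  · -- a member of the tree
    have hJb : D.Jb (Set.Ici c) (D.nm.pn s) = true := by
      unfold Sys.Jb
      rw [testBit_bitN, D.nm.pnt]
      exact ⟨hb, hcs⟩
    have hKS : ∀ N, ∃ n ≥ N, KS D.P D.G (D.Jb (Set.Ici c)) (D.Hn {j | Kn c j}) D.V (D.nm.pn s)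
        (QL D (D.nm.pn s)) n := by
      intro N
      obtain ⟨n, hn, -, hJn, hfol⟩ := k2 (Set.Ici c) {j | Kn c j} hcl hsh hnf N
      refine ⟨n, hn, hJn, ?_⟩
      have hTX : D.TX (Set.Ici c) {j | Kn c j} (D.nm.pn s) := by
        unfold Sys.TX Tx Gr.Prs
        simp [hb, hJb]
      obtain ⟨⟨u, hu1, hu2, hu3⟩, -⟩ := hfol _ hTX
      have hM : D.M (D.nm.pn s) = ptM D.P D.G (D.nm.pn s) (D.hd (D.nm.pn s))
          (D.lam (D.nm.pn s)) := by
        unfold Sys.M
        rw [if_pos hb]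
      have hlt : D.nm.pn s < D.N := hb.trans_le (Nat.le_add_right _ _)
      have hrun := hD.run _ hlt
      rw [hM] at hrun hu2
      obtain ⟨-, -, -, hcn, -⟩ := k1 _ hlt
      obtain ⟨f1, f2⟩ := Txt.kfol_of_run hPTM hMINV hGT hTF hTC hP hL hD.par.copy hb hcn hrun hu2
      rw [hu1] at f1 f2
      have hex : ∀ c', ∃ I : Gr.Itm, D.TX (Set.Ici c) {j | Kn c j} c' →
          I.col = c' ∧ Gr.Fol D.P D.G n I (D.V c') := by
        intro c'
        by_cases h : D.TX (Set.Ici c) {j | Kn c j} c'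
        · obtain ⟨I, hI⟩ := (hfol c' h).2
          exact ⟨I, fun _ => hI⟩
        · exact ⟨(0, 0, [], [], []), fun h' => (h h').elim⟩
      choose it hit using hex
      refine ⟨Function.update it (D.nm.pn s)
        (Txt.itm (D.nm.pn s) (D.hd (D.nm.pn s)) (D.Q (D.nm.pn s) u)), fun c' hc' => ?_, ?_, ?_⟩
      · by_cases h : c' = D.nm.pn s
        · subst h
          rw [Function.update_self]
          exact ⟨rfl, f1⟩
        · rw [Function.update_of_ne h]
          exact hit c' hc'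
      · rw [Function.update_self]
        exact ⟨_, _, f2⟩
      · rw [Function.update_self]
        intro z hz
        exact hTlab _ _ _ _ _ _ _ _ _ _ _ _ _ _ _ _ hrun u z (List.mem_append_left _ hz)
    obtain ⟨z, ⟨hz1, hz2⟩, f, hf1, hf2⟩ := Gr.kcore hRg hDn hP hL hb hJb hKS
      (fun l hl _ k => rl_of_ps hRg hP hL hl (hO l hl) k)
      (fun N => hdc (bitN (fun s => D.nm.pt s ∈ Set.Ici c) D.P.p, D.Hn {j | Kn c j},
        D.nm.pn s, N))
      (by rw [← hX]; exact hred) (fun k => (hO' k).1)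
    obtain ⟨b', J', H', hb', hpat, hTE⟩ := (hD.lame _ hb _).1 hz2
    rw [D.nm.pnt] at hb'
    refine ⟨D.yy (Txt.tn z) ∪ Up B, b', J', H', hb', hpat, hD.par.labC _, ?_, ?_⟩
    · rintro (h | h)
      · exact hTE (htr J' H' _ h)
      · exact hnb J' H' hpat.cl (fun j hj => (hpat.sh j hj).1) hpat.nf h
    · left
      refine ⟨f, fun k => ?_, hf1.trans (red_join ?_ hred)⟩
      · have h3 : z = Nat.pair (Txt.tn z) (z - 1).unpair.2 + 1 := by
          unfold Txt.tn
          rw [Nat.pair_unpair]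
          omega
        have h4 := hf2 k
        rw [h3] at h4
        have h5 := (hD.par.copy _ _ _).1 h4
        exact h5
      · exact (hXjn Ω D hP.pos O).2.1 (Set.Ici c) {j | Kn c j} s hcs
  · exfalso
    rw [hD.par.bb] at hA
    exact hnb (Set.Ici c) {j | Kn c j} hcl hsh hnf hA

end Pool.Agent.Lib.MP_d48993_lc.Asm
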