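import Pool.Agent.Lib.MP_d48993_lc.AE.Rig.Sys

/-!
# Assembly, module SLIST: the lists of the points
-/

set_option autoImplicit false

namespace Pool.Agent.Lib.MP_d48993_lc.Asm

open MP_8c048d_lc (pre join RecF Cop)
open Gr (Par BB AA Gph Lim4 Eff Ps Tx Mem)
open Bound (IsC Good UCF)
open Real (Kn EE FF IsSh Le Cl Full PM Pat Xc)

/-- Module SLIST. -/
theorem slist_proof (hS : ShitStatement) (hT : Txt.StTLIST) : SlistStatement := by
  obtain ⟨rr, hS⟩ := hS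
  refine ⟨rr, ?_⟩
  intro B Ω _ _ D hD hr
  obtain ⟨I, E, h⟩ := hS B Ω D hD hr
  refine ⟨I, E, fun O h1 h2 => ?_⟩
  obtain ⟨-, h3⟩ := h O h1 h2
  intro s b J H y hs hp hy hn W hW hWy
  obtain ⟨e, he⟩ := hD.par.lab y hy
  have he' : y = D.yy e := he
  have hBy : Up B ⊆ y := by
    obtain ⟨S, -, rfl⟩ := hy
    exact Set.subset_union_right
  have h4 : ¬ D.TE J H e := fun h5 => by
    rcases h3 J H hp.cl (fun j hj => (hp.sh j hj).1) hp.nf e h5 with h6 | h6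
    · rw [← he'] at h6; exact hn h6
    · exact hn (hBy h6)
  have hl : D.nm.pn s < D.P.p := D.nm.pnl s
  have h5 : ∃ k, D.lam (D.nm.pn s) (e, pre (D.e (D.nm.pn s)) k) = true := by
    rw [hD.lame _ hl]
    refine ⟨b, J, H, ?_, hp, h4⟩
    rw [D.nm.pnt]; exact hs
  have hrun := hD.run (D.nm.pn s) (by unfold Sys.N; omega)
  have hM : D.M (D.nm.pn s) = Txt.ptM D.P D.G (D.nm.pn s) (D.hd (D.nm.pn s))
      (D.lam (D.nm.pn s)) := by
    unfold Sys.M
    rw [if_pos hl]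
  rw [hM] at hrun
  have hc : ∀ p, D.cn (D.nm.pn s) p < 2 := by
    intro p
    unfold Sys.cn
    split_ifs
    · exact Nat.mod_lt _ (by norm_num)
    · unfold Txt.ey; exact Nat.mod_lt _ (by norm_num)
  rw [he'] at hWy
  obtain ⟨g, hg, hgW⟩ := hWy
  exact hT D.P hD.par.ok D.G hD.lim hD.par.copy (D.nm.pn s) hl (D.hd (D.nm.pn s))
    (D.lam (D.nm.pn s)) (hD.lamc _ hl).2 _ _ _ _ hc _ _ _ _ _ _ _ hrun e h5 W hW ⟨g, hgW, hg⟩

end Pool.Agent.Lib.MP_d48993_lc.Asm
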