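import Pool.Agent.Lib.MP_d48993_lc.AE.Rig.Sys
import Pool.Agent.Lib.MP_d48993_lc.AE.Real.Objb

/-!
# Module SNB: no pattern is in the class of `B`

All points are removed, then all shares (the last share of a group first); what remains is the
pattern without known objects.
-/

set_option autoImplicit false

namespace Pool.Agent.Lib.MP_d48993_lc.Asm

open Bound (IsC Good UCF)
open Real (Kn EE FF IsSh Le Cl Full PM Pat Xc)

theorem snb_isC_up (B : Set (ℕ → ℕ)) : IsC B (Up B) := by
  refine ⟨∅, ⟨fun _ _ => false, MP_8c048d_lc.RecF.of_computable (Computable.const false),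
    fun _ _ => by simp⟩, ?_⟩
  have h : Up (∅ : Set (ℕ → ℕ)) = ∅ := by
    ext W
    simp [Up]
  rw [h, Set.empty_union]

theorem snb_proof : SnbStatement := by
  intro B Ω _ _ D hD O hrem hself hzero J H hJ hH hF h
  have h1 : Le B (D.XO O J H) (D.XO O ∅ H) :=
    Real.Glue.rem_pts (X := D.XO O) hD.ucf (fun s J H h1 h2 h3 h4 h5 => hrem s J H h1 h2 h3 h4 h5)
      hH hF _ J hJ rfl
  refine hzero (Real.Glue.rem_shs (X := D.XO O) (la := D.la) ?_ _ H hH hF rfl
    (h1 _ (snb_isC_up B) h))
  intro R m H' h2 h3 h4 h5 h6 h7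
  exact hself R m ∅ H' h2 h3 (fun s hs => (Set.notMem_empty s hs).elim) h4 h5 h6
    (fun s hs => (Set.notMem_empty s hs).elim) h7

end Pool.Agent.Lib.MP_d48993_lc.Asm
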