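import Pool.Agent.Lib.MP_d48993_lc.AE.Rig.Sys

/-!
# Module SRED: jumps of the known reals
-/

set_option autoImplicit false

namespace Pool.Agent.Lib.MP_d48993_lc.Asm

open Ind2 (Jn)
open Ars (Jr Jr_Z)
open Tup (IndD)

theorem le_foldr_max {κ : ℕ → ℕ} {L : List ℕ} {c : ℕ} (hc : c ∈ L) :
    κ c ≤ (L.map κ).foldr max 0 := by
  induction L with
  | nil => simp at hc
  | cons a L ih =>
    rw [List.map_cons, List.foldr_cons]
    rcases List.mem_cons.1 hc with rfl | h
    · exact le_max_left _ _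
    · exact (ih h).trans (le_max_right _ _)

theorem foldr_max_le {κ : ℕ → ℕ} {L : List ℕ} {m : ℕ} (h : ∀ c ∈ L, κ c ≤ m) :
    (L.map κ).foldr max 0 ≤ m := by
  induction L with
  | nil => exact Nat.zero_le _
  | cons a L ih =>
    rw [List.map_cons, List.foldr_cons]
    exact max_le (h a (by simp)) (ih fun c hc => h c (by simp [hc]))

/-- Module SRED. -/
theorem sred_proof (hB : SbasStatement) : SredStatement := by
  obtain ⟨rr, hrr⟩ := hB
  refine ⟨rr, ?_⟩
  intro B Ω _ _ D hD hr L hL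
  have hb := hrr B Ω D hD hr
  obtain ⟨gp, -, hK⟩ := hD.know
  have hNN : D.P.p + D.P.q = D.N := rfl
  rcases List.eq_nil_or_concat L with rfl | hne
  · refine ⟨fun _ => 0, by simp, fun o ho _ => ?_, fun s hs _ => ?_⟩
    · rw [Jr_Z]
      have h1 := hD.kr o ho
      have h2 : Red (Ind2.Z D.r) (Ind2.Z D.K) := Ind2.red_Z (by omega)
      exact h2.trans (hD.ind.ZY o ho)
    · rw [Jr_Z]
      exact (hb s (by rw [← hNN]; omega)).2.2.2.2.2.1
  · have hne : L ≠ [] := by
      obtain ⟨L', b, rfl⟩ := hne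
      simp
    obtain ⟨c0, hc0⟩ := List.exists_mem_of_ne_nil L hne
    set I : List ℕ := L.flatMap D.KK with hI
    set k : ℕ := (L.map D.kk).foldr max 0 with hk
    have hmem : ∀ c ∈ L, ∀ l ∈ D.KK c, l ∈ I := fun c hc l hl =>
      List.mem_flatMap.2 ⟨c, hc, hl⟩
    have hIn : ∀ l ∈ I, l < D.N := by
      intro l hl
      obtain ⟨c, hc, hl'⟩ := List.mem_flatMap.1 hl
      exact hK.lt c (hL c hc) l hl'
    have hIne : I ≠ [] := List.ne_nil_of_mem (hmem c0 hc0 c0 (hK.self c0 (hL c0 hc0)))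
    have hle : ∀ c ∈ L, D.kk c ≤ k := fun c hc => le_foldr_max hc
    have hkK : k + D.r ≤ D.K := by
      have h1 := (hD.kr c0 (hL c0 hc0)).2
      have h2 : k ≤ D.K - D.r := foldr_max_le fun c hc => by
        have := (hD.kr c (hL c hc)).2
        omega
      omega
    have hj : Red (Jr D.r (Jn D.X I k)) (Jn D.X I (k + D.r)) :=
      hD.ind.jumps hIne hIn k D.r hkK
    refine ⟨Jn D.X I k, fun c hc => ?_, fun o ho hoc => ?_, fun s hs hsc => ?_⟩
    · have h1 : Red (D.e c) (Jn D.X I k) :=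
        hD.ind.Jn_le hIn (hmem c hc) (hle c hc) (by omega)
      exact ⟨(hb c (hL c hc)).2.2.2.2.2.2.2.1.trans h1, h1⟩
    · refine hj.trans (hD.ind.Jn_Y hIn ho (fun h => ?_) hkK)
      obtain ⟨c, hc, hl⟩ := List.mem_flatMap.1 h
      exact hoc c hc hl
    · have hsN : s < D.N := by rw [← hNN]; omega
      have hks : k + D.r ≤ D.kk s := by
        have h1 : k ≤ D.kk s - D.r := foldr_max_le fun c hc => by
          have := hD.kl s hs c (hsc c hc).1 (hsc c hc).2
          omega
        have h2 := hD.kl s hs c0 (hsc c0 hc0).1 (hsc c0 hc0).2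
        omega
      have hkk : D.kk s ≤ D.K := by
        have := (hD.kr s hsN).2
        omega
      refine hj.trans (hD.ind.Jn_le (fun l hl => hK.lt s hsN l hl) (fun l hl => ?_) hks hkk)
      obtain ⟨c, hc, hl'⟩ := List.mem_flatMap.1 hl
      exact hK.trans s c l hsN (hsc c hc).1 hl'

end Pool.Agent.Lib.MP_d48993_lc.Asm
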