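import Pool.Agent.Lib.MP_d48993_lc.AE.Rig.Sys
import Pool.Agent.Lib.MP_d48993_lc.AE.Rem.Fin

/-!
# Assembly, module SREM: removal of a known point
-/

set_option autoImplicit false

namespace Pool.Agent.Lib.MP_d48993_lc.Asm

open MP_8c048d_lc (pre join RecF Cop)
open Gr (Par BB AA Gph Lim4 Eff Ps Tx Mem)
open Ars (Ar Jr)
open Ind2 (Sg J Gen Crt Jn)
open Tup (TruE Tru XH kn Cn Lep Blw Dcd mk IndD mem_kn)
open Txt (St3 Mch MOk MSg ptM shM PInv PAnv SInv SAnv IsRun FolN PGp ey PathsT)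
open Bound (IsC Good UCF)
open Real (Kn EE FF IsSh Le Cl Full PM Pat Xc)

/-- Almost all tuples decide the sets of part R. -/
theorem gnr_decR (hG : GnrStatement) (P : Par) (G : Gph) (V : ℕ → ℕ → ℕ) :
    Gnr P G (fun O => Rem.DecR P G V O) := by
  have h1 := hG.2.2.1 P G Rem.IxR
    (fun x O => Dcd P.p (Ps P G) (Rem.KR P x) O (Rem.SR P G V x)) (fun x => hG.2.2.2.1 P G _ _)
  exact hG.2.1 P G _ _ h1 (fun O h => Rem.DecR.of h)

namespace Srem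

variable {Ω : Type} [PartialOrder Ω] {B : Set (ℕ → ℕ)} {D : Sys Ω}

theorem jb_iff {J : Set Ω} {s : ℕ} (hs : s < D.P.p) : D.Jb J s = true ↔ D.nm.pt s ∈ J := by
  unfold Sys.Jb
  rw [testBit_bitN]
  exact ⟨fun h => h.2, fun h => ⟨hs, h⟩⟩

theorem mem_knJ {J : Set Ω} {l : ℕ} : l ∈ kn D.P (D.Jb J) ↔ l < D.P.p ∧ D.nm.pt l ∈ J := by
  rw [mem_kn]
  constructor
  · rintro ⟨h1, h2⟩; exact ⟨h1, (jb_iff h1).1 h2⟩
  · rintro ⟨h1, h2⟩; exact ⟨h1, (jb_iff h1).2 h2⟩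

/-- A real of a colour is in the class of the colour. -/
theorem mem_O (hR : Gr.RegStatement) (hD : D.Ok B) {O : ℕ → ℕ → ℕ} {l : ℕ} (hl : l < D.P.p)
    (hO : ∀ n, ∃ k ≥ n, Ps D.P D.G l (pre (O l) k)) : O l ∈ Mem D.P D.G l := by
  intro k
  obtain ⟨k', hk, h4⟩ := hO k
  exact (hR D.P hD.par.ok D.G hD.lim l hl).1 _ _ h4.1 (Tup.pre_mono _ hk)

/-- The known columns, after the removal of the point number `o`. -/
theorem tx_ins {J : Set Ω} {H : Set (Set Ω × Ω)} {s : Ω} {c : ℕ}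
    (h : D.TX (insert s J) H c) (hc : c ≠ D.nm.pn s) : D.TX J H c := by
  unfold Sys.TX Tx at h ⊢
  rw [Bool.and_eq_true, Bool.or_eq_true, decide_eq_true_eq] at h ⊢
  refine ⟨h.1, ?_⟩
  rcases h.2 with h2 | h2
  · exact Or.inl h2
  · by_cases hp : c < D.P.p
    · right
      rw [jb_iff hp] at h2 ⊢
      rcases h2 with h2 | h2
      · exact (hc (by rw [← D.nm.ptn c hp, h2])).elim
      · exact h2
    · exact Or.inl (not_lt.1 hp)

theorem ins_tx {J : Set Ω} {H : Set (Set Ω × Ω)} {s : Ω} {c : ℕ}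
    (h : D.TX J H c) : D.TX (insert s J) H c := by
  unfold Sys.TX Tx at h ⊢
  rw [Bool.and_eq_true, Bool.or_eq_true, decide_eq_true_eq] at h ⊢
  refine ⟨h.1, ?_⟩
  rcases h.2 with h2 | h2
  · exact Or.inl h2
  · by_cases hp : c < D.P.p
    · right
      rw [jb_iff hp] at h2 ⊢
      exact Or.inr h2
    · exact Or.inl (not_lt.1 hp)

theorem tx_lt {J : Set Ω} {H : Set (Set Ω × Ω)} {c : ℕ} (h : D.TX J H c) : c < D.N :=
  Rem.tx_lt h

end Srem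

open Srem in
/-- Module SREM. -/
theorem srem_proof (hG : GnrStatement) (hR : Gr.RegStatement) (hI : Rem.InstStatement)
    (hB : Rem.NbrStatement) (hT : Txt.StTNEp) (hM : Txt.StMINV) (hb : SbasStatement)
    (hr : SredStatement) (hg : SgenStatement) (hk : PatkStatement) : SremStatement := by
  classical
  have hT' : ∀ P G, ∃ r, ∀ (_ : P.Ok) (_ : Lim4 P G) (_ : Eff P G)
      (_ : ∀ e i σ, P.Tr (Nat.pair e i + 1) σ ↔ P.Tr (Nat.pair e 0 + 1) σ),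
      ∀ (a H : ℕ), a < 2 ^ P.p → H < 2 ^ P.q →
      ∀ s < P.p, a.testBit s = true → ∀ (hd : ℕ) (lam : ℕ × List ℕ → Bool)
      (ρ : List ℕ → ℕ) (fo : ℕ → ℕ) (e cn : ℕ → ℕ), Computable ρ → Computable fo →
      (∀ s t, s <+: t → ρ s ≤ ρ t) → (∀ p, cn p < 2) →
      ∀ (A : ℕ → ℕ) (R C Q S Z : ℕ → St3) (V : ℕ → ℕ → ℕ),
      IsRun (ptM P G s hd lam) ρ fo e cn A R C Q S Z (V s) →
      ∀ Ys : List (ℕ → ℕ), PGp (ptM P G s hd lam) fo e cn A R Ys →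
      (∀ Y ∈ Ys, MSg Y (ptM P G s hd lam)) → ∀ F : ℕ → ℕ,
      (∀ c < P.p + P.q, Gr.Tx P (fun s => a.testBit s) H c = true → c ≠ s → Red (V c) F) →
      (∀ Y ∈ Ys, Red (Ars.Jr r F) Y) →
      ∀ (i e' : ℕ) (μ₀ : List (List ℕ)),
        Tru P (Ps P G) (fun s => a.testBit s) H V (P.Φ i) (Rem.UU P e') μ₀ →
        ∃ u0, ∀ u ≥ u0, Txt.NeP P G s hd (Ps P G) (fun s => a.testBit s) H V (P.Φ i)
          (Rem.UU P e') (Z u) μ₀ := by
    intro P G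
    by_cases h : P.Ok ∧ Lim4 P G ∧ Eff P G ∧
        ∀ e i σ, P.Tr (Nat.pair e i + 1) σ ↔ P.Tr (Nat.pair e 0 + 1) σ
    · obtain ⟨r, hr⟩ := hT P h.1 G h.2.1 h.2.2.1 h.2.2.2
      exact ⟨r, fun _ _ _ _ => hr⟩
    · exact ⟨0, fun h1 h2 h3 h4 => (h ⟨h1, h2, h3, h4⟩).elim⟩
  choose rT hrT using hT'
  obtain ⟨rb, hb⟩ := hb
  obtain ⟨rr, hr⟩ := hr
  obtain ⟨rg, hg⟩ := hg
  refine ⟨fun P G => rT P G + rb P G + rr P G + rg P G, ?_⟩
  intro B Ω _ _ D hD hDr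
  have hDr' : rT D.P D.G + rb D.P D.G + rr D.P D.G + rg D.P D.G ≤ D.r := hDr
  have hGn := hG.1 D.P D.G _ _ (gnr_decR hG D.P D.G D.V) (hG.2.2.2.2.1 D.P D.G)
  refine hG.2.1 D.P D.G _ _ hGn ?_
  rintro O ⟨hO1, hO2⟩
  intro s J H hsJ hC1 hC2 hH hF y hy hX
  obtain ⟨e, he⟩ := hD.par.lab y hy
  have hP : D.P.Ok := hD.par.ok
  have ho : D.nm.pn s < D.P.p := D.nm.pnl s
  have hoN : D.nm.pn s < D.N := ho.trans_le (Nat.le_add_right _ _)
  have hpt : D.nm.pt (D.nm.pn s) = s := D.nm.pnt s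
  obtain ⟨i1, i2, i3, i4, i5, i6⟩ := hI D.P hP D.G hD.lim (D.nm.pn s) ho
  -- the number of the pattern
  have hJa : D.Jb (insert s J) =
      Rem.bt (bitN (fun c => D.nm.pt c ∈ insert s J) D.P.p) := rfl
  have hJs : Rem.bt (bitN (fun c => D.nm.pt c ∈ insert s J) D.P.p) (D.nm.pn s) = true := by
    rw [← hJa, jb_iff ho, hpt]
    exact Set.mem_insert _ _
  -- NE
  have hN : Rem.NEP D.P D.G (Rem.bt (bitN (fun c => D.nm.pt c ∈ insert s J) D.P.p)) (D.Hn H) D.V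
      (D.nm.pn s) (D.hd (D.nm.pn s)) := by
    intro i e m0 hTru
    obtain ⟨b1, b2, b3, b4, b5, b6, b7, -⟩ := hb B Ω D hD (by omega) _ hoN
    obtain ⟨F, f1, f2, -⟩ := hr B Ω D hD (by omega)
      ((List.range D.N).filter (fun c => Tx D.P (D.Jb J) (D.Hn H) c)) (fun c hc => by
        rw [List.mem_filter, List.mem_range] at hc; exact hc.1)
    have f3 := f2 (D.nm.pn s) hoN (fun c hc => by
      rw [List.mem_filter] at hc
      exact (hk B Ω D hD J H hC1 hH).2.1 _ ho (by rw [hpt]; exact hsJ) c hc.2)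
    have hMe : D.M (D.nm.pn s) =
        ptM D.P D.G (D.nm.pn s) (D.hd (D.nm.pn s)) (D.lam (D.nm.pn s)) := by
      unfold Sys.M
      rw [if_pos ho]
    have hrun := hD.run _ hoN
    have hlst : D.lst (D.nm.pn s) = false := by
      unfold Sys.lst
      simp [not_le.2 ho]
    have hpg := (hg B Ω D hD (by omega) _ hoN).1 hlst
    have hms : MSg (D.Y (D.nm.pn s)) (D.M (D.nm.pn s)) := by
      refine b5 _ (Red.trans ?_ f3)
      rw [← Ars.Jr_Z]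
      exact Ars.Jr_mono _ (red1 _ (RecF.of_computable (Computable.const 0)) F)
    rw [hMe] at hrun hpg hms
    obtain ⟨u0, hu⟩ := hrT D.P D.G hP hD.lim hD.eff hD.par.copy
      (bitN (fun c => D.nm.pt c ∈ insert s J) D.P.p) (D.Hn H) (bitN_lt _ _) (bitN_lt _ _)
      (D.nm.pn s) ho hJs (D.hd (D.nm.pn s)) (D.lam (D.nm.pn s)) (D.ga (D.nm.pn s))
      (D.fo (D.nm.pn s)) (D.e (D.nm.pn s)) (D.cn (D.nm.pn s)) (hD.ga _ hoN).1 b2 (hD.ga _ hoN).2.1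
      b4 _ _ _ _ _ _ D.V hrun [D.Y (D.nm.pn s)] hpg
      (fun Y hY => by rw [List.mem_singleton] at hY; rw [hY]; exact hms) F
      (fun c hc h1 h2 => (f1 c (List.mem_filter.2 ⟨List.mem_range.2 hc, tx_ins h1 h2⟩)).1)
      (fun Y hY => by
        rw [List.mem_singleton] at hY
        rw [hY]
        exact (Ars.red_Jr (by omega) F).trans f3) i e m0 hTru
    have hu0 := hu u0 le_rfl
    rw [hMe] at b1
    have hInv : D.Inv (D.nm.pn s) = PInv D.P D.G (D.nm.pn s) (D.hd (D.nm.pn s)) := by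
      unfold Sys.Inv
      rw [if_pos ho]
    have hmi := hM _ _ _ _ b1 (D.ga (D.nm.pn s)) (D.fo (D.nm.pn s)) (D.e (D.nm.pn s))
      (D.cn (D.nm.pn s)) b4 _ _ _ _ _ _ _ hrun
    have hz : PInv D.P D.G (D.nm.pn s) (D.hd (D.nm.pn s)) (D.Z (D.nm.pn s) u0) := by
      have := (hmi.1 u0).2.2.2.2.2
      rwa [hInv] at this
    have hopn : Txt.opn (D.P.Hd (D.hd (D.nm.pn s))) (D.Z (D.nm.pn s) u0).txt = none :=
      (hmi.2.2.2.1 u0).2.2.2.2.2.1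
    obtain ⟨zu, tu, c1, c2, c3⟩ := hB D.P hP D.G hD.lim (D.nm.pn s) ho (D.hd (D.nm.pn s)) _ _ _ _ _
      _ _ (hP.enum.mono i) (Rem.uu_pc hP e) hTru.1.1 hz hopn hu0
    exact ⟨_, _, _, zu, tu, hz.lab, c1, c2, c3⟩
  -- the path of the header
  have hoJ : D.nm.pn s ∉ kn D.P (D.Jb J) := fun h => hsJ (by rw [← hpt]; exact (mem_knJ.1 h).2)
  obtain ⟨g, g1, g2⟩ : O (D.nm.pn s) ∈ Up (PathsT (D.P.Hd (D.hd (D.nm.pn s)))) := by
    rw [← hD.hdp _ ho]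
    exact Or.inl ⟨O (D.nm.pn s), mem_O hR hD ho (hO2 _ ho), Red.rfl⟩
  have hfin := Rem.remP (P := D.P) (G := D.G) (V := D.V) (O := O) (H := D.Hn H) hP
    (a := bitN (fun c => D.nm.pt c ∈ insert s J) D.P.p) (s := D.nm.pn s)
    (hd := D.hd (D.nm.pn s)) ho hJs i1 i2 i3 i5 hO2 hO1 hN (g := g) g1 (Z := D.XO O J H)
    (g2.trans (Rem.red_O ho hoJ)) (fun l hl h => Rem.red_O hl fun h1 => h ?_)
    (fun c hc h => Rem.red_V (tx_ins hc h)) (e := Nat.pair e 0 + 1 + 1) ?_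
  · rw [he]
    exact hfin
  · rw [Rem.mem_kn_rmv, ← hJa, mem_knJ]
    refine ⟨⟨hl, Or.inr (mem_knJ.1 h1).2⟩, ?_⟩
    rintro rfl
    exact hoJ h1
  · rw [he] at hX
    exact hX

end Pool.Agent.Lib.MP_d48993_lc.Asm
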