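import Pool.Agent.Lib.MP_d48993_lc.AE.Rig.Sysx

/-!
# Module SYS: systems exist (assembly)
-/

set_option autoImplicit false

namespace Pool.Agent.Lib.MP_d48993_lc.Asm

open MP_8c048d_lc (pre join RecF Cop)
open Gr (Par BB AA Gph Lim4 Eff Ps Tx Mem)
open Ars (Ar Jr)
open Ind2 (Sg J Gen Crt Jn)
open Tup (TruE IndD)
open Bound (IsC Good UCF)
open Real (Kn EE FF IsSh Le Cl Full PM Pat Xc)

/-- Module SYS. -/
theorem sys_proof (hPar : ParBStatement) (hNum : NumStatement) (hLim : Gr.Lim4Statement)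
    (hInd : Ind2.StIND) (hT : Txt.StTARI) (hL : LlsStatement) (hMb : MembStatement)
    (hK : KlvStatement) (hTcg : TcgStatement) (hP : Txt.StPTM) (hS : Txt.StSTM)
    (hM : Txt.StMSH) (hR : Txt.StMRUN) (hCls : Gr.ClsStatement) : SysStatement := by
  classical
  intro rr B hB hne hbin hz Ω _ _ _ U hU
  obtain ⟨p, q, nm, la, gp, hp, hla, hgp, hkn⟩ := hNum Ω U hU
  obtain ⟨P, hp', hq', hPB⟩ := hPar B hB hne hbin hz p q hp
  subst hp'
  subst hq'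
  obtain ⟨G, hG, hE⟩ := hLim P hPB.ok
  obtain ⟨r1, hr1⟩ := hT P hPB.ok G hG hE
  obtain ⟨r2, hr2⟩ := hL P hPB.ok G hG hE
  obtain ⟨r3, a, ha, haZ⟩ := hMb P hPB.ok
  obtain ⟨r, hr⟩ : ∃ r, r = rr P G + r1 + r2 + r3 := ⟨_, rfl⟩
  obtain ⟨K, kk, rk, k1, k2, k3, k4⟩ := hK P.p P.q r (Nat.card Ω) (KKl U la nm) gp
    (fun o => (nm.sh (o - P.p)).1.ncard) (laC la nm) hkn (fun i _ _ => Set.ncard_le_card _)
  obtain ⟨X, x, Y, ρ, f, θ, hI⟩ := Tup.indD_of hInd (P.p + P.q) K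
  have hga : ∀ o, ∃ γ : List ℕ → ℕ, o < P.p + P.q → Computable γ ∧
      (∀ σ τ, σ <+: τ → γ σ ≤ γ τ) ∧ Crt γ (Jn X (KKl U la nm o) (kk o)) := by
    intro o
    by_cases ho : o < P.p + P.q
    · obtain ⟨γ, h1, h2, h3⟩ := hI.cert (I := KKl U la nm o) (hkn.lt o ho)
        (k := kk o) (by have := (k1 o ho).2; omega)
      exact ⟨γ, fun _ => ⟨h1, h2, h3⟩⟩
    · exact ⟨fun _ => 0, fun h => (ho h).elim⟩
  choose ga hga using hga
  let D : Sys Ω :=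
    { U := U, P := P, G := G, nm := nm, la := la, K := K, r := r, X := X, x := x, Y := Y, ρ := ρ,
      f := f, θ := θ, kk := kk, ga := ga, a := a, hd := fun _ => 0, lam := fun _ _ => false,
      A := fun _ _ => 0, R := fun _ _ => default, C := fun _ _ => default,
      Q := fun _ _ => default, S := fun _ _ => default, Z := fun _ _ => default,
      V := fun _ _ => 0 }
  have hD : D.Pre B :=
    ⟨hU, hPB, hG, hE, hla, ⟨gp, hgp, hkn⟩, hI, k1, k2, hga, ha,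
      haZ.trans (Sbas.Z_mono (show r3 ≤ r by omega)),
      fun Y' hY => hr1 Y' ((Sbas.Z_mono (show r1 ≤ r by omega)).trans hY)⟩
  obtain ⟨W, hW⟩ := hD.exists_objects hP hS hM hR hTcg hCls hB
    (fun s V F h => Sg.red (Ars.red_Jr (show r2 ≤ r by omega) F) (hr2 Ω U nm s V F h)) k3 k4
  refine ⟨D.wth W, rfl, ⟨hU, hPB, hG, hE, hla, ⟨gp, hgp, hkn⟩, hI, k1, k2, hga, ha,
    hD.aZ, fun s hs => ?_, fun R m h => ?_, fun s hs => ?_, fun s hs => ?_,
    fun o ho => (hW o ho).2.2⟩, ?_⟩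
  · exact ((hW s (lt_of_lt_of_le hs (Nat.le_add_right _ _))).1 hs).1
  · obtain ⟨h1, h2⟩ := nm.snt _ h
    have h3 := (hW (P.p + nm.sn (R, m)) (Nat.add_lt_add_left h2 _)).2.1 (Nat.le_add_right _ _)
    refine Eq.trans ?_ h3
    show (D.wth W).MR R = (D.wth W).MR (nm.sh (P.p + nm.sn (R, m) - P.p)).1
    rw [Nat.add_sub_cancel_left, h1]
  · have h1 := (hW s (lt_of_lt_of_le hs (Nat.le_add_right _ _))).1 hs
    exact ⟨h1.2.1, h1.2.2.1⟩
  · exact ((hW s (lt_of_lt_of_le hs (Nat.le_add_right _ _))).1 hs).2.2.2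
  · show rr P G ≤ r
    omega

end Pool.Agent.Lib.MP_d48993_lc.Asm
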