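import Pool.Agent.Lib.MP_d48993_lc.AE.Rig.Pmach
import Pool.Agent.Lib.MP_d48993_lc.AE.Rig.TariC
import Pool.Agent.Lib.MP_d48993_lc.AE.Gr.CalcB
import Pool.Agent.Lib.MP_d48993_lc.AE.Gr.BlkS
import Pool.Agent.Lib.MP_d48993_lc.AE.Gr.LimDa1

/-!
# Part T (MP_d48993), module TARI: the machines of the points and of the shares are recursive in a
fixed jump of `0`
-/

set_option autoImplicit false
set_option synthInstance.maxSize 20000
set_option linter.unusedSectionVars false
set_option linter.unusedVariables false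

namespace Pool.Agent.Lib.MP_d48993_lc.Txt.Ta

open MP_8c048d_lc (pre join RecF Cop)
open Ind2 (Sg J Gen Crt)
open Rem (SgF)
open Gr (Par Gph Lim4 Eff CG Con1 Itm IsItm Ends code0 Facts star JJ Fol BB AA Reg Lg Rise At Link blk
  fst HT LT)
open Node (Cnd3 CLe CV endd Data St ow o)
open Encodable (encode decode)

variable {α β γ : Type} [Primcodable α] [Primcodable β] [Primcodable γ]

theorem LP.ofCop {p : α → Prop} (h : Cop (fun (a : α) (_ : ℕ → ℕ) => p a)) : LP p := Ars.Ar.ofCop h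

/-! ## Strings, texts, levels -/

theorem lf_end {f : α → List ℕ} (hf : LF f) : LF (fun a => endd o (f a)) :=
  lf_comp (LF.of (Gr.Calc.comp_endd Node.codes (Computable.const o) Computable.id)) hf

theorem lf_len {f : α → List β} (hf : LF f) : LF (fun a => (f a).length) :=
  lf_comp (LF.of Computable.list_length) hf

theorem lf_add {f g : α → ℕ} (hf : LF f) (hg : LF g) : LF (fun a => f a + g a) :=
  lf_comp (g := fun x : ℕ × ℕ => x.1 + x.2) (LF.of Primrec.nat_add.to_comp) (lf_pair hf hg)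

theorem lf_sub {f g : α → ℕ} (hf : LF f) (hg : LF g) : LF (fun a => f a - g a) :=
  lf_comp (g := fun x : ℕ × ℕ => x.1 - x.2) (LF.of Primrec.nat_sub.to_comp) (lf_pair hf hg)

theorem lf_max {f g : α → ℕ} (hf : LF f) (hg : LF g) : LF (fun a => max (f a) (g a)) :=
  lf_comp (g := fun x : ℕ × ℕ => max x.1 x.2) (LF.of Primrec.nat_max.to_comp) (lf_pair hf hg)

theorem lf_app {f g : α → List β} (hf : LF f) (hg : LF g) : LF (fun a => f a ++ g a) :=
  lf_comp (g := fun x : List β × List β => x.1 ++ x.2) (LF.of Primrec.list_append.to_comp)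
    (lf_pair hf hg)

theorem lf_cons {f : α → β} {g : α → List β} (hf : LF f) (hg : LF g) : LF (fun a => f a :: g a) :=
  lf_comp (g := fun x : β × List β => x.1 :: x.2) (LF.of Primrec.list_cons.to_comp)
    (lf_pair hf hg)

theorem lf_head {f : α → List β} (hf : LF f) : LF (fun a => (f a).head?) :=
  lf_comp (LF.of Primrec.list_head?.to_comp) hf

theorem lf_some {f : α → β} (hf : LF f) : LF (fun a => some (f a)) :=
  lf_comp (LF.of Computable.option_some) hf

theorem lf_enc {f : α → β} (hf : LF f) : LF (fun a => encode (f a)) :=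
  lf_comp (LF.of Computable.encode) hf

theorem lf_ow {z : α → St} {i : α → ℕ} (hz : LF z) (hi : LF i) : LF (fun a => ow (z a) (i a)) :=
  lf_pair (lf_fst hz) (lf_app (lf_snd hz) (lf_cons hi (lf_const [])))

theorem lp_at {z : α → St} {c : α → Cnd3} (hz : LF z) (hc : LF c) : LP (fun a => At (z a) (c a)) :=
  (LP.ofCop (p := fun x : St × Cnd3 => At x.1 x.2)
    (Gr.Calc.cop_at Node.codes Computable.fst Computable.snd)).subst (f := fun a => (z a, c a))
    (lf_pair hz hc)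

theorem lp_rise {x v : α → St} (hx : LF x) (hv : LF v) : LP (fun a => Rise (x a) (v a)) :=
  (LP.ofCop (p := fun x : St × St => Rise x.1 x.2)
    (Gr.Calc.cop_rise Computable.fst Computable.snd)).subst (f := fun a => (x a, v a))
    (lf_pair hx hv)

theorem lp_lg {x v : α → St} (hx : LF x) (hv : LF v) : LP (fun a => Lg (x a) (v a)) :=
  (LP.ofCop (p := fun x : St × St => Lg x.1 x.2)
    (Gr.Calc.cop_lg Computable.fst Computable.snd)).subst (f := fun a => (x a, v a))
    (lf_pair hx hv)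

section

variable {P : Par} (hP : P.Ok)
include hP

theorem lf_blk {t : α → ℕ} (ht : LF t) : LF (fun a => blk P.p (t a)) := by
  have h := (Gr.blkS P.p hP.pos).2.2.2.2.2.2.2.2.1
  exact lf_comp (g := fun x : ℕ × ℕ => blk x.1 x.2) (LF.of h) (lf_pair (lf_const P.p) ht)

theorem lf_fst' {t : α → ℕ} (ht : LF t) : LF (fun a => fst P.p (t a)) := by
  have h := (Gr.blkS P.p hP.pos).2.2.2.2.2.2.2.2.2
  exact lf_comp (g := fun x : ℕ × ℕ => fst x.1 x.2) (LF.of h) (lf_pair (lf_const P.p) ht)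

theorem lf_lst {t : α → ℕ} (ht : LF t) : LF (fun a => Gr.lst P.p (t a)) := by
  unfold Gr.lst
  exact lf_sub (lf_fst' hP (lf_add ht (lf_const 1))) (lf_const 1)

theorem lp_link {t : α → ℕ} {x y : α → St} (ht : LF t) (hx : LF x) (hy : LF y) :
    LP (fun a => Link P (t a) (x a) (y a)) :=
  (LP.of (Gr.Dec.da1 P hP).link).subst (f := fun a => (t a, x a, y a))
    (lf_pair ht (lf_pair hx hy))

theorem lp_leg {h : α → ℕ} {w : α → List ℕ} (hh : LF h) (hw : LF w) :
    LP (fun a => Leg (P.Hd (h a)) (w a)) :=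
  (LP.ofCop (p := fun x : ℕ × List ℕ => Leg (P.Hd x.1) x.2)
    (Gr.Calc.cop_leg (T := P.Hd) hP.hdc Computable.fst Computable.snd)).subst
    (f := fun a => (h a, w a)) (lf_pair hh hw)

theorem lp_le {h k : α → ℕ} {w w' : α → List ℕ} (hh : LF h) (hk : LF k) (hw : LF w)
    (hw' : LF w') : LP (fun a => Le (P.Hd (h a)) (k a) (w a) (w' a)) :=
  (LP.ofCop (p := fun x : ℕ × ℕ × List ℕ × List ℕ => Le (P.Hd x.1) x.2.1 x.2.2.1 x.2.2.2)
    (Gr.Calc.cop_le' (T := P.Hd) hP.hdc Computable.fst (Computable.fst.comp Computable.snd)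
      (Computable.fst.comp (Computable.snd.comp Computable.snd))
      (Computable.snd.comp (Computable.snd.comp Computable.snd)))).subst
    (f := fun a => (h a, k a, w a, w' a)) (lf_pair hh (lf_pair hk (lf_pair hw hw')))

theorem lf_ht {h : α → ℕ} {w : α → List ℕ} (hh : LF h) (hw : LF w) :
    LF (fun a => ht (P.Hd (h a)) (w a)) :=
  lf_comp (g := fun x : ℕ × List ℕ => ht (P.Hd x.1) x.2)
    (f := fun a => (h a, w a))
    (LF.of (Gr.Calc.comp_ht (T := P.Hd) hP.hdc Computable.fst Computable.snd)) (lf_pair hh hw)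

theorem lp_te {E : α → List ℕ} {σ : α → List ℕ} (hE : LF E) (hσ : LF σ) :
    LP (fun a => TE P.Tr (E a) (σ a)) := by
  refine ((LP.of (Node.Limit.tt_comp hP.trc)).subst (f := fun a => (encode (E a), σ a))
    (lf_pair (lf_enc hE) hσ)).congr fun a => ?_
  simp only [Node.Limit.TT, Node.Limit.dl_encode]

theorem lp_cv {d : α → Data} {E : α → List ℕ} {c : α → Cnd3} (hd : LF d) (hE : LF E) (hc : LF c) :
    LP (fun a => CV (d a).W (TE P.Tr (E a)) (c a)) :=
  (LP.of (Gr.Dec.da1 P hP).cv).subst (f := fun a => (d a, ((0, 0, E a, ([], [])) : Itm), c a))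
    (lf_pair hd (lf_pair (lf_pair (lf_const 0) (lf_pair (lf_const 0) (lf_pair hE
      (lf_const ([], []))))) hc))

theorem lp_cle {E : α → List ℕ} {b c : α → Cnd3} (hE : LF E) (hb : LF b) (hc : LF c) :
    LP (fun a => CLe (TE P.Tr (E a)) (b a) (c a)) :=
  (LP.of (Gr.Dec.da1 P hP).cle).subst (f := fun a => (((0, 0, E a, ([], [])) : Itm), b a, c a))
    (lf_pair (lf_pair (lf_const 0) (lf_pair (lf_const 0) (lf_pair hE
      (lf_const ([], []))))) (lf_pair hb hc))

theorem lf_res {E : α → List ℕ} {c : α → Cnd3} (hE : LF E) (hc : LF c) :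
    LF (fun a => Gr.res (TE P.Tr (E a)) (c a)) := by
  have h1 := LF.filter (p := fun a (e : List ℕ × List ℕ × List ℕ) => TE P.Tr (E a) e.1)
    (inst := fun a e => Classical.decPred (TE P.Tr (E a)) e.1) (l := fun a => (c a).2)
    (lp_te hP (lf_comp hE (lf_fst lf_id)) (lf_fst (lf_snd lf_id))) (lf_snd hc)
  exact (lf_pair (lf_fst hc) h1).congr fun a => rfl

end

/-! ## The graph -/

section graph

variable {P : Par} (hP : P.Ok) {G : Gph} {s : ℕ} (hd : LF (fun t => G.d t s))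
  (hu : LF (fun t => G.u t s)) (hst : LF (fun x : ℕ × Itm => star P G x.1 x.2))
include hP hu

theorem lf_u {f : α → ℕ} (hf : LF f) : LF (fun a => G.u (f a) s) := lf_comp hu hf

theorem lp_reg {σ : α → List ℕ} (hσ : LF σ) : LP (fun a => Reg P (fun t => G.u t s) (σ a)) := by
  refine LP.subst (p := fun σ => Reg P (fun t => G.u t s) σ) ?_ hσ
  have h1 : LP (fun σ : List ℕ => ∀ t, G.u t s ≤ (endd o σ).1 → ∃ ν, ν <+: σ ∧
      (endd o ν).1 = G.u t s) := by
    refine LP.all (LP.imp (LP.le (lf_u hP hu (by fun_prop)) (lf_fst (lf_end (by fun_prop))))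
      (LP.ex (LP.and (LP.pfx (by fun_prop) (by fun_prop)) (LP.eq (lf_fst (lf_end (by fun_prop)))
        (lf_u hP hu (by fun_prop))))))
  have h2 : LP (fun σ : List ℕ => ∀ t ν, ν <+: σ → (endd o ν).1 = G.u t s →
      1 ≤ (endd o ν).2.length ∧ (endd o ν).2.length ≤ blk P.p t) := by
    refine LP.all (LP.all (LP.imp (LP.pfx (by fun_prop) (by fun_prop)) (LP.imp
      (LP.eq (lf_fst (lf_end (by fun_prop))) (lf_u hP hu (by fun_prop))) (LP.and
      (LP.le (by fun_prop) (lf_len (lf_snd (lf_end (by fun_prop)))))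
      (LP.le (lf_len (lf_snd (lf_end (by fun_prop)))) (lf_blk hP (by fun_prop)))))))
  have h3 : LP (fun σ : List ℕ => ∀ t ν ν', ν <+: σ → ν' <+: σ → (endd o ν).1 = G.u t s →
      (endd o ν').1 = G.u (t + 1) s → Link P t (endd o ν) (endd o ν')) := by
    refine LP.all (LP.all (LP.all (LP.imp (LP.pfx (by fun_prop) (by fun_prop)) (LP.imp
      (LP.pfx (by fun_prop) (by fun_prop)) (LP.imp
      (LP.eq (lf_fst (lf_end (by fun_prop))) (lf_u hP hu (by fun_prop))) (LP.imp
      (LP.eq (lf_fst (lf_end (by fun_prop))) (lf_u hP hu (lf_add (by fun_prop) (lf_const 1))))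
      (lp_link hP (by fun_prop) (lf_end (by fun_prop)) (lf_end (by fun_prop)))))))))
  have h4 : LP (fun σ : List ℕ => ∀ t ν ν', ν <+: ν' → ν' <+: σ → (endd o ν).1 = G.u t s →
      (endd o ν').1 < G.u (t + 1) s → Lg (endd o ν) (endd o ν')) := by
    refine LP.all (LP.all (LP.all (LP.imp (LP.pfx (by fun_prop) (by fun_prop)) (LP.imp
      (LP.pfx (by fun_prop) (by fun_prop)) (LP.imp
      (LP.eq (lf_fst (lf_end (by fun_prop))) (lf_u hP hu (by fun_prop))) (LP.imp
      (LP.lt (lf_fst (lf_end (by fun_prop))) (lf_u hP hu (lf_add (by fun_prop) (lf_const 1))))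
      (lp_lg (lf_end (by fun_prop)) (lf_end (by fun_prop)))))))))
  exact (h1.and (h2.and (h3.and h4))).congr fun σ =>
    ⟨fun h => ⟨h.1, h.2.1, h.2.2.1, h.2.2.2⟩, fun h => ⟨h.1, h.2, h.3, h.4⟩⟩

include hd in
theorem lp_cg {h n : α → ℕ} {E : α → List ℕ} {c : α → Cnd3} (hh : LF h) (hn : LF n) (hE : LF E)
    (hc : LF c) : LP (fun a => CG P G s (P.Hd (h a)) (n a) (E a) (c a)) := by
  have h1 : LP (fun a => Leg (P.Hd (h a)) (c a).1) := lp_leg hP hh (lf_fst hc)
  have h2 : LP (fun a => CV (G.d (fst P.p (n a)) s).W (TE P.Tr (E a)) (c a)) :=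
    lp_cv hP (lf_comp (g := fun t => G.d t s) hd (lf_fst' hP hn)) hE hc
  have h3 : LP (fun a => ∃ z : St, z.1 = G.u (fst P.p (n a) - 1) s ∧ 1 ≤ z.2.length ∧
      At z (c a)) := by
    refine LP.ex (LP.and (LP.eq (by fun_prop) (lf_u hP hu (lf_sub (lf_fst' hP (by fun_prop))
      (lf_const 1)))) (LP.and (LP.le (lf_const 1) (lf_len (by fun_prop)))
      (lp_at (by fun_prop) (by fun_prop))))
  have h4 : LP (fun a => ∀ e ∈ (c a).2, Reg P (fun t => G.u t s) e.2.2) :=
    LP.allMem (lf_snd hc) (lp_reg hP hu (by fun_prop))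
  exact (h1.and (h2.and (h3.and h4))).congr fun σ =>
    ⟨fun h => ⟨h.1, h.2.1, h.2.2.1, h.2.2.2⟩, fun h => ⟨h.1, h.2, h.3, h.4⟩⟩

/-- The states of a coned extension, from a finite list. -/
theorem con_iff (T : List ℕ → Prop) (n n' : ℕ) (c c' : Cnd3) : Gr.Con P G s T n n' c c' ↔
    CLe T c c' ∧ ∃ L : List (List ℕ),
      At (G.u (Gr.lst P.p (n - 1)) s, (L[Gr.lst P.p (n - 1)]?).getD []) c ∧
      At (G.u (Gr.lst P.p (n' - 1)) s, (L[Gr.lst P.p (n' - 1)]?).getD []) c' ∧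
      (∀ t, Gr.lst P.p (n - 1) ≤ t → t < Gr.lst P.p (n' - 1) →
        Link P t (G.u t s, (L[t]?).getD []) (G.u (t + 1) s, (L[t + 1]?).getD [])) ∧
      ∀ e ∈ c'.2, ∀ t, Gr.lst P.p (n - 1) < t → t ≤ Gr.lst P.p (n' - 1) →
        ∃ ν i, ν <+: e.2.2 ∧ 1 ≤ i ∧ endd o ν = ow (G.u t s, (L[t]?).getD []) i := by
  constructor
  · rintro ⟨h1, Z, h2, h3, h4, h5, h6⟩
    refine ⟨h1, (List.range (max (Gr.lst P.p (n - 1)) (Gr.lst P.p (n' - 1)) + 1)).map
      (fun t => (Z t).2), ?_⟩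
    have key : ∀ t, t ≤ max (Gr.lst P.p (n - 1)) (Gr.lst P.p (n' - 1)) → ((G.u t s, (((List.range
        (max (Gr.lst P.p (n - 1)) (Gr.lst P.p (n' - 1)) + 1)).map (fun t => (Z t).2))[t]?).getD []) :
        St) = Z t := by
      intro t ht
      rw [List.getElem?_map, List.getElem?_range (by omega)]
      exact Prod.ext (h2 t).symm rfl
    refine ⟨?_, ?_, ?_, ?_⟩
    · rw [key _ (le_max_left _ _)]; exact h3
    · rw [key _ (le_max_right _ _)]; exact h4
    · intro t a b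
      rw [key t (by omega), key (t + 1) (by omega)]; exact h5 t a b
    · intro e he t a b
      rw [key t (by omega)]; exact h6 e he t a b
  · rintro ⟨h1, L, h3, h4, h5, h6⟩
    exact ⟨h1, fun t => (G.u t s, (L[t]?).getD []), fun t => rfl, h3, h4, h5, h6⟩

theorem lf_zl {L : α → List (List ℕ)} {t : α → ℕ} (hL : LF L) (ht : LF t) :
    LF (fun a => ((G.u (t a) s, ((L a)[t a]?).getD []) : St)) := by
  have h1 : Computable (fun x : List (List ℕ) × ℕ => (x.1[x.2]?).getD []) :=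
    Computable.option_getD (Computable.list_getElem?.comp Computable.fst Computable.snd)
      (Computable.const [])
  exact lf_pair (lf_u hP hu ht) (lf_comp (LF.of h1) (lf_pair hL ht))

theorem lp_con {E : α → List ℕ} {n n' : α → ℕ} {c c' : α → Cnd3} (hE : LF E) (hn : LF n)
    (hn' : LF n') (hc : LF c) (hc' : LF c') :
    LP (fun a => Gr.Con P G s (TE P.Tr (E a)) (n a) (n' a) (c a) (c' a)) := by
  refine LP.congr ?_ fun a => (con_iff hP hu _ _ _ _ _).symm
  have l1 : ∀ {δ : Type} [Primcodable δ] {f : δ → α}, LF f →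
      LF (fun x => Gr.lst P.p (n (f x) - 1)) := fun hf =>
    lf_lst hP (lf_sub (lf_comp hn hf) (lf_const 1))
  have l2 : ∀ {δ : Type} [Primcodable δ] {f : δ → α}, LF f →
      LF (fun x => Gr.lst P.p (n' (f x) - 1)) := fun hf =>
    lf_lst hP (lf_sub (lf_comp hn' hf) (lf_const 1))
  refine LP.and (lp_cle hP hE hc hc') (LP.ex (LP.and ?_ (LP.and ?_ (LP.and ?_ ?_))))
  · exact lp_at (lf_zl hP hu (by fun_prop) (l1 (by fun_prop))) (by fun_prop)
  · exact lp_at (lf_zl hP hu (by fun_prop) (l2 (by fun_prop))) (by fun_prop)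
  · exact LP.all (LP.imp (LP.le (l1 (by fun_prop)) (by fun_prop)) (LP.imp
      (LP.lt (by fun_prop) (l2 (by fun_prop)))
      (lp_link hP (by fun_prop) (lf_zl hP hu (by fun_prop) (by fun_prop))
        (lf_zl hP hu (by fun_prop) (lf_add (by fun_prop) (lf_const 1))))))
  · refine LP.allMem (by fun_prop) (LP.all (LP.imp (LP.lt (l1 (by fun_prop)) (by fun_prop))
      (LP.imp (LP.le (by fun_prop) (l2 (by fun_prop))) (LP.ex (LP.ex (LP.and
        (LP.pfx (by fun_prop) (by fun_prop)) (LP.and (LP.le (by fun_prop) (by fun_prop))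
        (LP.eq (lf_end (by fun_prop)) (lf_ow (lf_zl hP hu (by fun_prop) (by fun_prop))
          (by fun_prop))))))))))

theorem lp_con1 {E : α → List ℕ} {n n' : α → ℕ} {c c' : α → Cnd3} (hE : LF E) (hn : LF n)
    (hn' : LF n') (hc : LF c) (hc' : LF c') :
    LP (fun a => Con1 P G s (TE P.Tr (E a)) (n a) (n' a) (c a) (c' a)) := by
  have h1 := lp_con hP hu hE hn hn' hc hc'
  have h2 : LP (fun a => ∀ z : St, At z (c a) → ∀ e ∈ (c' a).2, ∀ ν, ν <+: e.2.2 →
      (endd o ν).1 = G.u (fst P.p (n a)) s → ∀ i, Rise (ow z i) (endd o ν)) := by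
    refine LP.all (LP.imp (lp_at (by fun_prop) (by fun_prop)) (LP.allMem (by fun_prop)
      (LP.all (LP.imp (LP.pfx (by fun_prop) (by fun_prop)) (LP.imp
        (LP.eq (lf_fst (lf_end (by fun_prop))) (lf_u hP hu (lf_fst' hP (by fun_prop))))
        (LP.all (lp_rise (lf_ow (by fun_prop) (by fun_prop)) (lf_end (by fun_prop)))))))))
  exact (h1.and h2).congr fun a => ⟨fun h => ⟨h.1, h.2⟩, fun h => ⟨h.1, h.2⟩⟩

end graph

/-! ## The steps of the machines -/

theorem comp_imgs : Computable imgs := by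
  unfold imgs
  exact (Primrec.list_map Primrec.snd ((Primrec.fst.comp Primrec.snd).pair
    (Primrec.fst.comp (Primrec.snd.comp Primrec.snd))).to₂).to_comp

theorem lf_imgs {c : α → Cnd3} (hc : LF c) : LF (fun a => imgs (c a)) :=
  lf_comp (LF.of comp_imgs) hc

theorem lf_csz {col h : α → ℕ} {r : α → St3} {x : α → List ℕ} (hcol : LF col) (hh : LF h)
    (hr : LF r) (hx : LF x) : LF (fun a => csz (col a) (h a) (r a) (x a)) := by
  show LF (fun a => encode ((col a, h a), ((r a).2.1, (r a).2.2.1), (x a, imgs (r a).2.2)))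
  exact lf_enc (lf_pair (by fun_prop) (lf_pair (by fun_prop) (lf_pair hx (lf_imgs
    (by fun_prop)))))

theorem lf_nst {col h b : α → ℕ} {r : α → St3} {x : α → List ℕ} (hcol : LF col) (hh : LF h)
    (hr : LF r) (hx : LF x) (hb : LF b) : LF (fun a => nst (col a) (h a) (r a) (x a) (b a)) :=
  lf_max hb (lf_max (lf_fst hr) (lf_csz hcol hh hr hx))

theorem lf_mC {x : α → List ℕ} {n : α → ℕ} (hx : LF x) (hn : LF n) :
    LF (fun a => mC (x a) (n a)) := by
  have h : Computable (fun y : List ℕ × ℕ => mC y.1 y.2) := Primrec.to_comp prim_mC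
  exact lf_comp (g := fun y : List ℕ × ℕ => mC y.1 y.2) (f := fun a => (x a, n a)) (LF.of h)
    (lf_pair hx hn)

theorem lf_mR {k : α → ℕ} {q : α → List ℕ} (hk : LF k) (hq : LF q) :
    LF (fun a => mR (k a) (q a)) := by
  have h : Computable (fun y : ℕ × List ℕ => mR y.1 y.2) := Primrec.to_comp prim_mR
  exact lf_comp (g := fun y : ℕ × List ℕ => mR y.1 y.2) (f := fun a => (k a, q a)) (LF.of h)
    (lf_pair hk hq)

theorem lp_endsR {w : α → List ℕ} {k : α → ℕ} {q : α → List ℕ} (hw : LF w) (hk : LF k)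
    (hq : LF q) : LP (fun a => EndsR (w a) (k a) (q a)) := by
  unfold EndsR
  exact LP.ex (LP.eq (by fun_prop) (lf_app (by fun_prop) (lf_cons (lf_mR (by fun_prop)
    (by fun_prop)) (lf_const []))))

theorem lp_facts {l : α → List ℕ} (hl : LF l) : LP (fun a => Facts (l a)) := by
  unfold Facts
  exact LP.allMem hl (LP.ex (LP.ex (LP.and (LP.not (LP.eq (lf_head (by fun_prop))
    (lf_const (some 0)))) (LP.eq (by fun_prop) (lf_enc (by fun_prop))))))

theorem lf_tn {z : α → ℕ} (hz : LF z) : LF (fun a => tn (z a)) := by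
  refine lf_comp (g := tn) (LF.of ?_) hz
  have h : Primrec tn := Primrec.fst.comp (Primrec.unpair.comp (Primrec.nat_sub.comp Primrec.id
    (Primrec.const 1)))
  exact h.to_comp

theorem lp_fresh {r : α → St3} {e z : α → ℕ} (hr : LF r) (he : LF e) (hz : LF z) :
    LP (fun a => Fresh (r a) (e a) (z a)) := by
  unfold Fresh
  refine LP.and (LP.le (lf_const 1) hz) (LP.and (LP.eq (lf_tn hz) he) (LP.and (LP.not
    (LP.mem (f := fun a => (r a).2.1) (by fun_prop) hz)) (LP.allMem (f := fun a => (r a).2.2.1)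
    (by fun_prop) (LP.all (LP.all (LP.imp (LP.eq (by fun_prop) (lf_enc (by fun_prop))) (LP.not
    (LP.eq (lf_head (by fun_prop)) (lf_some (by fun_prop))))))))))

theorem g1n_iter (P : Par) (G : Gph) (s h : ℕ) (E : List ℕ) (k : ℕ) : ∀ (n : ℕ) (c : Cnd3),
    g1n P G s h E k n c =
      ((fun z : ℕ × Cnd3 => (z.1 + 1, g1 P G s h z.1 E z.2))^[k] (n, c)).2 := by
  induction k with
  | zero => intro n c; rfl
  | succ k ih =>
    intro n c
    rw [g1n, ih, Function.iterate_succ, Function.comp_apply]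

section steps

variable {P : Par} (hP : P.Ok) {G : Gph} {s : ℕ} (hf : LF (fun x : ℕ × Itm => G.fin x.1 x.2))

include hP hf in
theorem lf_star {n : α → ℕ} {I : α → Itm} (hn : LF n) (hI : LF I) :
    LF (fun a => star P G (n a) (I a)) :=
  lf_comp (g := fun x : ℕ × Itm => G.fin x.1 x.2) hf (lf_pair (lf_lst hP hn) hI)

variable (hd : LF (fun t => G.d t s)) (hu : LF (fun t => G.u t s))
include hP hd hu

theorem lf_g1 {h n : α → ℕ} {E : α → List ℕ} {c : α → Cnd3} (hh : LF h) (hn : LF n) (hE : LF E)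
    (hc : LF c) : LF (fun a => g1 P G s (h a) (n a) (E a) (c a)) := by
  unfold g1
  refine LF.lcode (P := fun a (c' : Cnd3) => c'.1 = (c a).1 ∧ imgs c' = imgs (c a) ∧
    CG P G s (P.Hd (h a)) (n a + 1) (E a) c' ∧
    Con1 P G s (TE P.Tr (E a)) (n a) (n a + 1) (c a) c') ?_ hc
  refine LP.and (LP.eq (by fun_prop) (by fun_prop)) (LP.and (LP.eq (lf_imgs (by fun_prop))
    (lf_imgs (by fun_prop))) (LP.and (lp_cg hP hd hu (by fun_prop) (lf_add (by fun_prop)
    (lf_const 1)) (by fun_prop) (by fun_prop)) (lp_con1 hP hu (by fun_prop) (by fun_prop)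
    (lf_add (by fun_prop) (lf_const 1)) (by fun_prop) (by fun_prop))))

theorem lf_g1n {h k n : α → ℕ} {E : α → List ℕ} {c : α → Cnd3} (hh : LF h) (hk : LF k)
    (hn : LF n) (hE : LF E) (hc : LF c) :
    LF (fun a => g1n P G s (h a) (E a) (k a) (n a) (c a)) := by
  have h1 := LF.iter (f := fun a (z : ℕ × Cnd3) => (z.1 + 1, g1 P G s (h a) z.1 (E a) z.2))
    (n := k) (x := fun a => (n a, c a)) (lf_pair (lf_add (by fun_prop) (lf_const 1))
      (lf_g1 hP hd hu (by fun_prop) (by fun_prop) (by fun_prop) (by fun_prop))) hk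
      (lf_pair hn hc)
  exact (lf_snd h1).congr fun a => (g1n_iter P G s (h a) (E a) (k a) (n a) (c a)).symm

theorem lf_pann : LF (fun x : ℕ × (St3 × List ℕ × ℕ) => pann P G s x.1 x.2) := by
  have hn : LF (fun x : ℕ × (St3 × List ℕ × ℕ) => nst s x.1 x.2.1 x.2.2.1 x.2.2.2) :=
    lf_nst (lf_const s) (by fun_prop) (by fun_prop) (by fun_prop) (by fun_prop)
  show LF (fun x : ℕ × (St3 × List ℕ × ℕ) => (nst s x.1 x.2.1 x.2.2.1 x.2.2.2, x.2.1.2.1,
    (x.2.1.2.2.1 ++ [mC x.2.2.1 (nst s x.1 x.2.1 x.2.2.1 x.2.2.2)],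
      (g1n P G s x.1 x.2.1.2.1 (nst s x.1 x.2.1 x.2.2.1 x.2.2.2 - x.2.1.1) x.2.1.1
        x.2.1.2.2).2)))
  refine lf_pair hn (lf_pair (by fun_prop) (lf_pair (lf_app (by fun_prop) (lf_cons
    (lf_mC (by fun_prop) hn) (lf_const []))) (lf_snd (lf_g1n hP hd hu (by fun_prop)
    (lf_sub hn (by fun_prop)) (by fun_prop) (by fun_prop) (by fun_prop)))))

include hf in
theorem lf_pstar : LF (fun x : ℕ × St3 => pstar P G s x.1 x.2) := by
  show LF (fun x : ℕ × St3 => if JJ x.2.1 s = true then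
    (x.2.1 + 2, x.2.2.1, g1 P G s x.1 (x.2.1 + 1) x.2.2.1 (star P G x.2.1
      (s, x.1, x.2.2.1, x.2.2.2))) else (x.2.1 + 1, x.2.2.1, g1 P G s x.1 x.2.1 x.2.2.1 x.2.2.2))
  refine LF.ite (LP.eq (lf_comp (g := fun n => JJ n s) (LF.of (Gr.Calc.comp_JJ' Computable.id
    (Computable.const s))) (by fun_prop)) (lf_const true)) ?_ ?_
  · exact lf_pair (lf_add (by fun_prop) (lf_const 2)) (lf_pair (by fun_prop)
      (lf_g1 hP hd hu (by fun_prop) (lf_add (by fun_prop) (lf_const 1)) (by fun_prop)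
      (lf_star hP hf (by fun_prop) (by fun_prop))))
  · exact lf_pair (lf_add (by fun_prop) (lf_const 1)) (lf_pair (by fun_prop)
      (lf_g1 hP hd hu (by fun_prop) (by fun_prop) (by fun_prop) (by fun_prop)))

theorem lf_add1 {h e : α → ℕ} {r : α → St3} (hh : LF h) (hr : LF r) (he : LF e) :
    LF (fun a => add1 P G s (h a) (r a) (e a)) := by
  classical
  refine LF.ite (c := fun a => (∃ z ∈ (r a).2.1, tn z = e a) ∨
    ¬ P.Tr (Nat.pair (e a) 0 + 1) []) ?_ hr ?_
  · refine LP.or (LP.exMem (by fun_prop) (LP.eq (lf_tn (by fun_prop)) (by fun_prop)))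
      (LP.not ?_)
    refine LP.subst (p := fun e : ℕ => P.Tr (Nat.pair e 0 + 1) []) ?_ he
    refine LP.subst (f := fun e : ℕ => (Nat.pair e 0 + 1, ([] : List ℕ))) (LP.of hP.trc) ?_
    exact lf_pair (lf_add (LF.of (Primrec₂.natPair.comp Primrec.id (Primrec.const 0)).to_comp)
      (lf_const 1)) (lf_const [])
  · refine LF.lcode (P := fun a (r' : St3) => r'.1 = (r a).1 + 1 ∧ ∃ z, Fresh (r a) (e a) z ∧
      r'.2.1 = z :: (r a).2.1 ∧ ∃ l, r'.2.2.1 = (r a).2.2.1 ++ l ∧ Facts l ∧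
      CG P G s (P.Hd (h a)) r'.1 r'.2.1 r'.2.2 ∧
      Con1 P G s (TE P.Tr (r a).2.1) (r a).1 r'.1 (r a).2.2
        (Gr.res (TE P.Tr (r a).2.1) r'.2.2) ∧
      ∃ e' ∈ r'.2.2.2, e'.1 = [z] ∧ encode (e'.1, e'.2.1) ∈ l) ?_ hr
    refine LP.and (LP.eq (by fun_prop) (lf_add (by fun_prop) (lf_const 1))) (LP.ex (LP.and
      (lp_fresh (by fun_prop) (by fun_prop) (by fun_prop)) (LP.and (LP.eq (by fun_prop)
      (lf_cons (by fun_prop) (by fun_prop))) (LP.ex (LP.and (LP.eq (by fun_prop)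
      (lf_app (by fun_prop) (by fun_prop))) (LP.and (lp_facts (by fun_prop)) (LP.and
      (lp_cg hP hd hu (by fun_prop) (by fun_prop) (by fun_prop) (by fun_prop)) (LP.and
      (lp_con1 hP hu (by fun_prop) (by fun_prop) (by fun_prop) (by fun_prop)
        (lf_res hP (by fun_prop) (by fun_prop))) (LP.exMem (by fun_prop) (LP.and
      (LP.eq (by fun_prop) (lf_cons (by fun_prop) (lf_const []))) (LP.mem (by fun_prop)
      (lf_enc (by fun_prop)))))))))))))

theorem lf_g3 {h : α → ℕ} {r : α → St3} (hh : LF h) (hr : LF r) :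
    LF (fun a => g3 P G s (h a) (r a)) := by
  refine LF.lcode (P := fun a (r' : St3) => r'.1 = (r a).1 + 1 ∧ r'.2.1 = (r a).2.1 ∧
    ∃ l, r'.2.2.1 = (r a).2.2.1 ++ l ∧ Facts l ∧ CG P G s (P.Hd (h a)) r'.1 r'.2.1 r'.2.2 ∧
      Con1 P G s (TE P.Tr (r a).2.1) (r a).1 r'.1 (r a).2.2 r'.2.2 ∧
      (∀ e ∈ (r a).2.2.2, e.1 ≠ [] → ∀ k, TE P.Tr (r a).2.1 (e.1 ++ [k]) →
        ∃ e' ∈ r'.2.2.2, e'.1 = e.1 ++ [k]) ∧
      ∀ e' ∈ r'.2.2.2, e'.1 = [] ∨ encode (e'.1, e'.2.1) ∈ l) ?_ hr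
  refine LP.and (LP.eq (by fun_prop) (lf_add (by fun_prop) (lf_const 1))) (LP.and (LP.eq
    (by fun_prop) (by fun_prop)) (LP.ex (LP.and (LP.eq (by fun_prop) (lf_app (by fun_prop)
    (by fun_prop))) (LP.and (lp_facts (by fun_prop)) (LP.and (lp_cg hP hd hu (by fun_prop)
    (by fun_prop) (by fun_prop) (by fun_prop)) (LP.and (lp_con1 hP hu (by fun_prop)
    (by fun_prop) (by fun_prop) (by fun_prop) (by fun_prop)) (LP.and ?_ ?_)))))))
  · refine LP.allMem (by fun_prop) (LP.imp (LP.not (LP.eq (by fun_prop) (lf_const [])))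
      (LP.all (LP.imp (lp_te hP (by fun_prop) (lf_app (by fun_prop) (lf_cons (by fun_prop)
      (lf_const [])))) (LP.exMem (by fun_prop) (LP.eq (by fun_prop) (lf_app (by fun_prop)
      (lf_cons (by fun_prop) (lf_const []))))))))
  · exact LP.allMem (by fun_prop) (LP.or (LP.eq (by fun_prop) (lf_const [])) (LP.mem
      (by fun_prop) (lf_enc (by fun_prop))))

theorem lf_pgrow : LF (fun x : ℕ × St3 × List ℕ => pgrow P G s x.1 x.2.1 x.2.2) := by
  unfold pgrow
  exact lf_g3 hP hd hu (by fun_prop) (LF.foldl (f := fun (x : ℕ × St3 × List ℕ) (r : St3)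
    (e : ℕ) => add1 P G s x.1 r e) (l := fun x => x.2.2) (x := fun x => x.2.1)
    (lf_add1 hP hd hu (by fun_prop) (by fun_prop) (by fun_prop)) (by fun_prop) (by fun_prop))

theorem lp_PF {h : α → ℕ} {z k : α → St3} (hh : LF h) (hz : LF z) (hk : LF k) :
    LP (fun a => PF P G s (h a) (z a) (k a)) := by
  have h1 : LP (fun a => (k a).2.1 = (z a).2.1 ∧ (z a).1 ≤ (k a).1 ∧
      CG P G s (P.Hd (h a)) (k a).1 (k a).2.1 (k a).2.2 ∧
      Gr.Con P G s (TE P.Tr (z a).2.1) (z a).1 (k a).1 (z a).2.2 (k a).2.2 ∧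
      Le (P.Hd (h a)) (ht (P.Hd (h a)) (z a).2.2.1) (z a).2.2.1 (k a).2.2.1 ∧
      ∃ p, EndsR (k a).2.2.1 (ht (P.Hd (h a)) (z a).2.2.1) p) := by
    refine LP.and (LP.eq (by fun_prop) (by fun_prop)) (LP.and (LP.le (by fun_prop)
      (by fun_prop)) (LP.and (lp_cg hP hd hu (by fun_prop) (by fun_prop) (by fun_prop)
      (by fun_prop)) (LP.and (lp_con hP hu (by fun_prop) (by fun_prop) (by fun_prop)
      (by fun_prop) (by fun_prop)) (LP.and (lp_le hP (by fun_prop) (lf_ht hP (by fun_prop)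
      (by fun_prop)) (by fun_prop) (by fun_prop)) (LP.ex (lp_endsR (by fun_prop)
      (lf_ht hP (by fun_prop) (by fun_prop)) (by fun_prop)))))))
  exact h1.congr fun a => ⟨fun h => ⟨h.1, h.2.1, h.2.2.1, h.2.2.2.1, h.2.2.2.2.1, h.2.2.2.2.2⟩,
    fun h => ⟨h.1, h.2, h.3, h.4, h.5, h.6⟩⟩

theorem lf_pcom : LF (fun x : ℕ × (St3 × ℕ) => pcom P G s x.1 x.2) := by
  classical
  have h1 : LF (fun x : ℕ × (St3 × ℕ) => (decode (α := St3) x.2.2).getD x.2.1) :=
    LF.of (Computable.option_getD (Computable.decode.comp (Computable.snd.comp Computable.snd))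
      (Computable.fst.comp Computable.snd))
  exact LF.ite (lp_PF hP hd hu (by fun_prop) (by fun_prop) h1) h1 (by fun_prop)

end steps

/-! ## Shares -/

section shares

variable {P : Par} (hP : P.Ok) {G : Gph} (hf : LF (fun x : ℕ × Itm => G.fin x.1 x.2))

theorem lf_sann : LF (fun x : (ℕ × ℕ) × (St3 × List ℕ × ℕ) =>
    (shM P G x.1.1 x.1.2).ann x.2) := by
  have hn : LF (fun x : (ℕ × ℕ) × (St3 × List ℕ × ℕ) =>
      nst x.1.2 x.1.1 x.2.1 x.2.2.1 x.2.2.2) :=
    lf_nst (by fun_prop) (by fun_prop) (by fun_prop) (by fun_prop) (by fun_prop)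
  show LF (fun x : (ℕ × ℕ) × (St3 × List ℕ × ℕ) => ((nst x.1.2 x.1.1 x.2.1 x.2.2.1 x.2.2.2,
    x.2.1.2.1, (x.2.1.2.2.1 ++ [mC x.2.2.1 (nst x.1.2 x.1.1 x.2.1 x.2.2.1 x.2.2.2)],
      x.2.1.2.2.2)) : St3))
  exact lf_pair hn (lf_pair (by fun_prop) (lf_pair (lf_app (by fun_prop) (lf_cons
    (lf_mC (by fun_prop) hn) (lf_const []))) (by fun_prop)))

include hP hf in
theorem lf_sstar : LF (fun x : (ℕ × ℕ) × St3 => sstar P G x.1.1 x.1.2 x.2) := by
  show LF (fun x : (ℕ × ℕ) × St3 => ((x.2.1 + 1, x.2.2.1, ((star P G x.2.1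
    (x.1.2, x.1.1, x.2.2.1, x.2.2.2)).1, x.2.2.2.2)) : St3))
  exact lf_pair (lf_add (by fun_prop) (lf_const 1)) (lf_pair (by fun_prop) (lf_pair (lf_fst
    (lf_star hP hf (by fun_prop) (by fun_prop))) (by fun_prop)))

include hP in
theorem lf_scom : LF (fun x : ℕ × (St3 × ℕ) => scom P x.1 x.2) := by
  classical
  have h0 : LF (fun x : ℕ × (St3 × ℕ) => (decode (α := List ℕ) x.2.2).getD []) :=
    LF.of (Computable.option_getD (Computable.decode.comp (Computable.snd.comp Computable.snd))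
      (Computable.const []))
  have h1 : LF (fun x : ℕ × (St3 × ℕ) => x.2.1.set ((decode (α := List ℕ) x.2.2).getD [])) := by
    show LF (fun x : ℕ × (St3 × ℕ) => ((x.2.1.1, x.2.1.2.1,
      ((decode (α := List ℕ) x.2.2).getD [], x.2.1.2.2.2)) : St3))
    exact lf_pair (by fun_prop) (lf_pair (by fun_prop) (lf_pair h0 (by fun_prop)))
  have h2 : ∀ {h : ℕ × (St3 × ℕ) → ℕ} {z k : ℕ × (St3 × ℕ) → St3}, LF h → LF z → LF k →
      LP (fun a => SF P (h a) (z a) (k a)) := by
    intro h z k hh hz hk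
    have h3 : LP (fun a => k a = ((z a).1, (z a).2.1, ((k a).2.2.1, (z a).2.2.2)) ∧
        Le (P.Hd (h a)) (ht (P.Hd (h a)) (z a).2.2.1) (z a).2.2.1 (k a).2.2.1 ∧
        ∃ p, EndsR (k a).2.2.1 (ht (P.Hd (h a)) (z a).2.2.1) p) := by
      refine LP.and (LP.eq hk (by fun_prop)) (LP.and (lp_le hP (by fun_prop) (lf_ht hP
        (by fun_prop) (by fun_prop)) (by fun_prop) (by fun_prop)) (LP.ex (lp_endsR (by fun_prop)
        (lf_ht hP (by fun_prop) (by fun_prop)) (by fun_prop))))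
    exact h3.congr fun a => ⟨fun h => ⟨h.1, h.2.1, h.2.2⟩, fun h => ⟨h.1, h.2, h.3⟩⟩
  exact LF.ite (h2 (by fun_prop) (by fun_prop) h1) h1 (by fun_prop)

end shares

/-! ## The theorem -/

theorem comp_labs {lam : ℕ × List ℕ → Bool} (hl : Computable lam) :
    Computable (fun x : ℕ × List ℕ => labs lam x.1 x.2) := by
  unfold labs
  refine Gr.Calc.comp_filter (f := fun (x : ℕ × List ℕ) (e : ℕ) => lam (e, x.2)) ?_ ?_
  · exact hl.comp (Computable.snd.pair (Computable.snd.comp Computable.fst))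
  · exact (Primrec.list_range.comp (Primrec.succ.comp Primrec.fst)).to_comp

theorem red_Z_le {r r' : ℕ} (h : r ≤ r') : Red (Ind2.Z r) (Ind2.Z r') := by
  rw [← Ars.Jr_Z, ← Ars.Jr_Z]
  exact Ars.red_Jr h _

section final

variable {P : Par} {G : Gph}

theorem msg_pt (s : ℕ) {Y : ℕ → ℕ}
    (h1 : SgF Y (fun x : ℕ × (St3 × List ℕ × ℕ) => pann P G s x.1 x.2))
    (h2 : SgF Y (fun x : ℕ × St3 => pstar P G s x.1 x.2))
    (h3 : SgF Y (fun x : ℕ × St3 × List ℕ => pgrow P G s x.1 x.2.1 x.2.2))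
    (h4 : SgF Y (fun x : ℕ × (St3 × ℕ) => pcom P G s x.1 x.2)) (hd : ℕ)
    {lam : ℕ × List ℕ → Bool} (hl : Computable lam) : MSg Y (ptM P G s hd lam) := by
  refine ⟨?_, ?_, ?_, ?_, ?_⟩
  · have h := SgF.comp₁ h1 (g := fun a : St3 × List ℕ × ℕ => (hd, a))
      ((Computable.const hd).pair Computable.id)
    exact h
  · have h := SgF.comp₁ h2 (g := fun a : St3 => (hd, a))
      ((Computable.const hd).pair Computable.id)
    exact h
  · have h : Computable (fun r : St3 => JJ r.1 s) :=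
      Gr.Calc.comp_JJ' Computable.fst (Computable.const s)
    exact SgF.ofC h
  · have h := SgF.comp₁ h3 (g := fun a : ℕ × St3 × List ℕ => (hd, a.2.1, labs lam a.1 a.2.2))
      ((Computable.const hd).pair ((Computable.fst.comp Computable.snd).pair
        ((comp_labs hl).comp (f := fun x : ℕ × List ℕ => labs lam x.1 x.2)
          (g := fun a : ℕ × St3 × List ℕ => (a.1, a.2.2))
          (Computable.fst.pair (Computable.snd.comp Computable.snd)))))
    exact h
  · have h := SgF.comp₁ h4 (g := fun a : St3 × ℕ => (hd, a))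
      ((Computable.const hd).pair Computable.id)
    exact h

theorem msg_sh {Y : ℕ → ℕ}
    (h1 : SgF Y (fun x : (ℕ × ℕ) × (St3 × List ℕ × ℕ) => (shM P G x.1.1 x.1.2).ann x.2))
    (h2 : SgF Y (fun x : (ℕ × ℕ) × St3 => sstar P G x.1.1 x.1.2 x.2))
    (h3 : SgF Y (fun x : ℕ × (St3 × ℕ) => scom P x.1 x.2)) (hd col : ℕ) :
    MSg Y (shM P G hd col) := by
  refine ⟨?_, ?_, ?_, ?_, ?_⟩
  · have h := SgF.comp₁ h1 (g := fun a : St3 × List ℕ × ℕ => ((hd, col), a))
      ((Computable.const (hd, col)).pair Computable.id)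
    exact h
  · have h := SgF.comp₁ h2 (g := fun a : St3 => ((hd, col), a))
      ((Computable.const (hd, col)).pair Computable.id)
    exact h
  · exact SgF.ofC (Computable.const true)
  · exact SgF.ofC (Computable.fst.comp Computable.snd)
  · have h := SgF.comp₁ h3 (g := fun a : St3 × ℕ => (hd, a))
      ((Computable.const hd).pair Computable.id)
    exact h

end final

/-- Module TARI. -/
theorem tari : StTARI := by
  intro P hP G hL hE
  have hf : LF (fun x : ℕ × Itm => G.fin x.1 x.2) := by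
    obtain ⟨f, h1, h2⟩ := hE.fin
    exact LF.lim (f := f) h1 fun x => h2 x.1 x.2
  -- points
  have hpt : ∀ s : ℕ, ∃ r, s < P.p → ∀ Y : ℕ → ℕ, Red (Ind2.Z r) Y →
      ∀ (hd : ℕ) (lam : ℕ × List ℕ → Bool), Computable lam → MSg Y (ptM P G s hd lam) := by
    intro s
    by_cases hs : s < P.p
    · have hd : LF (fun t => G.d t s) := by
        obtain ⟨f, h1, h2⟩ := hE.d
        have h3 : Computable (fun x : ℕ × ℕ => f (x.1, x.2, s)) := h1.comp (Computable.fst.pair
          (Computable.snd.pair (Computable.const s)))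
        exact LF.lim h3 fun t => h2 t s hs
      have hu : LF (fun t => G.u t s) := by
        obtain ⟨f, h1, h2⟩ := hE.u
        have h3 : Computable (fun x : ℕ × ℕ => f (x.1, x.2, s)) := h1.comp (Computable.fst.pair
          (Computable.snd.pair (Computable.const s)))
        exact LF.lim h3 fun t => h2 t s hs
      obtain ⟨r1, h1⟩ := (lf_pann hP hd hu).sgZ
      obtain ⟨r2, h2⟩ := (lf_pstar hP hf hd hu).sgZ
      obtain ⟨r3, h3⟩ := (lf_pgrow hP hd hu).sgZ
      obtain ⟨r4, h4⟩ := (lf_pcom hP hd hu).sgZ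
      refine ⟨max (max r1 r2) (max r3 r4), fun _ Y hY hd lam hl => ?_⟩
      exact msg_pt s (h1 Y ((red_Z_le (by omega)).trans hY))
        (h2 Y ((red_Z_le (by omega)).trans hY)) (h3 Y ((red_Z_le (by omega)).trans hY))
        (h4 Y ((red_Z_le (by omega)).trans hY)) hd hl
    · exact ⟨0, fun h => absurd h hs⟩
  choose r hr using hpt
  -- shares
  obtain ⟨q1, h1⟩ := (lf_sann (P := P) (G := G)).sgZ
  obtain ⟨q2, h2⟩ := (lf_sstar hP hf).sgZ
  obtain ⟨q3, h3⟩ := (lf_scom hP).sgZ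
  refine ⟨max (max q1 q2) (max q3 ((Finset.range P.p).sup r)), fun Y hY => ⟨?_, ?_⟩⟩
  · intro s hs hd lam hl
    refine hr s hs Y ((red_Z_le ?_).trans hY) hd lam hl
    exact (Finset.le_sup (f := r) (Finset.mem_range.2 hs)).trans ((le_max_right _ _).trans
      (le_max_right _ _))
  · intro hd col
    exact msg_sh (h1 Y ((red_Z_le (by omega)).trans hY))
      (h2 Y ((red_Z_le (by omega)).trans hY)) (h3 Y ((red_Z_le (by omega)).trans hY)) hd col

end Pool.Agent.Lib.MP_d48993_lc.Txt.Ta
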