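import Pool.Agent.Lib.MP_d48993_lc.AE.Rig.SysI

/-!
# Module TCG: the truth depends only on the known columns
-/

set_option autoImplicit false

namespace Pool.Agent.Lib.MP_d48993_lc.Asm

open MP_8c048d_lc (pre join RecF Cop)
open Gr (Par Tx)
open Tup (TruE Tru XH kn)

theorem mk_congr {P : Par} {J : ℕ → Bool} {H : ℕ} {V V' : ℕ → ℕ → ℕ}
    (h : ∀ c, Tx P J H c = true → V c = V' c) (k : ℕ) (μ : List (List ℕ)) :
    Tup.mk P J H V k μ = Tup.mk P J H V' k μ := by
  unfold Tup.mk Tup.cols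
  congr 1
  refine List.map_congr_left fun c _ => ?_
  split_ifs with hc
  · rw [h c hc]
  · rfl

theorem tru_congr {P : Par} {RG : ℕ → List ℕ → Prop} {J : ℕ → Bool} {H : ℕ} {V V' : ℕ → ℕ → ℕ}
    (h : ∀ c, Tx P J H c = true → V c = V' c) (φ : List ℕ → List ℕ) (T : List ℕ → Prop)
    (μ₀ : List (List ℕ)) : Tru P RG J H V φ T μ₀ ↔ Tru P RG J H V' φ T μ₀ := by
  have h1 : Tup.mk P J H V = Tup.mk P J H V' := by
    funext k μ; exact mk_congr h k μ
  unfold Tru
  rw [h1]

theorem tcg_proof : TcgStatement := by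
  intro P RG J H V V' h e
  unfold TruE
  exact exists_congr fun i => exists_congr fun μ => tru_congr h _ _ _

end Pool.Agent.Lib.MP_d48993_lc.Asm
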