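import Pool.Agent.Lib.MP_d48993_lc.AE.Rig.Pmach

/-!
# Part T (MP_d48993), module TFUTS: the followed blocks of a share
-/

set_option autoImplicit false

namespace Pool.Agent.Lib.MP_d48993_lc.Txt

open MP_8c048d_lc (pre join RecF Cop)
open Gr (Par Gph Lim4 IsItm Itm star Fol)

/-- Module TFUTS (from STM, MINV, GTX): every followed block of a share is followed by its real. -/
theorem tfuts (hS : StSTM) (hM : StMINV) (hX : Gr.GTXStatement) : StTFUTs := by
  intro P hP G hG col hc1 hc2 hd ρ fo e cn hcn A R C Q S Z V hrun n hn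
  obtain ⟨u, hu, -, hSu⟩ := hn
  obtain ⟨hok, hit, -⟩ := hS P hP G hG col hc1 hc2 hd
  obtain ⟨hinv, -, -, hlev, hfut, -, -⟩ := hM _ _ _ _ hok ρ fo e cn hcn A R C Q S Z V hrun
  have hI : IsItm P G n (itm col hd (Q u)) := by
    have h := hit (Q u) (hinv u).2.2.1
    rwa [hu] at h
  have hst : (S u).txt = (star P G n (itm col hd (Q u))).1 := by
    rw [hSu, ← hu]
    rfl
  refine ⟨itm col hd (Q u), rfl, rfl, hI, fun m => ?_⟩
  -- a late state
  obtain ⟨K, hK⟩ : ∃ K, ∀ v ≤ u, (R v).txt.length < K := by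
    refine ⟨(Finset.range (u + 1)).sup (fun v => (R v).txt.length) + 1, fun v hv => ?_⟩
    exact Nat.lt_succ_of_le (Finset.le_sup (f := fun v => (R v).txt.length)
      (Finset.mem_range.2 (Nat.lt_succ_of_le hv)))
  obtain ⟨v, hv⟩ := hrun.len (max m K)
  have huv : u < v := by
    by_contra h
    exact absurd (hK v (not_lt.1 h)) (not_lt.2 (le_trans (le_max_right _ _) hv))
  have hcol : ¬ (itm col hd (Q u)).col < P.p := not_lt.2 hc1
  refine ⟨0, (R v).c, le_trans (le_max_left _ _) hv, hrun.text v, fun h => absurd h hcol,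
    fun t ht' => ⟨?_, fun h => absurd h hcol⟩⟩
  have h1 := (hX P hP G hG n _ hI).2.2.2 t ht'
  rw [← hst] at h1
  have h2 := (hfut u v huv).2.1
  have h3 : ht (P.Hd hd) (Z u).txt = ht (P.Hd hd) (S u).txt := by
    unfold ht
    rw [(hlev u).2.2.2.2.1]
  exact h1.trans (h2.mono (by rw [h3]; exact (h1.take le_rfl le_rfl).1))

end Pool.Agent.Lib.MP_d48993_lc.Txt
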