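import Pool.Agent.Lib.MP_d48993_lc.AE.Rig.Pmach

/-!
# Part T (MP_d48993): a point computes a path of a listed tree (row TLIST, helper31; finding 4169,
T2.8)
-/

set_option autoImplicit false

namespace Pool.Agent.Lib.MP_d48993_lc.Txt

open MP_8c048d_lc (pre join RecF Cop)
open Ind2 (Sg J Gen Crt)
open Rem (SgF sgEx sgAnd sgSubst sgCp sgComp sgCongr sgIte)
open Gr (Par Gph Lim4 Eff CG Con1 Itm IsItm Ends code0 Facts star JJ Fol BB AA)
open Node (Cnd3 CLe CV endd)
open Encodable (encode decode)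

namespace Tlist

/-- Weak extensions of states: labels, text, images. -/
structure Wk (r r' : St3) : Prop where
  E : ∀ z ∈ r.E, z ∈ r'.E
  px : r.txt <+: r'.txt
  old : ∀ e ∈ r.c.2, ∃ p', (e.1, e.2.1, p') ∈ r'.c.2

theorem Wk.rfl (r : St3) : Wk r r :=
  ⟨fun _ h => h, List.prefix_rfl, fun e he => ⟨e.2.2, he⟩⟩

theorem Wk.trans {r r' r'' : St3} (h : Wk r r') (h' : Wk r' r'') : Wk r r'' := by
  refine ⟨fun z hz => h'.E z (h.E z hz), h.px.trans h'.px, fun e he => ?_⟩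
  obtain ⟨p, hp⟩ := h.old e he
  obtain ⟨p', hp'⟩ := h'.old _ hp
  exact ⟨p', hp'⟩

theorem res_fst (T : List ℕ → Prop) (c : Cnd3) : (Gr.res T c).1 = c.1 := by
  unfold Gr.res
  rfl

theorem res_mem {T : List ℕ → Prop} {c : Cnd3} {e : List ℕ × List ℕ × List ℕ}
    (h : e ∈ (Gr.res T c).2) : e ∈ c.2 := by
  unfold Gr.res at h
  exact (List.mem_filter.1 h).1

theorem Wk.ofLe {P : Par} {G : Gph} {s : ℕ} {r r' : St3} (h : StLe P G s r r') : Wk r r' := by
  refine ⟨h.E, ?_, fun e he => ?_⟩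
  · have := h.con.le.px
    rw [res_fst] at this
    exact this
  · obtain ⟨p', -, hp'⟩ := h.con.le.old e he
    exact ⟨p', res_mem hp'⟩

/-- All labels have their triples. -/
def Lb (r : St3) : Prop := ∀ z ∈ r.E, ∃ e ∈ r.c.2, e.1 = [z]

theorem Lb.of {r r' : St3} (h : Lb r) (hw : Wk r r') (hE : r'.E = r.E) : Lb r' := by
  intro z hz
  rw [hE] at hz
  obtain ⟨e, he, he1⟩ := h z hz
  obtain ⟨p', hp'⟩ := hw.old e he
  exact ⟨_, hp', he1⟩

theorem add1_spec (P : Par) (G : Gph) (s hd : ℕ) (r : St3) (e : ℕ) (hI : PInv P G s hd r) :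
    PInv P G s hd (add1 P G s hd r e) ∧ Wk r (add1 P G s hd r e) ∧
      (Lb r → Lb (add1 P G s hd r e)) := by
  classical
  unfold add1
  split_ifs with h
  · exact ⟨hI, Wk.rfl r, fun h => h⟩
  · by_cases hx : ∃ r' : St3, r'.stg = r.stg + 1 ∧ ∃ z, Fresh r e z ∧ r'.E = z :: r.E ∧
      ∃ l, r'.txt = r.txt ++ l ∧ Facts l ∧ CG P G s (P.Hd hd) r'.stg r'.E r'.c ∧
        Con1 P G s (TE P.Tr r.E) r.stg r'.stg r.c (Gr.res (TE P.Tr r.E) r'.c) ∧
        ∃ e' ∈ r'.c.2, e'.1 = [z] ∧ encode (e'.1, e'.2.1) ∈ l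
    · have hs := Ars.lcode_spec r hx
      revert hs
      generalize Ars.lcode _ r = r'
      rintro ⟨h1, z, h2, h3, l, h4, -, h6, h7, e', h8, h9, -⟩
      have hw : Wk r r' := by
        refine ⟨fun x hx => ?_, ?_, fun e he => ?_⟩
        · rw [h3]; exact List.mem_cons_of_mem _ hx
        · rw [h4]; exact List.prefix_append _ _
        · obtain ⟨p', -, hp'⟩ := h7.con.le.old e he
          exact ⟨p', res_mem hp'⟩
      refine ⟨⟨?_, ?_, h6⟩, hw, fun hL x hx => ?_⟩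
      · rw [h1]; have := hI.stg; omega
      · rw [h3]
        intro h0
        rcases List.mem_cons.1 h0 with h0 | h0
        · have := h2.1; omega
        · exact hI.lab h0
      · rw [h3] at hx
        rcases List.mem_cons.1 hx with rfl | hx
        · exact ⟨e', h8, h9⟩
        · obtain ⟨e, he, he1⟩ := hL x hx
          obtain ⟨p', hp'⟩ := hw.old e he
          exact ⟨_, hp', he1⟩
    · rw [Ars.lcode_none r hx]
      exact ⟨hI, Wk.rfl r, fun h => h⟩

theorem fold_spec (P : Par) (G : Gph) (s hd : ℕ) (L : List ℕ) (r : St3)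
    (hI : PInv P G s hd r) :
    PInv P G s hd (L.foldl (add1 P G s hd) r) ∧ Wk r (L.foldl (add1 P G s hd) r) ∧
      (Lb r → Lb (L.foldl (add1 P G s hd) r)) := by
  induction L generalizing r with
  | nil => exact ⟨hI, Wk.rfl r, fun h => h⟩
  | cons e L ih =>
    obtain ⟨h1, h2, h3⟩ := add1_spec P G s hd r e hI
    obtain ⟨h4, h5, h6⟩ := ih (add1 P G s hd r e) h1
    exact ⟨h4, h2.trans h5, fun h => h6 (h3 h)⟩

theorem g3_spec (hgt : Gr.GTStatement) {P : Par} (hP : P.Ok) {G : Gph} (hG : Lim4 P G) {s : ℕ}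
    (hs : s < P.p) (hd : ℕ) (r : St3) (hI : PInv P G s hd r) :
    (g3 P G s hd r).E = r.E ∧ Wk r (g3 P G s hd r) ∧
    (∀ e ∈ r.c.2, e.1 ≠ [] → ∀ k, TE P.Tr r.E (e.1 ++ [k]) →
        ∃ e' ∈ (g3 P G s hd r).c.2, e'.1 = e.1 ++ [k]) ∧
    ∃ l, (g3 P G s hd r).txt = r.txt ++ l ∧
      ∀ e' ∈ (g3 P G s hd r).c.2, e'.1 = [] ∨ encode (e'.1, e'.2.1) ∈ l := by
  have hx : ∃ r' : St3, r'.stg = r.stg + 1 ∧ r'.E = r.E ∧
      ∃ l, r'.txt = r.txt ++ l ∧ Facts l ∧ CG P G s (P.Hd hd) r'.stg r'.E r'.c ∧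
        Con1 P G s (TE P.Tr r.E) r.stg r'.stg r.c r'.c ∧
        (∀ e ∈ r.c.2, e.1 ≠ [] → ∀ k, TE P.Tr r.E (e.1 ++ [k]) →
          ∃ e' ∈ r'.c.2, e'.1 = e.1 ++ [k]) ∧
        ∀ e' ∈ r'.c.2, e'.1 = [] ∨ encode (e'.1, e'.2.1) ∈ l := by
    obtain ⟨-, -, -, h3, -⟩ := hgt P hP G hG s hs hd
    obtain ⟨c', l, h4, h5, h6, h7, h8, h9⟩ := h3 r.stg hI.stg r.E r.c hI.lab hI.cg
    exact ⟨(r.stg + 1, r.E, c'), rfl, rfl, l, h4, h5, h6, h7, h8, h9⟩
  have hs := Ars.lcode_spec r hx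
  unfold g3
  revert hs
  generalize Ars.lcode _ r = r'
  rintro ⟨-, h2, l, h3, -, -, h6, h7, h8⟩
  refine ⟨h2, ⟨?_, ?_, fun e he => ?_⟩, h7, l, h3, h8⟩
  · rw [h2]; exact fun _ h => h
  · rw [h3]; exact List.prefix_append _ _
  · obtain ⟨p', -, hp'⟩ := h6.con.le.old e he
    exact ⟨p', hp'⟩

theorem TE_mono {Tr : ℕ → List ℕ → Prop} {E E' : List ℕ} (h : ∀ z ∈ E, z ∈ E') {σ : List ℕ}
    (hσ : TE Tr E σ) : TE Tr E' σ := by
  cases σ with
  | nil => trivial
  | cons a σ => exact ⟨h a hσ.1, hσ.2⟩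

theorem cat_eq {M : Mch} (h : M.chk = false) {r x : St3} {a : ℕ} {γ : List ℕ}
    (hx : M.cat r a γ = some x) : x = r := by
  unfold Mch.cat at hx
  rw [h] at hx
  simpa using hx.symm

theorem agr_eq {M : Mch} (h : M.chk = false) {r p x : St3} {γ : List ℕ}
    (hx : M.agr r p γ = some x) : x = p := by
  unfold Mch.agr at hx
  rw [h] at hx
  simpa using hx.symm

end Tlist

open Tlist

/-- Module TLIST. -/
theorem tlist (hgt : Gr.GTStatement) (hptm : StPTM) (hinv : StMINV) (hfut : StTFUTp)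
    (hcls : Gr.ClsStatement) : StTLIST := by
  intro P hP G hG hcp s hs hd lam hlam ρ fo e cn hcn A R C Q S Z V hrun e' hk W hVW hg
  obtain ⟨hM, -, -, m2, m3, -, m5⟩ := hptm P hP G hG hcp s hs hd lam
  obtain ⟨i1, -, i3, -, -, -, i7⟩ := hinv _ _ _ _ hM ρ fo e cn hcn A R C Q S Z V hrun
  obtain ⟨f1, -, -⟩ := hfut P hP G hG hcp s hs hd lam ρ fo e cn hcn A R C Q S Z V hrun
  obtain ⟨-, -, l7⟩ := hcls P hP G hG s hs
  obtain ⟨g, hgW, hgT⟩ := hg
  obtain ⟨k0, hk0⟩ := hk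
  -- the steps of a cycle
  have hC : ∀ u, C u = R u := fun u => by
    obtain ⟨n, hn⟩ := hrun.cat u
    exact cat_eq rfl hn
  have hS : ∀ u, S u = (ptM P G s hd lam).star (Q u) := fun u => by
    obtain ⟨n, hn⟩ := hrun.star u
    exact agr_eq rfl hn
  have hR : ∀ u, R (u + 1) = (ptM P G s hd lam).com (Z u, ek (fo (e (A u)))) := fun u => by
    obtain ⟨n, hn⟩ := hrun.com u
    exact agr_eq rfl hn
  have w1 : ∀ u, Wk (R u) (Q u) ∧ (Q u).E = (R u).E := fun u => by
    rw [hrun.ann u, hC u]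
    obtain ⟨h1, h2⟩ := m2 (R u) (pre e (A u)) (eb (fo (e (A u)))) (i1 u).1
    exact ⟨Wk.ofLe h1, h2⟩
  have w2 : ∀ u, Wk (Q u) (S u) ∧ (S u).E = (Q u).E := fun u => by
    rw [hS u]
    obtain ⟨h1, h2⟩ := m3 (Q u) (i1 u).2.2.1
    exact ⟨Wk.ofLe h1, h2⟩
  have w4 : ∀ u, Wk (Z u) (R (u + 1)) ∧ (R (u + 1)).E = (Z u).E := fun u => by
    rw [hR u]
    obtain ⟨h1, h2, -⟩ := m5 (Z u) (ek (fo (e (A u)))) (i1 u).2.2.2.2.2
    refine ⟨Wk.ofLe h1, ?_⟩
    by_cases h : (ptM P G s hd lam).com (Z u, ek (fo (e (A u)))) = Z u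
    · rw [h]
    · exact (h2 h).E
  -- the growth
  let F : ℕ → St3 := fun u => (labs lam u (pre e (A u))).foldl (add1 P G s hd) (S u)
  have hZ : ∀ u, Z u = g3 P G s hd (F u) := fun u => hrun.grow u
  have hF : ∀ u, PInv P G s hd (F u) ∧ Wk (S u) (F u) ∧ (Lb (S u) → Lb (F u)) := fun u =>
    fold_spec P G s hd _ (S u) (i1 u).2.2.2.2.1
  have w3 : ∀ u, (Z u).E = (F u).E ∧ Wk (F u) (Z u) ∧
      (∀ e ∈ (F u).c.2, e.1 ≠ [] → ∀ k, TE P.Tr (F u).E (e.1 ++ [k]) →
        ∃ e' ∈ (Z u).c.2, e'.1 = e.1 ++ [k]) ∧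
      ∃ l, (Z u).txt = (F u).txt ++ l ∧
        ∀ e' ∈ (Z u).c.2, e'.1 = [] ∨ encode (e'.1, e'.2.1) ∈ l := fun u => by
    rw [hZ u]
    exact g3_spec hgt hP hG hs hd (F u) (hF u).1
  -- labels have triples
  have hL : ∀ u, Lb (R u) ∧ Lb (Z u) := by
    have h1 : ∀ u, Lb (R u) → Lb (Z u) := fun u h =>
      ((hF u).2.2 ((h.of (w1 u).1 (w1 u).2).of (w2 u).1 (w2 u).2)).of (w3 u).2.1 (w3 u).1
    have h2 : ∀ u, Lb (R u) := by
      intro u
      induction u with
      | zero =>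
        rw [hrun.r0]
        intro z hz
        exact absurd hz (by simp [ptM, St3.E])
      | succ u ih => exact (h1 u ih).of (w4 u).1 (w4 u).2
    exact fun u => ⟨h2 u, h1 u (h2 u)⟩
  have wR : ∀ u, Wk (R u) (F u) := fun u => (w1 u).1.trans ((w2 u).1.trans (hF u).2.1)
  have wZ : ∀ u v, u ≤ v → Wk (Z u) (Z v) := by
    intro u v huv
    induction v, huv using Nat.le_induction with
    | base => exact Wk.rfl _
    | succ v _ ih => exact ih.trans ((w4 v).1.trans ((wR (v + 1)).trans (w3 (v + 1)).2.1))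
  -- the label
  have hA : ∀ u, u ≤ A u := by
    intro u
    induction u with
    | zero => exact Nat.zero_le _
    | succ u ih => have := i7 u (u + 1) (Nat.lt_succ_self u); omega
  obtain ⟨z, u, hzu, hz⟩ : ∃ z u, z ∈ (Z u).E ∧ tn z = e' := by
    have hu : e' ∈ labs lam (max e' k0) (pre e (A (max e' k0))) := by
      unfold labs
      rw [List.mem_filter, List.mem_range]
      refine ⟨by have := le_max_left e' k0; omega, ?_⟩
      refine hlam e' _ _ (pre_prefix e ?_) hk0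
      exact (le_max_right e' k0).trans (hA _)
    obtain ⟨-, h2⟩ := hptm P hP G hG hcp s hs hd lam |>.2.2.2.2.2.1 (max e' k0)
      (S (max e' k0)) (pre e (A (max e' k0))) (i1 _).2.2.2.2.1
    obtain ⟨z, hz, hz'⟩ := h2 e' hu (by have := hgT 0; simpa [pre] using this)
    rw [← hrun.grow] at hz
    exact ⟨z, _, hz, hz'⟩
  have hz0 : z ≠ 0 := by
    rintro rfl
    exact (i1 u).2.2.2.2.2.lab hzu
  have hzT : ∀ k, P.Tr z (pre g k) := by
    intro k
    have h1 : z = Nat.pair e' (z - 1).unpair.2 + 1 := by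
      have h2 : Nat.pair (z - 1).unpair.1 (z - 1).unpair.2 = z - 1 := Nat.pair_unpair _
      unfold tn at hz
      rw [hz] at h2
      omega
    rw [h1, hcp]
    exact hgT k
  -- nodes have triples
  have hN : ∀ k, ∃ t ∈ (Z (u + 1 + k)).c.2, t.1 = z :: pre g k := by
    intro k
    induction k with
    | zero =>
      have := (hL (u + 1)).2 z ((wZ u (u + 1) (Nat.le_succ u)).E z hzu)
      simpa [pre] using this
    | succ k ih =>
      obtain ⟨t, ht, ht1⟩ := ih
      have hw := (w4 (u + 1 + k)).1.trans (wR (u + 1 + k + 1))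
      obtain ⟨p', hp'⟩ := hw.old t ht
      obtain ⟨-, -, h3, -⟩ := w3 (u + 1 + k + 1)
      obtain ⟨t', ht', ht1'⟩ := h3 _ hp' (by simp [ht1]) (g k) (by
        show TE P.Tr (F (u + 1 + k + 1)).E (t.1 ++ [g k])
        rw [ht1]
        refine ⟨hw.E z ((wZ u (u + 1 + k) (by omega)).E z hzu), ?_⟩
        have := hzT (k + 1)
        rwa [MP_8c048d_lc.pre_succ] at this)
      refine ⟨t', ht', ?_⟩
      rw [ht1', MP_8c048d_lc.pre_succ]
      show t.1 ++ [g k] = _
      rw [ht1]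
      rfl
  -- the texts
  have hRR : ∀ v w, v ≤ w → Wk (R v) (R w) := by
    intro v w hvw
    induction w, hvw using Nat.le_induction with
    | base => exact Wk.rfl _
    | succ w _ ih => exact ih.trans ((wR w).trans ((w3 w).2.1.trans (w4 w).1))
  have hZV : ∀ v, (Z v).txt = pre V (Z v).txt.length := fun v =>
    calc (Z v).txt = (R (v + 1)).txt.take (Z v).txt.length :=
          List.prefix_iff_eq_take.1 (w4 v).1.px
      _ = (pre V (R (v + 1)).txt.length).take (Z v).txt.length := by rw [← hrun.text (v + 1)]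
      _ = pre V (Z v).txt.length := by
        rw [MP_8c048d_lc.pre_take, min_eq_left (w4 v).1.px.length_le]
  -- displayed facts
  have hD : ∀ k, ∃ i, (Z u).txt.length ≤ i ∧ ∃ q : List ℕ, V i = encode (z :: pre g k, q) := by
    intro k
    obtain ⟨t, ht, ht1⟩ := hN k
    obtain ⟨-, -, -, l, hl, hl'⟩ := w3 (u + 1 + k)
    rcases hl' t ht with h | h
    · rw [ht1] at h; cases h
    · obtain ⟨j, hj⟩ := List.mem_iff_getElem?.1 h
      have h1 : ((Z (u + 1 + k)).txt)[(F (u + 1 + k)).txt.length + j]? =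
          some (encode (t.1, t.2.1)) := by
        rw [hl, List.getElem?_append_right (by omega)]
        rw [Nat.add_sub_cancel_left]
        exact hj
      rw [hZV, MP_8c048d_lc.pre_getElem?] at h1
      split_ifs at h1
      refine ⟨(F (u + 1 + k)).txt.length + j, ?_, t.2.1, ?_⟩
      · have h2 := ((wZ u (u + k) (by omega)).trans ((w4 (u + k)).1.trans (wR (u + k + 1)))).px
        have h3 := h2.length_le
        have h4 : u + k + 1 = u + 1 + k := by omega
        rw [h4] at h3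
        omega
      · rw [← ht1]
        exact Option.some.inj h1
  -- displayed facts are triples
  have hT : ∀ i, (Z u).txt.length ≤ i → ∀ k (q : List ℕ), V i = encode (z :: pre g k, q) →
      ∀ v, u < v → i < (R v).txt.length → ∃ p, (z :: pre g k, q, p) ∈ (R v).c.2 := by
    intro i hi k q hq v hv hiv
    have h1 := (f1 u v hv).2.2.1.con.le.fact (V i) (by
      rw [res_fst]
      show V i ∈ (R v).txt.drop (Z u).txt.length
      rw [List.mem_drop_iff_getElem]
      refine ⟨i - (Z u).txt.length, by omega, ?_⟩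
      have h4 : (R v).txt[i]? = some (V i) := by
        rw [hrun.text, MP_8c048d_lc.pre_getElem?, if_pos (by omega)]
      have h5 := (List.getElem?_eq_some_iff.1 h4).2
      rw [← h5]
      congr 1
      omega) (z :: pre g k) q hq ⟨hzu, hzT k⟩
    obtain ⟨p, hp⟩ := h1
    exact ⟨p, res_mem hp⟩
  choose ix hix q hq using hD
  have hv : ∀ i, ∃ v, u < v ∧ i < (R v).txt.length := by
    intro i
    obtain ⟨v, hv⟩ := hrun.len (i + 1)
    refine ⟨max v (u + 1), by have := le_max_right v (u + 1); omega, ?_⟩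
    have := (hRR v (max v (u + 1)) (le_max_left _ _)).px.length_le
    omega
  have hv2 : ∀ i j, ∃ v, u < v ∧ i < (R v).txt.length ∧ j < (R v).txt.length := by
    intro i j
    obtain ⟨v, h1, h2⟩ := hv (max i j)
    exact ⟨v, h1, (le_max_left _ _).trans_lt h2, (le_max_right _ _).trans_lt h2⟩
  have hun : ∀ i, (Z u).txt.length ≤ i → ∀ k (q' : List ℕ), V i = encode (z :: pre g k, q') →
      q' = q k := by
    intro i hi k q' hq'
    obtain ⟨v, h1, h2, h3⟩ := hv2 i (ix k)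
    obtain ⟨p1, hp1⟩ := hT i hi k q' hq' v h1 h2
    obtain ⟨p2, hp2⟩ := hT (ix k) (hix k) k (q k) (hq k) v h1 h3
    have h4 := (i1 v).1.cg.cv.uniq _ hp1 _ hp2 rfl
    exact (Prod.mk.inj (Prod.mk.inj h4).2).1
  have hemb : ∀ j k, (q j <+: q k ↔ j ≤ k) := by
    intro j k
    obtain ⟨v, h1, h2, h3⟩ := hv2 (ix j) (ix k)
    obtain ⟨p1, hp1⟩ := hT (ix j) (hix j) j (q j) (hq j) v h1 h2
    obtain ⟨p2, hp2⟩ := hT (ix k) (hix k) k (q k) (hq k) v h1 h3
    have h4 := (i1 v).1.cg.cv.emb _ hp1 _ hp2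
    rw [h4]
    constructor
    · intro h5
      have := h5.length_le
      simp only [List.length_cons, MP_8c048d_lc.length_pre] at this
      omega
    · intro h5
      exact (List.cons_prefix_cons.2 ⟨rfl, pre_prefix g h5⟩)
  have hlen : ∀ k, k ≤ (q k).length := by
    intro k
    induction k with
    | zero => exact Nat.zero_le _
    | succ k ih =>
      have h1 := (hemb k (k + 1)).2 (Nat.le_succ k)
      have h2 := h1.length_le
      by_contra h3
      have h4 : (q k).length = (q (k + 1)).length := by omega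
      have h5 : q k = q (k + 1) := h1.eq_of_length h4
      have h6 := (hemb (k + 1) k).1 (by rw [h5])
      omega
  obtain ⟨O, hO, hO'⟩ := l7 q (fun j => (hemb j (j + 1)).2 (Nat.le_succ j)) (fun j => by
    obtain ⟨v, h1, h2⟩ := hv (ix j)
    obtain ⟨p, hp⟩ := hT (ix j) (hix j) j (q j) (hq j) v h1 h2
    have h3 := (i1 v).1.cg
    exact ⟨p, ⟨⟨_, (h3.cv.stem _ hp).2⟩, h3.reg _ hp⟩, (h3.cv.stem _ hp).1⟩)
    (fun m => ⟨m, hlen m⟩)
  -- the member is below `W`
  refine Or.inl ⟨O, hO, ?_⟩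
  apply Ind2.red_of_graph
  have g1 : Sg W (fun p : ℕ × ℕ => ∃ x : ℕ × ℕ × List ℕ, (Z u).txt.length ≤ x.1 ∧
      V x.1 = encode (z :: pre g x.2.1, x.2.2) ∧ x.2.2[p.1]? = some p.2) := by
    refine sgEx (P := fun (p : ℕ × ℕ) (x : ℕ × ℕ × List ℕ) => (Z u).txt.length ≤ x.1 ∧
      V x.1 = encode (z :: pre g x.2.1, x.2.2) ∧ x.2.2[p.1]? = some p.2) ?_
    refine sgAnd (sgCp ?_) (sgAnd ?_ (sgCp ?_))
    · exact (Primrec.nat_le.comp (Primrec.const _)
        (Primrec.fst.comp Primrec.snd)).computablePred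
    · have f1 : SgF W (fun x : (ℕ × ℕ) × ℕ × ℕ × List ℕ => V x.2.1) :=
        (SgF.real hVW).comp₁ (g := fun x : (ℕ × ℕ) × ℕ × ℕ × List ℕ => x.2.1)
          (Computable.fst.comp Computable.snd)
      have f2 : SgF W (fun x : (ℕ × ℕ) × ℕ × ℕ × List ℕ => pre g x.2.2.1) :=
        (SgF.pre hgW).comp₁ (g := fun x : (ℕ × ℕ) × ℕ × ℕ × List ℕ => x.2.2.1)
          (Computable.fst.comp (Computable.snd.comp Computable.snd))
      have f3 : SgF W (fun x : (ℕ × ℕ) × ℕ × ℕ × List ℕ => encode (z :: pre g x.2.2.1, x.2.2.2)) :=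
        (f2.pair (SgF.ofC (f := fun x : (ℕ × ℕ) × ℕ × ℕ × List ℕ => x.2.2.2)
          (Computable.snd.comp (Computable.snd.comp Computable.snd)))).comp
          (g := fun y : List ℕ × List ℕ => encode (z :: y.1, y.2))
          (Primrec.encode.comp (Primrec.pair (Primrec.list_cons.comp (Primrec.const z)
            Primrec.fst) Primrec.snd)).to_comp
      exact f1.eq f3
    · exact (Primrec.eq.comp (Primrec.list_getElem?.comp
        (Primrec.snd.comp (Primrec.snd.comp Primrec.snd)) (Primrec.fst.comp Primrec.fst))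
        (Primrec.option_some.comp (Primrec.snd.comp Primrec.fst))).computablePred
  refine sgCongr g1 fun p => ⟨?_, fun h => ?_⟩
  · rintro ⟨⟨i, k, q'⟩, h1, h2, h3⟩
    have h4 : q' = q k := hun i h1 k q' h2
    have h3 : q'[p.1]? = some p.2 := h3
    rw [h4, hO' k, MP_8c048d_lc.pre_getElem?] at h3
    split_ifs at h3
    exact Option.some.inj h3
  · refine ⟨(ix (p.1 + 1), p.1 + 1, q (p.1 + 1)), hix _, hq _, ?_⟩
    show (q (p.1 + 1))[p.1]? = some p.2
    rw [hO' (p.1 + 1), MP_8c048d_lc.pre_getElem?, if_pos, h]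
    have := hlen (p.1 + 1)
    omega

end Pool.Agent.Lib.MP_d48993_lc.Txt
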