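import Pool.Agent.Lib.MP_d48993_lc.AE.Rig.Tnes
import Pool.Agent.Lib.MP_d48993_lc.AE.Rig.TariA

/-!
# Part T (MP_d48993), module TNEP: no exit and no dead command for points
-/

set_option autoImplicit false

namespace Pool.Agent.Lib.MP_d48993_lc.Txt.Tnep

open MP_8c048d_lc (pre join RecF Cop)
open Ind2 (Sg J Gen Crt)
open Tup
open Rem (SgF mo colo NeS UU uu_pc uu_comp mo_mono mo_le_mk mk_le_mo)
open Gr (Par Gph Lim4 Eff Ps Tx Prs fj CG)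
open Ars (Ar ArF ArR Jr)
open Node (Cnd3 CLe CV endd)
open Tnes (EE ar_mo exists_code cn_congr mo_congr ar_EE)
open Tar (ar_CG ar_Con ar_PF ar_le comp_ht)

attribute [local fun_prop] Computable
attribute [local fun_prop] Node.Limit.cid Node.Limit.cconst Node.Limit.ccomp Node.Limit.cfst
  Node.Limit.csnd Node.Limit.cpair

variable {P : Par} {G : Gph} {s : ℕ} {RG : ℕ → List ℕ → Prop} {Jp : ℕ → Bool} {H : ℕ}
  {V : ℕ → ℕ → ℕ}

/-- The value can grow. -/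
def DP (P : Par) (G : Gph) (s hd : ℕ) (RG : ℕ → List ℕ → Prop) (Jp : ℕ → Bool) (H : ℕ)
    (V : ℕ → ℕ → ℕ) (i : ℕ) (μ₀ : List (List ℕ)) (z k : St3) : Prop :=
  ∀ μ, Cn P.p RG (kn P Jp) μ → Lep P.p μ₀ μ → ∀ m,
    ∃ (k' : St3) (μ' : List (List ℕ)) (j : ℕ), k.stg ≤ k'.stg ∧ k'.E = z.E ∧
      CG P G s (P.Hd hd) k'.stg z.E k'.c ∧
      Gr.Con P G s (TE P.Tr z.E) k.stg k'.stg k.c k'.c ∧
      Le (P.Hd hd) (ht (P.Hd hd) z.txt + 1) k.txt k'.txt ∧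
      Cn P.p RG (kn P Jp) μ' ∧ Lep P.p μ μ' ∧
      m ≤ (P.Φ i (mo P Jp H V j μ' s k'.txt)).length

/-- The state `k'` goes on from the command `k` at the state `z`. -/
def Q1 (P : Par) (G : Gph) (s hd : ℕ) (z k k' : St3) : Prop :=
  k.stg ≤ k'.stg ∧ k'.E = z.E ∧ CG P G s (P.Hd hd) k'.stg z.E k'.c ∧
    Gr.Con P G s (TE P.Tr z.E) k.stg k'.stg k.c k'.c ∧
    Le (P.Hd hd) (ht (P.Hd hd) z.txt + 1) k.txt k'.txt

theorem ar_Q1 (hP : P.Ok) (hE : Eff P G) (hs : s < P.p) :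
    Ar (fun (x : ℕ × St3 × St3 × St3) (_ : ℕ → ℕ) => Q1 P G s x.1 x.2.1 x.2.2.1 x.2.2.2) := by
  have h1 : Ar (fun (x : ℕ × St3 × St3 × St3) (_ : ℕ → ℕ) => x.2.2.1.1 ≤ x.2.2.2.1) :=
    Ar.le (ArF.ofC (by fun_prop)) (ArF.ofC (by fun_prop))
  have h2 : Ar (fun (x : ℕ × St3 × St3 × St3) (_ : ℕ → ℕ) => x.2.2.2.2.1 = x.2.1.2.1) :=
    Ar.eq (ArF.ofC (by fun_prop)) (ArF.ofC (by fun_prop))
  have h3 : Ar (fun (x : ℕ × St3 × St3 × St3) (_ : ℕ → ℕ) =>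
      CG P G s (P.Hd x.1) x.2.2.2.1 x.2.1.2.1 x.2.2.2.2.2) :=
    (ar_CG hP hE hs).comp (f := fun x : ℕ × St3 × St3 × St3 =>
      (x.1, x.2.2.2.1, x.2.1.2.1, x.2.2.2.2.2)) (by fun_prop)
  have h4 : Ar (fun (x : ℕ × St3 × St3 × St3) (_ : ℕ → ℕ) =>
      Gr.Con P G s (TE P.Tr x.2.1.2.1) x.2.2.1.1 x.2.2.2.1 x.2.2.1.2.2 x.2.2.2.2.2) :=
    (ar_Con hP hE hs).comp (f := fun x : ℕ × St3 × St3 × St3 =>
      (x.2.1.2.1, (x.2.2.1.1, x.2.2.2.1), x.2.2.1.2.2, x.2.2.2.2.2)) (by fun_prop)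
  have hh : Computable (fun x : ℕ × St3 × St3 × St3 => ht (P.Hd x.1) x.2.1.2.2.1) :=
    (Tar.comp_ht hP).comp (f := fun y : ℕ × List ℕ => ht (P.Hd y.1) y.2)
      (g := fun x : ℕ × St3 × St3 × St3 => (x.1, x.2.1.2.2.1)) (by fun_prop)
  have h5 : Ar (fun (x : ℕ × St3 × St3 × St3) (_ : ℕ → ℕ) =>
      Le (P.Hd x.1) (ht (P.Hd x.1) x.2.1.2.2.1 + 1) x.2.2.1.2.2.1 x.2.2.2.2.2.1) :=
    (ar_le hP).comp (f := fun x : ℕ × St3 × St3 × St3 =>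
      (x.1, ht (P.Hd x.1) x.2.1.2.2.1 + 1, x.2.2.1.2.2.1, x.2.2.2.2.2.1))
      ((Computable.fst).pair ((Computable.succ.comp hh).pair (by fun_prop)))
  exact (h1.and (h2.and (h3.and (h4.and h5)))).congr fun x F => Iff.rfl

theorem ar_Q2 (hP : P.Ok) : Ar (fun (x : ℕ × ℕ × ℕ × List (List ℕ) × List ℕ) F =>
    x.2.1 ≤ (P.Φ x.1 (mo P Jp H (cl F) x.2.2.1 x.2.2.2.1 s x.2.2.2.2)).length) := by
  have h1 : ArF (fun (x : ℕ × ℕ × ℕ × List (List ℕ) × List ℕ) F =>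
      mo P Jp H (cl F) x.2.2.1 x.2.2.2.1 s x.2.2.2.2) :=
    (ar_mo P Jp H s).comp₁ (g := fun x : ℕ × ℕ × ℕ × List (List ℕ) × List ℕ =>
      (x.2.2.1, x.2.2.2.1, x.2.2.2.2)) (by fun_prop)
  have h2 : ArF (fun (x : ℕ × ℕ × ℕ × List (List ℕ) × List ℕ) F =>
      P.Φ x.1 (mo P Jp H (cl F) x.2.2.1 x.2.2.2.1 s x.2.2.2.2)) :=
    ((ArF.ofC (f := fun x : ℕ × ℕ × ℕ × List (List ℕ) × List ℕ => x.1) Computable.fst).pair
      h1).comp (g := fun x : ℕ × List ℕ => P.Φ x.1 x.2) hP.enum.comp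
  exact Ar.le (ArF.ofC (f := fun x : ℕ × ℕ × ℕ × List (List ℕ) × List ℕ => x.2.1) (by fun_prop))
    (h2.comp Computable.list_length)

/-- The matrix of the growth. -/
def Q3 (P : Par) (G : Gph) (s : ℕ) (RG : ℕ → List ℕ → Prop) (Jp : ℕ → Bool) (H : ℕ)
    (V : ℕ → ℕ → ℕ) (hd i : ℕ) (z k : St3) (μ : List (List ℕ)) (m : ℕ) (k' : St3)
    (μ' : List (List ℕ)) (j : ℕ) : Prop :=
  Q1 P G s hd z k k' ∧ Cn P.p RG (kn P Jp) μ' ∧ Lep P.p μ μ' ∧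
    m ≤ (P.Φ i (mo P Jp H V j μ' s k'.txt)).length

abbrev X0 : Type := (ℕ × ℕ) × St3 × St3

abbrev X1 : Type := X0 × List (List ℕ)

abbrev X2 : Type := X1 × ℕ

abbrev X3 : Type := X2 × St3

abbrev X4 : Type := X3 × List (List ℕ)

abbrev X5 : Type := X4 × ℕ

theorem ar_Q3 (hP : P.Ok) (hE : Eff P G) (hs : s < P.p)
    (hR : Ar (fun (p : ℕ × List ℕ) (_ : ℕ → ℕ) => RG p.1 p.2)) :
    Ar (fun (x : X5) F => Q3 P G s RG Jp H (cl F) x.1.1.1.1.1.1.1 x.1.1.1.1.1.1.2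
      x.1.1.1.1.1.2.1 x.1.1.1.1.1.2.2 x.1.1.1.1.2 x.1.1.1.2 x.1.1.2 x.1.2 x.2) := by
  refine Ar.and ?_ (Ar.and ?_ (Ar.and ?_ ?_))
  · exact (ar_Q1 hP hE hs).comp (f := fun x : X5 => (x.1.1.1.1.1.1.1, x.1.1.1.1.1.2.1,
      x.1.1.1.1.1.2.2, x.1.1.2)) (by fun_prop)
  · exact (ar_Cn _ hR).comp (f := fun x : X5 => x.1.2) (by fun_prop)
  · exact ar_Lep.comp (f := fun x : X5 => (x.1.1.1.1.2, x.1.2)) (by fun_prop)
  · exact (ar_Q2 hP).comp (f := fun x : X5 => (x.1.1.1.1.1.1.2, x.1.1.1.2, x.2, x.1.2,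
      x.1.1.2.2.2.1)) (by fun_prop)

theorem ar_DP0 (hP : P.Ok) (hE : Eff P G) (hs : s < P.p)
    (hR : Ar (fun (p : ℕ × List ℕ) (_ : ℕ → ℕ) => RG p.1 p.2)) :
    Ar (fun (x : X1) F => ∀ m, ∃ (k' : St3) (μ' : List (List ℕ)) (j : ℕ),
      Q3 P G s RG Jp H (cl F) x.1.1.1 x.1.1.2 x.1.2.1 x.1.2.2 x.2 m k' μ' j) := by
  refine Ar.all (P := fun (x : X1) (m : ℕ) F => ∃ (k' : St3) (μ' : List (List ℕ)) (j : ℕ),
    Q3 P G s RG Jp H (cl F) x.1.1.1 x.1.1.2 x.1.2.1 x.1.2.2 x.2 m k' μ' j) ?_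
  refine Ar.ex (P := fun (x : X2) (k' : St3) F => ∃ (μ' : List (List ℕ)) (j : ℕ),
    Q3 P G s RG Jp H (cl F) x.1.1.1.1 x.1.1.1.2 x.1.1.2.1 x.1.1.2.2 x.1.2 x.2 k' μ' j) ?_
  refine Ar.ex (P := fun (x : X3) (μ' : List (List ℕ)) F => ∃ (j : ℕ),
    Q3 P G s RG Jp H (cl F) x.1.1.1.1.1 x.1.1.1.1.2 x.1.1.1.2.1 x.1.1.1.2.2 x.1.1.2 x.1.2 x.2
      μ' j) ?_
  exact Ar.ex (P := fun (x : X4) (j : ℕ) F =>
    Q3 P G s RG Jp H (cl F) x.1.1.1.1.1.1 x.1.1.1.1.1.2 x.1.1.1.1.2.1 x.1.1.1.1.2.2 x.1.1.1.2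
      x.1.1.2 x.1.2 x.2 j) (ar_Q3 hP hE hs hR)

theorem ar_DP (hP : P.Ok) (hE : Eff P G) (hs : s < P.p)
    (hR : Ar (fun (p : ℕ × List ℕ) (_ : ℕ → ℕ) => RG p.1 p.2)) :
    Ar (fun (x : (ℕ × ℕ × ℕ × List (List ℕ)) × St3 × St3) F =>
      DP P G s x.1.1 RG Jp H (cl F) x.1.2.1 x.1.2.2.2 x.2.1 x.2.2) := by
  refine (Ar.all (P := fun (x : (ℕ × ℕ × ℕ × List (List ℕ)) × St3 × St3)
    (μ : List (List ℕ)) F => Cn P.p RG (kn P Jp) μ → Lep P.p x.1.2.2.2 μ → ∀ m,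
    ∃ (k' : St3) (μ' : List (List ℕ)) (j : ℕ), Q3 P G s RG Jp H (cl F) x.1.1 x.1.2.1 x.2.1 x.2.2
      μ m k' μ' j) ?_).congr fun x F => ?_
  · refine Ar.imp ((ar_Cn _ hR).comp (f := fun p : ((ℕ × ℕ × ℕ × List (List ℕ)) × St3 × St3) ×
      List (List ℕ) => p.2) Computable.snd) (Ar.imp (ar_Lep.comp (f := fun p : ((ℕ × ℕ × ℕ ×
      List (List ℕ)) × St3 × St3) × List (List ℕ) => (p.1.1.2.2.2, p.2)) (by fun_prop)) ?_)
    exact (ar_DP0 hP hE hs hR).comp (f := fun p : ((ℕ × ℕ × ℕ × List (List ℕ)) × St3 × St3) ×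
      List (List ℕ) => (((p.1.1.1, p.1.1.2.1), (p.1.2.1, p.1.2.2)), p.2)) (by fun_prop)
  · unfold DP Q3 Q1
    simp only [and_assoc]

/-- The bad commands. -/
def Bad (P : Par) (G : Gph) (s hd : ℕ) (RG : ℕ → List ℕ → Prop) (Jp : ℕ → Bool) (H : ℕ)
    (V : ℕ → ℕ → ℕ) (i e : ℕ) (μ₀ : List (List ℕ)) (x : St3 × St3) : Prop :=
  PF P G s hd x.1 x.2 ∧ (¬ EE P RG Jp H V s (P.Φ i) (UU P e) μ₀ x.2.txt ∨
    ¬ DP P G s hd RG Jp H V i μ₀ x.1 x.2)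

theorem ar_Bad (hP : P.Ok) (hE : Eff P G) (hs : s < P.p)
    (hR : Ar (fun (p : ℕ × List ℕ) (_ : ℕ → ℕ) => RG p.1 p.2)) :
    Ar (fun (x : (ℕ × ℕ × ℕ × List (List ℕ)) × St3 × St3) F =>
      Bad P G s x.1.1 RG Jp H (cl F) x.1.2.1 x.1.2.2.1 x.1.2.2.2 x.2) := by
  unfold Bad
  have t : Computable (fun r : St3 => r.txt) :=
    Computable.fst.comp (Computable.snd.comp Computable.snd)
  have c1 : Computable (fun x : (ℕ × ℕ × ℕ × List (List ℕ)) × St3 × St3 => x.1.1) := by fun_prop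
  have c2 : Computable (fun x : (ℕ × ℕ × ℕ × List (List ℕ)) × St3 × St3 => x.1.2.1) := by fun_prop
  have c3 : Computable (fun x : (ℕ × ℕ × ℕ × List (List ℕ)) × St3 × St3 => x.1.2.2.1) := by
    fun_prop
  have c4 : Computable (fun x : (ℕ × ℕ × ℕ × List (List ℕ)) × St3 × St3 => x.1.2.2.2) := by
    fun_prop
  have c6 : Computable (fun x : (ℕ × ℕ × ℕ × List (List ℕ)) × St3 × St3 => x.2.2) := by fun_prop
  refine Ar.and ?_ (Ar.or ?_ ?_)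
  · exact (ar_PF hP hE hs).comp (f := fun x : (ℕ × ℕ × ℕ × List (List ℕ)) × St3 × St3 =>
      (x.1.1, x.2.1, x.2.2)) (by fun_prop)
  · exact (ar_EE hP hR c2 c3 c4 (t.comp c6)).not
  · exact (ar_DP hP hE hs hR).not

theorem bad_congr {RG' : ℕ → List ℕ → Prop} {V' : ℕ → ℕ → ℕ} (hR : ∀ l < P.p, ∀ σ, RG l σ ↔ RG' l σ)
    (hV : ∀ c < P.p + P.q, Tx P Jp H c = true → c ≠ s → V c = V' c) (hd i e : ℕ)
    (μ₀ : List (List ℕ)) (x : St3 × St3) :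
    Bad P G s hd RG Jp H V i e μ₀ x ↔ Bad P G s hd RG' Jp H V' i e μ₀ x := by
  unfold Bad EE DP
  simp only [cn_congr hR, mo_congr hV]

/-- Module TNEP. -/
theorem tneP (hNE : StMNE) (hPTM : StPTM) (hINV : StMINV) (hTF : StTFUTp)
    (hAr : Asm.ArPsStatement) : StTNEp := by
  intro P hP G hG hE hcp
  have har := hAr P hP G hG hE
  have h1 : ∀ a H o : ℕ, ∃ r, o < P.p → ∀ F Y : ℕ → ℕ, Red (Jr r F) Y →
      Sg Y (fun x : (ℕ × ℕ × ℕ × List (List ℕ)) × St3 × St3 =>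
        Bad P G o x.1.1 (fun s σ => s < P.p ∧ Ps P G s σ) (fun s => a.testBit s) H (cl F)
          x.1.2.1 x.1.2.2.1 x.1.2.2.2 x.2) := by
    intro a H o
    by_cases ho : o < P.p
    · obtain ⟨r, hr⟩ := (ar_Bad (RG := fun s σ => s < P.p ∧ Ps P G s σ) (Jp := fun s => a.testBit s)
        (H := H) hP hE ho har).sg_of
      exact ⟨r, fun _ F Y hY => (hr F Y hY).1⟩
    · exact ⟨0, fun h => absurd h ho⟩
  choose r hr using h1
  refine ⟨∑ a ∈ Finset.range (2 ^ P.p), ∑ H ∈ Finset.range (2 ^ P.q),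
    ∑ o ∈ Finset.range P.p, r a H o, ?_⟩
  intro a H ha hH s hs hJ hd lam ρ fo e cn hρ hfo hmono hcn A R C Q S Z V hrun Ys hPG hMS F hV
    hY i e' μ₀ hT
  have hr2 : r a H s ≤ ∑ a ∈ Finset.range (2 ^ P.p), ∑ H ∈ Finset.range (2 ^ P.q),
      ∑ o ∈ Finset.range P.p, r a H o := by
    refine le_trans ?_ (Finset.single_le_sum (f := fun a => ∑ H ∈ Finset.range (2 ^ P.q),
      ∑ o ∈ Finset.range P.p, r a H o) (fun _ _ => Nat.zero_le _) (Finset.mem_range.2 ha))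
    refine le_trans ?_ (Finset.single_le_sum (f := fun H => ∑ o ∈ Finset.range P.p, r a H o)
      (fun _ _ => Nat.zero_le _) (Finset.mem_range.2 hH))
    exact Finset.single_le_sum (f := fun o => r a H o) (fun _ _ => Nat.zero_le _)
      (Finset.mem_range.2 hs)
  have hTx : Tx P (fun s => a.testBit s) H s = true := by
    unfold Tx Prs
    simp [hs, hJ]
  obtain ⟨hok, -, -, -, -, -, hcom⟩ := hPTM P hP G hG hcp s hs hd lam
  obtain ⟨hinv, -, -, hlev, hfut, -, -⟩ :=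
    hINV _ _ _ _ hok ρ fo e cn hcn A R C Q S Z (V s) hrun
  obtain ⟨hst, hcf, -⟩ := hTF P hP G hG hcp s hs hd lam ρ fo e cn hcn A R C Q S Z (V s) hrun
  obtain ⟨F₁, hF₁, hV₁⟩ := exists_code P (fun s => a.testBit s) H s hV
  -- the bad commands
  have hsg : ∀ Y ∈ Ys, Sg Y (Bad P G s hd (Ps P G) (fun s => a.testBit s) H V i e' μ₀) := by
    intro Y hYm
    have h2 := hr a H s hs F₁ Y (((Ars.Jr_mono _ hF₁).trans (Ars.red_Jr hr2 F)).trans (hY Y hYm))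
    have h3 := Rem.sgComp h2 (f := fun x : St3 × St3 => ((hd, i, e', μ₀), x))
      ((Computable.const _).pair Computable.id)
    refine Rem.sgCongr h3 fun x => ?_
    exact (bad_congr (RG := Ps P G) (RG' := fun s σ => s < P.p ∧ Ps P G s σ)
      (fun l hl σ => ⟨fun h => ⟨hl, h⟩, fun h => h.2⟩) hV₁ hd i e' μ₀ x).symm
  -- executed commands are not bad
  have hmn : ∀ σ τ : List ℕ, σ <+: τ → P.Φ i σ <+: P.Φ i τ := hP.enum.mono i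
  have hex : ∀ u, PF P G s hd (Z u) (R (u + 1)) →
      EE P (Ps P G) (fun s => a.testBit s) H V s (P.Φ i) (UU P e') μ₀ (R (u + 1)).txt ∧
      DP P G s hd (Ps P G) (fun s => a.testBit s) H V i μ₀ (Z u) (R (u + 1)) := by
    intro u hpf
    constructor
    · intro μ hμ hle j
      rw [hrun.text (u + 1)]
      exact uu_pc hP e' _ _ ((hT.2 μ hμ hle).1 _) (hmn _ _ (mo_le_mk hP.pos hTx j _ μ))
    · intro μ hμ hle m
      obtain ⟨μ', k, h2, h3, h4⟩ := (hT.2 μ hμ hle).2 m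
      obtain ⟨v, huv, hv⟩ : ∃ v, u < v ∧ k ≤ (R v).txt.length := by
        obtain ⟨v, hv⟩ := hrun.len (k + 1 + ∑ i ∈ Finset.range (u + 1), (R i).txt.length)
        refine ⟨v, ?_, by omega⟩
        by_contra hvu
        have h2 : (R v).txt.length ≤ ∑ i ∈ Finset.range (u + 1), (R i).txt.length :=
          Finset.single_le_sum (f := fun i => (R i).txt.length) (fun i _ => Nat.zero_le _)
            (Finset.mem_range.2 (by omega))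
        omega
      obtain ⟨g1, g2, g3⟩ := hcf u v huv hpf
      refine ⟨((R v).stg, (Z u).E, Gr.res (TE P.Tr (Z u).E) (R v).c), μ', k,
        (hst u v huv).2.2.2.stg, rfl, g1, g2, g3, h2, h3, h4.trans ?_⟩
      refine (hmn _ _ ?_).length_le
      rw [mk_le_mo hP.pos hTx]
      refine mo_mono hP.pos le_rfl (Lep.refl _) s ?_
      show pre (V s) k <+: (R v).txt
      rw [hrun.text v]
      exact pre_mono _ hv
  obtain ⟨u0, hu0⟩ := hNE _ _ _ _ hok ρ fo e cn hρ hfo hmono hcn A R C Q S Z (V s) hrun Ys hPG hMS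
    (Bad P G s hd (Ps P G) (fun s => a.testBit s) H V i e' μ₀) hsg (fun u _ hbad => by
      rcases hbad.2 with h2 | h2
      · exact h2 (hex u hbad.1).1
      · exact h2 (hex u hbad.1).2)
  refine ⟨u0, fun u hu => ?_⟩
  have key : ∀ k, PF P G s hd (Z u) k →
      EE P (Ps P G) (fun s => a.testBit s) H V s (P.Φ i) (UU P e') μ₀ k.txt ∧
      DP P G s hd (Ps P G) (fun s => a.testBit s) H V i μ₀ (Z u) k := by
    intro k hk
    have h4 := (hcom (Z u) 0 (hinv u).2.2.2.2.2).2.2 k hk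
    have h5 := hu0 u hu (Encodable.encode k)
    rw [h4] at h5
    by_contra h6
    refine h5 ⟨hk, ?_⟩
    by_contra h7
    push Not at h7
    exact h6 h7
  exact ⟨fun k hk => (key k hk).1, fun k hk => (key k hk).2⟩

end Pool.Agent.Lib.MP_d48993_lc.Txt.Tnep
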