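import Pool.Agent.Lib.MP_d48993_lc.AE.Rig.Shit
import Pool.Agent.Lib.MP_d48993_lc.AE.Rem.Fin

/-!
# Assembly: the real of a pattern is the join of its objects (row XJN, helper40)
-/

set_option autoImplicit false

namespace Pool.Agent.Lib.MP_d48993_lc.Asm

open Gr (Tx)
open Tup (kn)
open Real (IsSh)

/-- Module XJN. -/
theorem xjn_proof : XjnStatement := by
  intro Ω _ D hp O
  refine ⟨fun J H s hs => ?_, fun J H s hs => ?_, fun J H R m hR hm => ?_, fun J H Z h1 h2 h3 => ?_⟩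
  · refine Rem.red_O (D.nm.pnl s) fun h => hs ?_
    have h1 := (Shit.jb_iff (D.nm.pnl s)).1 (Tup.mem_kn.1 h).2
    rwa [D.nm.pnt] at h1
  · refine Rem.red_V ?_
    have h1 : D.Jb J (D.nm.pn s) = true := (Shit.jb_iff (D.nm.pnl s)).2 (by rwa [D.nm.pnt])
    unfold Tx Gr.Prs
    simp [h1, D.nm.pnl s]
  · refine Rem.red_V ?_
    obtain ⟨h1, h2⟩ := D.nm.snt _ hR
    have h3 : (D.Hn H).testBit (D.nm.sn (R, m)) = true := Shit.hn_iff.2 ⟨h2, by rwa [h1]⟩
    unfold Tx Gr.Prs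
    simp [h3, h2]
  · refine Rem.xh_red hp (fun c hc => ?_) fun c hc hk => ?_
    · rcases Shit.tx_cases hc with ⟨h5, h6⟩ | ⟨j, rfl, h5, h6⟩
      · have h7 := h2 _ h6
        unfold Sys.Vp at h7
        rwa [D.nm.ptn c h5] at h7
      · have h7 := h3 (D.nm.sh j).1 (D.nm.sh j).2 (D.nm.shs j h5) h6
        unfold Sys.Ysh at h7
        have h8 : D.nm.sn ((D.nm.sh j).1, (D.nm.sh j).2) = j := D.nm.shn j h5
        rwa [h8] at h7
    · have h4 : D.nm.pt c ∉ J := fun h5 => hk (Tup.mem_kn.2 ⟨hc, (Shit.jb_iff hc).2 h5⟩)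
      have h5 := h1 _ h4
      rwa [D.nm.ptn c hc] at h5

end Pool.Agent.Lib.MP_d48993_lc.Asm
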