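import Pool.Agent.Lib.MP_d48993_lc.AE.Rig.Asm
import Pool.Agent.Lib.MP_d48993_lc.AE.Rig.Sysp
import Pool.Agent.Lib.MP_d48993_lc.AE.Rig.Arps
import Pool.Agent.Lib.MP_d48993_lc.AE.Rig.Gnr
import Pool.Agent.Lib.MP_d48993_lc.AE.Rig.Hitc
import Pool.Agent.Lib.MP_d48993_lc.AE.Rig.Klv
import Pool.Agent.Lib.MP_d48993_lc.AE.Rig.Lls
import Pool.Agent.Lib.MP_d48993_lc.AE.Rig.Ls
import Pool.Agent.Lib.MP_d48993_lc.AE.Rig.Memb
import Pool.Agent.Lib.MP_d48993_lc.AE.Rig.Mne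
import Pool.Agent.Lib.MP_d48993_lc.AE.Rig.Mpres
import Pool.Agent.Lib.MP_d48993_lc.AE.Rig.Msh
import Pool.Agent.Lib.MP_d48993_lc.AE.Rig.Mrun
import Pool.Agent.Lib.MP_d48993_lc.AE.Rig.Num
import Pool.Agent.Lib.MP_d48993_lc.AE.Rig.Parb
import Pool.Agent.Lib.MP_d48993_lc.AE.Rig.Patk
import Pool.Agent.Lib.MP_d48993_lc.AE.Rig.Pg
import Pool.Agent.Lib.MP_d48993_lc.AE.Rig.Ptm
import Pool.Agent.Lib.MP_d48993_lc.AE.Rig.Sbas
import Pool.Agent.Lib.MP_d48993_lc.AE.Rig.Sful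
import Pool.Agent.Lib.MP_d48993_lc.AE.Rig.Sgen
import Pool.Agent.Lib.MP_d48993_lc.AE.Rig.Shit
import Pool.Agent.Lib.MP_d48993_lc.AE.Rig.Skill
import Pool.Agent.Lib.MP_d48993_lc.AE.Rig.Slist
import Pool.Agent.Lib.MP_d48993_lc.AE.Rig.Snb
import Pool.Agent.Lib.MP_d48993_lc.AE.Rig.Snul
import Pool.Agent.Lib.MP_d48993_lc.AE.Rig.Spres
import Pool.Agent.Lib.MP_d48993_lc.AE.Rig.Sred
import Pool.Agent.Lib.MP_d48993_lc.AE.Rig.Srem
import Pool.Agent.Lib.MP_d48993_lc.AE.Rig.Srsh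
import Pool.Agent.Lib.MP_d48993_lc.AE.Rig.Stm
import Pool.Agent.Lib.MP_d48993_lc.AE.Rig.Tari
import Pool.Agent.Lib.MP_d48993_lc.AE.Rig.Tcg
import Pool.Agent.Lib.MP_d48993_lc.AE.Rig.Tchn
import Pool.Agent.Lib.MP_d48993_lc.AE.Rig.Tfutp
import Pool.Agent.Lib.MP_d48993_lc.AE.Rig.Tfuts
import Pool.Agent.Lib.MP_d48993_lc.AE.Rig.Tlist
import Pool.Agent.Lib.MP_d48993_lc.AE.Rig.Tlab
import Pool.Agent.Lib.MP_d48993_lc.AE.Rig.Tnep15
import Pool.Agent.Lib.MP_d48993_lc.AE.Rig.Tnes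
import Pool.Agent.Lib.MP_d48993_lc.AE.Rig.Trup
import Pool.Agent.Lib.MP_d48993_lc.AE.Rig.Xjn40
import Pool.Agent.Lib.MP_d48993_lc.AE.Rem.Nbr
import Pool.Agent.Lib.MP_d48993_lc.AE.Gr.All
import Pool.Agent.Lib.MP_d48993_lc.AE.Gr.BlkS
import Pool.Agent.Lib.MP_d48993_lc.AE.Gr.Cls
import Pool.Agent.Lib.MP_d48993_lc.AE.Gr.Dens
import Pool.Agent.Lib.MP_d48993_lc.AE.Gr.RegM
import Pool.Agent.Lib.MP_d48993_lc.AE.Gr.Gt
import Pool.Agent.Lib.MP_d48993_lc.AE.Gr.Gtx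
import Pool.Agent.Lib.MP_d48993_lc.AE.Ind2.Ind

/-! The assembly of all modules of the priority construction (Cantor lattice, all frames). -/

namespace Pool.Agent.Lib.MP_d48993_lc.Asm

open MP_8c048d_lc

/-- The truth of the AE sentences in the lattice of Cantor classes is decidable. -/
theorem final :
    ∃ f : ℕ × ℕ → Bool, Computable f ∧
      ∀ n φ, f (n, QF.code φ) = true ↔ AETrue PwCantor n φ := by
  have hLim := Gr.lim4_all
  have hGT := Gr.gt_all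
  have hTlab := tlab_proof
  have hPTM := Txt.ptm hGT Gr.gtx Gr.blkS
  have hSTM := Txt.stm Gr.gtx
  have hMDET := Txt.mdet Txt.minv
  have hMSGR := Txt.msgr hMDET
  have hMSH := Txt.msh Txt.minv hMSGR
  have hSys := sys_proof parb_proof num_proof hLim Ind2.ind Txt.Ta.tari
    (lls_proof (ls_proof arps_proof)) Memb_proof klv_proof tcg_proof hPTM hSTM hMSH Txt.mrun Gr.cls
  have hSbas := sbas_proof hPTM hSTM Txt.Ta.tari hMSH
  have hSred := sred_proof hSbas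
  have hSgen := sgen_proof hSbas
  have hTFp := Txt.tfutp hPTM Txt.minv hGT
  have hTFs := Txt.tfuts hSTM Txt.minv Gr.gtx
  have hSpres := spres_proof (Txt.mpres Txt.minv) Txt.mprm hMSGR hTFp hTFs Gr.blkS patk_proof
    hSbas hSred hSgen
  have hShit := shit_proof hSpres hitc_proof trup_proof gnr_proof xjn_proof Gr.regM
  have hSlist := slist_proof hShit (Txt.tlist hGT hPTM Txt.minv hTFp Gr.cls)
  have hTNEp := Txt.Tnep.tneP (Txt.mne Txt.minv hMDET hMSGR) hPTM Txt.minv hTFp arps_proof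
  have hTNEs := Txt.Tnes.tneS (Txt.mne Txt.minv hMDET hMSGR) hSTM Txt.minv arps_proof
  have hSrem := srem_proof gnr_proof Gr.regM Rem.inst Rem.nbr hTNEp Txt.minv hSbas hSred hSgen
    patk_proof
  have hSrsh := srsh_proof gnr_proof patk_proof hSbas hSred hSgen hTNEs
  have hTCHN := Txt.tchn hGT hPTM Txt.minv hTFp
  have hSnul := snul_proof Gr.blkS Gr.regM Gr.dens
  have hSkill := skill_proof Gr.regM Gr.dens hGT hPTM Txt.minv hTFp hTCHN gnr_proof xjn_proof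
    trup_proof hTlab hSbas hSpres
  exact decidable_of fun B h1 h2 h3 h4 P _ _ _ U hU =>
    obj_of hSys gnr_proof xjn_proof hSbas hShit hSlist hSrem hSrsh hSnul snb_proof hSkill
      (sful_proof hSbas) Gr.cls B h1 h2 h3 h4 P U hU

end Pool.Agent.Lib.MP_d48993_lc.Asm
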