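import Pool.Agent.Lib.MP_d48993_lc.AE.Rig.Mach
import Pool.Agent.Lib.MP_d48993_lc.AE.Gr.Stm2

/-!
# Part T (MP_d48993): the machines of the points and of the shares, definitions and statements
(findings 4169, 4170)
-/

set_option autoImplicit false

namespace Pool.Agent.Lib.MP_d48993_lc.Txt

open MP_8c048d_lc (pre join RecF Cop)
open Ind2 (Sg J Gen Crt)
open Tup (Eps)
open Rem (SgF)
open Gr (Par Gph Lim4 Eff CG Con1 Itm IsItm Ends code0 Facts star JJ Fol BB AA)
open Node (Cnd3 CLe CV endd)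
open Encodable (encode decode)

section

variable (P : Par) (G : Gph) (s hd : ℕ)

/-! ## Points -/

/-- The item of a state. -/
def itm (col hd : ℕ) (r : St3) : Itm := (col, hd, r.E, r.c)

/-- The pairs (node, image). -/
def imgs (c : Cnd3) : List (List ℕ × List ℕ) := c.2.map (fun e => (e.1, e.2.1))

/-- The size of the item which is announced with the string `x` (see `Gr.code0`). -/
def csz (col hd : ℕ) (r : St3) (x : List ℕ) : ℕ :=
  encode ((col, hd), (r.E, r.txt), (x, imgs r.c))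

/-- (G1): from the stage `n` to the stage `n + 1`, least code. -/
noncomputable def g1 (n : ℕ) (E : List ℕ) (c : Cnd3) : Cnd3 :=
  Ars.lcode (fun c' : Cnd3 => c'.1 = c.1 ∧ imgs c' = imgs c ∧ CG P G s (P.Hd hd) (n + 1) E c' ∧
    Con1 P G s (TE P.Tr E) n (n + 1) c c') c

/-- (G1) `k` times. -/
noncomputable def g1n (E : List ℕ) : ℕ → ℕ → Cnd3 → Cnd3
  | 0, _, c => c
  | k + 1, n, c => g1n E k (n + 1) (g1 P G s hd n E c)

/-- The announced stage. -/
def nst (col hd : ℕ) (r : St3) (x : List ℕ) (b : ℕ) : ℕ := max b (max r.stg (csz col hd r x))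

/-- The announcement of a point. -/
noncomputable def pann (a : St3 × List ℕ × ℕ) : St3 :=
  (nst s hd a.1 a.2.1 a.2.2, a.1.E,
    (a.1.txt ++ [mC a.2.1 (nst s hd a.1 a.2.1 a.2.2)],
      (g1n P G s hd a.1.E (nst s hd a.1 a.2.1 a.2.2 - a.1.stg) a.1.stg a.1.c).2))

/-- The star, then (G1). -/
noncomputable def pstar (r : St3) : St3 :=
  if JJ r.stg s = true then
    (r.stg + 2, r.E, g1 P G s hd (r.stg + 1) r.E (star P G r.stg (itm s hd r)))
  else (r.stg + 1, r.E, g1 P G s hd r.stg r.E r.c)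

/-- The number of the tree of a label. -/
def tn (z : ℕ) : ℕ := (z - 1).unpair.1

/-- The label `z` may be used for the tree `e`: no fact of the text has this label. -/
def Fresh (r : St3) (e z : ℕ) : Prop :=
  1 ≤ z ∧ tn z = e ∧ z ∉ r.E ∧ ∀ a ∈ r.txt, ∀ x ρ : List ℕ, a = encode (x, ρ) → x.head? ≠ some z

open Classical in
/-- (G2): a new copy of the tree `e`, if there is none. -/
noncomputable def add1 (r : St3) (e : ℕ) : St3 :=
  if (∃ z ∈ r.E, tn z = e) ∨ ¬ P.Tr (Nat.pair e 0 + 1) [] then r else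
    Ars.lcode (fun r' : St3 => r'.stg = r.stg + 1 ∧ ∃ z, Fresh r e z ∧ r'.E = z :: r.E ∧
      ∃ l, r'.txt = r.txt ++ l ∧ Facts l ∧ CG P G s (P.Hd hd) r'.stg r'.E r'.c ∧
        Con1 P G s (TE P.Tr r.E) r.stg r'.stg r.c (Gr.res (TE P.Tr r.E) r'.c) ∧
        ∃ e' ∈ r'.c.2, e'.1 = [z] ∧ encode (e'.1, e'.2.1) ∈ l) r

/-- (G3). -/
noncomputable def g3 (r : St3) : St3 :=
  Ars.lcode (fun r' : St3 => r'.stg = r.stg + 1 ∧ r'.E = r.E ∧
    ∃ l, r'.txt = r.txt ++ l ∧ Facts l ∧ CG P G s (P.Hd hd) r'.stg r'.E r'.c ∧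
      Con1 P G s (TE P.Tr r.E) r.stg r'.stg r.c r'.c ∧
      (∀ e ∈ r.c.2, e.1 ≠ [] → ∀ k, TE P.Tr r.E (e.1 ++ [k]) →
        ∃ e' ∈ r'.c.2, e'.1 = e.1 ++ [k]) ∧
      ∀ e' ∈ r'.c.2, e'.1 = [] ∨ encode (e'.1, e'.2.1) ∈ l) r

/-- The new labels for a list of trees, then (G3). -/
noncomputable def pgrow (r : St3) (L : List ℕ) : St3 := g3 P G s hd (L.foldl (add1 P G s hd) r)

/-- The trees `≤ u` for which `lam` says yes on the string `x`. -/
def labs (lam : ℕ × List ℕ → Bool) (u : ℕ) (x : List ℕ) : List ℕ :=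
  (List.range (u + 1)).filter (fun e => lam (e, x))

/-- The states to which a command may lead, `F(z)`. -/
structure PF (z k : St3) : Prop where
  E : k.E = z.E
  stg : z.stg ≤ k.stg
  cg : CG P G s (P.Hd hd) k.stg k.E k.c
  con : Gr.Con P G s (TE P.Tr z.E) z.stg k.stg z.c k.c
  le : Le (P.Hd hd) (ht (P.Hd hd) z.txt) z.txt k.txt
  ends : ∃ p, EndsR k.txt (ht (P.Hd hd) z.txt) p

open Classical in
/-- The state coded by a command. -/
noncomputable def pcom (a : St3 × ℕ) : St3 :=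
  if PF P G s hd a.1 ((decode (α := St3) a.2).getD a.1) then (decode (α := St3) a.2).getD a.1
  else a.1

/-- The machine of the point `s` with the header number `hd`. -/
noncomputable def ptM (lam : ℕ × List ℕ → Bool) : Mch where
  chk := false
  s0 := (3, [], Ars.lcode (fun c : Cnd3 => c.1 = [] ∧ CG P G s (P.Hd hd) 3 [] c) ([], []))
  ann := pann P G s hd
  star := pstar P G s hd
  fol := fun r => JJ r.stg s
  grow := fun a => pgrow P G s hd a.2.1 (labs lam a.1 a.2.2)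
  com := pcom P G s hd

/-- The states of a point. -/
structure PInv (r : St3) : Prop where
  stg : 3 ≤ r.stg
  lab : 0 ∉ r.E
  cg : CG P G s (P.Hd hd) r.stg r.E r.c

/-- The announced states of a point. -/
structure PAnv (r : St3) : Prop where
  inv : PInv P G s hd r
  ends : Ends r.stg r.txt
  code : code0 (itm s hd r) ≤ r.stg

/-- Coned extensions of states (the labels of `r`). -/
structure StLe (r r' : St3) : Prop where
  E : ∀ z ∈ r.E, z ∈ r'.E
  stg : r.stg ≤ r'.stg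
  con : Gr.Con P G s (TE P.Tr r.E) r.stg r'.stg r.c (Gr.res (TE P.Tr r.E) r'.c)

/-! ## Shares -/

/-- The star of a share. -/
def sstar (col : ℕ) (r : St3) : St3 :=
  (r.stg + 1, r.E, ((star P G r.stg (itm col hd r)).1, r.c.2))

/-- The states to which a command may lead. -/
structure SF (z k : St3) : Prop where
  eq : k = z.set k.txt
  le : Le (P.Hd hd) (ht (P.Hd hd) z.txt) z.txt k.txt
  ends : ∃ p, EndsR k.txt (ht (P.Hd hd) z.txt) p

open Classical in
/-- The state coded by a command (the text of the new state). -/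
noncomputable def scom (a : St3 × ℕ) : St3 :=
  if SF P hd a.1 (a.1.set ((decode (α := List ℕ) a.2).getD [])) then
    a.1.set ((decode (α := List ℕ) a.2).getD []) else a.1

/-- The machine of the share with the column `col` and the header number `hd`. -/
noncomputable def shM (col : ℕ) : Mch where
  chk := true
  s0 := (3, [], ([], []))
  ann := fun a => (nst col hd a.1 a.2.1 a.2.2, a.1.E,
    (a.1.txt ++ [mC a.2.1 (nst col hd a.1 a.2.1 a.2.2)], a.1.c.2))
  star := sstar P G hd col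
  fol := fun _ => true
  grow := fun a => a.2.1
  com := scom P hd

/-- The states of a share. -/
structure SInv (r : St3) : Prop where
  stg : 3 ≤ r.stg
  lab : r.E = []
  c : r.c.2 = []
  leg : Leg (P.Hd hd) r.txt

/-- The announced states of a share. -/
structure SAnv (col : ℕ) (r : St3) : Prop where
  inv : SInv P hd r
  ends : Ends r.stg r.txt
  code : code0 (itm col hd r) ≤ r.stg

end

/-! ## Statements -/

/-- Module PTM (from GT, GTX): the machine of a point is good; all steps are coned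
extensions. `copy`: the labels are copies. -/
def StPTM : Prop :=
  ∀ P : Par, P.Ok → ∀ G : Gph, Lim4 P G → (∀ e i σ, P.Tr (Nat.pair e i + 1) σ ↔
    P.Tr (Nat.pair e 0 + 1) σ) → ∀ s < P.p, ∀ (hd : ℕ) (lam : ℕ × List ℕ → Bool),
    MOk (P.Hd hd) (ptM P G s hd lam) (PInv P G s hd) (PAnv P G s hd) ∧
    (∀ r, PAnv P G s hd r → JJ r.stg s = true → IsItm P G r.stg (itm s hd r)) ∧
    (∀ r r' r'', PInv P G s hd r → PInv P G s hd r' → PInv P G s hd r'' → StLe P G s r r' →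
      StLe P G s r' r'' → StLe P G s r r'') ∧
    (∀ r x b, PInv P G s hd r → StLe P G s r ((ptM P G s hd lam).ann (r, x, b)) ∧
      ((ptM P G s hd lam).ann (r, x, b)).E = r.E) ∧
    (∀ r, PAnv P G s hd r → StLe P G s r ((ptM P G s hd lam).star r) ∧
      ((ptM P G s hd lam).star r).E = r.E) ∧
    (∀ u r x, PInv P G s hd r → StLe P G s r ((ptM P G s hd lam).grow (u, r, x)) ∧
      ∀ e ∈ labs lam u x, P.Tr (Nat.pair e 0 + 1) [] →
        ∃ z ∈ ((ptM P G s hd lam).grow (u, r, x)).E, tn z = e) ∧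
    ∀ z k, PInv P G s hd z → StLe P G s z ((ptM P G s hd lam).com (z, k)) ∧
      ((ptM P G s hd lam).com (z, k) ≠ z → PF P G s hd z ((ptM P G s hd lam).com (z, k))) ∧
      ∀ k', PF P G s hd z k' → (ptM P G s hd lam).com (z, encode k') = k'

/-- Module STM (from GTX): the machine of a share is good. -/
def StSTM : Prop :=
  ∀ P : Par, P.Ok → ∀ G : Gph, Lim4 P G → ∀ col, P.p ≤ col → col < P.p + P.q → ∀ hd : ℕ,
    MOk (P.Hd hd) (shM P G hd col) (SInv P hd) (SAnv P hd col) ∧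
    (∀ r, SAnv P hd col r → IsItm P G r.stg (itm col hd r)) ∧
    ∀ z k, SInv P hd z →
      ((shM P G hd col).com (z, k) ≠ z → SF P hd z ((shM P G hd col).com (z, k))) ∧
      ∀ w, Le (P.Hd hd) (ht (P.Hd hd) z.txt) z.txt w →
        (∃ p, EndsR w (ht (P.Hd hd) z.txt) p) → (shM P G hd col).com (z, encode w) = z.set w

/-- Module TARI (from Eff, DECV, DECC, the calculus `Ars`): the machines are recursive in a fixed
jump of `0`. -/
def StTARI : Prop :=
  ∀ P : Par, P.Ok → ∀ G : Gph, Lim4 P G → Eff P G → ∃ r, ∀ Y : ℕ → ℕ, Red (Ind2.Z r) Y →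
    (∀ s < P.p, ∀ (hd : ℕ) (lam : ℕ × List ℕ → Bool), Computable lam →
      MSg Y (ptM P G s hd lam)) ∧
    ∀ hd col, MSg Y (shM P G hd col)

/-- Module TFUT, points (from PTM, MINV, GT): true futures. -/
def StTFUTp : Prop :=
  ∀ P : Par, P.Ok → ∀ G : Gph, Lim4 P G → (∀ e i σ, P.Tr (Nat.pair e i + 1) σ ↔
    P.Tr (Nat.pair e 0 + 1) σ) → ∀ s < P.p, ∀ (hd : ℕ) (lam : ℕ × List ℕ → Bool)
    (ρ : List ℕ → ℕ) (fo : ℕ → ℕ) (e cn : ℕ → ℕ), (∀ p, cn p < 2) →
    ∀ (A : ℕ → ℕ) (R C Q S Z : ℕ → St3) (V : ℕ → ℕ),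
    IsRun (ptM P G s hd lam) ρ fo e cn A R C Q S Z V →
    -- all later states are coned extensions
    (∀ u v, u < v → StLe P G s (Q u) (R v) ∧ StLe P G s (S u) (R v) ∧ StLe P G s (Z u) (R v) ∧
      StLe P G s (R (u + 1)) (R v)) ∧
    -- an executed command, and what comes later, over the labels of `Z u`
    (∀ u v, u < v → PF P G s hd (Z u) (R (u + 1)) →
      CG P G s (P.Hd hd) (R v).stg (Z u).E (Gr.res (TE P.Tr (Z u).E) (R v).c) ∧
      Gr.Con P G s (TE P.Tr (Z u).E) (R (u + 1)).stg (R v).stg (R (u + 1)).c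
        (Gr.res (TE P.Tr (Z u).E) (R v).c) ∧
      Le (P.Hd hd) (ht (P.Hd hd) (Z u).txt + 1) (R (u + 1)).txt (R v).txt) ∧
    -- followed blocks
    ∀ n, FolN (ptM P G s hd lam) Q S n → ∃ I : Itm, I.col = s ∧ I.hd = hd ∧ Fol P G n I V

/-- Module TFUT, shares (from STM, MINV, GTX): true futures. -/
def StTFUTs : Prop :=
  ∀ P : Par, P.Ok → ∀ G : Gph, Lim4 P G → ∀ col, P.p ≤ col → col < P.p + P.q → ∀ (hd : ℕ)
    (ρ : List ℕ → ℕ) (fo : ℕ → ℕ) (e cn : ℕ → ℕ), (∀ p, cn p < 2) →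
    ∀ (A : ℕ → ℕ) (R C Q S Z : ℕ → St3) (V : ℕ → ℕ),
    IsRun (shM P G hd col) ρ fo e cn A R C Q S Z V →
    ∀ n, FolN (shM P G hd col) Q S n → ∃ I : Itm, I.col = col ∧ I.hd = hd ∧ Fol P G n I V

/-- Module TLIST (4169, T2.8; from TFUT, MINV, CLS): if `lam` says yes for the tree `e'` then every
`W ≥ V` which computes a path of this tree is in `AA`. -/
def StTLIST : Prop :=
  ∀ P : Par, P.Ok → ∀ G : Gph, Lim4 P G → (∀ e i σ, P.Tr (Nat.pair e i + 1) σ ↔
    P.Tr (Nat.pair e 0 + 1) σ) → ∀ s < P.p, ∀ (hd : ℕ) (lam : ℕ × List ℕ → Bool),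
    (∀ e' x y, x <+: y → lam (e', x) = true → lam (e', y) = true) →
    ∀ (ρ : List ℕ → ℕ) (fo : ℕ → ℕ) (e cn : ℕ → ℕ), (∀ p, cn p < 2) →
    ∀ (A : ℕ → ℕ) (R C Q S Z : ℕ → St3) (V : ℕ → ℕ),
    IsRun (ptM P G s hd lam) ρ fo e cn A R C Q S Z V →
    ∀ e', (∃ k, lam (e', pre e k) = true) → ∀ W, Red V W →
      (∃ g, Red g W ∧ ∀ k, P.Tr (Nat.pair e' 0 + 1) (pre g k)) → W ∈ AA P G s

/-- Module TCHN (from TFUT, MINV; for KILL): the chain of the conditions of `V` over the labels of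
a followed item: all triples are old or displayed by `V`. -/
def StTCHN : Prop :=
  ∀ P : Par, P.Ok → ∀ G : Gph, Lim4 P G → (∀ e i σ, P.Tr (Nat.pair e i + 1) σ ↔
    P.Tr (Nat.pair e 0 + 1) σ) → ∀ s < P.p, ∀ (hd : ℕ) (lam : ℕ × List ℕ → Bool)
    (ρ : List ℕ → ℕ) (fo : ℕ → ℕ) (e cn : ℕ → ℕ), (∀ p, cn p < 2) →
    ∀ (A : ℕ → ℕ) (R C Q S Z : ℕ → St3) (V : ℕ → ℕ),
    IsRun (ptM P G s hd lam) ρ fo e cn A R C Q S Z V →
    ∀ u, (∀ v, u < v → CLe (TE P.Tr (Q u).E) (Q u).c (Gr.res (TE P.Tr (Q u).E) (R v).c) ∧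
      CLe (TE P.Tr (Q u).E) (Gr.res (TE P.Tr (Q u).E) (R v).c)
        (Gr.res (TE P.Tr (Q u).E) (R (v + 1)).c)) ∧
      ∀ v, u < v → ∀ t ∈ (Gr.res (TE P.Tr (Q u).E) (R v).c).2, t.1 = [] ∨
        ∃ i, (Q u).txt.length ≤ i ∧ V i = encode (t.1, t.2.1)

end Pool.Agent.Lib.MP_d48993_lc.Txt
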