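import Pool.Agent.Lib.MP_d48993_lc.AE.Rig.Sbas

/-!
# Assembly: all shares of a set together (row SFUL, helper40)
-/

set_option autoImplicit false

namespace Pool.Agent.Lib.MP_d48993_lc.Asm

open MP_8c048d_lc (pre join RecF Cop)
open Gr (Par BB AA Gph Lim4 Eff Ps Tx Mem)
open Ars (Ar Jr)
open Ind2 (Sg J Gen Crt Jn red_of_graph)
open Txt (St3 ey)
open Bound (IsC Good UCF)
open Real (IsSh)
open Rem (SgF)

namespace Sful

/-- The jump of `F` is not below `F`. -/
theorem not_red_J (F : ℕ → ℕ) : ¬ Red (J F) F := by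
  intro h
  have h1 : Sg F (fun x : ℕ => Ind2.Ex x x F) :=
    Ind2.Sg.ofS1 (Ind2.s1_Ex.comp (f := fun x : ℕ => (x, x)) (Computable.id.pair Computable.id)) F
  obtain ⟨Q, hQ, e⟩ := h1.jump.2.red h
  obtain ⟨c, hc⟩ := hQ.index
  have h2 : ¬ Ind2.Ex c c F ↔ Ind2.Ex c (Encodable.encode c) F := (e c).trans (hc c F)
  have h3 : Encodable.encode c = c := rfl
  rw [h3] at h2
  tauto

theorem red_sum {Z : ℕ → ℕ} (x : ℕ → ℕ → ℕ) (L : List ℕ) (h : ∀ i ∈ L, Red (x i) Z) :
    SgF Z (fun n : ℕ => (L.map (fun i => x i n)).sum) := by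
  induction L with
  | nil => exact SgF.ofC (Computable.const 0)
  | cons i L ih =>
    have h1 : SgF Z (fun n : ℕ => x i n) := SgF.real (h i (by simp))
    have h2 := ih fun j hj => h j (by simp [hj])
    have h3 : SgF Z (fun n : ℕ => x i n + (L.map (fun i => x i n)).sum) :=
      (h1.pair h2).comp (g := fun p : ℕ × ℕ => p.1 + p.2) Primrec.nat_add.to_comp
    exact h3.congr fun n => by simp

end Sful

theorem sful_proof (hS : SbasStatement) : SfulStatement := by
  classical
  obtain ⟨rr, hS⟩ := hS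
  refine ⟨fun P G => max (rr P G) 2, ?_⟩
  intro B Ω _ _ D hD hr
  have hr1 : rr D.P D.G ≤ D.r := (le_max_left _ _).trans hr
  have hr2 : 2 ≤ D.r := (le_max_right _ _).trans hr
  have hbas := hS B Ω D hD hr1
  have hok := hD.par.ok
  obtain ⟨gp, hgp, hkn⟩ := hD.know
  refine ⟨?_, ?_⟩
  · intro R Z hR hZ
    have hla : IsSh (R, D.la R) := ⟨hR, hD.lar R hR⟩
    obtain ⟨hl1, hl2⟩ := D.nm.snt _ hla
    -- the last share
    obtain ⟨l, hl⟩ : ∃ l, l = D.P.p + D.nm.sn (R, D.la R) := ⟨_, rfl⟩
    have hlp : D.P.p ≤ l := by omega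
    have hlN : l < D.P.p + D.P.q := by omega
    have hlsub : l - D.P.p = D.nm.sn (R, D.la R) := by omega
    have hlac : laC D.la D.nm l = true := by
      unfold laC
      rw [hlsub, hl1]
      simp
    have hlst : D.lst l = true := by
      unfold Sys.lst
      rw [hlac]
      simp [hlp]
    -- the group
    have hgrp : ∀ i ∈ D.mts l, D.P.p ≤ i ∧ i < D.P.p + D.P.q ∧ (D.nm.sh (i - D.P.p)).1 = R ∧
        i ≠ l := by
      intro i hi
      unfold Sys.mts at hi
      rw [List.mem_filter] at hi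
      obtain ⟨hi1, hi2⟩ := hi
      obtain ⟨h1, h2, h3⟩ := (hkn.shl l hlp hlN hlac i).1 hi1
      have h4 := (hgp i l h1 h2 hlp hlN).1 h3
      rw [hlsub, hl1] at h4
      exact ⟨h1, h2, h4, by simpa using hi2⟩
    have hred : ∀ i, D.P.p ≤ i → i < D.P.p + D.P.q → (D.nm.sh (i - D.P.p)).1 = R →
        Red (D.cn i) Z := by
      intro i h1 h2 h3
      have h4 := D.nm.shs (i - D.P.p) (by omega)
      have h5 := D.nm.shn (i - D.P.p) (by omega)
      have h6 : D.nm.sh (i - D.P.p) = (R, (D.nm.sh (i - D.P.p)).2) := Prod.ext h3 rfl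
      have h7 : Red (D.V i) Z := by
        have h8 := hZ (D.nm.sh (i - D.P.p)).2 (by
          have := h4.2
          rw [h3] at this
          exact this)
        unfold Sys.Ysh at h8
        rw [← h6, h5, show D.P.p + (i - D.P.p) = i by omega] at h8
        exact h8
      exact ((hbas i h2).2.2.2.2.2.2.2.2.2.1 h1).trans h7
    have hcn : ∀ i ∈ D.mts l, ∀ n, D.cn i n = ey (D.x i n) := by
      intro i hi n
      obtain ⟨h1, h2, h3, h4⟩ := hgrp i hi
      have h5 : D.lst i ≠ true := by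
        intro h6
        unfold Sys.lst at h6
        rw [Bool.and_eq_true] at h6
        have h7 := h6.2
        unfold laC at h7
        rw [decide_eq_true_eq, h3] at h7
        have h8 : D.nm.sh (i - D.P.p) = (R, D.la R) := Prod.ext h3 h7
        have h9 := D.nm.shn (i - D.P.p) (by omega)
        rw [h8] at h9
        omega
      unfold Sys.cn
      rw [if_neg h5]
    have ha2 : ∀ n, D.a n < 2 := by
      intro n
      refine hok.tbb _ (hD.aB (n + 1)) _ ?_
      exact List.mem_map.2 ⟨n, List.mem_range.2 (Nat.lt_succ_self n), rfl⟩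
    have hsum : ∀ n, (D.cn l n + ((D.mts l).map (fun i => D.cn i n)).sum) % 2 = D.a n := by
      intro n
      have h1 : (D.mts l).map (fun i => D.cn i n) = (D.mts l).map (fun i => ey (D.x i n)) :=
        List.map_congr_left fun i hi => hcn i hi n
      rw [h1]
      have h2 : D.cn l n = (D.a n + ((D.mts l).map (fun i => ey (D.x i n))).sum) % 2 := by
        show (if D.lst l = true then _ else _) = _
        rw [if_pos hlst]
      rw [h2]
      have := ha2 n
      omega
    have hred2 : Red D.a Z := by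
      refine red_of_graph ?_
      have h1 : SgF Z (fun n : ℕ => D.cn l n) :=
        SgF.real (hred l hlp hlN (by rw [hlsub, hl1]))
      have h2 : SgF Z (fun n : ℕ => ((D.mts l).map (fun i => D.cn i n)).sum) :=
        Sful.red_sum D.cn (D.mts l) fun i hi =>
          hred i (hgrp i hi).1 (hgrp i hi).2.1 (hgrp i hi).2.2.1
      have h3 : SgF Z (fun n : ℕ => (D.cn l n + ((D.mts l).map (fun i => D.cn i n)).sum) % 2) :=
        (h1.pair h2).comp (g := fun p : ℕ × ℕ => (p.1 + p.2) % 2)
          (Primrec.nat_mod.comp Primrec.nat_add (Primrec.const 2)).to_comp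
      exact h3.congr fun n => hsum n
    refine ⟨D.a, ?_, hred2⟩
    rw [← hD.par.bb]
    exact hD.aB
  · intro s h
    have hs : D.nm.pn s < D.N := (D.nm.pnl s).trans_le (Nat.le_add_right _ _)
    have hb := hbas _ hs
    have h1 : Red (Ind2.Z D.r) (D.e (D.nm.pn s)) := hb.2.2.2.2.2.1
    have h2 : Red (D.e (D.nm.pn s)) (J (D.V (D.nm.pn s))) := hb.2.2.2.2.2.2.2.2.1
    have h3 : Red (J (D.V (D.nm.pn s))) (Ind2.Z 1) := Ind2.J_mono h
    have h4 : Red (Ind2.Z 2) (Ind2.Z 1) :=
      (((Sbas.Z_mono hr2).trans h1).trans h2).trans h3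
    exact Sful.not_red_J (Ind2.Z 1) h4

end Pool.Agent.Lib.MP_d48993_lc.Asm
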