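import Pool.Agent.Lib.MP_d48993_lc.AE.Rig.Sys
import Pool.Agent.Lib.MP_d48993_lc.AE.Rem.Fin

/-!
# Assembly, module SRSH: removal of a share, with payments and (for the class of `B`) without
-/

set_option autoImplicit false

namespace Pool.Agent.Lib.MP_d48993_lc.Asm

open MP_8c048d_lc (pre join RecF Cop)
open Gr (Par BB AA Gph Lim4 Eff Ps Tx Mem)
open Tup (TruE Tru Dcd kn XH)
open Ars (Jr)
open Bound (IsC Good UCF)
open Real (Kn EE FF IsSh Le Cl Full PM Pat Xc)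
open Txt (PGp MSg shM IsRun PathsT)

namespace Srsh

variable {Ω : Type} [PartialOrder Ω] {B : Set (ℕ → ℕ)} {D : Sys Ω}

/-- The sets of part R are decided by generic tuples. -/
theorem gnr_dec (hG : GnrStatement) (P : Par) (G : Gph) (V : ℕ → ℕ → ℕ) :
    Gnr P G (fun O => Rem.DecR P G V O) :=
  hG.2.1 P G _ _ (hG.2.2.1 P G Rem.IxR
    (fun x O => Dcd P.p (Ps P G) (Rem.KR P x) O (Rem.SR P G V x))
    (fun x => hG.2.2.2.1 P G (Rem.KR P x) (Rem.SR P G V x))) fun _ h => Rem.DecR.of h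

/-- The column of the share `(R, m)`. -/
theorem col_lt {R : Set Ω} {m : Ω} (h : IsSh (R, m)) :
    D.P.p + D.nm.sn (R, m) < D.P.p + D.P.q := Nat.add_lt_add_left (D.nm.snt _ h).2 _

/-- The present columns of `insert (R, m) H` without the column of `(R, m)`. -/
theorem prs_ins {R : Set Ω} {m : Ω} {H : Set (Set Ω × Ω)} {c : ℕ}
    (h : Gr.Prs D.P (D.Hn (insert (R, m) H)) c = true) (hc : c ≠ D.P.p + D.nm.sn (R, m)) :
    Gr.Prs D.P (D.Hn H) c = true := by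
  unfold Gr.Prs at h ⊢
  simp only [Bool.or_eq_true, decide_eq_true_eq, Bool.and_eq_true] at h ⊢
  rcases h with h | ⟨h, h1⟩
  · exact Or.inl h
  · by_cases h0 : c < D.P.p
    · exact Or.inl h0
    · refine Or.inr ⟨h, ?_⟩
      unfold Sys.Hn at h1 ⊢
      rw [testBit_bitN] at h1 ⊢
      refine ⟨h1.1, ?_⟩
      rcases h1.2 with h2 | h2
      · exfalso
        apply hc
        have h3 := D.nm.shn (c - D.P.p) h1.1
        rw [h2] at h3
        omega
      · exact h2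

theorem tx_ins {R : Set Ω} {m : Ω} {J : Set Ω} {H : Set (Set Ω × Ω)} {c : ℕ}
    (h : Tx D.P (D.Jb J) (D.Hn (insert (R, m) H)) c = true)
    (hc : c ≠ D.P.p + D.nm.sn (R, m)) : D.TX J H c := by
  unfold Sys.TX
  unfold Gr.Tx at h ⊢
  rw [Bool.and_eq_true] at h ⊢
  exact ⟨prs_ins h.1 hc, h.2⟩

/-- The number of jumps for the lemma NE. -/
theorem tne_num (hN : Txt.StTNEs) : ∃ rr : Par → Gph → ℕ, ∀ P : Par, P.Ok → ∀ G : Gph,
    Lim4 P G → Eff P G → ∀ (a H : ℕ), a < 2 ^ P.p →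
    H < 2 ^ P.q → ∀ col, P.p ≤ col → col < P.p + P.q → H.testBit (col - P.p) = true →
    ∀ (hd : ℕ) (ρ : List ℕ → ℕ) (fo : ℕ → ℕ) (e cn : ℕ → ℕ), Computable ρ → Computable fo →
    (∀ s t, s <+: t → ρ s ≤ ρ t) → (∀ p, cn p < 2) →
    ∀ (A : ℕ → ℕ) (R C Q S Z : ℕ → Txt.St3) (V : ℕ → ℕ → ℕ),
    IsRun (shM P G hd col) ρ fo e cn A R C Q S Z (V col) →
    ∀ Ys : List (ℕ → ℕ), PGp (shM P G hd col) fo e cn A R Ys →
    (∀ Y ∈ Ys, MSg Y (shM P G hd col)) → ∀ F : ℕ → ℕ,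
    (∀ c < P.p + P.q, Gr.Tx P (fun s => a.testBit s) H c = true → c ≠ col → Red (V c) F) →
    (∀ Y ∈ Ys, Red (Jr (rr P G) F) Y) → Rem.NES P G (Rem.bt a) H V col hd := by
  classical
  refine ⟨fun P G => if h : P.Ok ∧ Lim4 P G ∧ Eff P G then (hN P h.1 G h.2.1 h.2.2).choose else 0,
    fun P hP G hL hE => ?_⟩
  have h0 : P.Ok ∧ Lim4 P G ∧ Eff P G := ⟨hP, hL, hE⟩
  beta_reduce
  rw [dif_pos h0]
  have h1 := (hN P h0.1 G h0.2.1 h0.2.2).choose_spec
  intro a H ha hH col hc1 hc2 hc3 hd ρ fo e cn hρ hfo hm hcn A R C Q S Z V hr Ys hY hYs F hF hJ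
    i e' m0 hm0
  obtain ⟨u0, hu⟩ := h1 a H ha hH col hc1 hc2 hc3 hd ρ fo e cn hρ hfo hm hcn A R C Q S Z V hr Ys
    hY hYs F hF hJ i e' m0 hm0
  obtain ⟨h2, h3, h4⟩ := hu u0 le_rfl
  exact ⟨(Z u0).txt, h3, h2, h4⟩

end Srsh

open Srsh in
/-- Module SRSH. -/
theorem srsh_proof (hG : GnrStatement) (hK : PatkStatement) (hB : SbasStatement)
    (hR : SredStatement) (hS : SgenStatement) (hN : Txt.StTNEs) : SrshStatement := by
  classical
  obtain ⟨r1, hB⟩ := hB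
  obtain ⟨r2, hR⟩ := hR
  obtain ⟨r3, hS⟩ := hS
  obtain ⟨r4, hN⟩ := tne_num hN
  refine ⟨fun P G => max (r1 P G) (max (r2 P G) (max (r3 P G) (r4 P G))),
    fun B Ω _ _ D hD hr => ?_⟩
  have hr1 : r1 D.P D.G ≤ D.r := (le_max_left _ _).trans hr
  have hr2 : r2 D.P D.G ≤ D.r := ((le_max_left _ _).trans (le_max_right _ _)).trans hr
  have hr3 : r3 D.P D.G ≤ D.r :=
    ((le_max_left _ _).trans ((le_max_right _ _).trans (le_max_right _ _))).trans hr
  have hr4 : r4 D.P D.G ≤ D.r :=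
    ((le_max_right _ _).trans ((le_max_right _ _).trans (le_max_right _ _))).trans hr
  obtain ⟨gp, hgp, hkn⟩ := hD.know
  -- the lemma NE for a share
  have nes : ∀ R m J H, IsSh (R, m) → (R, m) ∉ H → Cl D.U J → (∀ j ∈ H, IsSh j) →
      (∀ R', ¬ Full (insert (R, m) H) R') → (m ≠ D.la R → (R, D.la R) ∉ H) →
      (∀ s ∈ J, ∀ r ∈ lowerBounds R, s ∈ D.U r) →
      Rem.NES D.P D.G (Rem.bt (bitN (fun s => D.nm.pt s ∈ J) D.P.p)) (D.Hn (insert (R, m) H)) D.V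
        (D.P.p + D.nm.sn (R, m)) (D.hd (D.P.p + D.nm.sn (R, m))) := by
    intro R m J H hsh hmH hcl hH hfull hla hJ
    set o := D.P.p + D.nm.sn (R, m) with ho
    have hoN : o < D.N := col_lt hsh
    have hop : ¬ o < D.P.p := by omega
    have hosub : o - D.P.p = D.nm.sn (R, m) := by omega
    have hsn : D.nm.sh (o - D.P.p) = (R, m) := by rw [hosub]; exact (D.nm.snt _ hsh).1
    obtain ⟨hk1, hk2, hk3, hk4, hk5⟩ := hK B Ω D hD J H hcl hH
    obtain ⟨-, hb1, -, hb2, hb3, -⟩ := hB B Ω D hD hr1 o hoN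
    -- the machine
    have hM : D.M o = shM D.P D.G (D.hd o) o := by unfold Sys.M; rw [if_neg hop]
    have hrun := hD.run o hoN
    rw [hM] at hrun hb3
    -- the known columns
    let L : List ℕ := (List.range D.N).filter (fun c => decide (D.TX J H c))
    have hL : ∀ c, c ∈ L ↔ c < D.N ∧ D.TX J H c := fun c => by simp [L]
    obtain ⟨F, hF1, hF2, -⟩ := hR B Ω D hD hr2 L fun c hc => ((hL c).1 hc).1
    have hoK : ∀ c ∈ L, o ∉ D.KK c := fun c hc =>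
      hk3 R m hsh hmH hla hJ c ((hL c).1 hc).2
    -- the oracles
    have hZY : ∀ k < D.N, Red (Ind2.Z D.r) (D.Y k) := fun k hk =>
      (Ind2.red_Z (by have := hD.kr k hk; omega)).trans (hD.ind.ZY k hk)
    have hYs : ∃ Ys : List (ℕ → ℕ),
        PGp (D.M o) (D.fo o) (D.e o) (D.cn o) (D.A o) (D.R o) Ys ∧
        ∀ Y ∈ Ys, Red (Ind2.Z D.r) Y ∧ Red (Jr D.r F) Y := by
      obtain ⟨hs1, hs2⟩ := hS B Ω D hD hr3 o hoN
      cases hl : D.lst o with
      | false =>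
        refine ⟨[D.Y o], hs1 hl, fun Y hY => ?_⟩
        rw [List.mem_singleton] at hY
        subst hY
        exact ⟨hZY o hoN, hF2 o hoN hoK⟩
      | true =>
        have hm : m = D.la R := by
          unfold Sys.lst laC at hl
          rw [Bool.and_eq_true, decide_eq_true_eq, decide_eq_true_eq, hsn] at hl
          exact hl.2
        obtain ⟨m0, hm0, hm1⟩ := hk4 R hsh.1 (by rw [← hm]; exact hmH)
          (by rw [← hm]; exact hfull R) hJ
        rw [← hm, ← ho] at hm0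
        have hm0N : m0 < D.N := by
          have h5 : m0 ∈ D.KK o := (List.mem_filter.1 hm0).1
          exact hkn.lt o hoN m0 h5
        refine ⟨[D.Y o, D.Y m0], hs2 hl m0 hm0, fun Y hY => ?_⟩
        rw [List.mem_cons, List.mem_singleton] at hY
        rcases hY with rfl | rfl
        · exact ⟨hZY o hoN, hF2 o hoN hoK⟩
        · exact ⟨hZY m0 hm0N, hF2 m0 hm0N fun c hc => hm1 c ((hL c).1 hc).2⟩
    obtain ⟨Ys, hY1, hY2⟩ := hYs
    rw [hM] at hY1
    refine hN D.P hD.par.ok D.G hD.lim hD.eff (bitN (fun s => D.nm.pt s ∈ J) D.P.p)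
      (D.Hn (insert (R, m) H)) (bitN_lt _ _) (bitN_lt _ _) o (by omega) hoN ?_ (D.hd o) (D.ga o)
      (D.fo o) (D.e o) (D.cn o) (hD.ga o hoN).1 hb1 (hD.ga o hoN).2.1 hb2 (D.A o) (D.R o) (D.C o)
      (D.Q o) (D.S o) (D.Z o) D.V hrun Ys hY1 (fun Y hY => hb3 Y (hY2 Y hY).1) F
      (fun c hc hT hco => ?_) fun Y hY => (Ars.red_Jr hr4 F).trans (hY2 Y hY).2
    · unfold Sys.Hn
      rw [testBit_bitN, hsn, hosub]
      exact ⟨(D.nm.snt _ hsh).2, Set.mem_insert _ _⟩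
    · exact (hF1 c ((hL c).2 ⟨hc, tx_ins hT hco⟩)).1
  refine hG.2.1 D.P D.G _ _ (hG.1 D.P D.G _ _ (hG.2.2.2.2.1 D.P D.G)
    (gnr_dec hG D.P D.G D.V)) fun O hO => ⟨?_, ?_⟩
  · intro R m J H hsh hmH hcl hH hfull hla hJ hM y hy hX
    obtain ⟨e, rfl⟩ := hD.par.lab y hy
    rw [hD.hds R m hsh] at hM
    obtain ⟨g, hg1, hg2⟩ := hM
    have hred := Rem.rms_red (P := D.P) (V := D.V) (O := O) (J := D.Jb J)
      (H := D.Hn (insert (R, m) H)) (H' := D.Hn H) (o := D.P.p + D.nm.sn (R, m))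
      fun c hc h1 => prs_ins hc h1
    exact Rem.remS hD.par.ok hO.1 hO.2 (nes R m J H hsh hmH hcl hH hfull hla hJ) hg1 hg2
      hred.1 hred.2 (e := Nat.pair e 0 + 1 + 1) hX
  · intro R m J H hsh hmH hcl hH hfull hla hJ hX
    have hred := Rem.rms_red (P := D.P) (V := D.V) (O := O) (J := D.Jb J)
      (H := D.Hn (insert (R, m) H)) (H' := D.Hn H) (o := D.P.p + D.nm.sn (R, m))
      fun c hc h1 => prs_ins hc h1
    have hBB : Up (Rem.Pth D.P 0) = Up B := by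
      rw [← hD.par.bb]
      rfl
    rw [← hBB] at hX ⊢
    exact Rem.remK hD.par.ok hO.1 hO.2 (nes R m J H hsh hmH hcl hH hfull hla hJ)
      hred.1 hred.2 (e := 0) (fun y hy => hD.par.hdb _ y hy) hX

end Pool.Agent.Lib.MP_d48993_lc.Asm
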