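import Pool.Agent.Lib.MP_d48993_lc.AE.Rig.Sys

/-!
# Assembly: statements used for the existence of systems
-/

set_option autoImplicit false

namespace Pool.Agent.Lib.MP_d48993_lc.Asm

open MP_8c048d_lc (pre join RecF Cop)
open Gr (Par BB AA Gph Lim4 Eff Ps Tx Mem)
open Ars (Ar Jr)
open Ind2 (Sg J Gen Crt Jn)
open Tup (TruE Tru XH kn)
open Real (Kn EE FF IsSh Le Cl Full PM Pat Xc)

/-- Module MEMB: the class `B` has a member below a jump of `0` (for instance the leftmost path of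
the binary tree `P.TB`; use the calculus `Ars`). -/
def MembStatement : Prop :=
  ∀ P : Par, P.Ok → ∃ (r : ℕ) (a : ℕ → ℕ), (∀ k, P.TB (pre a k)) ∧ Red a (Ind2.Z r)

/-- Module TCG: the truth depends only on the known columns. -/
def TcgStatement : Prop :=
  ∀ (P : Par) (RG : ℕ → List ℕ → Prop) (J : ℕ → Bool) (H : ℕ) (V V' : ℕ → ℕ → ℕ),
    (∀ c, Tx P J H c = true → V c = V' c) → ∀ e, TruE P RG J H V e ↔ TruE P RG J H V' e

/-- Module LLS (from LS): the list of a point is `Σ⁰₁` in a jump of the known reals. -/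
def LlsStatement : Prop :=
  ∀ (P : Par), P.Ok → ∀ G : Gph, Lim4 P G → Eff P G → ∃ r, ∀ (Ω : Type) [PartialOrder Ω]
    (U : Ω → Set Ω) (nm : Nmb Ω P.p P.q) (s : ℕ) (V : ℕ → ℕ → ℕ) (F : ℕ → ℕ),
    (∀ b J H, nm.pt s ∉ U b → Pat U b J H →
      ∀ c, Tx P (fun s => (bitN (fun s => nm.pt s ∈ J) P.p).testBit s)
        (bitN (fun j => nm.sh j ∈ H) P.q) c = true → Red (V c) F) →
    Sg (Jr r F) (fun e : ℕ => ∃ b J H, nm.pt s ∉ U b ∧ Pat U b J H ∧
      ¬ TruE P (Ps P G) (fun s => (bitN (fun s => nm.pt s ∈ J) P.p).testBit s)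
        (bitN (fun j => nm.sh j ∈ H) P.q) V (Nat.pair e 0 + 1))

/-- Module KLV: levels and ranks of the objects (`gr` is the rank of a share, `≤ M`). -/
def KlvStatement : Prop :=
  ∀ (p q r M : ℕ) (KK : ℕ → List ℕ) (gp gr : ℕ → ℕ) (la : ℕ → Bool), Know p q KK gp la →
    (∀ i, p ≤ i → i < p + q → gr i ≤ M) →
    ∃ (K : ℕ) (kk rk : ℕ → ℕ), (∀ o < p + q, r ≤ kk o ∧ kk o + r ≤ K) ∧
      (∀ o < p, ∀ i ∈ KK o, i ≠ o → kk i + r ≤ kk o) ∧
      (∀ o, p ≤ o → rk o = gr o) ∧ ∀ o < p, ∀ i ∈ KK o, i ≠ o → rk i < rk o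

end Pool.Agent.Lib.MP_d48993_lc.Asm
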